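import Mathlib

/-!
Arithmetic estimates on prime factorizations.
-/

set_option autoImplicit false

noncomputable section

namespace Pool.Agent.P.MP_9f774b_al

open Filter

theorem pow_card_le_of_primes {k b : ℕ} (hk : k ≠ 0) (s : Finset ℕ) (hs : s ⊆ k.primeFactors)
    (hb : ∀ p ∈ s, b ≤ p) : b ^ s.card ≤ k :=
  calc b ^ s.card ≤ ∏ p ∈ s, p := Finset.pow_card_le_prod _ _ _ hb
    _ ≤ k := Nat.le_of_dvd (Nat.pos_of_ne_zero hk)
      ((Finset.prod_dvd_prod_of_subset _ _ _ hs).trans (Nat.prod_primeFactors_dvd k))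

theorem omega_le {k σ : ℕ} (hk : k ≠ 0) (h : k ≤ 2 ^ σ) (j : ℕ) (hj : 0 < j) :
    (k.primeFactors.card : ℝ) ≤ 2 ^ j + σ / j := by
  classical
  have h1 := Finset.card_filter_add_card_filter_not (s := k.primeFactors) fun p => p < 2 ^ j
  have h2 : (k.primeFactors.filter fun p => p < 2 ^ j).card ≤ 2 ^ j := by
    simpa using Finset.card_le_card (t := Finset.range (2 ^ j))
      fun p hp => Finset.mem_range.2 (Finset.mem_filter.1 hp).2
  have h3 := (pow_card_le_of_primes (b := 2 ^ j) hk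
    (k.primeFactors.filter fun p => ¬ p < 2 ^ j) (Finset.filter_subset _ _)
    fun p hp => not_lt.1 (Finset.mem_filter.1 hp).2).trans h
  rw [← pow_mul, Nat.pow_le_pow_iff_right one_lt_two] at h3
  have h4 : ((k.primeFactors.filter fun p => ¬ p < 2 ^ j).card : ℝ) ≤ σ / j := by
    rw [le_div_iff₀ (by exact_mod_cast hj), mul_comm]
    exact_mod_cast h3
  have h5 : ((k.primeFactors.filter fun p => p < 2 ^ j).card : ℝ) ≤ 2 ^ j := by exact_mod_cast h2
  rw [← h1]
  push_cast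
  linarith

theorem three_le_of_mem {k p : ℕ} (hk : ¬ 2 ∣ k) (hp : p ∈ k.primeFactors) : 3 ≤ p := by
  have h1 := (Nat.prime_of_mem_primeFactors hp).two_le
  have h2 : p ≠ 2 := fun e => hk (e ▸ Nat.dvd_of_mem_primeFactors hp)
  omega

theorem omega_odd_le {k σ : ℕ} (hk : ¬ 2 ∣ k) (h : k ≤ 2 ^ σ) :
    11 * k.primeFactors.card ≤ 7 * σ := by
  have hk0 : k ≠ 0 := fun e => hk (e ▸ dvd_zero 2)
  have h1 := (pow_card_le_of_primes hk0 _ le_rfl fun p hp => three_le_of_mem hk hp).trans h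
  have h2 : 2 ^ (11 * k.primeFactors.card) ≤ 2 ^ (7 * σ) :=
    calc 2 ^ (11 * k.primeFactors.card) = (2 ^ 11) ^ k.primeFactors.card := pow_mul _ _ _
      _ ≤ (3 ^ 7) ^ k.primeFactors.card := Nat.pow_le_pow_left (by norm_num) _
      _ = (3 ^ k.primeFactors.card) ^ 7 := by rw [← pow_mul, ← pow_mul, mul_comm]
      _ ≤ (2 ^ σ) ^ 7 := Nat.pow_le_pow_left h1 _
      _ = 2 ^ (7 * σ) := by rw [← pow_mul, mul_comm]
  exact (Nat.pow_le_pow_iff_right one_lt_two).1 h2

theorem logb_ge_of_three_le {p : ℕ} (hp : 3 ≤ p) : 11 / 7 ≤ Real.logb 2 p := by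
  have h0 : (3 : ℝ) ≤ p := by exact_mod_cast hp
  have h1 : Real.logb 2 ((2 : ℝ) ^ 11) ≤ Real.logb 2 ((p : ℝ) ^ 7) :=
    Real.logb_le_logb_of_le one_lt_two (by positivity)
      (le_trans (by norm_num) (pow_le_pow_left₀ (by norm_num) h0 7))
  rw [Real.logb_pow, Real.logb_pow, Real.logb_self_eq_one one_lt_two] at h1
  push_cast at h1
  linarith

theorem sum_logb_eq {k : ℕ} (hk : k ≠ 0) :
    ∑ p ∈ k.primeFactors, (k.factorization p : ℝ) * Real.logb 2 p = Real.logb 2 k := by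
  conv_rhs => rw [← Nat.prod_factorization_pow_eq_self hk]
  rw [Finsupp.prod, Nat.support_factorization, Nat.cast_prod, Real.logb_prod]
  · refine Finset.sum_congr rfl fun p _ => ?_
    rw [Nat.cast_pow, Real.logb_pow]
  · intro p hp
    have := (Nat.prime_of_mem_primeFactors hp).pos
    positivity

theorem sum_odd_le {k σ : ℕ} (hk : ¬ 2 ∣ k) (h : k ≤ 2 ^ σ) :
    ∑ p ∈ k.primeFactors, ((k.factorization p : ℝ) ^ 3 / 6 + 2 * (k.factorization p + 1) ^ 2) *
      Real.logb 2 p ≤ 49 / 726 * (σ : ℝ) ^ 3 + 8 * σ ^ 2 := by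
  have hk0 : k ≠ 0 := fun e => hk (e ▸ dvd_zero 2)
  have h1 : Real.logb 2 k ≤ σ := by
    rw [Real.logb_le_iff_le_rpow one_lt_two (by positivity), Real.rpow_natCast]
    exact_mod_cast h
  rw [← sum_logb_eq hk0] at h1
  have h2 : ∀ p ∈ k.primeFactors, 0 ≤ (k.factorization p : ℝ) * Real.logb 2 p := fun p hp => by
    have := logb_ge_of_three_le (three_le_of_mem hk hp)
    positivity
  calc _ ≤ ∑ p ∈ k.primeFactors, ((k.factorization p : ℝ) * Real.logb 2 p) *
        (49 / 726 * (σ : ℝ) ^ 2 + 8 * σ) := Finset.sum_le_sum fun p hp => ?_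
    _ ≤ σ * (49 / 726 * (σ : ℝ) ^ 2 + 8 * σ) := by
      rw [← Finset.sum_mul]
      exact mul_le_mul_of_nonneg_right h1 (by positivity)
    _ = _ := by ring
  have h3 := (Finset.single_le_sum h2 hp).trans h1
  have h4 := logb_ge_of_three_le (three_le_of_mem hk hp)
  have h5 : (1 : ℝ) ≤ k.factorization p := by
    exact_mod_cast (Nat.prime_of_mem_primeFactors hp).factorization_pos_of_dvd hk0
      (Nat.dvd_of_mem_primeFactors hp)
  generalize (k.factorization p : ℝ) = b at *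
  generalize Real.logb 2 p = l at *
  have h6 : 11 / 7 * b ≤ σ := by nlinarith
  have h7 : b ^ 2 / 6 ≤ 49 / 726 * σ ^ 2 := by nlinarith
  have h8 : b ^ 3 / 6 + 2 * (b + 1) ^ 2 ≤ b * (49 / 726 * σ ^ 2 + 8 * σ) := by nlinarith
  calc _ ≤ b * (49 / 726 * σ ^ 2 + 8 * σ) * l := mul_le_mul_of_nonneg_right h8 (by linarith)
    _ = _ := by ring

theorem eventually_log_le (ε : ℝ) (hε : 0 < ε) :
    ∀ᶠ m : ℕ in atTop, 1 + Real.log (m + 1) ≤ ε * m := by
  have h1 := Real.isLittleO_log_id_atTop.bound (c := ε / 4) (by positivity)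
  have h2 : Tendsto (fun m : ℕ => (m : ℝ) + 1) atTop atTop :=
    tendsto_atTop_add_const_right _ _ tendsto_natCast_atTop_atTop
  filter_upwards [h2.eventually h1, tendsto_natCast_atTop_atTop.eventually_ge_atTop (2 / ε : ℝ),
    eventually_ge_atTop 1] with m h3 h4 h5
  have h6 : (1 : ℝ) ≤ m := by exact_mod_cast h5
  rw [id, Real.norm_of_nonneg (by positivity : (0 : ℝ) ≤ m + 1)] at h3
  have h7 := (le_abs_self _).trans h3
  rw [div_le_iff₀ hε] at h4
  nlinarith

theorem eventually_const_le (c ε : ℝ) (hε : 0 < ε) : ∀ᶠ m : ℕ in atTop, c ≤ ε * m := by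
  filter_upwards [tendsto_natCast_atTop_atTop.eventually_ge_atTop (c / ε : ℝ)] with m h
  rwa [div_le_iff₀ hε, mul_comm] at h

end Pool.Agent.P.MP_9f774b_al
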