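import Mathlib

/-! `p`-subgroups of the automorphism group of a finite `q`-group are small. -/

namespace Pool.Agent.P.MP_9f774b_al

open Finset MulAction

/-- A finite nonempty set acted on by a `p`-group has an orbit whose size divides its size. -/
theorem exists_orbit_dvd {p : ℕ} [Fact p.Prime] {G X : Type} [Group G] [MulAction G X]
    [Finite X] [Nonempty X] (hG : IsPGroup p G) :
    ∃ x : X, Nat.card (orbit G x) ∣ Nat.card X := by
  classical
  obtain ⟨x, hx⟩ := Finite.exists_min (fun x : X => Nat.card (orbit G x))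
  refine ⟨x, ?_⟩
  have hd : ∀ y : X, Nat.card (orbit G x) ∣ Nat.card (orbit G y) := by
    intro y
    obtain ⟨a, ha⟩ := hG.card_orbit x
    obtain ⟨b, hb⟩ := hG.card_orbit y
    have h := hx y
    simp only [ha, hb] at h ⊢
    exact pow_dvd_pow _ ((Nat.pow_le_pow_iff_right (Fact.out : p.Prime).one_lt).1 h)
  have : Fintype (orbitRel.Quotient G X) := Fintype.ofFinite _
  rw [Nat.card_congr (selfEquivSigmaOrbits G X), Nat.card_sigma]
  exact Finset.dvd_sum fun ω _ => hd _

theorem card_dvd_prod (p q : ℕ) (hp : p.Prime) (hq : q.Prime) (hpq : p ≠ q)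
    (K : Type) [Group K] [Finite K] (hK : IsPGroup q K) :
    ∀ (d : ℕ) (S : Subgroup (MulAut K)) (_ : IsPGroup p S) (C : Subgroup K),
      C.index = q ^ d → (∀ s ∈ S, ∀ x ∈ C, s x = x) →
      Nat.card S ∣ ∏ i ∈ range d, (q ^ (i + 1) - 1) := by
  classical
  have : Fact p.Prime := ⟨hp⟩
  have : Fact q.Prime := ⟨hq⟩
  intro d
  induction d using Nat.strong_induction_on with
  | _ d ih =>
    intro S hS C hC hfix
    rcases Nat.eq_zero_or_pos d with rfl | hd
    · have hCt : C = ⊤ := by simpa using hC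
      have : S = ⊥ := by
        rw [eq_bot_iff]
        intro s hs
        rw [Subgroup.mem_bot]
        ext x
        exact hfix s hs x (hCt ▸ Subgroup.mem_top x)
      simp [this]
    · have hCt : C ≠ ⊤ := by
        intro h
        rw [h, Subgroup.index_top] at hC
        have := Nat.one_lt_pow hd.ne' hq.one_lt
        omega
      let X : SubMulAction S K :=
        { carrier := {x | x ∉ C}
          smul_mem' := by
            intro s x hx hsx
            apply hx
            have h1 : (s : MulAut K) ((s : MulAut K) x) = (s : MulAut K) x := hfix s s.2 _ hsx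
            have h2 : (s : MulAut K) x = x := (s : MulAut K).injective h1
            have h3 : s • x = (s : MulAut K) x := rfl
            rwa [h3, h2] at hsx }
      have : Nonempty X := by
        by_contra h
        apply hCt
        rw [eq_top_iff]
        intro x _
        by_contra hx
        exact h ⟨⟨x, hx⟩⟩
      obtain ⟨x, hx⟩ := exists_orbit_dvd (X := X) hS
      have hXc : Nat.card X = Nat.card C * (q ^ d - 1) := by
        have h1 : Nat.card C + Nat.card X = Nat.card K := by
          have := Set.ncard_add_ncard_compl (C : Set K)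
          rw [← this]
          rfl
        have h2 := C.card_mul_index
        rw [hC] at h2
        rw [Nat.mul_sub, mul_one]
        omega
      obtain ⟨a, ha⟩ := hS.card_orbit x
      obtain ⟨c, hc⟩ := (IsPGroup.iff_card.1 (hK.to_subgroup C))
      have hdiv : Nat.card (orbit S x) ∣ q ^ d - 1 := by
        rw [hXc, hc, ha] at hx
        rw [ha]
        exact (Nat.Coprime.pow _ _ ((Nat.coprime_primes hp hq).2 hpq)).dvd_of_dvd_mul_left hx
      -- the stabiliser
      let S' : Subgroup (MulAut K) := (stabilizer S x).map S.subtype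
      have hS' : IsPGroup p S' := (hS.to_subgroup _).map _
      have hcS' : Nat.card S' = Nat.card (stabilizer S x) :=
        Subgroup.card_map_of_injective S.subtype_injective
      let C' : Subgroup K := C ⊔ Subgroup.zpowers (x : K)
      obtain ⟨d', hd'⟩ := hK.index C'
      have hlt : d' < d := by
        have hlt : C < C' := by
          refine lt_of_le_of_ne le_sup_left fun h => ?_
          have : (x : K) ∈ C' := Subgroup.mem_sup_right (Subgroup.mem_zpowers _)
          rw [← h] at this
          exact x.2 this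
        have := Subgroup.index_strictAnti hlt
        simp only [hC, hd'] at this
        exact (Nat.pow_lt_pow_iff_right hq.one_lt).1 this
      have hfix' : ∀ s ∈ S', ∀ y ∈ C', s y = y := by
        rintro _ ⟨s, hs, rfl⟩ y hy
        have hle : C' ≤ MonoidHom.eqLocus (s : MulAut K).toMonoidHom (MonoidHom.id K) := by
          refine sup_le (fun z hz => hfix s s.2 z hz) ?_
          rw [Subgroup.zpowers_le]
          have h1 : s • x = x := hs
          exact congrArg Subtype.val h1
        exact hle hy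
      have h1 := ih d' hlt S' hS' C' hd' hfix'
      have h2 : Nat.card S = Nat.card (orbit S x) * Nat.card (stabilizer S x) := by
        rw [← Nat.card_prod, Nat.card_congr (orbitProdStabilizerEquivGroup S x)]
      obtain ⟨e, rfl⟩ : ∃ e, d = e + 1 := ⟨d - 1, by omega⟩
      rw [h2, prod_range_succ, mul_comm]
      refine Nat.mul_dvd_mul ?_ hdiv
      rw [← hcS']
      exact h1.trans (prod_dvd_prod_of_subset _ _ _ (range_subset_range.2 (by omega)))

theorem count_le (p q n e : ℕ) (hp : p.Prime) (hq : q.Prime) :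
    ((#{i ∈ range n | p ^ e ∣ q ^ (i + 1) - 1} : ℕ) : ℝ) * (e * Real.log p) ≤ n * Real.log q := by
  classical
  set o := orderOf (q : ZMod (p ^ e)) with ho
  have hiff : ∀ j : ℕ, p ^ e ∣ q ^ j - 1 ↔ o ∣ j := by
    intro j
    rw [ho, orderOf_dvd_iff_pow_eq_one, ← ZMod.natCast_eq_zero_iff,
      Nat.cast_sub (Nat.one_le_pow _ _ hq.pos), sub_eq_zero]
    push_cast
    rfl
  have hcount : #{i ∈ range n | p ^ e ∣ q ^ (i + 1) - 1} = n / o := by
    simp only [hiff]
    exact Nat.card_multiples n o
  rw [hcount]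
  have hlq : 0 ≤ Real.log q := Real.log_natCast_nonneg q
  rcases Nat.eq_zero_or_pos o with h0 | h0
  · rw [h0]; simp only [Nat.div_zero, Nat.cast_zero, zero_mul]; positivity
  · have h1 : p ^ e ∣ q ^ o - 1 := (hiff o).2 dvd_rfl
    have h2 : 1 < q ^ o := Nat.one_lt_pow h0.ne' hq.one_lt
    have h3 : p ^ e ≤ q ^ o := (Nat.le_of_dvd (by omega) h1).trans (Nat.sub_le _ _)
    have h4 : e * Real.log p ≤ o * Real.log q := by
      rw [← Real.log_pow, ← Real.log_pow]
      apply Real.log_le_log (by have := hp.pos; positivity)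
      exact_mod_cast h3
    have h5 : ((n / o : ℕ) : ℝ) * o ≤ n := by exact_mod_cast Nat.div_mul_le_self n o
    calc ((n / o : ℕ) : ℝ) * (e * Real.log p) ≤ ((n / o : ℕ) : ℝ) * (o * Real.log q) :=
          mul_le_mul_of_nonneg_left h4 (Nat.cast_nonneg _)
      _ = (((n / o : ℕ) : ℝ) * o) * Real.log q := by ring
      _ ≤ n * Real.log q := mul_le_mul_of_nonneg_right h5 hlq

theorem log_le_of_dvd_prod (p q n v m : ℕ) (hp : p.Prime) (hq : q.Prime) (hm : q ^ n ≤ 2 ^ m)
    (h : p ^ v ∣ ∏ i ∈ range n, (q ^ (i + 1) - 1)) :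
    v * Real.log p ≤ n * Real.log q * (1 + Real.log (m + 1)) := by
  classical
  have hpos : ∀ i, 0 < q ^ (i + 1) - 1 := fun i => by
    have := Nat.one_lt_pow (Nat.succ_ne_zero i) hq.one_lt
    simp only [Nat.succ_eq_add_one] at this
    omega
  have h1 : v ≤ ∑ i ∈ range n, (q ^ (i + 1) - 1).factorization p := by
    have := (hp.pow_dvd_iff_le_factorization (prod_ne_zero_iff.2 fun i _ => (hpos i).ne')).1 h
    rwa [Nat.factorization_prod (fun i _ => (hpos i).ne'), Finsupp.finsetSum_apply] at this
  have h2 : ∀ i ∈ range n, (q ^ (i + 1) - 1).factorization p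
      = #{e ∈ Ico 1 (m + 1) | p ^ e ∣ q ^ (i + 1) - 1} := by
    intro i hi
    apply Nat.factorization_eq_card_pow_dvd_of_lt hp (hpos i)
    have a1 : q ^ (i + 1) ≤ q ^ n := Nat.pow_le_pow_right hq.pos (mem_range.1 hi)
    have a2 : 2 ^ m ≤ p ^ m := Nat.pow_le_pow_left hp.two_le m
    have a3 : p ^ m ≤ p ^ (m + 1) := Nat.pow_le_pow_right hp.pos (Nat.le_succ m)
    have := hpos i
    omega
  have h3 : v ≤ ∑ e ∈ Ico 1 (m + 1), #{i ∈ range n | p ^ e ∣ q ^ (i + 1) - 1} := by
    rw [sum_congr rfl h2] at h1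
    simp only [card_filter] at h1 ⊢
    rwa [sum_comm] at h1
  have hlp : 0 ≤ Real.log p := Real.log_natCast_nonneg p
  have hlq : 0 ≤ Real.log q := Real.log_natCast_nonneg q
  have h4 : (v : ℝ) * Real.log p ≤ ∑ e ∈ Ico 1 (m + 1), n * Real.log q * (e : ℝ)⁻¹ := by
    have h3' : (v : ℝ) ≤ ∑ e ∈ Ico 1 (m + 1), ((#{i ∈ range n | p ^ e ∣ q ^ (i + 1) - 1} : ℕ) : ℝ) := by
      exact_mod_cast h3
    refine (mul_le_mul_of_nonneg_right h3' hlp).trans ?_
    rw [sum_mul]
    refine sum_le_sum fun e he => ?_
    have he0 : (0 : ℝ) < e := by exact_mod_cast (mem_Ico.1 he).1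
    have := count_le p q n e hp hq
    rw [← div_eq_mul_inv, le_div_iff₀ he0]
    linarith
  have h5 : ∑ e ∈ Ico 1 (m + 1), (e : ℝ)⁻¹ ≤ 1 + Real.log (m + 1) := by
    have a1 := harmonic_le_one_add_log m
    rw [harmonic_eq_sum_Icc] at a1
    push_cast at a1
    rw [Finset.Ico_add_one_right_eq_Icc]
    refine a1.trans ?_
    rcases Nat.eq_zero_or_pos m with rfl | h0
    · simp
    · have : Real.log m ≤ Real.log (m + 1) :=
        Real.log_le_log (by exact_mod_cast h0) (by linarith)
      linarith
  rw [← mul_sum] at h4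
  exact h4.trans (mul_le_mul_of_nonneg_left h5 (by positivity))

theorem card_pSubgroup_mulAut_le (p q : ℕ) (hp : p.Prime) (hq : q.Prime) (hpq : p ≠ q)
    (K : Type) [Group K] [Finite K] (hK : IsPGroup q K) (S : Subgroup (MulAut K))
    (hS : IsPGroup p S) (m : ℕ) (hm : Nat.card K ≤ 2 ^ m) :
    Real.logb 2 (Nat.card S) ≤ Real.logb 2 (Nat.card K) * (1 + Real.log (m + 1)) := by
  have : Fact p.Prime := ⟨hp⟩
  have : Fact q.Prime := ⟨hq⟩
  obtain ⟨n, hn⟩ := IsPGroup.iff_card.1 hK
  obtain ⟨v, hv⟩ := IsPGroup.iff_card.1 hS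
  have h1 := card_dvd_prod p q hp hq hpq K hK n S hS ⊥ (by rw [Subgroup.index_bot, hn])
    (fun s _ x hx => by rw [Subgroup.mem_bot.1 hx, map_one])
  rw [hv] at h1
  rw [hn] at hm
  have h2 := log_le_of_dvd_prod p q n v m hp hq hm h1
  rw [hv, hn, Real.logb, Real.logb]
  push_cast
  rw [Real.log_pow, Real.log_pow, div_mul_eq_mul_div]
  exact div_le_div_of_nonneg_right h2 (Real.log_pos one_lt_two).le

end Pool.Agent.P.MP_9f774b_al
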