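import Pool.Agent.P.MP_9f774b_al.FewGen

/-!
Counting `2`-groups with an automorphism far from the identity on the Frattini quotient.
-/

set_option autoImplicit false

noncomputable section

namespace Pool.Agent.P.MP_9f774b_al

open Subgroup hiding closure subset_closure closure_union

theorem exists_pair {P : Type} [Group P] [Finite P] (α : MulAut P) {U : Subgroup P}
    (hU : Fr P ≤ U) (hc : 8 * Nat.card U ≤ Nat.card P) (h : ∃ v, v⁻¹ * α v ∉ U) :
    ∃ v, Nat.card ((U ⊔ cl {v}) ⊔ cl {α v} : Subgroup P) = 4 * Nat.card U := by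
  have := normal_of_Fr_le hU
  let T : Subgroup P :=
    { carrier := {v | v⁻¹ * α v ∈ U}
      one_mem' := by simp
      mul_mem' := fun {x y} hx hy => by
        have e : (x * y)⁻¹ * α (x * y) = y⁻¹ * (x⁻¹ * α x) * y⁻¹⁻¹ * (y⁻¹ * α y) := by
          rw [map_mul]; group
        change _ ∈ U
        rw [e]
        exact U.mul_mem (Nz.of_normal _ U _ hx) hy
      inv_mem' := fun {x} hx => by
        have e : x⁻¹⁻¹ * α x⁻¹ = x * (x⁻¹ * α x)⁻¹ * x⁻¹ := by rw [map_inv]; group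
        change _ ∈ U
        rw [e]
        exact Nz.of_normal _ U _ (U.inv_mem hx) }
  have hT : T < ⊤ := lt_top_iff_ne_top.2 fun e => h.elim fun v hv => hv (show v ∈ T from e ▸ trivial)
  have h1 := two_mul_card_le hT
  rw [card_top] at h1
  have h2 : Nat.card (U.comap α.toMonoidHom) = Nat.card U :=
    Nat.card_congr (α.toEquiv.subtypeEquiv fun _ => Iff.rfl)
  have h3 : ((U : Set P) ∪ U.comap α.toMonoidHom ∪ T) ≠ Set.univ := fun e => by
    have h4 := Set.ncard_union_le ((U : Set P) ∪ U.comap α.toMonoidHom) T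
    have h5 := Set.ncard_union_le (U : Set P) (U.comap α.toMonoidHom)
    rw [e, Set.ncard_univ] at h4
    simp only [← Nat.card_coe_set_eq, SetLike.coe_sort_coe] at h4 h5
    have : 0 < Nat.card U := Nat.card_pos
    omega
  obtain ⟨v, hv⟩ := (Set.ne_univ_iff_exists_notMem _).1 h3
  simp only [Set.mem_union, not_or] at hv
  obtain ⟨⟨v1, v2⟩, v3⟩ := hv
  have := normal_of_Fr_le (U := U ⊔ cl {v}) (hU.trans le_sup_left)
  have h6 : α v ∉ U ⊔ cl {v} := fun e => by
    let V : Subgroup P :=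
      { carrier := {x | x ∈ U ∨ v⁻¹ * x ∈ U}
        one_mem' := Or.inl U.one_mem
        mul_mem' := by
          rintro x y (hx | hx) (hy | hy)
          · exact Or.inl (U.mul_mem hx hy)
          · refine Or.inr ?_
            have := U.mul_mem (Nz.of_normal v⁻¹ U _ hx) hy
            convert this using 1
            group
          · exact Or.inr (by simpa only [mul_assoc] using U.mul_mem hx hy)
          · refine Or.inl ?_
            have := U.mul_mem (U.mul_mem (hU (sq_mem_Fr v)) (Nz.of_normal v⁻¹ U _ hx)) hy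
            convert this using 1
            simp only [sq]
            group
        inv_mem' := by
          rintro x (hx | hx)
          · exact Or.inl (U.inv_mem hx)
          · refine Or.inr ?_
            have := U.mul_mem (Nz.of_normal v⁻¹ U _ (U.inv_mem hx)) (U.inv_mem (hU (sq_mem_Fr v)))
            convert this using 1
            simp only [sq]
            group }
    have : U ⊔ cl {v} ≤ V := sup_le (fun _ h => Or.inl h) (cl_le (by
      rintro _ rfl
      exact Or.inr (by simp)))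
    exact (this e).elim v2 v3
  refine ⟨v, ?_⟩
  rw [card_sup_eq Nat.prime_two (Nz.of_normal _ _) (mem_sup_left (hU (sq_mem_Fr _))) h6,
    card_sup_eq Nat.prime_two (Nz.of_normal _ _) (hU (sq_mem_Fr _)) v1]
  ring

theorem exists_pairs {P : Type} [Group P] [Finite P] (α : MulAut P) {H : Subgroup P} {s b d : ℕ}
    (hH : Fr P ≤ H) (hc : Nat.card H ≤ 2 ^ s * Nat.card (Fr P))
    (hd : Nat.card P = 2 ^ d * Nat.card (Fr P)) (h2 : b + 2 ≤ d)
    (hα : ∀ U : Subgroup P, Fr P ≤ U → Nat.card U ≤ 2 ^ b * Nat.card (Fr P) → ∃ v, v⁻¹ * α v ∉ U)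
    (k : ℕ) (h1 : s + 2 * k ≤ b) : ∃ v : Fin k → P,
      Nat.card (H ⊔ cl (Set.range v) ⊔ cl (Set.range (α ∘ v)) : Subgroup P) =
        2 ^ (2 * k) * Nat.card H := by
  induction k with
  | zero => exact ⟨Fin.elim0, by simp⟩
  | succ k ih =>
    obtain ⟨v, hv⟩ := ih (by omega)
    have h3 : Nat.card (H ⊔ cl (Set.range v) ⊔ cl (Set.range (α ∘ v)) : Subgroup P) ≤
        2 ^ (s + 2 * k) * Nat.card (Fr P) := by
      rw [hv, add_comm, pow_add, mul_assoc]
      gcongr
    have h4 : Fr P ≤ H ⊔ cl (Set.range v) ⊔ cl (Set.range (α ∘ v)) :=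
      hH.trans (le_sup_left.trans le_sup_left)
    obtain ⟨y, hy⟩ := exists_pair α h4 (by
      rw [hd]
      refine (Nat.mul_le_mul_left 8 h3).trans ?_
      rw [← mul_assoc, show 8 = 2 ^ 3 from rfl, ← pow_add]
      gcongr <;> omega) (hα _ h4 (h3.trans (by gcongr <;> omega)))
    refine ⟨Fin.cons y v, ?_⟩
    rw [Fin.comp_cons, closure_range_cons, closure_range_cons]
    rw [hv] at hy
    have e : H ⊔ (cl {y} ⊔ cl (Set.range v)) ⊔ (cl {α y} ⊔ cl (Set.range (α ∘ v))) =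
      H ⊔ cl (Set.range v) ⊔ cl (Set.range (α ∘ v)) ⊔ cl {y} ⊔ cl {α y} := by ac_rfl
    rw [e, hy]
    ring

theorem card_pairs_le (n : ℕ) : (Nat.card {p : Fin n × Fin n // p.1 < p.2} : ℝ) ≤ n ^ 2 / 2 := by
  have := Finset.card_product_filter_lt (s := (Finset.univ : Finset (Fin n)))
  rw [Finset.univ_product_univ, Finset.card_univ, Fintype.card_fin] at this
  rw [Nat.card_eq_fintype_card, Fintype.card_subtype, this, Nat.cast_choose_two]
  nlinarith [(Nat.cast_nonneg n : (0 : ℝ) ≤ n)]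

theorem cov_bad_aux (H : Type) [Group H] {s : ℕ} (h : Fin s → H) (hh : cl (Set.range h) = ⊤)
    (a c k e w : ℕ) (ha : c + (k + (k + e)) = a) (hc : Nat.card H = 2 ^ c)
    (hw : Nat.card (Fr H) = 2 ^ w) :
    Cov (fun P => Nat.card P = 2 ^ a ∧ ∃ (f : H →* P) (α : MulAut P) (Y : Fin (k + e) → P),
        Function.Injective f ∧ (Fr H).map f = Fr P ∧
        f.range ⊔ cl (Set.range (Sum.elim (fun i : Fin k => α (Y (i.castAdd e))) Y)) = ⊤)
      (c * c + ((k + (k + e)) * c + ((k + (k + e)) * s * c + ((k + e) ^ 2 / 2 * w +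
        k * (k + e) * w)))) := by
  have : Finite H := Nat.finite_of_card_ne_zero (by rw [hc]; positivity)
  have b0 := cast_le_two_rpow hc.le
  have b1 := cast_le_two_rpow hw.le
  have b2 := bnd_hom (G := Fr H) ((card_le_card_group _).trans hc.le) (Bnd.of_card Set.univ b0)
  have b3 := Bnd.univ_fun (ι := Fin k ⊕ Fin (k + e)) b0 Set.univ
  have b4 := Bnd.univ_fun (ι := (Fin k ⊕ Fin (k + e)) × Fin s) b0 Set.univ
  have b5 := (Bnd.univ_fun (ι := {p : Fin (k + e) × Fin (k + e) // p.1 < p.2}) b1 Set.univ).mono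
    le_rfl (mul_le_mul_of_nonneg_right (card_pairs_le _) (Nat.cast_nonneg w))
  have b6 := Bnd.univ_fun (ι := Fin k × Fin (k + e)) b1 Set.univ
  simp only [Nat.card_prod, Nat.card_sum, Nat.card_fin, Nat.cast_mul, Nat.cast_add] at b3 b4 b5 b6
  refine Cov.of_code (b2.prod (b3.prod (b4.prod (b5.prod b6)))) (fun x P =>
    ∃ (f : H →* P) (X : Fin k ⊕ Fin (k + e) → P), f.range ⊔ cl (Set.range X) = ⊤ ∧
      (∀ l, X l ^ 2 = f (x.2.1 l)) ∧ (∀ l i, (X l * f (h i)) ^ 2 = f (x.2.2.1 (l, i))) ∧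
      (∀ i j (hij : i < j), (X (.inr i) * X (.inr j)) ^ 2 = f (x.2.2.2.1 ⟨(i, j), hij⟩)) ∧
      (∀ i j, (X (.inl i) * X (.inr j)) ^ 2 = f (x.2.2.2.2 (i, j))) ∧
      ∀ i j (hij : i < j), (X (.inl i) * X (.inl j)) ^ 2 =
        f (x.1 (x.2.2.2.1 ⟨(i.castAdd e, j.castAdd e), hij⟩))) ?_ ?_
  · rintro P ⟨-, f, α, Y, hf, hF, hX⟩
    have g1 : ∀ y : P, ∃ z : Fr H, y ^ 2 = f z := fun y => by
      obtain ⟨z, hz, e⟩ : y ^ 2 ∈ (Fr H).map f := hF ▸ sq_mem_Fr y
      exact ⟨⟨z, hz⟩, e.symm⟩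
    choose q hq using g1
    have g2 : ∀ z : Fr H, α (f z) ∈ f.range := fun z => by
      have h1 : f z ∈ Fr P := hF ▸ mem_map_of_mem f z.2
      have h2 : α (f z) ∈ (Fr H).map f := by
        rw [hF, ← map_Fr_mulAut α]
        exact mem_map_of_mem α.toMonoidHom h1
      exact map_le_range _ _ h2
    let φ : Fr H →* H := (MonoidHom.ofInjective hf).symm.toMonoidHom.comp
      ((α.toMonoidHom.comp (f.comp (Fr H).subtype)).codRestrict _ g2)
    have hφ : ∀ z, f (φ z) = α (f z) := fun z => MonoidHom.apply_ofInjective_symm hf _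
    let X : Fin k ⊕ Fin (k + e) → P := Sum.elim (fun i : Fin k => α (Y (i.castAdd e))) Y
    refine ⟨(φ, fun l => q (X l), fun p => q (X p.1 * f (h p.2)), fun p => q (Y p.1.1 * Y p.1.2),
      fun p => q (X (.inl p.1) * Y p.2)), ⟨fun _ => trivial, trivial, trivial, trivial, trivial⟩,
      f, X, hX, fun l => hq _, fun l i => hq _, fun i j _ => hq _, fun i j => hq _,
      fun i j _ => ?_⟩
    rw [hφ, ← hq, map_pow, map_mul]
    rfl
  · rintro x P P' ⟨hP, -⟩ ⟨hP', -⟩ ⟨f, X, g1, g2, g3, g4, g5, g6⟩ ⟨f', X', g1', g2', g3', g4', g5', g6'⟩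
    have : Finite P := Nat.finite_of_card_ne_zero (by rw [hP]; positivity)
    have : Finite P' := Nat.finite_of_card_ne_zero (by rw [hP']; positivity)
    have hc' : 2 ^ Nat.card (Fin k ⊕ Fin (k + e)) * Nat.card H = 2 ^ a := by
      rw [hc, ← pow_add, ← ha, add_comm]
      simp
    refine (bu_iso f f' X X' h hh g1 g1' (hc'.trans hP.symm).le (hc'.trans hP'.symm).le
      (fun l => ⟨_, g2 l, g2' l⟩) (fun l i => ⟨_, g3 l i, g3' l i⟩) ?_).elim fun e _ => ⟨e⟩
    rintro (i | i) (j | j) hij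
    · rcases lt_or_gt_of_ne (fun e : i = j => hij (e ▸ rfl)) with h | h
      · exact Or.inl ⟨_, g6 i j h, g6' i j h⟩
      · exact Or.inr ⟨_, g6 j i h, g6' j i h⟩
    · exact Or.inl ⟨_, g5 i j, g5' i j⟩
    · exact Or.inr ⟨_, g5 j i, g5' j i⟩
    · rcases lt_or_gt_of_ne (fun e : i = j => hij (e ▸ rfl)) with h | h
      · exact Or.inl ⟨_, g4 i j h, g4' i j h⟩
      · exact Or.inr ⟨_, g4 j i h, g4' j i h⟩

theorem card_le_of_gens {P : Type} [Group P] [Finite P] {s : ℕ} (x : Fin s → P) :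
    Nat.card (Fr P ⊔ cl (Set.range x) : Subgroup P) ≤ 2 ^ s * Nat.card (Fr P) := by
  simpa using card_ea (Fr P) x (fun _ => Nz.of_normal _ _) (fun _ => sq_mem_Fr _)
    fun _ _ => Or.inl (sq_mem_Fr _)

theorem cov_bad (a d s k b : ℕ) (h1 : s + 2 * k ≤ b) (h2 : b + 2 ≤ d) :
    Cov (fun P => Nat.card P = 2 ^ a ∧ Nat.card P = 2 ^ d * Nat.card (Fr P) ∧
        (∃ x : Fin s → P, sqs (cl (Set.range x)) = Fr P) ∧
        ∃ α : MulAut P, ∀ U : Subgroup P, Fr P ≤ U → Nat.card U ≤ 2 ^ b * Nat.card (Fr P) →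
          ∃ v, v⁻¹ * α v ∉ U)
      (((a : ℝ) - d) * (d ^ 2 - k ^ 2) / 2 + 20 * (s + 1) * (a + 1) ^ 2) := by
  have hkd : (k : ℝ) ≤ d := by exact_mod_cast (show k ≤ d by omega)
  have hk0 : (0 : ℝ) ≤ k := Nat.cast_nonneg _
  have hs0 : (0 : ℝ) ≤ s := Nat.cast_nonneg _
  have ha0 : (0 : ℝ) ≤ a := Nat.cast_nonneg _
  by_cases hda : a < d
  · refine ⟨∅, ⟨∅, by simpa using by positivity, by simp⟩, fun P hP => ?_⟩
    have : Finite P := Nat.finite_of_card_ne_zero (by rw [hP.1]; positivity)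
    have h3 : 2 ^ d ≤ 2 ^ a := hP.1 ▸ hP.2.1 ▸ Nat.le_mul_of_pos_right _ Nat.card_pos
    rw [Nat.pow_le_pow_iff_right one_lt_two] at h3
    omega
  obtain ⟨w, rfl⟩ := Nat.exists_eq_add_of_le (not_lt.1 hda)
  have hw0 : (0 : ℝ) ≤ w := Nat.cast_nonneg _
  refine (Cov.bind (Bnd.range (d + w)) (E' := (s + 1) * (d + w + 1) ^ 2 +
      (w * (d ^ 2 - k ^ 2) / 2 + (s + 2) * (d + w) ^ 2))
    (Q := fun e P => Nat.card P = 2 ^ (d + w) ∧ k + (k + e) ≤ d ∧ ∃ H : Gp,
      (Nat.card H = 2 ^ (d + w - (k + (k + e))) ∧ ∃ x : Fin s → H, cl (Set.range x) = ⊤) ∧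
      Nat.card (Fr H) = 2 ^ w ∧ ∃ (f : H →* P) (α : MulAut P) (Y : Fin (k + e) → P),
        Function.Injective f ∧ (Fr H).map f = Fr P ∧
        f.range ⊔ cl (Set.range (Sum.elim (fun i : Fin k => α (Y (i.castAdd e))) Y)) = ⊤)
    (fun e _ => ?_) ?_).mono (fun _ h => h) ?_
  · by_cases he : d < k + (k + e)
    · exact ⟨∅, ⟨∅, by simpa using by positivity, by simp⟩, fun P hP => (he.not_ge hP.2.1).elim⟩
    obtain ⟨c, hc⟩ : ∃ c, c + (k + (k + e)) = d + w := ⟨d + w - (k + (k + e)), by omega⟩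
    rw [show d + w - (k + (k + e)) = c by omega]
    obtain ⟨S, g1, g2, g3⟩ := (cov_fewgen s c).reps
    have hc' : (c : ℝ) + (k + (k + e)) = d + w := by exact_mod_cast hc
    have he' : (k : ℝ) + (k + e) ≤ d := by exact_mod_cast not_lt.1 he
    have hc0 : (0 : ℝ) ≤ c := Nat.cast_nonneg _
    have he0 : (0 : ℝ) ≤ e := Nat.cast_nonneg _
    refine Cov.bind (T := {H ∈ S | Nat.card (Fr H) = 2 ^ w}) (g1.mono (fun _ h => h.1)
      (by gcongr; linarith)) (fun H hH => ?_) (Q := fun H P => Nat.card P = 2 ^ (d + w) ∧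
        ∃ (f : H →* P) (α : MulAut P) (Y : Fin (k + e) → P),
        Function.Injective f ∧ (Fr H).map f = Fr P ∧
        f.range ⊔ cl (Set.range (Sum.elim (fun i : Fin k => α (Y (i.castAdd e))) Y)) = ⊤) ?_
    · obtain ⟨g4, x, hx⟩ := g2 H hH.1
      refine (cov_bad_aux H x hx (d + w) c k e w hc g4 hH.2).mono (fun _ h => h) ?_
      have e1 : ((k : ℝ) + (k + e)) ^ 2 * w ≤ d ^ 2 * w := by gcongr
      have e2 : (c : ℝ) * c ≤ (d + w) * (d + w) := by gcongr <;> linarith
      have e3 : ((k : ℝ) + (k + e)) * c ≤ (d + w) * (d + w) :=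
        mul_le_mul (by linarith) (by linarith) hc0 (by linarith)
      have e4 : s * (((k : ℝ) + (k + e)) * c) ≤ s * ((d + w) * (d + w)) := by gcongr
      nlinarith
    · rintro P ⟨hP, -, H, g4, g5, f, α, Y, g6, g7, g8⟩
      obtain ⟨H₀, g9, ⟨θ⟩⟩ := g3 H g4
      have e1 : (Fr H₀).map θ.symm.toMonoidHom = Fr H := by
        rw [sqs_map, map_top_of_surjective _ θ.symm.surjective]
      refine ⟨H₀, ⟨g9, ?_⟩, hP, f.comp θ.symm.toMonoidHom, α, Y, g6.comp θ.symm.injective, ?_, ?_⟩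
      · rw [← g5, ← e1, card_map_of_injective θ.symm.injective]
      · rw [← map_map, e1, g7]
      · rwa [MonoidHom.range_comp, MonoidHom.range_eq_top.2 θ.symm.surjective,
          ← MonoidHom.range_eq_map]
  · rintro P ⟨hP, g1, ⟨x, hx⟩, α, hα⟩
    have : Finite P := Nat.finite_of_card_ne_zero (by rw [hP]; positivity)
    have := Fact.mk Nat.prime_two
    have g2 : Fr P ≤ cl (Set.range x) := hx ▸ sqs_le _
    have g3 : Nat.card (Fr P) = 2 ^ w := by
      rw [hP, pow_add] at g1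
      exact (Nat.eq_of_mul_eq_mul_left (by positivity) g1).symm
    obtain ⟨v, hv⟩ := exists_pairs α g2 ((card_le_of_le le_sup_right).trans (card_le_of_gens x))
      g1 h2 hα k h1
    obtain ⟨c, hc⟩ := IsPGroup.iff_card.1 ((IsPGroup.of_card hP).to_subgroup (cl (Set.range x)))
    have g4 : w ≤ c := by
      rw [← Nat.pow_le_pow_iff_right one_lt_two, ← g3, ← hc]
      exact card_le_of_le g2
    have g5 : 2 * k + c ≤ d + w := by
      rw [← Nat.pow_le_pow_iff_right one_lt_two, ← hP, pow_add, ← hc, ← hv]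
      exact card_le_card_group _
    obtain ⟨e, he⟩ := Nat.exists_eq_add_of_le g5
    obtain ⟨t, -, ht⟩ := exists_gens (V := ⊤) (e := e)
      (U := cl (Set.range x) ⊔ cl (Set.range v) ⊔ cl (Set.range (α ∘ v))) le_top
      (by rw [card_top, hv, hP, he, hc, ← pow_add, ← pow_add, add_comm])
    have e1 : (Fr (cl (Set.range x))).map (cl (Set.range x)).subtype = Fr P := by
      rw [sqs_map, ← MonoidHom.range_eq_map, range_subtype, hx]
    refine ⟨e, show e ≤ d + w by omega, hP, by omega, ⟨cl (Set.range x)⟩,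
      ⟨hc.trans (by congr 1; omega), fun i => ⟨x i, sub_cl ⟨i, rfl⟩⟩, ?_⟩, ?_,
      (cl (Set.range x)).subtype, α, Fin.append v t, subtype_injective _, e1, ?_⟩
    · apply map_injective (subtype_injective _)
      rw [map_cl, ← Set.range_comp, ← MonoidHom.range_eq_map, range_subtype]
      rfl
    · rw [← g3, ← e1, card_map_of_injective (subtype_injective _)]
    · rw [range_subtype, eq_top_iff, ← ht]
      refine sup_le (sup_le (sup_le le_sup_left ?_) ?_) ?_ <;>
        refine le_sup_of_le_right (cl_mono ?_) <;> rintro _ ⟨i, rfl⟩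
      · exact ⟨.inr (i.castAdd e), by simp⟩
      · exact ⟨.inl i, by simp⟩
      · exact ⟨.inr (i.natAdd k), by simp⟩
  · push_cast at *
    have e1 : (s + 2) * ((d : ℝ) + w) ^ 2 ≤ (2 * (s + 1)) * (d + w + 1) ^ 2 :=
      mul_le_mul (by linarith) (by nlinarith) (by positivity) (by linarith)
    have e2 : 1 * ((d : ℝ) + w) ≤ (s + 1) * (d + w + 1) ^ 2 :=
      mul_le_mul (by linarith) (by nlinarith) ha0 (by linarith)
    have e3 : 0 ≤ ((s : ℝ) + 1) * (d + w + 1) ^ 2 := by positivity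
    nlinarith

end Pool.Agent.P.MP_9f774b_al
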