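import Pool.Agent.P.MP_9f774b_al.Count

/-!
Elementary facts on finite groups and `p`-groups.
-/

set_option autoImplicit false

noncomputable section

namespace Pool.Agent.P.MP_9f774b_al

open Subgroup hiding closure subset_closure closure_union

variable {G : Type} [Group G]

/-- The subgroup generated by a set. -/
abbrev cl (S : Set G) : Subgroup G := Subgroup.closure S

theorem sub_cl {S : Set G} {x : G} (h : x ∈ S) : x ∈ cl S := Subgroup.subset_closure h

theorem cl_union (S T : Set G) : cl (S ∪ T) = cl S ⊔ cl T := Subgroup.closure_union S T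

theorem cl_le {S : Set G} {U : Subgroup G} (h : ∀ x ∈ S, x ∈ U) : cl S ≤ U :=
  (Subgroup.closure_le _).2 h

theorem cl_mono {S T : Set G} (h : S ⊆ T) : cl S ≤ cl T := Subgroup.closure_mono h

/-- `x` conjugates `U` into itself. -/
def Nz (x : G) (U : Subgroup G) : Prop := ∀ u ∈ U, x * u * x⁻¹ ∈ U

theorem conj_mem_of_closure {x : G} {S : Set G} {V : Subgroup G}
    (h : ∀ s ∈ S, x * s * x⁻¹ ∈ V) : ∀ u ∈ cl S, x * u * x⁻¹ ∈ V := by
  have : cl S ≤ V.comap (MulAut.conj x).toMonoidHom := cl_le h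
  exact this

theorem conj_mem_of_sup {x : G} {U U' V : Subgroup G} (h : ∀ s ∈ U, x * s * x⁻¹ ∈ V)
    (h' : ∀ s ∈ U', x * s * x⁻¹ ∈ V) : ∀ u ∈ U ⊔ U', x * u * x⁻¹ ∈ V := by
  have : U ⊔ U' ≤ V.comap (MulAut.conj x).toMonoidHom := sup_le h h'
  exact this

theorem Nz.of_mem {x : G} {U : Subgroup G} (h : x ∈ U) : Nz x U :=
  fun _ hu => U.mul_mem (U.mul_mem h hu) (U.inv_mem h)

theorem Nz.of_normal (x : G) (U : Subgroup G) [hU : U.Normal] : Nz x U :=
  fun u hu => hU.conj_mem u hu x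

theorem Nz.mem [Finite G] {x : G} {U : Subgroup G} (h : Nz x U) : x ∈ normalizer (U : Set G) :=
  mem_normalizer_fintype h

theorem Nz.of_norm {x : G} {U : Subgroup G} (h : x ∈ normalizer (U : Set G)) : Nz x U :=
  fun u hu => (h u).1 hu

theorem Nz.closure [Finite G] {S : Set G} {U : Subgroup G} (h : ∀ s ∈ S, Nz s U) :
    ∀ x ∈ cl S, Nz x U := fun _ hx =>
  Nz.of_norm (cl_le (fun s hs => (h s hs).mem) hx)

theorem normal_of_nz {U : Subgroup G} (h : ∀ x, Nz x U) : U.Normal := ⟨fun u hu x => h x u hu⟩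

theorem card_sup_le [Finite G] {U : Subgroup G} {x : G} {p : ℕ} (hp : 0 < p) (hx : Nz x U)
    (hxp : x ^ p ∈ U) : Nat.card (U ⊔ cl {x} : Subgroup G) ≤ p * Nat.card U := by
  have h1 : cl {x} ≤ normalizer (U : Set G) := cl_le (by simpa using hx.mem)
  have h2 := coe_mul_of_left_le_normalizer_right _ _ h1
  have key : ∀ g ∈ U ⊔ cl {x}, ∃ i : Fin p, ∃ u : U, x ^ (i : ℕ) * u = g := by
    intro g hg
    have hg' : g ∈ ((cl {x} ⊔ U : Subgroup G) : Set G) := by rwa [sup_comm]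
    rw [h2] at hg'
    obtain ⟨a, ha, u, hu, e⟩ := hg'
    obtain ⟨k, hk⟩ := mem_closure_singleton.1 ha
    have hp' : (0 : ℤ) < p := by exact_mod_cast hp
    have h3 := Int.emod_nonneg k hp'.ne'
    have h4 := Int.emod_lt_of_pos k hp'
    refine ⟨⟨(k % p).toNat, by omega⟩, ⟨(x ^ p) ^ (k / p) * u, U.mul_mem (U.zpow_mem hxp _) hu⟩, ?_⟩
    rw [← e, ← hk]
    change x ^ (k % p).toNat * ((x ^ p) ^ (k / p) * u) = x ^ k * u
    rw [← mul_assoc, ← zpow_natCast, ← zpow_natCast, ← zpow_mul, ← zpow_add,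
      Int.toNat_of_nonneg h3, Int.emod_add_mul_ediv]
  choose i u hiu using key
  have := Nat.card_le_card_of_injective
    (fun g : (U ⊔ cl {x} : Subgroup G) => (i g.1 g.2, u g.1 g.2)) fun g g' h => by
      simp only [Prod.mk.injEq] at h
      exact Subtype.ext (by rw [← hiu g.1 g.2, ← hiu g'.1 g'.2, h.1, h.2])
  rwa [Nat.card_prod, Nat.card_eq_fintype_card (α := Fin p), Fintype.card_fin] at this

theorem two_mul_card_le [Finite G] {U V : Subgroup G} (h : U < V) :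
    2 * Nat.card U ≤ Nat.card V := by
  obtain ⟨c, hc⟩ := card_dvd_of_le h.le
  have h0 : 0 < Nat.card V := Nat.card_pos
  have h1 : c ≠ 1 := by
    rintro rfl
    exact h.ne (eq_of_le_of_card_ge h.le (by omega))
  have h2 : c ≠ 0 := by
    rintro rfl
    omega
  rw [hc, mul_comm]
  exact Nat.mul_le_mul_left _ (by omega)

theorem closure_range_cons {n : ℕ} (x : G) (t : Fin n → G) :
    cl (Set.range (Fin.cons x t : Fin (n + 1) → G)) = cl {x} ⊔ cl (Set.range t) := by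
  rw [Fin.range_cons, ← cl_union, Set.insert_eq]

theorem gen_lemma [Finite G] (S : Set G) (V : Subgroup G) (e : ℕ) :
    ∀ U : Subgroup G, U ⊔ cl S = V → Nat.card V ≤ 2 ^ e * Nat.card U →
      ∃ t : Fin e → G, (∀ i, t i ∈ S ∨ t i = 1) ∧ U ⊔ cl (Set.range t) = V := by
  induction e with
  | zero =>
    intro U h1 h2
    refine ⟨Fin.elim0, fun i => i.elim0, ?_⟩
    simpa using eq_of_le_of_card_ge (h1 ▸ le_sup_left) (by simpa using h2)
  | succ e ih =>
    intro U h1 h2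
    by_cases hS : S ⊆ U
    · refine ⟨fun _ => 1, fun _ => Or.inr rfl, ?_⟩
      rw [← h1, sup_eq_left.2 (cl_le hS), sup_eq_left]
      exact cl_le (by rintro _ ⟨i, rfl⟩; exact U.one_mem)
    · obtain ⟨x, hx, hxU⟩ := Set.not_subset.1 hS
      have h3 : U < U ⊔ cl {x} :=
        lt_of_le_of_ne le_sup_left fun e => hxU (e ▸ mem_sup_right (sub_cl rfl))
      have h4 := two_mul_card_le h3
      obtain ⟨t, ht, ht2⟩ := ih (U ⊔ cl {x})
        (by rw [sup_assoc, ← cl_union, ← Set.insert_eq, Set.insert_eq_of_mem hx, h1])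
        (by rw [pow_succ, mul_assoc] at h2; exact h2.trans (Nat.mul_le_mul_left _ h4))
      refine ⟨Fin.cons x t, fun i => ?_, by rw [closure_range_cons, ← sup_assoc, ht2]⟩
      refine Fin.cases (Or.inl hx) ht i

theorem exists_gens [Finite G] {U V : Subgroup G} (h : U ≤ V) {e : ℕ}
    (hc : Nat.card V ≤ 2 ^ e * Nat.card U) :
    ∃ t : Fin e → G, (∀ i, t i ∈ V) ∧ U ⊔ cl (Set.range t) = V := by
  obtain ⟨t, h1, h2⟩ := gen_lemma (V : Set G) V e U (by simpa using h) hc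
  exact ⟨t, fun i => (h1 i).elim id fun e => e ▸ V.one_mem, h2⟩

theorem exists_gens_top [Finite G] {e : ℕ} (hc : Nat.card G ≤ 2 ^ e) :
    ∃ t : Fin e → G, cl (Set.range t) = ⊤ := by
  obtain ⟨t, -, h⟩ := exists_gens (U := (⊥ : Subgroup G)) (V := ⊤) bot_le (e := e) (by simpa using hc)
  exact ⟨t, by simpa using h⟩

theorem bnd_hom [Finite G] {e : ℕ} (hc : Nat.card G ≤ 2 ^ e) {A : Type} [Group A] {T : Set A}
    {E : ℝ} (hT : Bnd T E) : Bnd {f : G →* A | ∀ x, f x ∈ T} (e * E) := by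
  obtain ⟨t, ht⟩ := exists_gens_top hc
  have := Bnd.pi_const (ι := Fin e) (S := fun _ => T) fun _ => hT
  simp only [Nat.card_eq_fintype_card, Fintype.card_fin] at this
  refine this.of_injOn (fun f i => f (t i)) (fun f _ g _ h => ?_) fun f hf i => hf _
  exact MonoidHom.eq_of_eqOn_dense ht (by rintro _ ⟨i, rfl⟩; exact congrFun h i)

theorem cast_le_two_rpow {n e : ℕ} (h : n ≤ 2 ^ e) : (n : ℝ) ≤ 2 ^ (e : ℝ) := by
  rw [Real.rpow_natCast]; exact_mod_cast h

theorem bnd_subgroups [Finite G] {B : Subgroup G} {e : ℕ} {E : ℝ} (hE : (Nat.card G : ℝ) ≤ 2 ^ E) :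
    Bnd {L : Subgroup G | B ≤ L ∧ Nat.card L ≤ 2 ^ e * Nat.card B} (e * E) := by
  have := (Bnd.univ_fun (ι := Fin e) hE Set.univ).image fun t => B ⊔ cl (Set.range t)
  simp only [Nat.card_eq_fintype_card, Fintype.card_fin] at this
  refine this.mono (fun L hL => ?_) le_rfl
  obtain ⟨t, -, ht⟩ := exists_gens hL.1 hL.2
  exact ⟨t, trivial, ht⟩

theorem bnd_all_subgroups [Finite G] {e : ℕ} (hc : Nat.card G ≤ 2 ^ e) (S : Set (Subgroup G)) :
    Bnd S (e * e) :=
  (bnd_subgroups (B := ⊥) (e := e) (cast_le_two_rpow hc)).mono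
    (fun L _ => ⟨bot_le, by simpa using (card_le_card_group L).trans hc⟩) le_rfl

theorem card_mulAut_le [Finite G] {e : ℕ} (hc : Nat.card G ≤ 2 ^ e) {E : ℝ}
    (hE : (Nat.card G : ℝ) ≤ 2 ^ E) : (Nat.card (MulAut G) : ℝ) ≤ 2 ^ (e * E) := by
  apply Bnd.card_le
  exact (bnd_hom hc (Bnd.of_card Set.univ hE)).of_injOn (fun f : MulAut G => f.toMonoidHom)
    (fun f _ g _ h => MulEquiv.toMonoidHom_injective h) fun _ _ _ => trivial

/-- Functions that take values, block by block, in small subgroups over `B`. -/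
theorem bnd_lowrank [Finite G] {I J : Type} [Finite I] [Finite J] (β : I → J) (B : Subgroup G)
    (τ : ℕ) {E E' : ℝ} (hE : (Nat.card G : ℝ) ≤ 2 ^ E) (hB : (Nat.card B : ℝ) ≤ 2 ^ E') :
    Bnd {c : I → G | ∀ j, ∃ L : Subgroup G, B ≤ L ∧ Nat.card L ≤ 2 ^ τ * Nat.card B ∧
      ∀ i, β i = j → c i ∈ L} (Nat.card J * (τ * E) + Nat.card I * (τ + E')) := by
  refine (Bnd.pi_const (ι := J) fun _ => bnd_subgroups (B := B) (e := τ) hE).bind
    (T := fun L => {c : I → G | ∀ i, c i ∈ (L (β i) : Set G)}) (fun L hL => Bnd.pi_const fun i =>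
      Bnd.subgroup _ ?_) fun c hc => ?_
  · rw [Real.rpow_add two_pos, Real.rpow_natCast]
    calc (Nat.card (L (β i)) : ℝ) ≤ 2 ^ τ * Nat.card B := by exact_mod_cast (hL (β i)).2
      _ ≤ _ := by gcongr
  · choose L h1 h2 h3 using hc
    exact ⟨L, fun j => ⟨h1 j, h2 j⟩, fun i => h3 _ i rfl⟩

theorem graph_iso {G' : Type} [Group G'] [Finite G] [Finite G'] (D : Subgroup (G × G'))
    (h1 : ∀ g, ∃ g', (g, g') ∈ D) (h2 : ∀ g', ∃ g, (g, g') ∈ D)
    (hc : Nat.card D ≤ Nat.card G) (hc' : Nat.card D ≤ Nat.card G') :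
    ∃ e : G ≃* G', ∀ g g', (g, g') ∈ D → e g = g' := by
  let f : D →* G := (MonoidHom.fst G G').comp D.subtype
  let f' : D →* G' := (MonoidHom.snd G G').comp D.subtype
  have s1 : Function.Surjective f := fun g => (h1 g).elim fun g' h => ⟨⟨_, h⟩, rfl⟩
  have s2 : Function.Surjective f' := fun g' => (h2 g').elim fun g h => ⟨⟨_, h⟩, rfl⟩
  refine ⟨(MulEquiv.ofBijective f (s1.bijective_of_nat_card_le hc)).symm.trans
    (MulEquiv.ofBijective f' (s2.bijective_of_nat_card_le hc')), fun g g' h => ?_⟩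
  have : (MulEquiv.ofBijective f (s1.bijective_of_nat_card_le hc)).symm g = ⟨_, h⟩ :=
    (MulEquiv.symm_apply_eq _).2 rfl
  rw [MulEquiv.trans_apply, this]
  rfl

theorem conj_mem_of_sq {Γ : Subgroup G} {x y : G} (hx : x ^ 2 ∈ Γ) (hy : y ∈ Γ)
    (h : (x * y) ^ 2 ∈ Γ ∨ (y * x) ^ 2 ∈ Γ) : x * y * x⁻¹ ∈ Γ := by
  rcases h with h | h
  · have : x * y * x⁻¹ = (x * y) ^ 2 * y⁻¹ * (x ^ 2)⁻¹ := by simp only [sq]; group
    rw [this]
    exact Γ.mul_mem (Γ.mul_mem h (Γ.inv_mem hy)) (Γ.inv_mem hx)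
  · have : x * y * x⁻¹ = y⁻¹ * (y * x) ^ 2 * (x ^ 2)⁻¹ := by simp only [sq]; group
    rw [this]
    exact Γ.mul_mem (Γ.mul_mem (Γ.inv_mem hy) h) (Γ.inv_mem hx)

/-- Adjoining commuting involutions modulo `Γ`. -/
theorem card_ea [Finite G] {ε : Type} [Finite ε] (Γ : Subgroup G) (X : ε → G)
    (hn : ∀ a, Nz (X a) Γ) (h2 : ∀ a, X a ^ 2 ∈ Γ)
    (hc : ∀ a b, (X a * X b) ^ 2 ∈ Γ ∨ (X b * X a) ^ 2 ∈ Γ) :
    Nat.card (Γ ⊔ cl (Set.range X) : Subgroup G) ≤ 2 ^ Nat.card ε * Nat.card Γ := by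
  classical
  have := Fintype.ofFinite ε
  have key : ∀ s : Finset ε,
      Nat.card (Γ ⊔ cl (X '' s) : Subgroup G) ≤ 2 ^ s.card * Nat.card Γ := by
    intro s
    induction s using Finset.induction_on with
    | empty => simp
    | insert a s ha ih =>
      have e : (Γ ⊔ cl (X '' (insert a s : Finset ε)) : Subgroup G) =
          (Γ ⊔ cl (X '' s)) ⊔ cl {X a} := by
        rw [Finset.coe_insert, Set.image_insert_eq, Set.insert_eq, cl_union, sup_assoc,
          sup_comm (cl {X a})]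
      rw [e, Finset.card_insert_of_notMem ha, pow_succ', mul_assoc]
      refine (card_sup_le two_pos ?_ (mem_sup_left (h2 a))).trans (Nat.mul_le_mul_left _ ih)
      refine conj_mem_of_sup (fun u hu => mem_sup_left (hn a u hu)) (conj_mem_of_closure ?_)
      rintro _ ⟨b, hb, rfl⟩
      exact conj_mem_of_sq (mem_sup_left (h2 a)) (mem_sup_right (sub_cl ⟨b, hb, rfl⟩))
        ((hc a b).imp mem_sup_left mem_sup_left)
  simpa using key Finset.univ

end Pool.Agent.P.MP_9f774b_al
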