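import Mathlib

/-!
Counting tools: sets and classes of groups of size at most `2 ^ E`.
-/

set_option autoImplicit false

noncomputable section

namespace Pool.Agent.P.MP_9f774b_al

open Classical

universe u v

/-- `S` has at most `2 ^ E` elements. -/
def Bnd {α : Type u} (S : Set α) (E : ℝ) : Prop :=
  ∃ s : Finset α, (s.card : ℝ) ≤ 2 ^ E ∧ S ⊆ s

namespace Bnd

variable {α : Type u} {β : Type v}

theorem mono {S T : Set α} {E E' : ℝ} (h : Bnd T E) (hS : S ⊆ T) (hE : E ≤ E') : Bnd S E' := by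
  obtain ⟨s, h1, h2⟩ := h
  exact ⟨s, h1.trans (Real.rpow_le_rpow_of_exponent_le one_le_two hE), hS.trans h2⟩

theorem of_card [Finite α] (S : Set α) {E : ℝ} (h : (Nat.card α : ℝ) ≤ 2 ^ E) : Bnd S E := by
  have := Fintype.ofFinite α
  exact ⟨Finset.univ, by simpa using h, by simp⟩

theorem of_ncard {S : Set α} (hS : S.Finite) {E : ℝ} (h : (S.ncard : ℝ) ≤ 2 ^ E) : Bnd S E :=
  ⟨hS.toFinset, by rwa [← Set.ncard_eq_toFinset_card S hS], by simp⟩

theorem subgroup {G : Type u} [Group G] [Finite G] (L : Subgroup G) {E : ℝ}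
    (h : (Nat.card L : ℝ) ≤ 2 ^ E) : Bnd (L : Set G) E :=
  of_ncard (Set.toFinite _) (by rwa [← Nat.card_coe_set_eq])

theorem subsingleton {S : Set α} (h : S.Subsingleton) : Bnd S 0 := by
  rcases h.eq_empty_or_singleton with rfl | ⟨a, rfl⟩
  · exact ⟨∅, by simp, by simp⟩
  · exact ⟨{a}, by simp, by simp⟩

theorem bind {S : Set α} {T : α → Set β} {U : Set β} {E E' : ℝ} (h : Bnd S E)
    (hT : ∀ a ∈ S, Bnd (T a) E') (hU : ∀ b ∈ U, ∃ a ∈ S, b ∈ T a) : Bnd U (E + E') := by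
  obtain ⟨s, h1, h2⟩ := h
  choose! t ht1 ht2 using hT
  refine ⟨(s.filter (· ∈ S)).biUnion t, ?_, fun b hb => ?_⟩
  · have h3 : ((s.filter (· ∈ S)).biUnion t).card ≤ ∑ a ∈ s.filter (· ∈ S), (t a).card :=
      Finset.card_biUnion_le
    have h4 : ((∑ a ∈ s.filter (· ∈ S), (t a).card : ℕ) : ℝ) ≤
        (s.filter (· ∈ S)).card • (2 : ℝ) ^ E' := by
      push_cast
      exact Finset.sum_le_card_nsmul _ _ _ fun a ha => ht1 a (Finset.mem_filter.1 ha).2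
    have h5 : ((s.filter (· ∈ S)).card : ℝ) ≤ 2 ^ E :=
      (Nat.cast_le.2 (Finset.card_filter_le _ _)).trans h1
    rw [Real.rpow_add two_pos]
    rw [nsmul_eq_mul] at h4
    calc _ ≤ _ := Nat.cast_le.2 h3
      _ ≤ _ := h4
      _ ≤ _ := mul_le_mul_of_nonneg_right h5 (by positivity)
  · obtain ⟨a, ha, hb⟩ := hU b hb
    simp only [Finset.coe_biUnion, Set.mem_iUnion]
    exact ⟨a, by simpa using ⟨h2 ha, ha⟩, ht2 a ha hb⟩

theorem of_code {T : Set α} {S : Set β} {E : ℝ} (h : Bnd T E) (R : α → β → Prop)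
    (ex : ∀ b ∈ S, ∃ a ∈ T, R a b) (uniq : ∀ a b b', b ∈ S → b' ∈ S → R a b → R a b' → b = b') :
    Bnd S E := by
  have := h.bind (T := fun a => {b | b ∈ S ∧ R a b}) (U := S)
    (fun a _ => subsingleton fun b hb b' hb' => uniq a b b' hb.1 hb'.1 hb.2 hb'.2)
    (fun b hb => (ex b hb).imp fun a ha => ⟨ha.1, hb, ha.2⟩)
  simpa using this

theorem image {S : Set α} {E : ℝ} (h : Bnd S E) (f : α → β) : Bnd (f '' S) E :=
  h.of_code (fun a b => f a = b) (fun _ hb => hb) fun _ _ _ _ _ h1 h2 => h1.symm.trans h2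

theorem of_injOn {S : Set α} {T : Set β} {E : ℝ} (h : Bnd T E) (f : α → β)
    (hf : Set.InjOn f S) (hm : ∀ a ∈ S, f a ∈ T) : Bnd S E :=
  h.of_code (fun b a => f a = b) (fun a ha => ⟨_, hm a ha, rfl⟩)
    fun _ _ _ h1 h2 e1 e2 => hf h1 h2 (e1.trans e2.symm)

theorem pi {ι : Type} [Fintype ι] {γ : ι → Type u} {S : ∀ i, Set (γ i)} {E : ι → ℝ}
    (h : ∀ i, Bnd (S i) (E i)) : Bnd {f : ∀ i, γ i | ∀ i, f i ∈ S i} (∑ i, E i) := by
  choose s h1 h2 using h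
  refine ⟨Fintype.piFinset s, ?_, fun f hf => by simpa using fun i => h2 i (hf i)⟩
  rw [Fintype.card_piFinset, Real.rpow_sum_of_pos two_pos]
  push_cast
  exact Finset.prod_le_prod (fun _ _ => by positivity) fun i _ => h1 i

theorem pi_const {ι : Type} [Finite ι] {S : ι → Set α} {E : ℝ}
    (h : ∀ i, Bnd (S i) E) : Bnd {f : ι → α | ∀ i, f i ∈ S i} (Nat.card ι * E) := by
  have := Fintype.ofFinite ι
  simpa using pi (γ := fun _ => α) h

theorem univ_fun {ι : Type} [Finite ι] [Finite α] {E : ℝ} (h : (Nat.card α : ℝ) ≤ 2 ^ E)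
    (S : Set (ι → α)) : Bnd S (Nat.card ι * E) :=
  (pi_const (S := fun _ => Set.univ) fun _ => of_card _ h).mono (fun _ _ _ => trivial) le_rfl

theorem prod {S : Set α} {T : Set β} {E E' : ℝ} (h : Bnd S E) (h' : Bnd T E') :
    Bnd (S ×ˢ T) (E + E') :=
  h.bind (T := fun a => Prod.mk a '' T) (fun _ _ => h'.image _)
    fun b hb => ⟨b.1, hb.1, b.2, hb.2, rfl⟩

theorem sigma {γ : α → Type v} {S : Set α} {T : ∀ a, Set (γ a)} {E E' : ℝ} (h : Bnd S E)
    (h' : ∀ a ∈ S, Bnd (T a) E') : Bnd {x : Σ a, γ a | x.1 ∈ S ∧ x.2 ∈ T x.1} (E + E') :=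
  h.bind (T := fun a => Sigma.mk a '' T a) (fun a ha => (h' a ha).image _)
    fun b hb => ⟨b.1, hb.1, b.2, hb.2, rfl⟩

theorem range (n : ℕ) : Bnd {k : ℕ | k ≤ n} n := by
  refine ⟨Finset.range (n + 1), ?_, fun k hk => by simpa [Nat.lt_succ_iff] using hk⟩
  rw [Finset.card_range, Real.rpow_natCast]
  exact_mod_cast Nat.lt_two_pow_self

theorem card_le [Finite α] {E : ℝ} (h : Bnd (Set.univ : Set α) E) : (Nat.card α : ℝ) ≤ 2 ^ E := by
  obtain ⟨s, h1, h2⟩ := h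
  have := Fintype.ofFinite α
  refine le_trans ?_ h1
  rw [Nat.card_eq_fintype_card, Nat.cast_le, ← Finset.card_univ]
  exact Finset.card_le_card fun a _ => h2 trivial

end Bnd

/-- A bundled group. -/
structure Gp : Type 1 where
  /-- The underlying type. -/
  α : Type
  [str : Group α]

instance : CoeSort Gp Type := ⟨Gp.α⟩

instance (G : Gp) : Group G := G.str

/-- The class `P` has at most `2 ^ E` isomorphism types. -/
def Cov (P : Gp → Prop) (E : ℝ) : Prop :=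
  ∃ S : Set Gp, Bnd S E ∧ ∀ G, P G → ∃ H ∈ S, Nonempty (G ≃* H)

namespace Cov

theorem mono {P Q : Gp → Prop} {E E' : ℝ} (h : Cov Q E) (hP : ∀ G, P G → Q G) (hE : E ≤ E') :
    Cov P E' := by
  obtain ⟨S, h1, h2⟩ := h
  exact ⟨S, h1.mono le_rfl hE, fun G hG => h2 G (hP G hG)⟩

theorem bind {α : Type u} {T : Set α} {Q : α → Gp → Prop} {P : Gp → Prop} {E E' : ℝ}
    (h : Bnd T E) (hQ : ∀ a ∈ T, Cov (Q a) E') (hP : ∀ G, P G → ∃ a ∈ T, Q a G) :
    Cov P (E + E') := by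
  choose! S h1 h2 using hQ
  refine ⟨{H | ∃ a ∈ T, H ∈ S a}, h.bind h1 fun _ hb => hb, fun G hG => ?_⟩
  obtain ⟨a, ha, hq⟩ := hP G hG
  obtain ⟨H, hH, e⟩ := h2 a ha G hq
  exact ⟨H, ⟨a, ha, hH⟩, e⟩

theorem of_iso {P : Gp → Prop} (h : ∀ G G', P G → P G' → Nonempty (G ≃* G')) : Cov P 0 := by
  by_cases hP : ∃ G, P G
  · obtain ⟨H, hH⟩ := hP
    exact ⟨{H}, Bnd.subsingleton Set.subsingleton_singleton, fun G hG => ⟨H, rfl, h G H hG hH⟩⟩
  · exact ⟨∅, Bnd.subsingleton Set.subsingleton_empty, fun G hG => (hP ⟨G, hG⟩).elim⟩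

theorem of_code {α : Type u} {T : Set α} {P : Gp → Prop} {E : ℝ} (h : Bnd T E)
    (R : α → Gp → Prop) (ex : ∀ G, P G → ∃ a ∈ T, R a G)
    (uniq : ∀ a G G', P G → P G' → R a G → R a G' → Nonempty (G ≃* G')) : Cov P E := by
  have := bind (Q := fun a G => P G ∧ R a G) (P := P) h
    (fun a _ => of_iso fun G G' h1 h2 => uniq a G G' h1.1 h2.1 h1.2 h2.2)
    fun G hG => (ex G hG).imp fun a ha => ⟨ha.1, hG, ha.2⟩
  simpa using this

theorem union {P Q U : Gp → Prop} {E : ℝ} (hP : Cov P E) (hQ : Cov Q E)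
    (hU : ∀ G, U G → P G ∨ Q G) : Cov U (1 + E) := by
  refine bind (T := (Set.univ : Set Bool)) (Q := fun b G => if b then P G else Q G)
    (Bnd.of_card _ (by simp)) ?_ ?_
  · rintro (_ | _) - <;> simpa
  · intro G hG
    rcases hU G hG with h | h
    · exact ⟨true, trivial, by simpa⟩
    · exact ⟨false, trivial, by simpa⟩

/-- Representatives may be taken inside the class. -/
theorem reps {P : Gp → Prop} {E : ℝ} (h : Cov P E) :
    ∃ S : Set Gp, Bnd S E ∧ (∀ H ∈ S, P H) ∧ ∀ G, P G → ∃ H ∈ S, Nonempty (G ≃* H) := by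
  obtain ⟨S, h1, h2⟩ := h
  let f : Gp → Gp := fun H => if h : ∃ G, P G ∧ Nonempty (G ≃* H) then h.choose else H
  refine ⟨{H | H ∈ f '' S ∧ P H}, (h1.image f).mono (fun _ h => h.1) le_rfl, fun _ h => h.2,
    fun G hG => ?_⟩
  obtain ⟨H, hH, ⟨e⟩⟩ := h2 G hG
  have hx : ∃ G, P G ∧ Nonempty (G ≃* H) := ⟨G, hG, ⟨e⟩⟩
  have hf : f H = hx.choose := dif_pos hx
  obtain ⟨h3, ⟨e'⟩⟩ := hx.choose_spec
  exact ⟨f H, ⟨⟨H, hH, rfl⟩, hf ▸ h3⟩, hf ▸ ⟨e.trans e'.symm⟩⟩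

end Cov

end Pool.Agent.P.MP_9f774b_al
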