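import Pool.Agent.P.MP_9f774b_al.Basic
import Pool.Prelude.Def_F_9ae667fc

/-!
Definitions and shared lemmas for counting finite groups.
-/

set_option autoImplicit false

noncomputable section

namespace Pool.Agent.P.MP_9f774b_al

open Subgroup hiding closure subset_closure closure_union
open scoped commutatorElement

variable {G : Type} [Group G]

/-- The subgroup generated by the squares of the elements of `U`. -/
def sqs (U : Subgroup G) : Subgroup G := cl ((fun x => x ^ 2) '' (U : Set G))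

/-- The subgroup generated by all squares (the Frattini subgroup of a finite `2`-group). -/
abbrev Fr (G : Type) [Group G] : Subgroup G := sqs ⊤

/-- The third term of the lower `2`-central series. -/
def P3 (G : Type) [Group G] : Subgroup G := ⁅Fr G, (⊤ : Subgroup G)⁆ ⊔ sqs (Fr G)

/-- Squares of elements of `2 i`-generated subgroups generate little over `W`. -/
def LowRank (W : Subgroup G) (i τ : ℕ) : Prop :=
  ∀ t : Finset G, t.card ≤ 2 * i →
    Nat.card (W ⊔ sqs (cl (t : Set G)) : Subgroup G) ≤ 2 ^ τ * Nat.card W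

/-- The structure produced by the greedy choice of generators. -/
def Str (P : Type) [Group P] (s₀ u i τ : ℕ) : Prop :=
  ∃ (x : Fin s₀ ⊕ Fin u → P) (W : Subgroup P), P3 P ≤ W ∧ W ≤ Fr P ∧
    sqs (cl (Set.range x)) = Fr P ∧
    Nat.card (cl (Set.range x)) = 2 ^ (s₀ + u) * Nat.card (Fr P) ∧
    Nat.card (W ⊔ cl (Set.range fun c => x (Sum.inr c) ^ 2) : Subgroup P) = 2 ^ u * Nat.card W ∧
    LowRank W i τ

/-- The class of groups counted from the top down. -/
def TDc (H : Type) [Group H] (s₀ u v n i τ : ℕ) : Prop :=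
  ∃ (x : Fin s₀ ⊕ Fin u → H) (Y W : Subgroup H), cl (Set.range x) = ⊤ ∧
    P3 H ≤ Y ∧ Y ≤ W ∧ W ≤ Fr H ∧ Nat.card H = 2 ^ (s₀ + u) * Nat.card (Fr H) ∧
    Nat.card (Fr H) = 2 ^ (u + v) * Nat.card Y ∧ Nat.card Y = 2 ^ n ∧
    Nat.card W ≤ 2 ^ v * Nat.card Y ∧
    Nat.card (Y ⊔ cl (Set.range fun c => x (Sum.inr c) ^ 2) : Subgroup H) = 2 ^ u * Nat.card Y ∧
    LowRank W i τ

/-- Large Frattini quotient, on which every automorphism is close to the identity. -/
def Good (P : Type) [Group P] (a : ℕ) : Prop :=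
  ∃ d : ℕ, Nat.card P = 2 ^ d * Nat.card (Fr P) ∧ 13 * a ≤ 20 * d ∧
    ∀ α : MulAut P, ∃ U : Subgroup P, Fr P ≤ U ∧
      Nat.card U ≤ 2 ^ (a / 100) * Nat.card (Fr P) ∧ ∀ v, v⁻¹ * α v ∈ U

/-- Every nonabelian composition factor of `G` is isomorphic to a member of the family `F`. -/
def CF (F : ∀ k : ℕ, Set (Group (Fin k))) (G : Type) [Group G] : Prop :=
  ∀ (H : Subgroup G) (N : Subgroup H) [N.Normal], H.IsSubnormal → IsSimpleGroup (H ⧸ N) →
    (∃ x y : H ⧸ N, x * y ≠ y * x) →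
    ∃ k : ℕ, ∃ T ∈ F k, Nonempty (@MulEquiv (H ⧸ N) (Fin k) _ T.toMul)

theorem sq_mem_sqs {U : Subgroup G} {x : G} (h : x ∈ U) : x ^ 2 ∈ sqs U := sub_cl ⟨x, h, rfl⟩

theorem sqs_le_of {U V : Subgroup G} (h : ∀ x ∈ U, x ^ 2 ∈ V) : sqs U ≤ V :=
  cl_le (by rintro _ ⟨x, hx, rfl⟩; exact h x hx)

theorem sqs_le (U : Subgroup G) : sqs U ≤ U := sqs_le_of fun _ hx => U.pow_mem hx 2

theorem sqs_mono {U V : Subgroup G} (h : U ≤ V) : sqs U ≤ sqs V :=
  sqs_le_of fun _ hx => sq_mem_sqs (h hx)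

theorem sqs_map {G' : Type} [Group G'] (f : G →* G') (U : Subgroup G) :
    (sqs U).map f = sqs (U.map f) := by
  rw [sqs, sqs, MonoidHom.map_closure, Set.image_image, coe_map, Set.image_image]
  simp only [map_pow]

theorem sq_mem_Fr (x : G) : x ^ 2 ∈ Fr G := sq_mem_sqs trivial

theorem Nz.sqs {x : G} {U : Subgroup G} (h : Nz x U) : Nz x (sqs U) :=
  conj_mem_of_closure (by
    rintro _ ⟨y, hy, rfl⟩
    simpa only [conj_pow] using sq_mem_sqs (h y hy))

instance sqs_normal (U : Subgroup G) [U.Normal] : (sqs U).Normal :=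
  normal_of_nz fun x => (Nz.of_normal x U).sqs

instance P3_normal : (P3 G).Normal := by unfold P3; infer_instance

theorem commutator_mem_sqs {U : Subgroup G} {x y : G} (hx : x ∈ U) (hy : y ∈ U) :
    ⁅x, y⁆ ∈ sqs U := by
  have : ⁅x, y⁆ = x ^ 2 * (x⁻¹ * y) ^ 2 * (y ^ 2)⁻¹ := by
    simp only [commutatorElement_def, sq]; group
  rw [this]
  exact mul_mem (mul_mem (sq_mem_sqs hx) (sq_mem_sqs (mul_mem (inv_mem hx) hy)))
    (inv_mem (sq_mem_sqs hy))

theorem normal_of_Fr_le {U : Subgroup G} (h : Fr G ≤ U) : U.Normal :=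
  ⟨fun u hu g => by
    have : g * u * g⁻¹ = ⁅g, u⁆ * u := by simp only [commutatorElement_def]; group
    rw [this]
    exact mul_mem (h (commutator_mem_sqs trivial trivial)) hu⟩

theorem P3_le_Fr : P3 G ≤ Fr G := sup_le (commutator_le_left _ _) (sqs_le _)

theorem normal_of_P3_le {Y : Subgroup G} (h : P3 G ≤ Y) (h' : Y ≤ Fr G) : Y.Normal :=
  ⟨fun u hu g => by
    have : g * u * g⁻¹ = u * ⁅u⁻¹, g⁆ := by simp only [commutatorElement_def]; group
    rw [this]
    exact mul_mem hu (h (mem_sup_left (commutator_mem_commutator (inv_mem (h' hu)) trivial)))⟩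

theorem map_Fr_mulAut (α : MulAut G) : (Fr G).map α.toMonoidHom = Fr G := by
  rw [sqs_map, map_top_of_surjective _ α.surjective]

/-- One step of a central series of a finite `p`-group. -/
theorem exists_step [Finite G] {p : ℕ} (hp : p.Prime) (hG : IsPGroup p G) {N K : Subgroup G}
    [N.Normal] [K.Normal] (h : ¬ K ≤ N) :
    ∃ y ∈ K, y ∉ N ∧ y ^ p ∈ N ∧ ∀ g, ⁅y, g⁆ ∈ N := by
  have := Fact.mk hp
  have hQ := hG.to_quotient N
  let K' := K.map (QuotientGroup.mk' N)
  have : K'.Normal := Normal.map inferInstance _ (QuotientGroup.mk'_surjective N)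
  have h1 : K' ≠ ⊥ := fun e => h (by simpa using (Subgroup.map_eq_bot_iff _).1 e)
  have : Nontrivial K' := (nontrivial_iff_ne_bot _).2 h1
  have h2 : IsPGroup p (ConjAct (G ⧸ N)) := hQ.of_equiv ConjAct.toConjAct
  obtain ⟨n, hn0, hn⟩ := (hQ.to_subgroup K').nontrivial_iff_card.1 inferInstance
  obtain ⟨b, hb, hb1⟩ := h2.exists_fixed_point_of_prime_dvd_card_of_fixed_point K'
    (hn ▸ dvd_pow_self p hn0.ne') (a := 1) (fun g => smul_one g)
  have hb2 : ∀ g : G ⧸ N, g * b * g⁻¹ = b := fun g =>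
    congrArg Subtype.val (hb (ConjAct.toConjAct g))
  have hb3 : (b : G ⧸ N) ≠ 1 := fun e => hb1 (Subtype.ext e).symm
  obtain ⟨k, hk⟩ := IsPGroup.iff_orderOf.1 hQ b
  obtain ⟨y, hy, hyb⟩ := b.2
  have hk0 : k ≠ 0 := by
    rintro rfl
    exact hb3 (orderOf_eq_one_iff.1 hk)
  obtain ⟨k, rfl⟩ := Nat.exists_eq_succ_of_ne_zero hk0
  have hy' : ((y ^ p ^ k : G) : G ⧸ N) = (b : G ⧸ N) ^ p ^ k := by
    rw [← hyb]; rfl
  refine ⟨y ^ p ^ k, K.pow_mem hy _, fun e => ?_, ?_, fun g => ?_⟩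
  · rw [← QuotientGroup.eq_one_iff, hy'] at e
    have := orderOf_dvd_of_pow_eq_one e
    rw [hk, Nat.pow_dvd_pow_iff_le_right hp.one_lt] at this
    omega
  · rw [← QuotientGroup.eq_one_iff, QuotientGroup.mk_pow, hy', ← pow_mul, ← pow_succ, ← hk,
      pow_orderOf_eq_one]
  · rw [← QuotientGroup.eq_one_iff]
    have hc : Commute (b : G ⧸ N) g := (mul_inv_eq_iff_eq_mul.1 (hb2 g)).symm
    have : ⁅((y ^ p ^ k : G) : G ⧸ N), (g : G ⧸ N)⁆ = 1 := by
      rw [hy']
      exact commutatorElement_eq_one_iff_commute.2 (hc.pow_left _)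
    exact this

theorem normal_sup_of_comm {N : Subgroup G} [N.Normal] {y : G} (h : ∀ g, ⁅y, g⁆ ∈ N) :
    (N ⊔ cl {y}).Normal :=
  normal_of_nz fun g => conj_mem_of_sup (fun s hs => mem_sup_left (Nz.of_normal g N s hs))
    (conj_mem_of_closure (by
      rintro _ rfl
      have : ∀ y : G, g * y * g⁻¹ = ⁅y, g⁆⁻¹ * y := fun y => by
        simp only [commutatorElement_def]; group
      rw [this]
      exact mul_mem (mem_sup_left (inv_mem (h g))) (mem_sup_right (sub_cl rfl))))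

end Pool.Agent.P.MP_9f774b_al
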