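import Mathlib

/-! A finite solvable group is determined by its Sylow subgroups and their actions on the
largest normal subgroups of prime power order. -/

open scoped IsMulCommutative Pointwise

namespace Pool.Agent.P.MP_9f774b_al

section Fitting

variable {G : Type} [Group G] [Finite G] {ι : Type} {pr : ι → ℕ} {P : ι → Subgroup G}

theorem det_top (hall : ∀ p : ℕ, p.Prime → p ∣ Nat.card G → ∃ i, pr i = p)
    (hP : ∀ i, Nat.card (P i) = pr i ^ (Nat.card G).factorization (pr i))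
    {H : Subgroup G} (hH : ∀ i, P i ≤ H) : H = ⊤ := by
  by_contra h
  obtain ⟨p, hp, hd⟩ := Nat.exists_prime_and_dvd (mt Subgroup.index_eq_one.1 h)
  obtain ⟨i, rfl⟩ := hall p hp (hd.trans H.index_dvd_card)
  have := Fact.mk hp
  exact (Sylow.ofCard (P i) (hP i)).not_dvd_index (hd.trans (Subgroup.index_dvd_of_le (hH i)))

theorem det_nilp (hall : ∀ p : ℕ, p.Prime → p ∣ Nat.card G → ∃ i, pr i = p)
    (hP : ∀ i, Nat.card (P i) = pr i ^ (Nat.card G).factorization (pr i))
    {A H : Subgroup G} [A.Normal] [Group.IsNilpotent A]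
    (hH : ∀ i, A ⊓ (P i).normalCore ≤ H) : A ≤ H := by
  rw [← Subgroup.subgroupOf_eq_top]
  by_contra h
  obtain ⟨p, hp, hd⟩ := Nat.exists_prime_and_dvd (mt Subgroup.index_eq_one.1 h)
  obtain ⟨i, rfl⟩ := hall p hp
    ((hd.trans (Subgroup.index_dvd_card _)).trans (Subgroup.card_subgroup_dvd_card A))
  have := Fact.mk hp
  obtain ⟨T⟩ : Nonempty (Sylow (pr i) A) := inferInstance
  have := T.characteristic_of_normal inferInstance
  have h1 : (T : Subgroup A).map A.subtype ≤ P i :=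
    (T.isPGroup'.map A.subtype).le_sylow_of_normal (Sylow.ofCard (P i) (hP i))
  have h2 : (T : Subgroup A).map A.subtype ≤ H :=
    (le_inf (Subgroup.map_subtype_le _) (Subgroup.normal_le_normalCore.2 h1)).trans (hH i)
  exact T.not_dvd_index
    (hd.trans (Subgroup.index_dvd_of_le (Subgroup.map_le_iff_le_comap.1 h2)))

theorem det_comm [Group.IsSolvable G]
    (hall : ∀ p : ℕ, p.Prime → p ∣ Nat.card G → ∃ i, pr i = p)
    (hP : ∀ i, Nat.card (P i) = pr i ^ (Nat.card G).factorization (pr i)) {a b : G}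
    (ha : ∀ i, ∀ y ∈ (P i).normalCore, y * a = a * y)
    (hb : ∀ i, ∀ y ∈ (P i).normalCore, y * b = b * y) : a * b = b * a := by
  let C : Subgroup G := ⨅ i, Subgroup.centralizer ((P i).normalCore : Set G)
  have : C.Normal := Subgroup.normal_iInf_normal fun i => inferInstance
  have key : ∀ A : Subgroup G, A.Normal → A ≤ C → A ≤ Subgroup.centralizer (C : Set G) := by
    intro A
    induction A using WellFoundedLT.induction with
    | ind A ih =>
      intro hA hAC
      rcases eq_or_ne A ⊥ with rfl | hne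
      · exact bot_le
      have h1 := ih _ (Group.IsSolvable.commutator_lt_of_ne_bot hne) inferInstance
        ((Subgroup.commutator_le_left A A).trans hAC)
      have : Group.IsNilpotent A := by
        refine Subgroup.isNilpotent_of_lowerCentralSeries_eq_bot (n := 2) ?_
        change ⁅⁅A, A⁆, A⁆ = ⊥
        rw [Subgroup.commutator_eq_bot_iff_le_centralizer]
        exact h1.trans (Subgroup.centralizer_le hAC)
      refine det_nilp hall hP fun i => inf_le_right.trans ?_
      exact Subgroup.le_centralizer_iff.1 (iInf_le _ i)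
  have ha' : a ∈ C := Subgroup.mem_iInf.2 fun i => ha i
  have hb' : b ∈ C := Subgroup.mem_iInf.2 fun i => hb i
  exact key C inferInstance le_rfl hb' a ha'

end Fitting

/-- transfer of the splitting cocycle -/
theorem det_transfer {E : Type} [Group E] [Finite E] (A S : Subgroup E) [A.Normal]
    [IsMulCommutative A] (hSA : ∀ x ∈ S, x ∈ A → x = 1) :
    ∃ Θ : E → A, (∀ x y, Θ (x * y) = Θ x * MulAut.conjNormal x (Θ y)) ∧
      (∀ a : A, Θ a = a ^ (A ⊔ S).index) ∧ ∀ x, (∀ e, e * x * e⁻¹ ∈ S) → Θ x = 1 := by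
  classical
  have := Fintype.ofFinite (E ⧸ (A ⊔ S))
  have hex : ∀ (x : E) (c : E ⧸ (A ⊔ S)),
      ∃ t : A, (x • c).out⁻¹ * (t : E)⁻¹ * x * c.out ∈ S := by
    intro x c
    have h1 : (x • c).out⁻¹ * (x * c.out) ∈ A ⊔ S := by
      rw [← QuotientGroup.eq, QuotientGroup.out_eq', ← smul_eq_mul,
        MulAction.Quotient.coe_smul_out]
    have h2 : (x • c).out⁻¹ * (x * c.out) ∈ (A : Set E) * (S : Set E) := by
      rw [← Subgroup.normal_mul]; exact h1
    obtain ⟨a, ha, s, hs, h3⟩ := h2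
    refine ⟨MulAut.conjNormal (x • c).out ⟨a, ha⟩, ?_⟩
    have h4 : s = a⁻¹ * ((x • c).out⁻¹ * (x * c.out)) := by
      rw [← h3]; simp only [inv_mul_cancel_left]
    rw [MulAut.conjNormal_apply]
    have hs' : s ∈ S := hs
    convert hs' using 1
    rw [h4]; group
  choose t ht using hex
  have huniq : ∀ (x : E) (c : E ⧸ (A ⊔ S)) (u : A),
      (x • c).out⁻¹ * (u : E)⁻¹ * x * c.out ∈ S → t x c = u := by
    intro x c u hu
    have h1 := S.mul_mem hu (S.inv_mem (ht x c))
    have h2 : (x • c).out⁻¹ * (u : E)⁻¹ * x * c.out *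
        ((x • c).out⁻¹ * (t x c : E)⁻¹ * x * c.out)⁻¹
        = (x • c).out⁻¹ * ((u : E)⁻¹ * t x c) * (x • c).out⁻¹⁻¹ := by group
    rw [h2] at h1
    have h3 := hSA _ h1 (Subgroup.Normal.conj_mem inferInstance _
      (A.mul_mem (A.inv_mem u.2) (t x c).2) _)
    rw [mul_inv_eq_one, mul_eq_left, inv_mul_eq_one] at h3
    exact Subtype.ext h3.symm
  have hfix : ∀ (x : E) (c : E ⧸ (A ⊔ S)), c.out⁻¹ * x⁻¹ * c.out ∈ A ⊔ S → x • c = c := by
    intro x c h
    rw [← MulAction.Quotient.coe_smul_out, smul_eq_mul]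
    conv_rhs => rw [← QuotientGroup.out_eq' c]
    rw [QuotientGroup.eq]
    convert h using 1
    group
  refine ⟨fun x => ∏ c, t x c, fun x y => ?_, fun a => ?_, fun x hx => ?_⟩
  · have h1 : ∀ c, t (x * y) c = MulAut.conjNormal x (t y c) * t x (y • c) := by
      intro c
      refine huniq _ _ _ ?_
      have := S.mul_mem (ht x (y • c)) (ht y c)
      rw [Subgroup.coe_mul, MulAut.conjNormal_apply, mul_smul]
      convert this using 1
      group
    simp only [h1, Finset.prod_mul_distrib, map_prod]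
    rw [mul_comm]
    congr 1
    exact Equiv.prod_comp (MulAction.toPerm y) (t x)
  · have h1 : ∀ c, t a c = a := by
      intro c
      have h2 : (a : E) • c = c := hfix _ _ (Subgroup.mem_sup_left (by
        simpa using Subgroup.Normal.conj_mem inferInstance _ (A.inv_mem a.2) c.out⁻¹))
      refine huniq _ _ _ ?_
      rw [h2]
      simp
    simp only [h1, Finset.prod_const, Finset.card_univ, Subgroup.index, Nat.card_eq_fintype_card]
  · refine Finset.prod_eq_one fun c _ => ?_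
    have h2 : x • c = c := hfix _ _ (Subgroup.mem_sup_right (by
      simpa [mul_assoc] using S.inv_mem (hx c.out⁻¹)))
    refine huniq _ _ _ ?_
    rw [h2]
    simpa using hx c.out⁻¹

theorem det_aux {ι : Type} [Fintype ι] (pr : ι → ℕ) (hpr : ∀ i, (pr i).Prime)
    (hinj : Function.Injective pr) (Q : ι → Type) [∀ i, Group (Q i)] (K : ∀ i, Subgroup (Q i))
    (G G' : Type) [Group G] [Group G'] [Finite G] [Finite G']
    (hcard : Nat.card G = Nat.card G')
    (hall : ∀ p : ℕ, p.Prime → p ∣ Nat.card G → ∃ i, pr i = p)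
    (E : Type) [Group E] [Finite E] (π : E →* G) (π' : E →* G') (s : ∀ i, Q i →* E)
    (hcomm : ∀ a b, π' a = 1 → π' b = 1 →
      (∀ i, ∀ y ∈ (π.comp (s i)).range.normalCore, y * π a = π a * y) →
      (∀ i, ∀ y ∈ (π.comp (s i)).range.normalCore, y * π b = π b * y) → π a * π b = π b * π a)
    (hcomm' : ∀ a b, π a = 1 → π b = 1 →
      (∀ i, ∀ y ∈ (π'.comp (s i)).range.normalCore, y * π' a = π' a * y) →
      (∀ i, ∀ y ∈ (π'.comp (s i)).range.normalCore, y * π' b = π' b * y) →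
      π' a * π' b = π' b * π' a)
    (hππ : ∀ x, π x = 1 → π' x = 1 → x = 1)
    (hf : ∀ i, Function.Injective (π.comp (s i)))
    (hf' : ∀ i, Function.Injective (π'.comp (s i)))
    (hQ : ∀ i, Nat.card (Q i) = pr i ^ (Nat.card G).factorization (pr i))
    (hK : ∀ i, (K i).map (π.comp (s i)) = (π.comp (s i)).range.normalCore)
    (hK' : ∀ i, (K i).map (π'.comp (s i)) = (π'.comp (s i)).range.normalCore)
    (act : ∀ (e : E) j, ∀ y ∈ K j, ∃ y₁ ∈ K j, s j y₁ = e * s j y * e⁻¹) :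
    Nonempty (G ≃* G') := by
  classical
  have hP : ∀ i, Nat.card (π.comp (s i)).range = pr i ^ (Nat.card G).factorization (pr i) :=
    fun i => by rw [← hQ i]; exact (Nat.card_congr (MonoidHom.ofInjective (hf i)).toEquiv).symm
  have hP' : ∀ i, Nat.card (π'.comp (s i)).range = pr i ^ (Nat.card G').factorization (pr i) :=
    fun i => by
      rw [← hcard, ← hQ i]; exact (Nat.card_congr (MonoidHom.ofInjective (hf' i)).toEquiv).symm
  have hall' : ∀ p : ℕ, p.Prime → p ∣ Nat.card G' → ∃ i, pr i = p := hcard ▸ hall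
  have hcen : ∀ e, π e = 1 → ∀ j, ∀ y ∈ K j, s j y * e = e * s j y := by
    intro e he j y hy
    obtain ⟨y₁, -, h⟩ := act e j y hy
    have h1 : y₁ = y := hf j (by simp [h, he])
    rw [h1] at h
    exact eq_mul_inv_iff_mul_eq.1 h
  have hcen' : ∀ e, π' e = 1 → ∀ j, ∀ y ∈ K j, s j y * e = e * s j y := by
    intro e he j y hy
    obtain ⟨y₁, -, h⟩ := act e j y hy
    have h1 : y₁ = y := hf' j (by simp [h, he])
    rw [h1] at h
    exact eq_mul_inv_iff_mul_eq.1 h
  have hC' : ∀ e, π e = 1 → ∀ i, ∀ y ∈ (π'.comp (s i)).range.normalCore,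
      y * π' e = π' e * y := by
    intro e he i y hy
    rw [← hK' i] at hy
    obtain ⟨z, hz, rfl⟩ := hy
    simpa using congrArg π' (hcen e he i z hz)
  have hC : ∀ e, π' e = 1 → ∀ i, ∀ y ∈ (π.comp (s i)).range.normalCore,
      y * π e = π e * y := by
    intro e he i y hy
    rw [← hK i] at hy
    obtain ⟨z, hz, rfl⟩ := hy
    simpa using congrArg π (hcen' e he i z hz)
  have : IsMulCommutative π.ker := ⟨⟨fun a b => Subtype.ext (by
    have ha : π a = 1 := a.2
    have hb : π b = 1 := b.2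
    have h := hcomm' a b ha hb (hC' a ha) (hC' b hb)
    rw [Subgroup.coe_mul, Subgroup.coe_mul, ← mul_inv_eq_one]
    refine hππ _ (by simp [ha, hb]) ?_
    rw [map_mul, map_inv, map_mul, map_mul, h, mul_inv_cancel])⟩⟩
  have hsurj : Function.Surjective π := by
    rw [← MonoidHom.range_eq_top]
    refine det_top hall hP fun i => ?_
    rintro _ ⟨x, rfl⟩
    exact ⟨s i x, rfl⟩
  have hSA : ∀ i, ∀ x ∈ (s i).range, x ∈ π.ker → x = 1 := by
    rintro i _ ⟨x, rfl⟩ hx
    have : x = 1 := hf i (by simpa using hx)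
    rw [this, map_one]
  choose Θ hΘ1 hΘ2 hΘ3 using fun i => det_transfer π.ker (s i).range (hSA i)
  let m : ι → ℕ := fun i => (π.comp (s i)).range.index
  have hm : ∀ i, (π.ker ⊔ (s i).range).index = m i := fun i => by
    rw [sup_comm, ← Subgroup.comap_map_eq, Subgroup.index_comap_of_surjective _ hsurj,
      MonoidHom.map_range]
  have hm1 : ∀ i, ¬ pr i ∣ m i := fun i =>
    haveI := Fact.mk (hpr i)
    (Sylow.ofCard _ (hP i)).not_dvd_index
  have hm2 : ∀ i j, i ≠ j → Nat.card (Q j) ∣ m i := fun i j hij => by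
    have h1 : Nat.card (Q j) ∣ Nat.card (π.comp (s i)).range * m i := by
      rw [Subgroup.card_mul_index, hQ j]
      exact Nat.ordProj_dvd _ _
    refine Nat.Coprime.dvd_of_dvd_mul_left ?_ h1
    rw [hQ j, hP i]
    exact Nat.Coprime.pow _ _ ((Nat.coprime_primes (hpr j) (hpr i)).2 (hinj.ne hij.symm))
  have hN : (Nat.card G).Coprime (∑ i, m i * m i) := by
    refine Nat.Coprime.symm (Nat.coprime_of_dvd fun p hp h1 h2 => ?_)
    obtain ⟨i, rfl⟩ := hall p hp h2
    rw [← Finset.add_sum_erase _ _ (Finset.mem_univ i)] at h1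
    have h3 : pr i ∣ Nat.card (Q i) := by
      rw [hQ i]
      exact dvd_pow_self _ (hp.factorization_pos_of_dvd Nat.card_pos.ne' h2).ne'
    have h4 : pr i ∣ ∑ k ∈ Finset.univ.erase i, m k * m k :=
      Finset.dvd_sum fun k hk =>
        (h3.trans (hm2 k i (Finset.ne_of_mem_erase hk))).mul_right _
    have h5 := (Nat.dvd_add_left h4).1 h1
    exact hm1 i ((hp.dvd_mul.1 h5).elim id id)
  let Φ : E → π.ker := fun x => ∏ i, Θ i x ^ m i
  have hΦ1 : ∀ x y, Φ (x * y) = Φ x * MulAut.conjNormal x (Φ y) := fun x y => by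
    simp only [Φ, hΘ1, mul_pow, Finset.prod_mul_distrib, map_prod, map_pow]
  have hΦ2 : ∀ a : π.ker, Φ a = a ^ ∑ i, m i * m i := fun a => by
    simp only [Φ, hΘ2, hm, ← pow_mul, Finset.prod_pow_eq_pow_sum]
  have hΦ3 : ∀ j, ∀ y ∈ K j, Φ (s j y) = 1 := by
    intro j y hy
    refine Finset.prod_eq_one fun i _ => ?_
    by_cases hij : i = j
    · subst hij
      rw [hΘ3 i _ fun e => ?_, one_pow]
      obtain ⟨y₁, -, h⟩ := act e i y hy
      exact ⟨y₁, h⟩
    have h1 : ∀ n : ℕ, Θ i (s j y ^ n) = Θ i (s j y) ^ n := by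
      intro n
      induction n with
      | zero => rw [pow_zero, pow_zero, hΘ3 i 1 fun e => by simp]
      | succ n ih =>
        rw [pow_succ', hΘ1, ih, pow_succ']
        congr 1
        refine Subtype.ext ?_
        rw [MulAut.conjNormal_apply, hcen _ (Θ i (s j y) ^ n).2 j y hy, mul_inv_cancel_right]
    obtain ⟨k, hk⟩ := hm2 i j hij
    rw [← h1, ← map_pow, hk, pow_mul, pow_card_eq_one', one_pow, map_one,
      hΘ3 i 1 fun e => by simp]
  have hpow : Function.Injective fun a : π.ker => a ^ ∑ i, m i * m i := by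
    refine (Nat.Coprime.pow_left_bijective (Nat.Coprime.coprime_dvd_left ?_ hN)).1
    rw [hcard]
    refine Subgroup.card_dvd_of_injective (π'.comp π.ker.subtype) ?_
    rw [injective_iff_map_eq_one]
    exact fun a ha => Subtype.ext (hππ _ a.2 ha)
  have hΦ0 : Φ 1 = 1 := by simpa using hΦ2 1
  let D : Subgroup E :=
    { carrier := {x | Φ x = 1}
      one_mem' := hΦ0
      mul_mem' := fun {x y} hx hy => by
        change Φ _ = 1 at *
        rw [hΦ1, hx, hy, map_one, mul_one]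
      inv_mem' := fun {x} hx => by
        change Φ _ = 1 at *
        have := hΦ1 x⁻¹ x
        rwa [inv_mul_cancel, hΦ0, hx, map_one, mul_one, eq_comm] at this }
  have hD1 : ∀ x ∈ D, π x = 1 → x = 1 := by
    intro x hx h
    have h1 : Φ x = 1 := hx
    have h2 := hΦ2 ⟨x, h⟩
    rw [h1] at h2
    have h3 : (⟨x, h⟩ : π.ker) = 1 := hpow (by simpa using h2.symm)
    exact congrArg Subtype.val h3
  have hD2 : ∀ g : G, ∃ x ∈ D, π x = g := by
    intro g
    obtain ⟨x, rfl⟩ := hsurj g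
    obtain ⟨a, ha⟩ := Finite.surjective_of_injective hpow (Φ x)⁻¹
    refine ⟨a * x, ?_, by rw [map_mul, show π a = 1 from a.2, one_mul]⟩
    change Φ _ = 1
    rw [hΦ1, hΦ2, MulAut.conjNormal_val, MulAut.conj_apply, mul_comm a, mul_inv_cancel_right]
    simp only at ha
    rw [ha, inv_mul_cancel]
  have hD3 : ∀ x ∈ D, π' x = 1 → x = 1 := by
    let N : Subgroup G := (π'.ker ⊓ D).map π
    have : N.Normal := ⟨by
      rintro _ ⟨x, hx, rfl⟩ g
      obtain ⟨e, he, rfl⟩ := hD2 g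
      exact ⟨e * x * e⁻¹, ⟨Subgroup.Normal.conj_mem inferInstance _ hx.1 _,
        D.mul_mem (D.mul_mem he hx.2) (D.inv_mem he)⟩, by simp⟩⟩
    have : IsMulCommutative N := ⟨⟨by
      rintro ⟨_, a, ha, rfl⟩ ⟨_, b, hb, rfl⟩
      exact Subtype.ext (hcomm a b ha.1 hb.1 (hC a ha.1) (hC b hb.1))⟩⟩
    have h1 : N ≤ ⊥ := by
      refine det_nilp hall hP fun i => ?_
      rintro _ ⟨⟨x, hx, rfl⟩, h2⟩
      rw [← hK i] at h2
      obtain ⟨y, hy, h3⟩ := h2
      have h4 : s i y * x⁻¹ = 1 := hD1 _ (D.mul_mem (hΦ3 i y hy) (D.inv_mem hx.2))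
        (by rw [map_mul, map_inv, mul_inv_eq_one]; exact h3)
      rw [mul_inv_eq_one] at h4
      have h5 : y = 1 := hf' i (by
        rw [map_one, MonoidHom.comp_apply, h4]; exact hx.1)
      rw [← h4, h5]
      simp
    intro x hx h
    exact hD1 x hx (Subgroup.mem_bot.1 (h1 ⟨x, ⟨h, hx⟩, rfl⟩))
  have e1 : D ≃* G := MulEquiv.ofBijective (π.comp D.subtype)
    ⟨(injective_iff_map_eq_one _).2 fun x hx => Subtype.ext (hD1 x x.2 hx),
      fun g => let ⟨x, hx, h⟩ := hD2 g; ⟨⟨x, hx⟩, h⟩⟩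
  have h2 : Function.Injective (π'.comp D.subtype) :=
    (injective_iff_map_eq_one _).2 fun x hx => Subtype.ext (hD3 x x.2 hx)
  have e2 : D ≃* G' := MulEquiv.ofBijective (π'.comp D.subtype)
    ((Nat.bijective_iff_injective_and_card _).2
      ⟨h2, (Nat.card_congr e1.toEquiv).trans hcard⟩)
  exact ⟨e1.symm.trans e2⟩

theorem det_iso_gen {ι : Type} [Fintype ι] (pr : ι → ℕ) (hpr : ∀ i, (pr i).Prime)
    (hinj : Function.Injective pr) (Q : ι → Type) [∀ i, Group (Q i)] (K : ∀ i, Subgroup (Q i))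
    (G G' : Type) [Group G] [Group G'] [Finite G] [Finite G']
    (hcard : Nat.card G = Nat.card G') (hall : ∀ p : ℕ, p.Prime → p ∣ Nat.card G → ∃ i, pr i = p)
    (f : ∀ i, Q i →* G) (f' : ∀ i, Q i →* G') (hf : ∀ i, Function.Injective (f i))
    (hf' : ∀ i, Function.Injective (f' i))
    (hQ : ∀ i, Nat.card (Q i) = pr i ^ (Nat.card G).factorization (pr i))
    (hK : ∀ i, (K i).map (f i) = (f i).range.normalCore)
    (hK' : ∀ i, (K i).map (f' i) = (f' i).range.normalCore)
    (act : ∀ i j (x : Q i) (y : K j), ∃ y₁ : K j,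
      f j y₁ = f i x * f j y * (f i x)⁻¹ ∧ f' j y₁ = f' i x * f' j y * (f' i x)⁻¹)
    (A : Type) [Group A] (Φ : G →* A) (Φ' : G' →* A) (hΦ : ∀ i x, Φ (f i x) = Φ' (f' i x))
    (hker : ∀ a b, Φ a = 1 → Φ b = 1 → (∀ i, ∀ y ∈ (f i).range.normalCore, y * a = a * y) →
      (∀ i, ∀ y ∈ (f i).range.normalCore, y * b = b * y) → a * b = b * a)
    (hker' : ∀ a b, Φ' a = 1 → Φ' b = 1 → (∀ i, ∀ y ∈ (f' i).range.normalCore, y * a = a * y) →
      (∀ i, ∀ y ∈ (f' i).range.normalCore, y * b = b * y) → a * b = b * a) :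
    Nonempty (G ≃* G') := by
  let E : Subgroup (G × G') :=
    { carrier := {e | Φ e.1 = Φ' e.2 ∧ ∀ j, ∀ y ∈ K j, ∃ y₁ ∈ K j,
        f j y₁ = e.1 * f j y * e.1⁻¹ ∧ f' j y₁ = e.2 * f' j y * e.2⁻¹}
      one_mem' := ⟨by simp, fun j y hy => ⟨y, hy, by simp, by simp⟩⟩
      mul_mem' := fun {a b} ha hb => ⟨by
        rw [Prod.fst_mul, Prod.snd_mul, map_mul, map_mul, ha.1, hb.1], fun j y hy => by
        obtain ⟨y₁, h1, h2, h3⟩ := hb.2 j y hy
        obtain ⟨y₂, h4, h5, h6⟩ := ha.2 j y₁ h1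
        refine ⟨y₂, h4, ?_, ?_⟩
        · rw [h5, h2, Prod.fst_mul]; group
        · rw [h6, h3, Prod.snd_mul]; group⟩
      inv_mem' := fun {a} ha => ⟨by
        rw [Prod.fst_inv, Prod.snd_inv, map_inv, map_inv, ha.1], fun j y hy => by
        have h0 : f j y ∈ (f j).range.normalCore := hK j ▸ Subgroup.mem_map_of_mem _ hy
        have h1 := Subgroup.Normal.conj_mem inferInstance _ h0 a.1⁻¹
        rw [← hK j] at h1
        obtain ⟨y₀, h2, h3⟩ := h1
        obtain ⟨y₁, -, h5, h6⟩ := ha.2 j y₀ h2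
        have h7 : y₁ = y := hf j (by rw [h5, h3]; group)
        refine ⟨y₀, h2, h3, ?_⟩
        rw [← h7, h6, Prod.snd_inv]; group⟩ }
  let s : ∀ i, Q i →* E := fun i => ((f i).prod (f' i)).codRestrict E fun x =>
    ⟨hΦ i x, fun j y hy => by
      obtain ⟨y₁, h⟩ := act i j x ⟨y, hy⟩
      exact ⟨y₁, y₁.2, h⟩⟩
  refine det_aux pr hpr hinj Q K G G' hcard hall E ((MonoidHom.fst G G').comp E.subtype)
    ((MonoidHom.snd G G').comp E.subtype) s (fun a b ha hb => hker _ _ ?_ ?_)
    (fun a b ha hb => hker' _ _ ?_ ?_) (fun x h1 h2 => Subtype.ext (Prod.ext h1 h2))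
    hf hf' hQ hK hK' fun e j y hy => ?_
  · exact a.2.1.trans (by rw [show a.1.2 = 1 from ha, map_one])
  · exact b.2.1.trans (by rw [show b.1.2 = 1 from hb, map_one])
  · exact a.2.1.symm.trans (by rw [show a.1.1 = 1 from ha, map_one])
  · exact b.2.1.symm.trans (by rw [show b.1.1 = 1 from hb, map_one])
  obtain ⟨y₁, h1, h2, h3⟩ := e.2.2 j y hy
  exact ⟨y₁, h1, Subtype.ext (Prod.ext h2 h3)⟩

end Pool.Agent.P.MP_9f774b_al
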