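import Pool.Agent.P.MP_9f774b_al.Lem
import Pool.Agent.P.MP_9f774b_al.AutP

/-!
Homomorphisms from a `p`-group to the automorphism group of a centreless group.
-/

set_option autoImplicit false

noncomputable section

namespace Pool.Agent.P.MP_9f774b_al

open Subgroup hiding closure subset_closure closure_union
open scoped Pointwise

section

variable {T : Type} [Group T]

/-- Automorphisms of `K` induced by members of `D`. -/
def indAut (D : Subgroup (MulAut T)) (K : Subgroup T) : Subgroup (MulAut K) where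
  carrier := {g | ∃ s ∈ D, ∀ x : K, (g x : T) = s x}
  one_mem' := ⟨1, D.one_mem, fun _ => rfl⟩
  mul_mem' := by
    rintro g h ⟨s, hs, e⟩ ⟨s', hs', e'⟩
    refine ⟨s * s', D.mul_mem hs hs', fun x => ?_⟩
    rw [MulAut.mul_apply, MulAut.mul_apply, e, e']
  inv_mem' := by
    rintro g ⟨s, hs, e⟩
    refine ⟨s⁻¹, D.inv_mem hs, fun x => ?_⟩
    have := e (g⁻¹ x)
    rw [MulAut.apply_inv_self] at this
    rw [this, MulAut.inv_apply_self]

theorem indAut_pgroup {p : ℕ} {D : Subgroup (MulAut T)} (hD : IsPGroup p D) (K : Subgroup T) :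
    IsPGroup p (indAut D K) := by
  rintro ⟨g, s, hs, e⟩
  obtain ⟨k, hk⟩ := hD ⟨s, hs⟩
  have hk' : s ^ p ^ k = 1 := congrArg Subtype.val hk
  have key : ∀ n : ℕ, ∀ x : K, ((g ^ n) x : T) = (s ^ n) x := by
    intro n
    induction n with
    | zero => intro x; rfl
    | succ n ih =>
      intro x
      rw [pow_succ, pow_succ, MulAut.mul_apply, MulAut.mul_apply, ih, e]
  refine ⟨k, Subtype.ext ?_⟩
  ext x
  change ((g ^ p ^ k) x : T) = x
  rw [key, hk']
  rfl

theorem exists_indAut (K : Subgroup T) (s : MulAut T) (h : s • K = K) :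
    ∃ g : MulAut K, ∀ x : K, (g x : T) = s x := by
  have h1 : ∀ x, x ∈ K ↔ s x ∈ K := fun x => by
    conv_rhs => rw [← h]
    exact (Subgroup.smul_mem_pointwise_smul_iff (a := s) (S := K) (x := x)).symm
  refine ⟨⟨⟨fun x => ⟨s x, (h1 x).1 x.2⟩, fun x => ⟨s⁻¹ x, (h1 _).2 ?_⟩, fun x => ?_, fun x => ?_⟩,
    fun x y => ?_⟩, fun _ => rfl⟩
  · rw [MulAut.apply_inv_self]; exact x.2
  · exact Subtype.ext (MulAut.inv_apply_self _ s x)
  · exact Subtype.ext (MulAut.apply_inv_self _ s x)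
  · exact Subtype.ext (map_mul s (x : T) y)

theorem eq_top_of_sylows [Finite T] (E : Subgroup T)
    (h : ∀ q : ℕ, q.Prime → q ∣ Nat.card T → ∃ R : Sylow q T, (R : Subgroup T) ≤ E) : E = ⊤ := by
  rw [← index_eq_one]
  by_contra h1
  obtain ⟨q, hq, hd⟩ := Nat.exists_prime_and_dvd h1
  obtain ⟨R, hR⟩ := h q hq (hd.trans E.index_dvd_card)
  have := Fact.mk hq
  exact R.not_dvd_index (hd.trans (index_dvd_of_le hR))

theorem card_sylow_le (G : Type) [Group G] [Finite G] {q : ℕ} (hq : q.Prime) :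
    Nat.card (Sylow q G) ≤ Nat.card G := by
  have := Fact.mk hq
  obtain ⟨R⟩ : Nonempty (Sylow q G) := inferInstance
  exact Nat.le_of_dvd Nat.card_pos (R.card_dvd_index.trans (Subgroup.index_dvd_card _))

theorem sum_logb_ordCompl {n p : ℕ} (hn : n ≠ 0) :
    ∑ q ∈ n.primeFactors.erase p, Real.logb 2 ((q ^ n.factorization q : ℕ) : ℝ) =
      Real.logb 2 (ordCompl[p] n : ℕ) := by
  have h0 : ordCompl[p] n ≠ 0 := (Nat.ordCompl_pos p hn).ne'
  have h1 := Nat.prod_factorization_pow_eq_self h0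
  rw [Nat.factorization_ordCompl, Finsupp.prod, Finsupp.support_erase,
    Nat.support_factorization] at h1
  rw [← h1, Nat.cast_prod, Real.logb_prod]
  · refine Finset.sum_congr rfl fun q hq => ?_
    rw [Finsupp.erase_ne (Finset.ne_of_mem_erase hq)]
  · intro q hq
    have := (Nat.prime_of_mem_primeFactors (Finset.mem_of_mem_erase hq)).pos
    positivity

/-- A `p`-group of automorphisms fixing a Sylow `p`-subgroup pointwise is small. -/
theorem bnd_fix [Finite T] {p : ℕ} (hp : p.Prime) (D : Subgroup (MulAut T)) (hD : IsPGroup p D)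
    (R : Sylow p T) (hR : ∀ s ∈ D, ∀ r ∈ R, s r = r) (t : ℕ) (hT : Nat.card T ≤ 2 ^ t) :
    Bnd (D : Set (MulAut T)) ((Nat.card T).primeFactors.card * t +
      Real.logb 2 (ordCompl[p] (Nat.card T) : ℕ) * (1 + Real.log (t + 1))) := by
  classical
  let ι := {q // q ∈ (Nat.card T).primeFactors.erase p}
  have hι : ∀ q : ι, (q : ℕ).Prime := fun q =>
    Nat.prime_of_mem_primeFactors (Finset.mem_of_mem_erase q.2)
  have hne : ∀ q : ι, p ≠ q := fun q => (Finset.ne_of_mem_erase q.2).symm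
  let K : ∀ q : ι, Sylow q T := fun q => Classical.choice inferInstance
  have hlog : 0 ≤ 1 + Real.log (t + 1) := by
    have : 0 ≤ Real.log ((t : ℝ) + 1) := Real.log_nonneg (by linarith [Nat.cast_nonneg (α := ℝ) t])
    linarith
  have b1 : Bnd {f : ∀ q : ι, Sylow q T | ∀ q, f q ∈ Set.univ} (∑ _q : ι, (t : ℝ)) :=
    Bnd.pi fun q => Bnd.of_card _ (cast_le_two_rpow ((card_sylow_le T (hι q)).trans hT))
  have b2 : Bnd {g : ∀ q : ι, MulAut (K q : Subgroup T) | ∀ q, g q ∈ (indAut D (K q) : Set _)}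
      (∑ q : ι, Real.logb 2 (Nat.card (K q : Subgroup T)) * (1 + Real.log (t + 1))) := by
    refine Bnd.pi fun q => Bnd.subgroup _ ?_
    have h1 := card_pSubgroup_mulAut_le p q hp (hι q) (hne q) (K q : Subgroup T) (K q).isPGroup'
      (indAut D (K q)) (indAut_pgroup hD _) t ((card_le_card_group _).trans hT)
    have h2 : (0 : ℝ) < Nat.card (indAut D (K q : Subgroup T)) := by exact_mod_cast Nat.card_pos
    exact (Real.logb_le_iff_le_rpow one_lt_two h2).1 h1
  have e2 : ∑ q : ι, Real.logb 2 (Nat.card (K q : Subgroup T)) * (1 + Real.log (t + 1)) =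
      Real.logb 2 (ordCompl[p] (Nat.card T) : ℕ) * (1 + Real.log (t + 1)) := by
    rw [← Finset.sum_mul, ← sum_logb_ordCompl Nat.card_pos.ne',
      ← Finset.sum_coe_sort ((Nat.card T).primeFactors.erase p)]
    congr 1
    refine Finset.sum_congr rfl fun q _ => ?_
    have := Fact.mk (hι q)
    rw [Sylow.card_eq_multiplicity]
  rw [e2] at b2
  have e1 : ∑ _q : ι, (t : ℝ) ≤ (Nat.card T).primeFactors.card * t := by
    rw [Finset.sum_const, nsmul_eq_mul, Finset.card_univ, Fintype.card_coe]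
    exact mul_le_mul_of_nonneg_right (Nat.cast_le.2 Finset.card_erase_le) (Nat.cast_nonneg t)
  refine (b1.bind (T := fun f => {s | s ∈ D ∧ ∀ q, s • K q = f q}) (U := (D : Set (MulAut T)))
    (fun f _ => ?_) fun s hs => ⟨fun q => s • K q, fun _ => trivial, hs, fun _ => rfl⟩).mono
    le_rfl (add_le_add e1 le_rfl)
  rcases Set.eq_empty_or_nonempty {s | s ∈ D ∧ ∀ q, s • K q = f q} with h | ⟨s₀, h0, h0'⟩
  · rw [h]
    obtain ⟨s, h1, -⟩ := b2
    exact ⟨∅, by simpa using Real.rpow_nonneg zero_le_two _, by simp⟩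
  refine b2.of_code (fun g s => ∀ q, ∀ x : (K q : Subgroup T), (g q x : T) = (s₀⁻¹ * s) x) ?_ ?_
  · rintro s ⟨h1, h2⟩
    have : ∀ q, ∃ g : MulAut (K q : Subgroup T), ∀ x, (g x : T) = (s₀⁻¹ * s) x := fun q => by
      apply exists_indAut
      rw [← Sylow.pointwise_smul_def, mul_smul, h2, ← h0', inv_smul_smul]
    choose g hg using this
    exact ⟨g, fun q => ⟨_, D.mul_mem (D.inv_mem h0) h1, hg q⟩, hg⟩
  · rintro g s s' ⟨h1, -⟩ ⟨h1', -⟩ e e'
    have : MonoidHom.eqLocus s.toMonoidHom s'.toMonoidHom = ⊤ := by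
      refine eq_top_of_sylows _ fun q hq hd => ?_
      rcases eq_or_ne q p with rfl | hqp
      · exact ⟨R, fun r hr => (hR s h1 r hr).trans (hR s' h1' r hr).symm⟩
      · let q' : ι := ⟨q, Finset.mem_erase.2 ⟨hqp, Nat.mem_primeFactors.2
          ⟨hq, hd, Nat.card_pos.ne'⟩⟩⟩
        refine ⟨K q', fun x hx => ?_⟩
        have h3 := (e q' ⟨x, hx⟩).symm.trans (e' q' ⟨x, hx⟩)
        rw [MulAut.mul_apply, MulAut.mul_apply] at h3
        exact s₀⁻¹.injective h3
    ext x
    have hx : x ∈ MonoidHom.eqLocus s.toMonoidHom s'.toMonoidHom := this ▸ trivial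
    exact hx

theorem conj_inj (hZ : Subgroup.center T = ⊥) {x y : T} (h : MulAut.conj x = MulAut.conj y) :
    x = y := by
  have h1 : y⁻¹ * x ∈ Subgroup.center T := by
    rw [Subgroup.mem_center_iff]
    intro g
    have h2 : x * g * x⁻¹ = y * g * y⁻¹ := DFunLike.congr_fun h g
    calc g * (y⁻¹ * x) = y⁻¹ * (y * g * y⁻¹) * x := by group
      _ = y⁻¹ * (x * g * x⁻¹) * x := by rw [h2]
      _ = y⁻¹ * x * g := by group
  rw [hZ, Subgroup.mem_bot, inv_mul_eq_one] at h1
  exact h1.symm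

theorem conj_apply_aut (s : MulAut T) (x : T) :
    MulAut.conj (s x) = s * MulAut.conj x * s⁻¹ := by
  ext y
  simp [MulAut.mul_apply]

end

theorem bnd_homT (p : ℕ) (hp : p.Prime) (T Q : Type) [Group T] [Finite T] [Group Q] [Finite Q]
    (hZ : Subgroup.center T = ⊥) (hQ : IsPGroup p Q) (t e : ℕ) (hT : Nat.card T ≤ 2 ^ t)
    (he : Nat.card Q ≤ 2 ^ e) :
    Bnd {φ : Q →* MulAut T | ∃ R : Sylow p T, ∀ r ∈ R, MulAut.conj r ∈ φ.range}
      (t ^ 2 + e ^ 2 + e * t + e * ((Nat.card T).primeFactors.card * t +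
        Real.logb 2 (ordCompl[p] (Nat.card T) : ℕ) * (1 + Real.log (t + 1)))) := by
  classical
  let gr : (Q →* MulAut T) → Subgroup (Q × T) := fun φ =>
    MonoidHom.eqLocus (φ.comp (MonoidHom.fst Q T)) (MulAut.conj.comp (MonoidHom.snd Q T))
  have hgr : ∀ φ x y, (x, y) ∈ gr φ ↔ φ x = MulAut.conj y := fun _ _ _ => Iff.rfl
  have b1 : Bnd (Set.univ : Set (Sylow p (MulAut T))) (t * t) :=
    Bnd.of_card _ ((Nat.cast_le.2 (card_sylow_le _ hp)).trans
      (card_mulAut_le hT (cast_le_two_rpow hT)))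
  have b2 := bnd_subgroups (G := Q × T) (B := ⊥) (e := e) (E := e + t) (by
    rw [Nat.card_prod, Nat.cast_mul, Real.rpow_add two_pos]
    exact mul_le_mul (cast_le_two_rpow he) (cast_le_two_rpow hT) (by positivity) (by positivity))
  obtain ⟨x, hx⟩ := exists_gens_top he
  refine ((b1.prod b2).bind (T := fun c => {φ | (∃ R : Sylow p T, ∀ r ∈ R,
    MulAut.conj r ∈ φ.range) ∧ φ.range ≤ c.1 ∧ gr φ = c.2})
    (E' := e * ((Nat.card T).primeFactors.card * t +
        Real.logb 2 (ordCompl[p] (Nat.card T) : ℕ) * (1 + Real.log (t + 1))))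
    (fun c _ => ?_) fun φ hφ => ?_).mono le_rfl (le_of_eq (by ring))
  · rcases Set.eq_empty_or_nonempty {φ : Q →* MulAut T | (∃ R : Sylow p T, ∀ r ∈ R,
      MulAut.conj r ∈ φ.range) ∧ φ.range ≤ c.1 ∧ gr φ = c.2} with h | ⟨φ₀, ⟨R, hR⟩, h1, h2⟩
    · rw [h]
      exact ⟨∅, by simpa using Real.rpow_nonneg zero_le_two _, by simp⟩
    let D : Subgroup (MulAut T) :=
      { carrier := {s | s ∈ c.1 ∧ ∀ r ∈ R, s r = r}
        one_mem' := ⟨one_mem _, fun _ _ => rfl⟩
        mul_mem' := fun {a b} ha hb => ⟨mul_mem ha.1 hb.1, fun r hr => by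
          rw [MulAut.mul_apply, hb.2 r hr, ha.2 r hr]⟩
        inv_mem' := fun {a} ha => ⟨inv_mem ha.1, fun r hr => by
          conv_lhs => rw [← ha.2 r hr]
          exact MulAut.inv_apply_self _ a r⟩ }
    have hD : IsPGroup p D := c.1.isPGroup'.to_le fun s hs => hs.1
    have b3 := Bnd.pi_const (ι := Fin e) (S := fun _ => (D : Set (MulAut T)))
      fun _ => bnd_fix hp D hD R (fun s hs => hs.2) t hT
    simp only [Nat.card_eq_fintype_card (α := Fin e), Fintype.card_fin] at b3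
    refine b3.of_injOn (fun φ i => (φ₀ (x i))⁻¹ * φ (x i)) (fun φ _ φ' _ h => ?_) ?_
    · refine MonoidHom.eq_of_eqOn_dense hx ?_
      rintro _ ⟨i, rfl⟩
      exact mul_left_cancel (congrFun h i)
    · rintro φ ⟨-, h3, h4⟩ i
      refine ⟨mul_mem (inv_mem (h1 ⟨_, rfl⟩)) (h3 ⟨_, rfl⟩), fun r hr => ?_⟩
      obtain ⟨l, hl⟩ := hR r hr
      have hl' : φ l = MulAut.conj r := by
        rw [← hgr, h4, ← h2, hgr, hl]
      have h5 : φ₀ (x i * l * (x i)⁻¹) = MulAut.conj (φ₀ (x i) r) := by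
        rw [conj_apply_aut, map_mul, map_mul, map_inv, hl]
      have h6 : φ (x i * l * (x i)⁻¹) = MulAut.conj (φ (x i) r) := by
        rw [conj_apply_aut, map_mul, map_mul, map_inv, hl']
      rw [← hgr, h2, ← h4, hgr, h6] at h5
      rw [MulAut.mul_apply, conj_inj hZ h5]
      exact MulAut.inv_apply_self _ _ r
  · obtain ⟨S, hS⟩ := (hQ.of_surjective _ φ.rangeRestrict_surjective).exists_le_sylow
    refine ⟨(S, gr φ), ⟨trivial, bot_le, ?_⟩, hφ, hS, rfl⟩
    rw [card_bot, mul_one]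
    refine le_trans (Nat.card_le_card_of_injective (fun z : gr φ => z.1.1) fun z z' h => ?_) he
    have h1 : φ z.1.1 = MulAut.conj z.1.2 := z.2
    have h2 : φ z'.1.1 = MulAut.conj z'.1.2 := z'.2
    have h3 : z.1.1 = z'.1.1 := h
    rw [h3, h2] at h1
    exact Subtype.ext (Prod.ext h3 (conj_inj hZ h1).symm)

end Pool.Agent.P.MP_9f774b_al
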