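import Pool.Agent.P.MP_9f774b_al.Lem

/-!
The layer of a finite group modulo the centre of the centraliser of its Fitting subgroup, and a
count of direct products of simple groups.
-/

set_option autoImplicit false

noncomputable section

namespace Pool.Agent.P.MP_9f774b_al

open Subgroup hiding closure subset_closure closure_union
open scoped commutatorElement Pointwise

variable {G : Type} [Group G]

theorem ly_up {K N H : Subgroup G} (hK : ⁅K, K⁆ = K) (hN : K ≤ normalizer (N : Set G))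
    (hH : H.IsSubnormal) : K ≤ H → ⁅N ⊓ H, K⁆ = ⊥ → ⁅N, K⁆ = ⊥ := by
  induction hH with
  | top => simp
  | step H H' hle _ hn ih =>
    intro h1 h2
    refine ih (h1.trans hle) ?_
    have h3 : H' ≤ normalizer (H : Set G) := (normal_subgroupOf_iff_le_normalizer hle).1 hn
    have h4 : ⁅N ⊓ H', K⁆ ≤ N ⊓ H := le_inf
      ((commutator_mono inf_le_left le_rfl).trans (le_normalizer_iff_commutator_le_left.1 hN))
      ((commutator_mono inf_le_right h1).trans (le_normalizer_iff_commutator_le_right.1 h3))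
    have h5 : ⁅⁅N ⊓ H', K⁆, K⁆ = ⊥ := le_bot_iff.1 (h2 ▸ commutator_mono h4 le_rfl)
    have h6 := commutator_commutator_eq_bot_of_rotate (H₁ := K) (H₂ := K) (H₃ := N ⊓ H')
      (by rwa [commutator_comm K]) h5
    rwa [hK, commutator_comm] at h6

theorem ly_simple {K L : Subgroup G} (hK : IsSimpleGroup K) (h : L ≤ K)
    (hn : K ≤ normalizer (L : Set G)) : L = ⊥ ∨ L = K := by
  rcases hK.eq_bot_or_eq_top_of_normal _ ((normal_subgroupOf_iff_le_normalizer h).2 hn) with e | e
  · left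
    rw [subgroupOf_eq_bot] at e
    exact e.eq_bot_of_le h
  · exact Or.inr (le_antisymm h (subgroupOf_eq_top.1 e))

/-- A component inside `B`. -/
def Comp (B K : Subgroup G) : Prop := K ≤ B ∧ K.IsSubnormal ∧ IsSimpleGroup K ∧ ⁅K, K⁆ ≠ ⊥

theorem Comp.perfect {B K : Subgroup G} (h : Comp B K) : ⁅K, K⁆ = K :=
  (ly_simple h.2.2.1 (commutator_le_self K) (normalizer_commutator_ge_left K K)).resolve_left
    h.2.2.2

theorem Comp.le_or {B K S : Subgroup G} (h : Comp B K) (hS : S.IsSubnormal) :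
    K ≤ S ∨ ⁅S, K⁆ = ⊥ := by
  induction hS with
  | top => simp
  | step S S' hle _ hn ih =>
    rcases ih with h1 | h1
    · have h3 : K ≤ normalizer (S : Set G) :=
        h1.trans ((normal_subgroupOf_iff_le_normalizer hle).1 hn)
      have h4 : K ≤ normalizer ((S ⊓ K : Subgroup G) : Set G) :=
        le_normalizer_iff_commutator_le_left.2 (le_inf
          ((commutator_mono inf_le_left le_rfl).trans (le_normalizer_iff_commutator_le_left.1 h3))
          ((commutator_mono inf_le_right le_rfl).trans (commutator_le_self K)))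
      rcases ly_simple h.2.2.1 inf_le_right h4 with e | e
      · exact Or.inr (ly_up h.perfect h3 h.2.1 le_rfl (by simp [e]))
      · exact Or.inl (inf_eq_right.1 e)
    · exact Or.inr (le_bot_iff.1 (h1 ▸ commutator_mono hle le_rfl))

theorem Comp.comm {B K K' : Subgroup G} (h : Comp B K) (h' : Comp B K') (hne : K ≠ K') :
    ⁅K', K⁆ = ⊥ := by
  rcases h.le_or h'.2.1 with h1 | h1
  · rcases h'.le_or h.2.1 with h2 | h2
    · exact absurd (le_antisymm h1 h2) hne
    · rwa [commutator_comm]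
  · exact h1

theorem ly_pgroup [Finite G] {p : ℕ} {H : Subgroup G} (hH : H.IsSubnormal) :
    ∀ P : Subgroup G, P ≤ H → IsPGroup p P → H ≤ normalizer (P : Set G) →
      ∃ M : Subgroup G, M.Normal ∧ IsPGroup p M ∧ P ≤ M := by
  induction hH with
  | top => exact fun P _ h1 h2 => ⟨P, normalizer_eq_top_iff.1 (top_le_iff.1 h2), h1, le_rfl⟩
  | step H H' hle _ hn ih =>
    intro P h0 h1 h2
    have h3 : H' ≤ normalizer (H : Set G) := (normal_subgroupOf_iff_le_normalizer hle).1 hn
    obtain ⟨Q, hPQ, hQ⟩ := exists_maximal_ge_of_wellFoundedGT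
      (fun Q : Subgroup G => Q ≤ H ∧ IsPGroup p Q ∧ H ≤ normalizer (Q : Set G)) P ⟨h0, h1, h2⟩
    obtain ⟨q1, q2, q3⟩ := hQ.prop
    obtain ⟨M, m1, m2, m3⟩ := ih Q (q1.trans hle) q2 fun x hx => Nz.mem fun u hu => by
      let Q' : Subgroup G := Q.map (MulAut.conj x).toMonoidHom
      have r1 : Q' ≤ H := by
        rintro _ ⟨y, hy, rfl⟩
        exact Nz.of_norm (h3 hx) y (q1 hy)
      have r3 : H ≤ normalizer (Q' : Set G) := fun h hh => Nz.mem (by
        rintro _ ⟨y, hy, rfl⟩
        have hx' : x⁻¹ * h * x⁻¹⁻¹ ∈ H := Nz.of_norm (h3 (inv_mem hx)) h hh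
        refine ⟨_, Nz.of_norm (q3 hx') y hy, ?_⟩
        simp [mul_assoc])
      have r4 : H ≤ normalizer ((Q ⊔ Q' : Subgroup G) : Set G) := fun h hh => Nz.mem
        (conj_mem_of_sup (fun s hs => mem_sup_left (Nz.of_norm (q3 hh) s hs))
          fun s hs => mem_sup_right (Nz.of_norm (r3 hh) s hs))
      have r5 := hQ.le_of_ge ⟨sup_le q1 r1, q2.to_sup_of_normal_left' (q2.map _) (r1.trans q3), r4⟩
        le_sup_left
      exact r5 (mem_sup_right ⟨u, hu, rfl⟩)
    exact ⟨M, m1, m2, hPQ.trans m3⟩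

theorem ly_min [Finite G] {D : Subgroup G} (hD : D.IsSubnormal) (h : D ≠ ⊥) :
    ∃ L : Subgroup G, L ≤ D ∧ L.IsSubnormal ∧ IsSimpleGroup L := by
  obtain ⟨L, h1, hL⟩ := exists_minimal_le_of_wellFoundedLT
    (fun L : Subgroup G => L.IsSubnormal ∧ L ≠ ⊥) D ⟨hD, h⟩
  have := (nontrivial_iff_ne_bot L).2 hL.prop.2
  refine ⟨L, h1, hL.prop.1, ⟨fun N hN => ?_⟩⟩
  by_cases h2 : N = ⊥
  · exact Or.inl h2
  · right
    have h3 := hL.le_of_le (y := N.map L.subtype) ⟨hN.isSubnormal.trans' hL.prop.1,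
      fun e => h2 ((map_eq_bot_iff_of_injective _ L.subtype_injective).1 e)⟩ (map_subtype_le N)
    refine top_le_iff.1 fun x _ => ?_
    obtain ⟨y, hy, e⟩ := h3 x.2
    rwa [← Subtype.ext e]

/-- The subgroup generated by the components inside `B`. -/
def layer (B : Subgroup G) : Subgroup G := sSup {K | Comp B K}

theorem layer_le (B : Subgroup G) : layer B ≤ B := sSup_le fun _ hK => hK.1

theorem Comp.conj {B K : Subgroup G} [hB : B.Normal] (h : Comp B K) (g : G) :
    Comp B (K.map (MulAut.conj g).toMonoidHom) := by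
  refine ⟨?_, h.2.1.map (MulAut.conj g).surjective, ?_, ?_⟩
  · rintro _ ⟨y, hy, rfl⟩
    exact hB.conj_mem y (h.1 hy) g
  · have := h.2.2.1
    exact (K.equivMapOfInjective _ (MulAut.conj g).injective).symm.isSimpleGroup
  · rw [← map_commutator]
    exact fun e => h.2.2.2 ((map_eq_bot_iff_of_injective _ (MulAut.conj g).injective).1 e)

theorem layer_normal (B : Subgroup G) [B.Normal] : (layer B).Normal :=
  normal_of_nz fun g => by
    have : layer B ≤ (layer B).comap (MulAut.conj g).toMonoidHom := sSup_le fun K hK =>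
      map_le_iff_le_comap.1 (le_sSup (Comp.conj hK g))
    exact this

theorem layer_cent [Finite G] (B : Subgroup G) [B.Normal]
    (hB : ∀ (p : ℕ) (M : Subgroup G), p.Prime → M.Normal → IsPGroup p M → M ≤ B → M = ⊥) :
    B ⊓ centralizer (layer B : Set G) = ⊥ := by
  by_contra h
  have := layer_normal B
  obtain ⟨L, h1, h2, h3⟩ := ly_min (Normal.isSubnormal inferInstance) h
  have h4 : ⁅L, L⁆ = ⊥ := by
    by_contra h4
    have h5 : L ≤ layer B := le_sSup ⟨h1.trans inf_le_left, h2, h3, h4⟩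
    exact h4 (commutator_eq_bot_iff_le_centralizer.2
      ((h1.trans inf_le_right).trans (centralizer_le h5)))
  obtain ⟨p, hp, hd⟩ := Nat.exists_prime_and_dvd (Finite.one_lt_card (α := L)).ne'
  have := Fact.mk hp
  obtain ⟨x, hx⟩ := exists_prime_orderOf_dvd_card' p hd
  have h5 : IsPGroup p (zpowers (x : G)) :=
    IsPGroup.of_card (n := 1) (by rw [Nat.card_zpowers, orderOf_coe, hx, pow_one])
  have h6 : zpowers (x : G) ≤ L := (zpowers_le_of_mem x.2)
  obtain ⟨M, m1, m2, m3⟩ := ly_pgroup h2 _ h6 h5 (le_normalizer_iff_commutator_le_left.2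
    ((commutator_mono h6 le_rfl).trans (h4.trans_le bot_le)))
  have h7 := hB p (M ⊓ B) hp inferInstance m2.to_inf_left inf_le_right
  have h8 : (x : G) ∈ M ⊓ B := ⟨m3 (mem_zpowers _), (h1 x.2).1⟩
  rw [h7, mem_bot, OneMemClass.coe_eq_one] at h8
  rw [h8, orderOf_one] at hx
  exact hp.one_lt.ne hx

/-- Direct products of `r` nontrivial members of the family `F`. -/
def SS (F : ∀ k : ℕ, Set (Group (Fin k))) : ℕ → Gp → Prop
  | 0 => fun T => Subsingleton T
  | r + 1 => fun T => ∃ k : ℕ, ∃ A ∈ F k, 2 ≤ k ∧ ∃ T' : Gp, SS F r T' ∧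
      Nonempty (T ≃* gpOf A × T')

theorem ly_prod {K U : Subgroup G} (h1 : ⁅U, K⁆ = ⊥) (h2 : K ⊓ U = ⊥) :
    Nonempty ((K ⊔ U : Subgroup G) ≃* K × U) := by
  have hc : ∀ (k : K) (u : U), Commute (K.subtype k) (U.subtype u) := fun k u =>
    (commutatorElement_eq_one_iff_commute.1
      (mem_bot.1 (h1 ▸ commutator_mem_commutator u.2 k.2))).symm
  let f := K.subtype.noncommCoprod U.subtype hc
  have hf : Function.Injective f := by
    rw [MonoidHom.noncommCoprod_injective]
    exact ⟨K.subtype_injective, U.subtype_injective, by simpa [disjoint_iff] using h2⟩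
  have hr : f.range = K ⊔ U := by
    rw [MonoidHom.noncommCoprod_range, range_subtype, range_subtype]
  exact ⟨((MonoidHom.ofInjective hf).trans (MulEquiv.subgroupCongr hr)).symm⟩

theorem layer_ss [Finite G] (F : ∀ k : ℕ, Set (Group (Fin k))) (B : Subgroup G)
    (hF : ∀ K, Comp B K → ∃ k : ℕ, ∃ A ∈ F k, Nonempty (K ≃* gpOf A)) :
    ∃ r, SS F r ⟨layer B⟩ := by
  classical
  have key : ∀ s : Finset (Subgroup G), (∀ K ∈ s, Comp B K) →
      SS F s.card ⟨(s.sup id : Subgroup G)⟩ := by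
    intro s
    induction s using Finset.induction_on with
    | empty => exact fun _ => (inferInstance : Subsingleton (⊥ : Subgroup G))
    | insert K s hK ih =>
      intro hs
      have h1 := hs K (Finset.mem_insert_self _ _)
      have h2 : ∀ K ∈ s, Comp B K := fun K' hK' => hs K' (Finset.mem_insert_of_mem hK')
      obtain ⟨k, A, hA, ⟨e⟩⟩ := hF K h1
      have h3 : ⁅s.sup id, K⁆ = ⊥ := commutator_eq_bot_iff_le_centralizer.2
        (Finset.sup_le fun K' hK' => commutator_eq_bot_iff_le_centralizer.1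
          (h1.comm (h2 K' hK') fun e => hK (e ▸ hK')))
      have h4 : ⁅K ⊓ s.sup id, K⁆ = ⊥ := le_bot_iff.1 (h3 ▸ commutator_mono inf_le_right le_rfl)
      have h5 : K ⊓ s.sup id = ⊥ := by
        refine (ly_simple h1.2.2.1 inf_le_left
          (le_normalizer_iff_commutator_le_left.2 (h4.trans_le bot_le))).resolve_right fun e => ?_
        rw [e] at h4
        exact h1.2.2.2 h4
      obtain ⟨e'⟩ := ly_prod h3 h5
      rw [Finset.card_insert_of_notMem hK, Finset.sup_insert]
      refine ⟨k, A, hA, ?_, _, ih h2, ⟨e'.trans (e.prodCongr (MulEquiv.refl _))⟩⟩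
      have := h1.2.2.1
      rw [← card_gpOf A, ← Nat.card_congr e.toEquiv]
      exact Finite.one_lt_card
  have h := key (Set.toFinite {K | Comp B K}).toFinset fun K hK => by simpa using hK
  rw [Finset.sup_id_eq_sSup, Set.Finite.coe_toFinset] at h
  exact ⟨_, h⟩

theorem cov_ss (F : ∀ k : ℕ, Set (Group (Fin k))) (C : ℕ)
    (hF : ∀ k, (F k).ncard ≤ k ^ (C * Nat.log 2 k)) (n : ℕ) : 0 < n →
    Cov (fun T => (∃ r, SS F r T) ∧ Nat.card T = n) ((C + 1) * Real.logb 2 n ^ 2) := by
  induction n using Nat.strong_induction_on with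
  | _ n ih =>
  intro hn
  rcases Nat.lt_or_ge 1 n with h1 | h1
  · have hn' : (0 : ℝ) < n := by exact_mod_cast hn
    have b1 : Bnd {k : ℕ | 2 ≤ k ∧ k ∣ n} (Real.logb 2 n) :=
      ⟨Finset.Icc 1 n, by simp [Real.rpow_logb two_pos (by norm_num) hn'], fun k hk => by
        simpa using ⟨le_trans one_le_two hk.1, Nat.le_of_dvd hn hk.2⟩⟩
    have := Cov.bind (E' := (C + 1) * Real.logb 2 n ^ 2 - Real.logb 2 n)
      (Q := fun k T => ∃ A ∈ F k, ∃ T' : Gp, ((∃ r, SS F r T') ∧ Nat.card T' = n / k) ∧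
        Nonempty (T ≃* gpOf A × T'))
      (P := fun T => (∃ r, SS F r T) ∧ Nat.card T = n) b1 ?_ ?_
    · simpa using this
    · rintro k ⟨hk, m, rfl⟩
      have hm : 0 < m := Nat.pos_of_mul_pos_left hn
      rw [Nat.mul_div_cancel_left m (by omega)]
      obtain ⟨S, s1, s2⟩ := ih m (by nlinarith) hm
      have hk' : (2 : ℝ) ≤ k := by exact_mod_cast hk
      have hm' : (1 : ℝ) ≤ m := by exact_mod_cast hm
      have a1 : 1 ≤ Real.logb 2 k := by
        rw [Real.le_logb_iff_rpow_le one_lt_two (by linarith)]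
        simpa using hk'
      have a2 : 0 ≤ Real.logb 2 m := Real.logb_nonneg one_lt_two hm'
      have b2 : Bnd (F k) (C * Real.logb 2 k ^ 2) := by
        refine Bnd.of_ncard (Set.toFinite _) (le_trans (Nat.cast_le.2 (hF k)) ?_)
        have a3 : (Nat.log 2 k : ℝ) ≤ Real.logb 2 k := by
          simpa using Real.natLog_le_logb k 2
        calc ((k ^ (C * Nat.log 2 k) : ℕ) : ℝ)
            = 2 ^ (Real.logb 2 k * ((C * Nat.log 2 k : ℕ) : ℝ)) := by
              rw [Real.rpow_mul zero_le_two, Real.rpow_logb two_pos (by norm_num) (by linarith),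
                Real.rpow_natCast, Nat.cast_pow]
          _ ≤ _ := by
              apply Real.rpow_le_rpow_of_exponent_le one_le_two
              push_cast
              have : (0 : ℝ) ≤ C * Real.logb 2 k := by positivity
              nlinarith
      refine ⟨_, ((b2.prod s1).image fun z => (⟨gpOf z.1 × z.2⟩ : Gp)).mono le_rfl ?_, ?_⟩
      · rw [Nat.cast_mul, Real.logb_mul (by linarith) (by linarith)]
        have : (0 : ℝ) ≤ C * (Real.logb 2 k * Real.logb 2 m) := by positivity
        nlinarith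
      · rintro T ⟨A, hA, T', hT', ⟨e⟩⟩
        obtain ⟨H, hH, ⟨e'⟩⟩ := s2 T' hT'
        exact ⟨_, ⟨(A, H), ⟨hA, hH⟩, rfl⟩, ⟨e.trans ((MulEquiv.refl _).prodCongr e')⟩⟩
    · rintro T ⟨⟨r, hr⟩, hT⟩
      cases r with
      | zero =>
        have : Subsingleton T := hr
        rw [Nat.card_of_subsingleton (1 : T)] at hT
        omega
      | succ r =>
        obtain ⟨k, A, hA, hk, T', hT', ⟨e⟩⟩ := hr
        rw [Nat.card_congr e.toEquiv, Nat.card_prod, card_gpOf] at hT
        exact ⟨k, ⟨hk, _, hT.symm⟩, A, hA, T', ⟨⟨r, hT'⟩, by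
          rw [← hT, Nat.mul_div_cancel_left _ (by omega)]⟩, ⟨e⟩⟩
  · obtain rfl : n = 1 := by omega
    refine (Cov.of_iso fun T T' hT hT' => ?_).mono (fun _ h => h) (by simp)
    have := (Nat.card_eq_one_iff_unique.1 hT.2).1
    have := (Nat.card_eq_one_iff_unique.1 hT'.2).1
    let := uniqueOfSubsingleton (1 : T)
    let := uniqueOfSubsingleton (1 : T')
    exact ⟨MulEquiv.ofUnique⟩

/-- The elements that centralise every normal subgroup of prime power order. -/
def cfit (G : Type) [Group G] : Subgroup G where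
  carrier := {a | ∀ (p : ℕ) (M : Subgroup G), p.Prime → M.Normal → IsPGroup p M →
    ∀ y ∈ M, y * a = a * y}
  one_mem' := fun _ _ _ _ _ _ _ => by simp
  mul_mem' := fun {a b} ha hb p M h1 h2 h3 y hy => by
    rw [← mul_assoc, ha p M h1 h2 h3 y hy, mul_assoc, hb p M h1 h2 h3 y hy, mul_assoc]
  inv_mem' := fun {a} ha p M h1 h2 h3 y hy =>
    (Commute.inv_right (ha p M h1 h2 h3 y hy)).eq

instance cfit_normal : (cfit G).Normal :=
  ⟨fun a ha g p M h1 h2 h3 y hy => by
    have := ha p M h1 h2 h3 _ (h2.conj_mem y hy g⁻¹)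
    calc y * (g * a * g⁻¹) = g * (g⁻¹ * y * g⁻¹⁻¹ * a) * g⁻¹ := by group
      _ = _ := by rw [this]; group⟩

/-- The centre of `cfit G`. -/
abbrev zfit (G : Type) [Group G] : Subgroup G := cfit G ⊓ centralizer (cfit G : Set G)

theorem zfit_pgroup [Finite G] (p : ℕ) (M : Subgroup (G ⧸ zfit G)) (hp : p.Prime) (hM : M.Normal)
    (h1 : IsPGroup p M) (h2 : M ≤ (cfit G).map (QuotientGroup.mk' (zfit G))) : M = ⊥ := by
  have := Fact.mk hp
  let π := QuotientGroup.mk' (zfit G)
  let A : Subgroup G := M.comap π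
  have hA : A ≤ cfit G := by
    have := comap_mono (f := π) h2
    rwa [comap_map_eq, QuotientGroup.ker_mk', sup_eq_left.2 inf_le_left] at this
  let f : A →* M := (π.comp A.subtype).codRestrict M fun x => x.2
  have hker : ∀ x : A, f x = 1 → (x : G) ∈ zfit G := fun x hx =>
    (QuotientGroup.eq_one_iff _).1 (congrArg Subtype.val hx)
  have := h1.isNilpotent
  have : Group.IsNilpotent A := Subgroup.isNilpotent_of_ker_le_center f fun x hx =>
    mem_center_iff.2 fun y => Subtype.ext ((hker x hx).2 y (hA y.2))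
  have h3 : A ≤ zfit G := by
    rw [← subgroupOf_eq_top]
    by_contra h
    obtain ⟨q, hq, hd⟩ := Nat.exists_prime_and_dvd (mt index_eq_one.1 h)
    have := Fact.mk hq
    obtain ⟨T⟩ : Nonempty (Sylow q A) := inferInstance
    have := T.characteristic_of_normal inferInstance
    have h4 : (T : Subgroup A).map A.subtype ≤ zfit G :=
      le_inf ((map_subtype_le _).trans hA) fun y hy a ha =>
        (ha q _ hq inferInstance (T.isPGroup'.map A.subtype) y hy).symm
    exact T.not_dvd_index (hd.trans (index_dvd_of_le (map_le_iff_le_comap.1 h4)))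
  rw [← map_comap_eq_self_of_surjective (QuotientGroup.mk'_surjective (zfit G)) M,
    Subgroup.map_eq_bot_iff, QuotientGroup.ker_mk']
  exact h3

theorem exists_layer (F : ∀ k : ℕ, Set (Group (Fin k))) (C : ℕ)
    (hF : ∀ k, (F k).ncard ≤ k ^ (C * Nat.log 2 k)) (t : ℕ) :
    ∃ S : Set Gp, Bnd S ((C + 3) * (t + 1) ^ 2) ∧
      (∀ T ∈ S, Finite T ∧ Nat.card T ≤ 2 ^ t ∧ Subgroup.center T = ⊥) ∧
      ∀ (G : Type) [Group G] [Finite G], CF F G →
        ∀ N : Subgroup G, N.Normal → IsPGroup 2 N → N.index ≤ 2 ^ t →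
        ∃ T ∈ S, Nat.card T ∣ Nat.card G ∧ ∃ Φ : G →* MulAut T,
          (∀ y : T, MulAut.conj y ∈ Φ.range) ∧
          ∀ a b, Φ a = 1 → Φ b = 1 →
            (∀ (p : ℕ) (M : Subgroup G), p.Prime → M.Normal → IsPGroup p M →
              ∀ y ∈ M, y * a = a * y ∧ y * b = b * y) → a * b = b * a := by
  have b1 : Bnd {n : ℕ | 0 < n ∧ n ≤ 2 ^ t} t :=
    ⟨Finset.Icc 1 (2 ^ t), by simp, fun k hk => Finset.mem_coe.2 (Finset.mem_Icc.2 hk)⟩
  have c1 := Cov.bind (E' := (C + 1) * (t : ℝ) ^ 2)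
    (P := fun T => (∃ r, SS F r T) ∧ Finite T ∧ Nat.card T ≤ 2 ^ t ∧ center T = ⊥) b1
    (fun n hn => (cov_ss F C hF n hn.1).mono (fun _ h => h) (by
      have h0 : (1 : ℝ) ≤ n := by exact_mod_cast hn.1
      have h1 : 0 ≤ Real.logb 2 n := Real.logb_nonneg one_lt_two h0
      have h2 : Real.logb 2 n ≤ t := by
        rw [Real.logb_le_iff_le_rpow one_lt_two (by linarith)]
        exact cast_le_two_rpow hn.2
      gcongr))
    fun T hT => ⟨_, ⟨by have := hT.2.1; exact Nat.card_pos, hT.2.2.1⟩, hT.1, rfl⟩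
  obtain ⟨S, s1, s2, s3⟩ := c1.reps
  refine ⟨S, s1.mono le_rfl (by
    have : (0 : ℝ) ≤ C * t := by positivity
    have : (0 : ℝ) ≤ t := by positivity
    have : (0 : ℝ) ≤ C := by positivity
    nlinarith), fun T hT => (s2 T hT).2, fun G _ _ hG N hN hN2 hNt => ?_⟩
  let π := QuotientGroup.mk' (zfit G)
  have hπ : Function.Surjective π := QuotientGroup.mk'_surjective _
  let B := (cfit G).map π
  have : B.Normal := Normal.map inferInstance _ hπ
  have := layer_normal B
  have h1 := layer_cent B (zfit_pgroup (G := G))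
  have h2 : ∃ r, SS F r ⟨layer B⟩ := layer_ss F B fun K hK => by
    let f : K.comap π →* K := (π.comp (K.comap π).subtype).codRestrict K fun x => x.2
    have hf : Function.Surjective f := fun y => by
      obtain ⟨x, hx⟩ := hπ y
      exact ⟨⟨x, by rw [mem_comap, hx]; exact y.2⟩, Subtype.ext hx⟩
    let e := QuotientGroup.quotientKerEquivOfSurjective f hf
    have := hK.2.2.1
    obtain ⟨k, A, hA, ⟨e'⟩⟩ := hG (K.comap π) f.ker (hK.2.1.comap π) e.isSimpleGroup (by
      by_contra h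
      push Not at h
      refine hK.2.2.2 (le_bot_iff.1 (commutator_le.2 fun x hx y hy => ?_))
      have h3 := congrArg (fun z => ((e z : K) : G ⧸ zfit G)) (h (e.symm ⟨x, hx⟩) (e.symm ⟨y, hy⟩))
      simp only [map_mul, MulEquiv.apply_symm_apply, coe_mul] at h3
      exact mem_bot.2 (commutatorElement_eq_one_iff_mul_comm.2 h3))
    exact ⟨k, A, hA, ⟨e.symm.trans (e' : _ ≃* gpOf A)⟩⟩
  have h3 : Nat.card (layer B) ≤ 2 ^ t := by
    have : (N.map π).Normal := hN.map _ hπ
    have h4 : N.map π ⊓ layer B = ⊥ := zfit_pgroup 2 _ Nat.prime_two inferInstance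
      (hN2.map π).to_inf_left (inf_le_right.trans (layer_le B))
    have h5 : Nat.card (layer B) ≤ (N.map π).index := by
      refine Nat.card_le_card_of_injective
        ((QuotientGroup.mk' (N.map π)).comp (layer B).subtype) ?_
      rw [injective_iff_map_eq_one]
      intro x hx
      have h6 : (x : G ⧸ zfit G) ∈ N.map π ⊓ layer B := ⟨(QuotientGroup.eq_one_iff _).1 hx, x.2⟩
      rw [h4] at h6
      exact Subtype.ext h6
    exact h5.trans ((Nat.le_of_dvd (Nat.pos_of_ne_zero index_ne_zero_of_finite)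
      (index_map_dvd N hπ)).trans hNt)
  have h4 : ∀ x ∈ B, (∀ y ∈ layer B, y * x = x * y) → x = 1 := fun x hx hc => by
    have h5 : x ∈ B ⊓ centralizer (layer B : Set (G ⧸ zfit G)) := ⟨hx, hc⟩
    rwa [h1] at h5
  obtain ⟨T, hT, ⟨e⟩⟩ := s3 ⟨layer B⟩ ⟨h2, (inferInstance : Finite (layer B)), h3,
    (eq_bot_iff_forall _).2 fun x hx => Subtype.ext (h4 _ (layer_le B x.2) fun y hy =>
      congrArg Subtype.val (mem_center_iff.1 hx ⟨y, hy⟩))⟩
  change layer B ≃* T at e
  refine ⟨T, hT, ?_, (MulAut.congr e).toMonoidHom.comp (MulAut.conjNormal.comp π), fun y => ?_,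
    fun a b ha _ hab => ?_⟩
  · rw [← Nat.card_congr e.toEquiv]
    exact (card_subgroup_dvd_card _).trans (card_quotient_dvd_card _)
  · obtain ⟨x, hx⟩ := hπ (e.symm y)
    refine ⟨x, ?_⟩
    ext z
    simp [hx, MulAut.conjNormal_val]
  · have ha' : a ∈ cfit G := fun p M q1 q2 q3 y hy => (hab p M q1 q2 q3 y hy).1
    have hb' : b ∈ cfit G := fun p M q1 q2 q3 y hy => (hab p M q1 q2 q3 y hy).2
    have h5 : MulAut.conjNormal (H := layer B) (π a) = 1 := (MulAut.congr e).map_eq_one_iff.1 ha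
    have h6 := h4 (π a) ⟨a, ha', rfl⟩ fun y hy => by
      have h7 := MulAut.conjNormal_apply (H := layer B) (π a) ⟨y, hy⟩
      rw [h5] at h7
      exact (mul_inv_eq_iff_eq_mul.1 h7.symm).symm
    exact (((QuotientGroup.eq_one_iff _).1 h6).2 b hb').symm

end Pool.Agent.P.MP_9f774b_al
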