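import Pool.Agent.P.MP_9f774b_al.Det
import Pool.Agent.P.MP_9f774b_al.HomT
import Pool.Agent.P.MP_9f774b_al.Layer

/-!
Counting groups of given order from their Sylow subgroups and the actions of these.
-/

set_option autoImplicit false

noncomputable section

namespace Pool.Agent.P.MP_9f774b_al

open Subgroup hiding closure subset_closure closure_union
open scoped Pointwise

/-- The elements of the kernel that centralise all normal subgroups of prime power order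
commute. -/
def KerAb {G A : Type} [Group G] [Group A] (Φ : G →* A) : Prop :=
  ∀ a b, Φ a = 1 → Φ b = 1 → (∀ (p : ℕ) (M : Subgroup G), p.Prime → M.Normal → IsPGroup p M →
    ∀ y ∈ M, y * a = a * y ∧ y * b = b * y) → a * b = b * a

/-- The data describe the group `G`. -/
def DetR {ι : Type} (Q : ι → Gp) (K : ∀ i, Subgroup (Q i)) (φ : ∀ i j, Q i →* MulAut (K j))
    (T : Gp) (ψ : ∀ i, Q i →* MulAut T) (G : Gp) : Prop :=
  ∃ f : ∀ i, Q i →* G, (∀ i, Function.Injective (f i)) ∧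
    (∀ i, (K i).map (f i) = (f i).range.normalCore) ∧
    (∀ i j x y, f j (φ i j x y) = f i x * f j y * (f i x)⁻¹) ∧
    ∃ Φ : G →* MulAut T, (∀ i x, Φ (f i x) = ψ i x) ∧ KerAb Φ

theorem card_range_inj {Q G : Type} [Group Q] [Group G] {f : Q →* G}
    (hf : Function.Injective f) : Nat.card f.range = Nat.card Q :=
  (Nat.card_congr (MonoidHom.ofInjective hf).toEquiv).symm

theorem KerAb.ker {G A : Type} [Group G] [Finite G] [Group A] {Φ : G →* A} (h : KerAb Φ)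
    {s : Finset ℕ} (hs' : (Nat.card G).primeFactors ⊆ s) {Q : s → Gp} (f : ∀ i, Q i →* G)
    (hf : ∀ i, Function.Injective (f i))
    (hQ : ∀ i, Nat.card (Q i) = (i : ℕ) ^ (Nat.card G).factorization i) (a b : G)
    (ha : Φ a = 1) (hb : Φ b = 1) (ha' : ∀ i, ∀ y ∈ (f i).range.normalCore, y * a = a * y)
    (hb' : ∀ i, ∀ y ∈ (f i).range.normalCore, y * b = b * y) : a * b = b * a := by
  refine h a b ha hb fun p M hp hM h1 y hy => ?_
  have := Fact.mk hp
  rcases h1.card_eq_or_dvd with h2 | h2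
  · rw [card_eq_one] at h2
    rw [h2, mem_bot] at hy
    simp [hy]
  · let i : s := ⟨p, hs' (Nat.mem_primeFactors.2
      ⟨hp, h2.trans (card_subgroup_dvd_card M), Nat.card_pos.ne'⟩)⟩
    have h3 : M ≤ (f i).range := h1.le_sylow_of_normal
      (Sylow.ofCard (f i).range ((card_range_inj (hf i)).trans (hQ i)))
    have h4 := normal_le_normalCore.2 h3 hy
    exact ⟨ha' i y h4, hb' i y h4⟩

theorem detR_iso {n : ℕ} (hn : 0 < n) {s : Finset ℕ} (hs : ∀ p ∈ s, p.Prime)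
    (hs' : n.primeFactors ⊆ s) {Q : s → Gp} {K : ∀ i, Subgroup (Q i)}
    {φ : ∀ i j, Q i →* MulAut (K j)} {T : Gp} {ψ : ∀ i, Q i →* MulAut T}
    (hQ : ∀ i, Nat.card (Q i) = (i : ℕ) ^ n.factorization i) {G G' : Gp}
    (hG : Nat.card G = n) (hG' : Nat.card G' = n) (h : DetR Q K φ T ψ G)
    (h' : DetR Q K φ T ψ G') : Nonempty (G ≃* G') := by
  obtain ⟨f, h1, h2, h3, Φ, h4, h5⟩ := h
  obtain ⟨f', h1', h2', h3', Φ', h4', h5'⟩ := h'
  have : Finite G := Nat.finite_of_card_ne_zero (by omega)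
  have : Finite G' := Nat.finite_of_card_ne_zero (by omega)
  refine det_iso_gen (ι := s) Subtype.val (fun i => hs _ i.2) Subtype.val_injective
    (fun i => Q i) K G G' (hG.trans hG'.symm)
    (fun p hp hd => ⟨⟨p, hs' (Nat.mem_primeFactors.2 ⟨hp, hG ▸ hd, hn.ne'⟩)⟩, rfl⟩) f f' h1 h1'
    (hG ▸ hQ) h2 h2' (fun i j x y => ⟨_, h3 i j x y, h3' i j x y⟩) _ Φ Φ'
    (fun i x => (h4 i x).trans (h4' i x).symm)
    (h5.ker (hG ▸ hs') f h1 (hG ▸ hQ)) (h5'.ker (hG' ▸ hs') f' h1' (hG' ▸ hQ))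

theorem exists_sylow_conj {G T : Type} [Group G] [Finite G] [Group T] [Finite T] {p : ℕ}
    [Fact p.Prime] (Φ : G →* MulAut T) (h : ∀ y : T, MulAut.conj y ∈ Φ.range) (P : Sylow p G) :
    ∃ R : Sylow p T, ∀ r ∈ R, MulAut.conj r ∈ (P : Subgroup G).map Φ := by
  obtain ⟨R⟩ : Nonempty (Sylow p T) := inferInstance
  let c : T →* Φ.range := MulAut.conj.codRestrict _ h
  obtain ⟨P', hP'⟩ := (R.isPGroup'.map c).exists_le_sylow
  obtain ⟨g, hg⟩ := MulAction.exists_smul_eq Φ.range P'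
    (P.mapSurjective Φ.rangeRestrict_surjective)
  refine ⟨(g : MulAut T) • R, fun r hr => ?_⟩
  obtain ⟨r₀, h0, rfl⟩ : r ∈ ((g : MulAut T) • (R : Subgroup T)) := hr
  have h1 : MulAut.conj g • c r₀ ∈ ((g • P' : Sylow p Φ.range) : Subgroup Φ.range) :=
    smul_mem_pointwise_smul _ _ _ (hP' ⟨r₀, h0, rfl⟩)
  rw [hg] at h1
  obtain ⟨x, hx, e⟩ := h1
  refine ⟨x, hx, (congrArg Subtype.val e).trans ?_⟩
  ext z
  simp [c]

theorem det_cov {n : ℕ} (hn : 0 < n) {s : Finset ℕ} (hs : ∀ p ∈ s, p.Prime)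
    (hs' : n.primeFactors ⊆ s) (P : Gp → Prop) (hP : ∀ G, P G → Nat.card G = n)
    (Ep EK Eψ : ℕ → ℝ) (Eφ : ℕ → ℕ → ℝ) (ES : ℝ) (S : Set Gp)
    (U : ℕ → ∀ Q : Gp, Set (Subgroup Q))
    (hE : ∀ p ∈ s, Cov (fun Q => Nat.card Q = p ^ n.factorization p) (Ep p))
    (hK : ∀ p ∈ s, ∀ Q : Gp, Nat.card Q = p ^ n.factorization p → Bnd (U p Q) (EK p))
    (hφ : ∀ p ∈ s, ∀ q ∈ s, p ≠ q → ∀ Q Q' : Gp, Nat.card Q = p ^ n.factorization p →
      Nat.card Q' = q ^ n.factorization q → ∀ K ∈ U q Q',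
        Bnd (Set.univ : Set (Q →* MulAut K)) (Eφ p q))
    (hφ' : ∀ p ∈ s, 0 ≤ Eφ p p) (hS : Bnd S ES) (hS' : ∀ T ∈ S, Finite T)
    (hψ : ∀ p ∈ s, ∀ Q : Gp, Nat.card Q = p ^ n.factorization p → ∀ T ∈ S, Nat.card T ∣ n →
      Bnd {φ : Q →* MulAut T | ∃ R : Sylow p T, ∀ r ∈ R, MulAut.conj r ∈ φ.range} (Eψ p))
    (ex1 : ∀ G, P G → ∀ p ∈ s, ∀ (Q : Gp) (f : Q →* G), Function.Injective f →
      Nat.card Q = p ^ n.factorization p → f.range.normalCore.comap f ∈ U p Q)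
    (ex2 : ∀ G, P G → ∃ T ∈ S, Nat.card T ∣ Nat.card G ∧ ∃ Φ : G →* MulAut T,
      (∀ y : T, MulAut.conj y ∈ Φ.range) ∧ KerAb Φ) :
    Cov P (∑ p ∈ s, Ep p + (∑ p ∈ s, EK p + (∑ p ∈ s, ∑ q ∈ s, Eφ p q + (ES + ∑ p ∈ s, Eψ p)))) := by
  choose V hV1 hV2 hV3 using fun i : s => (hE i i.2).reps
  let W : ∀ (Q : s → Gp) (K : ∀ i, Subgroup (Q i)) (i j : s), Set (Q i →* MulAut (K j)) :=
    fun Q K i j => {φ | ∀ h : i = j, ∀ x y, (φ x y : Q j) = (h ▸ x) * y * (h ▸ x)⁻¹}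
  let X : ∀ (Q : s → Gp) (T : Gp) (i : s), Set (Q i →* MulAut T) :=
    fun Q T i => {φ | ∃ R : Sylow i T, ∀ r ∈ R, MulAut.conj r ∈ φ.range}
  simp only [← Finset.sum_coe_sort s]
  refine Cov.bind (Q := fun Q G => P G ∧ ∃ K, (∀ i : s, K i ∈ U i (Q i)) ∧ ∃ φ,
    (∀ i j, φ i j ∈ W Q K i j) ∧ ∃ T, (T ∈ S ∧ Nat.card T ∣ n) ∧ ∃ ψ, (∀ i, ψ i ∈ X Q T i) ∧
      DetR Q K φ T ψ G) (Bnd.pi hV1) (fun Q hQ => ?_) fun G hG => ?_
  · have hQ' := fun i => hV2 i _ (hQ i)
    refine Cov.bind (Q := fun K G => P G ∧ ∃ φ,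
      (∀ i j, φ i j ∈ W Q K i j) ∧ ∃ T, (T ∈ S ∧ Nat.card T ∣ n) ∧ ∃ ψ, (∀ i, ψ i ∈ X Q T i) ∧
        DetR Q K φ T ψ G) (Bnd.pi fun i => hK i i.2 (Q i) (hQ' i)) (fun K hK' => ?_)
      fun G ⟨h1, K, h2, h3⟩ => ⟨K, h2, h1, h3⟩
    refine Cov.bind (T := {φ : ∀ i j, Q i →* MulAut (K j) |
        ∀ i, φ i ∈ {φ' : ∀ j, Q i →* MulAut (K j) | ∀ j, φ' j ∈ W Q K i j}})
      (Q := fun φ G => P G ∧ ∃ T, (T ∈ S ∧ Nat.card T ∣ n) ∧ ∃ ψ,
      (∀ i, ψ i ∈ X Q T i) ∧ DetR Q K φ T ψ G) (Bnd.pi fun i => Bnd.pi fun j => ?_)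
      (fun φ _ => ?_) fun G ⟨h1, φ, h2, h3⟩ => ⟨φ, h2, h1, h3⟩
    · rcases eq_or_ne i j with rfl | hij
      · refine (Bnd.subsingleton fun φ h1 φ' h2 => ?_).mono le_rfl (hφ' i i.2)
        ext x y
        exact (h1 rfl x y).trans (h2 rfl x y).symm
      · exact (hφ i i.2 j j.2 (fun e => hij (Subtype.ext e)) _ _ (hQ' i) (hQ' j) _ (hK' j)).mono
          (Set.subset_univ _) le_rfl
    refine Cov.bind (T := {T | T ∈ S ∧ Nat.card T ∣ n})
      (Q := fun T G => P G ∧ ∃ ψ, (∀ i, ψ i ∈ X Q T i) ∧ DetR Q K φ T ψ G)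
      (hS.mono (fun _ h => h.1) le_rfl) (fun T hT => ?_) fun G ⟨h1, T, h2, h3⟩ => ⟨T, h2, h1, h3⟩
    refine Cov.of_code (Bnd.pi fun i => hψ i i.2 (Q i) (hQ' i) T hT.1 hT.2)
      (fun ψ G => DetR Q K φ T ψ G) (fun G h => h.2) fun ψ G G' h1 h2 h3 h4 =>
        detR_iso hn hs hs' hQ' (hP G h1.1) (hP G' h2.1) h3 h4
  · have hc := hP G hG
    have : Finite G := Nat.finite_of_card_ne_zero (by omega)
    have hp : ∀ i : s, Fact (i : ℕ).Prime := fun i => ⟨hs i i.2⟩
    have R : ∀ i : s, Sylow i G := fun i => Classical.arbitrary _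
    choose Q hQ e using fun i : s => hV3 i ⟨(R i : Subgroup G)⟩ (hc ▸ (R i).card_eq_multiplicity)
    have e' : ∀ i, Q i ≃* (R i : Subgroup G) := fun i => (e i).some.symm
    let f : ∀ i, Q i →* G := fun i => (R i : Subgroup G).subtype.comp (e' i).toMonoidHom
    have hf : ∀ i, Function.Injective (f i) := fun i =>
      (subtype_injective _).comp (e' i).injective
    have hr : ∀ i, (f i).range = R i := fun i => by
      rw [MonoidHom.range_comp, MonoidHom.range_eq_top_of_surjective _ (e' i).surjective,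
        ← MonoidHom.range_eq_map, range_subtype]
    let K : ∀ i, Subgroup (Q i) := fun i => (f i).range.normalCore.comap (f i)
    have hK' : ∀ i, (K i).map (f i) = (f i).range.normalCore := fun i =>
      map_comap_eq_self (normalCore_le _)
    let ε : ∀ i, K i ≃* (f i).range.normalCore := fun i =>
      ((K i).equivMapOfInjective _ (hf i)).trans (MulEquiv.subgroupCongr (hK' i))
    have hε : ∀ i y, (ε i y : G) = f i y := fun _ _ => rfl
    let φ : ∀ i j, Q i →* MulAut (K j) := fun i j =>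
      (MulAut.congr (ε j).symm).toMonoidHom.comp (MulAut.conjNormal.comp (f i))
    have hφ2 : ∀ i j x y, f j (φ i j x y) = f i x * f j y * (f i x)⁻¹ := fun i j x y => by
      rw [← hε, ← hε]
      simp [φ]
    obtain ⟨T, hT, hd, Φ, h1, h2⟩ := ex2 G hG
    have := hS' T hT
    refine ⟨Q, hQ, hG, K, fun i : s => ex1 G hG i i.2 _ _ (hf i) (hV2 i _ (hQ i)), φ, ?_, T,
      ⟨hT, hc ▸ hd⟩, fun i => Φ.comp (f i), fun i => ?_, f, hf, hK', hφ2, Φ, fun _ _ => rfl, h2⟩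
    · rintro i j rfl x y
      apply hf i
      rw [hφ2, map_mul, map_mul, map_inv]
    · obtain ⟨R', hR'⟩ := exists_sylow_conj Φ h1 (R i)
      exact ⟨R', fun r h => by rw [MonoidHom.range_comp, hr]; exact hR' r h⟩

theorem bnd_hom_pq {p q : ℕ} (hp : p.Prime) (hq : q.Prime) (hpq : p ≠ q) {Q K : Type} [Group Q]
    [Finite Q] [Group K] [Finite K] (hQ : IsPGroup p Q) (hK : IsPGroup q K) {e m : ℕ}
    (he : Nat.card Q ≤ 2 ^ e) (hm : Nat.card K ≤ 2 ^ m) {A : ℝ}
    (hA : (Nat.card (MulAut K) : ℝ) ≤ 2 ^ A) :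
    Bnd (Set.univ : Set (Q →* MulAut K))
      (A + e * (Real.logb 2 (Nat.card K) * (1 + Real.log (m + 1)))) := by
  have := Fact.mk hp
  obtain ⟨R⟩ : Nonempty (Sylow p (MulAut K)) := inferInstance
  have h1 : Nat.card (Sylow p (MulAut K)) ≤ Nat.card (MulAut K) :=
    Nat.le_of_dvd Nat.card_pos (R.card_dvd_index.trans (index_dvd_card _))
  have h2 := Bnd.of_card (Set.univ : Set (Sylow p (MulAut K))) ((Nat.cast_le.2 h1).trans hA)
  refine h2.bind (T := fun R : Sylow p (MulAut K) => {f | ∀ x, f x ∈ ((R : Subgroup (MulAut K)) : Set (MulAut K))})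
    (fun R _ => bnd_hom he (Bnd.subgroup _ ?_)) fun f _ => ?_
  · rw [← Real.logb_le_iff_le_rpow one_lt_two (by exact_mod_cast Nat.card_pos)]
    exact card_pSubgroup_mulAut_le p q hp hq hpq K hK _ R.isPGroup' m hm
  · obtain ⟨R, hR⟩ := (hQ.of_surjective _ f.rangeRestrict_surjective).exists_le_sylow
    exact ⟨R, trivial, fun x => hR ⟨x, rfl⟩⟩

theorem logb_le_of_le {k m : ℕ} (h : k ≤ 2 ^ m) : Real.logb 2 k ≤ m := by
  rcases Nat.eq_zero_or_pos k with rfl | hk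
  · simp
  · rw [Real.logb_le_iff_le_rpow one_lt_two (by exact_mod_cast hk)]
    exact cast_le_two_rpow h

theorem logb_nat_nonneg (k : ℕ) : 0 ≤ Real.logb 2 k := by
  rcases Nat.eq_zero_or_pos k with rfl | hk
  · simp
  · exact Real.logb_nonneg one_lt_two (by exact_mod_cast hk)

theorem le_two_rpow_logb (k : ℕ) : (k : ℝ) ≤ 2 ^ Real.logb 2 k := by
  rcases Nat.eq_zero_or_pos k with rfl | hk
  · simp
  · rw [Real.rpow_logb two_pos (by norm_num) (by exact_mod_cast hk)]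

theorem logb_nat_mono {j k : ℕ} (h : j ≤ k) : Real.logb 2 j ≤ Real.logb 2 k := by
  rcases Nat.eq_zero_or_pos j with rfl | hj
  · simpa using logb_nat_nonneg k
  · exact Real.logb_le_logb_of_le one_lt_two (by exact_mod_cast hj) (by exact_mod_cast h)

theorem clog_le_two_logb (k : ℕ) : (Nat.clog 2 k : ℝ) ≤ 2 * Real.logb 2 k := by
  rcases Nat.lt_or_ge 1 k with hk | hk
  · have h1 := Nat.pow_pred_clog_lt_self one_lt_two hk
    have h2 := logb_nat_mono h1.le
    have h3 := logb_nat_mono (show 2 ≤ k from hk)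
    have h4 := Nat.clog_pos one_lt_two hk
    rw [Nat.cast_pow, Real.logb_pow, Nat.pred_eq_sub_one, Nat.cast_sub h4] at h2
    simp only [Nat.cast_ofNat, Real.logb_self_eq_one one_lt_two, Nat.cast_one] at h2 h3
    linarith
  · rw [Nat.clog_of_right_le_one hk]
    simpa using logb_nat_nonneg k

theorem pgroup_of_card {p k : ℕ} (hp : p.Prime) {Q : Gp} (h : Nat.card Q = p ^ k) :
    Finite Q ∧ IsPGroup p Q :=
  ⟨Nat.finite_of_card_ne_zero (h ▸ pow_ne_zero _ hp.ne_zero), IsPGroup.of_card h⟩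

theorem cov_detA (F : ∀ k : ℕ, Set (Group (Fin k))) (C : ℕ)
    (hF : ∀ k, (F k).ncard ≤ k ^ (C * Nat.log 2 k)) (n m σ : ℕ) (hn : 0 < n) (hm : n ≤ 2 ^ m)
    (hσ : ordCompl[2] n ≤ 2 ^ σ) (Ep : ℕ → ℝ)
    (hE : ∀ p ∈ n.primeFactors, Cov (fun Q => Nat.card Q = p ^ n.factorization p) (Ep p)) :
    Cov (fun G => Nat.card G = n ∧ CF F G)
      (∑ p ∈ n.primeFactors, Ep p + 30 * ((n.primeFactors.card + C + 1) * (m + 1) ^ 2 +
        σ * (m + 1) * (1 + Real.log (m + 1)))) := by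
  obtain ⟨S, s1, s2, s3⟩ := exists_layer F C hF m
  obtain ⟨Lg, hLg⟩ : ∃ Lg : ℝ, Lg = 1 + Real.log (m + 1) := ⟨_, rfl⟩
  obtain ⟨ω, hω⟩ : ∃ ω : ℕ, ω = n.primeFactors.card := ⟨_, rfl⟩
  have hL : 0 ≤ Lg := by
    have := Real.log_nonneg (show (1 : ℝ) ≤ m + 1 by simp)
    linarith
  let l : ℕ → ℝ := fun p => Real.logb 2 (p ^ n.factorization p : ℕ)
  let o : ℕ → ℝ := fun p => if p = 2 then 0 else l p
  have l0 : ∀ p, 0 ≤ l p := fun p => logb_nat_nonneg _
  have o0 : ∀ p, 0 ≤ o p := fun p => by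
    simp only [o]
    split_ifs
    exacts [le_rfl, l0 p]
  have hle : ∀ p, p ^ n.factorization p ≤ 2 ^ m := fun p => (Nat.ordProj_le p hn.ne').trans hm
  have l1 : ∑ p ∈ n.primeFactors, l p = Real.logb 2 n := by
    conv_rhs => rw [Nat.prod_primeFactors_pow_factorization hn.ne', Nat.cast_prod]
    rw [Real.logb_prod]
    exact fun p hp => Nat.cast_ne_zero.2 (pow_ne_zero _ (Nat.prime_of_mem_primeFactors hp).ne_zero)
  have l2 : ∑ p ∈ n.primeFactors, l p ≤ m := l1 ▸ logb_le_of_le hm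
  have o1 : ∑ p ∈ n.primeFactors, o p ≤ σ := by
    have h1 : Real.logb 2 n = l 2 + Real.logb 2 (ordCompl[2] n : ℕ) := by
      conv_lhs => rw [← Nat.ordProj_mul_ordCompl_eq_self n 2, Nat.cast_mul]
      exact Real.logb_mul (by positivity) (Nat.cast_ne_zero.2 (Nat.ordCompl_pos 2 hn.ne').ne')
    have h2 : ∑ p ∈ n.primeFactors, l p =
        ∑ p ∈ n.primeFactors, o p + ∑ p ∈ n.primeFactors, if p = 2 then l p else 0 := by
      rw [← Finset.sum_add_distrib]
      refine Finset.sum_congr rfl fun p _ => ?_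
      simp only [o]
      split_ifs <;> simp
    have h3 : (∑ p ∈ n.primeFactors, if p = 2 then l p else 0) = l 2 := by
      rw [Finset.sum_ite_eq']
      split_ifs with h
      · rfl
      · have : n.factorization 2 = 0 := Finsupp.notMem_support_iff.1 h
        simp [l, this]
    have := logb_le_of_le hσ
    linarith
  have hpr := fun p (hp : p ∈ n.primeFactors) => Nat.prime_of_mem_primeFactors hp
  refine (det_cov hn hpr le_rfl (fun G => Nat.card G = n ∧ CF F G) (fun _ h => h.1) Ep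
    (fun p => m * l p) (fun p => m ^ 2 + l p * (2 * (2 + ω) * m + 2 * σ * Lg) + o p * (2 * m * Lg))
    (fun p q => m * l q + (o p * l q + l p * o q) * (2 * Lg)) _ S (fun _ _ => Set.univ) hE
    (fun p hp Q hQ => ?_) (fun p hp q hq hpq Q Q' hQ hQ' K _ => ?_) (fun p _ => ?_) s1
    (fun T hT => (s2 T hT).1) (fun p hp Q hQ T hT hd => ?_) (fun _ _ _ _ _ _ _ _ => trivial)
    fun G hG => ?_).mono (fun _ h => h) ?_
  · obtain ⟨_, -⟩ := pgroup_of_card (hpr p hp) hQ
    exact (bnd_subgroups (B := ⊥) (e := m) (hQ ▸ le_two_rpow_logb _)).mono (fun L _ => ⟨bot_le, by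
      simpa using (card_le_card_group L).trans (hQ ▸ hle p)⟩) le_rfl
  · obtain ⟨_, q1⟩ := pgroup_of_card (hpr p hp) hQ
    obtain ⟨_, q2⟩ := pgroup_of_card (hpr q hq) hQ'
    have k1 : Nat.card K ≤ q ^ n.factorization q := hQ' ▸ card_le_card_group K
    have k2 := logb_nat_mono k1
    have k3 := logb_nat_nonneg (Nat.card K)
    refine (bnd_hom_pq (hpr p hp) (hpr q hq) hpq q1 (q2.to_subgroup K)
      (Nat.le_pow_clog one_lt_two _) (k1.trans (hle q)) (card_mulAut_le (k1.trans (hle q))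
        ((Nat.cast_le.2 k1).trans (le_two_rpow_logb _)))).mono le_rfl ?_
    have k4 : (Nat.clog 2 (Nat.card Q) : ℝ) ≤ 2 * l p := hQ ▸ clog_le_two_logb _
    have k5 : l p * l q ≤ o p * l q + l p * o q := by
      have := mul_nonneg (l0 p) (l0 q)
      simp only [o]
      split_ifs with h1 h2 h2
      · exact absurd (h1.trans h2.symm) hpq
      all_goals linarith
    rw [← hLg]
    have k6 : (Nat.clog 2 (Nat.card Q) : ℝ) * (Real.logb 2 (Nat.card K) * Lg) ≤
        2 * l p * (l q * Lg) := by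
      have := l0 p
      gcongr
    have := mul_le_mul_of_nonneg_right k5 hL
    change m * l q + _ ≤ _
    nlinarith
  · have := l0 p
    have := o0 p
    positivity
  · obtain ⟨_, q1⟩ := pgroup_of_card (hpr p hp) hQ
    obtain ⟨_, t1, t2⟩ := s2 T hT
    refine (bnd_homT p (hpr p hp) T Q t2 q1 m _ t1 (Nat.le_pow_clog one_lt_two _)).mono le_rfl ?_
    have k4 : (Nat.clog 2 (Nat.card Q) : ℝ) ≤ 2 * l p := hQ ▸ clog_le_two_logb _
    have k5 : (Nat.clog 2 (Nat.card Q) : ℝ) ≤ m :=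
      Nat.cast_le.2 ((Nat.clog_le_iff_le_pow one_lt_two).2 (hQ ▸ hle p))
    have k6 : ((Nat.card T).primeFactors.card : ℝ) ≤ ω :=
      Nat.cast_le.2 (hω ▸ Finset.card_le_card (Nat.primeFactors_mono hd hn.ne'))
    have k7 := logb_nat_nonneg (ordCompl[p] (Nat.card T))
    have k8 : l p * Real.logb 2 (ordCompl[p] (Nat.card T) : ℕ) ≤ l p * σ + o p * m := by
      simp only [o]
      split_ifs with h
      · subst h
        have := logb_le_of_le ((Nat.le_of_dvd (Nat.ordCompl_pos 2 hn.ne')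
          (Nat.ordCompl_dvd_ordCompl_of_dvd hd 2)).trans hσ)
        have := mul_le_mul_of_nonneg_left this (l0 2)
        linarith
      · have := logb_le_of_le ((Nat.ordCompl_le (Nat.card T) p).trans t1)
        have := mul_le_mul_of_nonneg_left this (l0 p)
        have := mul_nonneg (l0 p) (Nat.cast_nonneg (α := ℝ) σ)
        linarith
    rw [← hLg]
    generalize (Nat.clog 2 (Nat.card Q)) = e at k4 k5 ⊢
    generalize Real.logb 2 (ordCompl[p] (Nat.card T) : ℕ) = x at k7 k8 ⊢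
    generalize ((Nat.card T).primeFactors.card) = w at k6 ⊢
    have := l0 p
    have j1 : (e : ℝ) ^ 2 ≤ 2 * l p * m := by rw [sq]; gcongr
    have j2 : (e : ℝ) * m ≤ 2 * l p * m := by gcongr
    have j3 : (e : ℝ) * (w * m + x * Lg) ≤ 2 * l p * (ω * m + x * Lg) := by gcongr
    have := mul_le_mul_of_nonneg_right k8 hL
    nlinarith
  · have : Finite G := Nat.finite_of_card_ne_zero (by rw [hG.1]; omega)
    exact s3 G hG.2 ⊥ inferInstance IsPGroup.of_bot (by rw [index_bot, hG.1]; exact hm)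
  · simp only [Finset.sum_add_distrib, ← Finset.mul_sum, ← Finset.sum_mul, Finset.sum_const,
      nsmul_eq_mul, ← hω, ← hLg]
    have l3 : 0 ≤ ∑ p ∈ n.primeFactors, l p := Finset.sum_nonneg fun p _ => l0 p
    have o3 : 0 ≤ ∑ p ∈ n.primeFactors, o p := Finset.sum_nonneg fun p _ => o0 p
    generalize ∑ p ∈ n.primeFactors, l p = x at l2 l3 ⊢
    generalize ∑ p ∈ n.primeFactors, o p = y at o1 o3 ⊢
    have j1 : (m : ℝ) * x ≤ m * m := by gcongr
    have j2 : (ω : ℝ) * (m * x) ≤ ω * (m * m) := by gcongr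
    have j3 : (y * x + x * y) * (2 * Lg) ≤ (σ * m + m * σ) * (2 * Lg) := by gcongr
    have j4 : x * (2 * (2 + ω) * m + 2 * σ * Lg) ≤ m * (2 * (2 + ω) * m + 2 * σ * Lg) := by gcongr
    have j5 : y * (2 * m * Lg) ≤ σ * (2 * m * Lg) := by gcongr
    have p1 : (0 : ℝ) ≤ σ * Lg := by positivity
    have p2 : (0 : ℝ) ≤ σ * Lg * m := by positivity
    have p3 : (0 : ℝ) ≤ ω * (m * m) := by positivity
    have p4 : (0 : ℝ) ≤ ω * m := by positivity
    have p5 : (0 : ℝ) ≤ C * (m + 1) ^ 2 := by positivity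
    have p6 : (0 : ℝ) ≤ m * m := by positivity
    have p7 : (0 : ℝ) ≤ m := by positivity
    have p8 : (0 : ℝ) ≤ ω := by positivity
    nlinarith

theorem factorial_le_two_pow {k L : ℕ} (h : k ≤ L) : k.factorial ≤ 2 ^ (L * L) :=
  (Nat.factorial_le h).trans (L.factorial_le_pow.trans
    (pow_mul 2 L L ▸ Nat.pow_le_pow_left Nat.lt_two_pow_self.le L))

theorem index_of_card {G : Type} [Group G] [Finite G] {H : Subgroup G} {p : ℕ}
    (h : Nat.card H = p ^ (Nat.card G).factorization p) : H.index = ordCompl[p] (Nat.card G) := by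
  have h1 : 0 < Nat.card H := Nat.card_pos
  rw [← h, ← H.card_mul_index, Nat.mul_div_cancel_left _ h1]

open N2980dcf5 in
theorem cov_detB (F : ∀ k : ℕ, Set (Group (Fin k))) (C : ℕ)
    (hF : ∀ k, (F k).ncard ≤ k ^ (C * Nat.log 2 k)) (L : ℕ) :
    ∃ c : ℝ, ∀ (n m : ℕ) (E A : ℝ), 0 < n → n ≤ 2 ^ m → ordCompl[2] n ≤ L → 0 ≤ A →
      Cov (fun Q => Nat.card Q = 2 ^ n.factorization 2) E →
      Cov (fun G => Nat.card G = n ∧ CF F G ∧ ∀ P : Sylow 2 G,
          (Nat.card (MulAut (P : Subgroup G).normalCore) : ℝ) ≤ 2 ^ A)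
        (E + (ordCompl[2] n).primeFactors.card * A + c * (m + 1) * (1 + Real.log (m + 1))) := by
  obtain ⟨S, s1, s2, s3⟩ := exists_layer F C hF (L * L)
  obtain ⟨c₁, hc₁⟩ : ∃ c₁ : ℝ, c₁ = ∑ k ∈ Finset.range (L + 1), Real.logb 2 (g k) := ⟨_, rfl⟩
  have c0 : 0 ≤ c₁ := hc₁ ▸ Finset.sum_nonneg fun k _ => logb_nat_nonneg _
  obtain ⟨ES, hES⟩ : ∃ ES : ℝ, ES = (C + 3) * ((L * L : ℕ) + 1) ^ 2 := ⟨_, rfl⟩
  obtain ⟨D, hD⟩ : ∃ D : ℝ, D = (L * L : ℕ) := ⟨_, rfl⟩
  refine ⟨(L + 1) * c₁ + (L + 1) * D + (L + 1) * ((L + 1) * D) + ES + (L + 1) * (D * D),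
    fun n m E A hn hm hL hA hE => ?_⟩
  obtain ⟨Lg, hLg⟩ : ∃ Lg : ℝ, Lg = 1 + Real.log (m + 1) := ⟨_, rfl⟩
  have g1 : 1 ≤ Lg := by
    have := Real.log_nonneg (show (1 : ℝ) ≤ m + 1 by simp)
    linarith
  obtain ⟨X, hX⟩ : ∃ X : ℝ, X = (m + 1) * Lg := ⟨_, rfl⟩
  have m0 : (0 : ℝ) ≤ m := by positivity
  have x1 : 1 ≤ X := by nlinarith
  have x2 : m ≤ X := by nlinarith
  have x3 : m * Lg ≤ X := by nlinarith
  have d0 : 0 ≤ D := by rw [hD]; positivity
  have k0 := Nat.ordCompl_pos 2 hn.ne'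
  have d1 : (L : ℝ) ≤ D := by
    rw [hD]
    exact_mod_cast Nat.le_mul_self L
  have d2 : ∀ {k : ℕ}, k ≤ 2 ^ (L * L) → (k : ℝ) ≤ 2 ^ D := fun h => hD ▸ cast_le_two_rpow h
  obtain ⟨s, hs⟩ : ∃ s, s = (ordCompl[2] n).primeFactors := ⟨_, rfl⟩
  have e1 : s = n.primeFactors.erase 2 := by
    rw [hs, ← Nat.support_factorization, Nat.factorization_ordCompl, Finsupp.support_erase,
      Nat.support_factorization]
  have e2 : 2 ∉ s := e1 ▸ Finset.notMem_erase _ _
  have e3 : (s.card : ℝ) ≤ L := by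
    have : s ⊆ Finset.Icc 1 L := fun p hp => Finset.mem_Icc.2
      ⟨(Nat.prime_of_mem_primeFactors (hs ▸ hp)).pos, (Nat.le_of_mem_primeFactors (hs ▸ hp)).trans hL⟩
    exact_mod_cast (Finset.card_le_card this).trans (by simp)
  have hpr : ∀ p ∈ insert 2 s, p.Prime := fun p hp => by
    rcases Finset.mem_insert.1 hp with rfl | hp
    exacts [Nat.prime_two, Nat.prime_of_mem_primeFactors (hs ▸ hp)]
  have hle : ∀ p, p ^ n.factorization p ≤ 2 ^ m := fun p => (Nat.ordProj_le p hn.ne').trans hm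
  have hle' : ∀ p, p ≠ 2 → p ^ n.factorization p ≤ L := fun p hp => by
    have := (Nat.ordProj_le p k0.ne').trans hL
    rwa [Nat.factorization_ordCompl, Finsupp.erase_ne hp] at this
  have hle'' : ∀ p, p ≠ 2 → p ^ n.factorization p ≤ 2 ^ L := fun p hp =>
    (hle' p hp).trans Nat.lt_two_pow_self.le
  have := Fact.mk Nat.prime_two
  refine (det_cov hn hpr (e1 ▸ Finset.subset_insert_iff.2 le_rfl)
    (fun G => Nat.card G = n ∧ CF F G ∧ ∀ P : Sylow 2 G,
      (Nat.card (MulAut (P : Subgroup G).normalCore) : ℝ) ≤ 2 ^ A) (fun _ h => h.1)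
    (fun p => (if p = 2 then E else 0) + c₁ * X) (fun _ => D * X) (fun _ => D * D * X)
    (fun p q => (if p = 2 then 0 else A) * (if q = 2 then 1 else 0) + D * X) ES S
    (fun p Q => {K | p = 2 → (∃ φ : Q →* Equiv.Perm (Fin (ordCompl[2] n)), φ.ker = K) ∧
      (Nat.card (MulAut K) : ℝ) ≤ 2 ^ A})
    (fun p hp => ?_) (fun p hp Q hQ => ?_) (fun p hp q hq hpq Q Q' hQ hQ' K hK => ?_)
    (fun p _ => ?_) (hES ▸ s1) (fun T hT => (s2 T hT).1) (fun p hp Q hQ T hT hd => ?_)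
    (fun G hG p _ Q f hf hQ => ?_) fun G hG => ?_).mono (fun _ h => h) ?_
  · split_ifs with h
    · subst h
      exact hE.mono (fun _ h => h) (le_add_of_nonneg_right (by positivity))
    · refine (cov_g (pow_pos (hpr p hp).pos _)).mono (fun _ h => h) ?_
      have : Real.logb 2 (g (p ^ n.factorization p)) ≤ c₁ := hc₁ ▸ Finset.single_le_sum
        (f := fun k => Real.logb 2 (g k)) (fun k _ => logb_nat_nonneg _)
        (Finset.mem_range.2 (Nat.lt_succ_of_le (hle' p h)))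
      nlinarith
  · obtain ⟨_, -⟩ := pgroup_of_card (hpr p hp) hQ
    by_cases h : p = 2
    · refine ((bnd_hom (G := Q) (e := m) (hQ ▸ hle p) (Bnd.of_card (E := D)
        (Set.univ : Set (Equiv.Perm (Fin (ordCompl[2] n)))) (d2 ?_))).image
          MonoidHom.ker).mono (fun K hK => ?_) (by nlinarith)
      · rw [Nat.card_perm, Nat.card_fin]
        exact factorial_le_two_pow hL
      · obtain ⟨φ, hφ⟩ := (hK h).1
        exact ⟨φ, fun _ => trivial, hφ⟩
    · refine (bnd_all_subgroups (hQ ▸ hle'' p h) _).mono le_rfl ?_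
      rw [← Nat.cast_mul, ← hD]
      nlinarith
  · obtain ⟨_, q1⟩ := pgroup_of_card (hpr p hp) hQ
    obtain ⟨_, q2⟩ := pgroup_of_card (hpr q hq) hQ'
    have k1 : Nat.card K ≤ q ^ n.factorization q := hQ' ▸ card_le_card_group K
    by_cases h : q = 2
    · have h' : p ≠ 2 := h ▸ hpq
      refine (bnd_hom_pq (hpr p hp) (hpr q hq) hpq q1 (q2.to_subgroup K) (hQ ▸ hle'' p h')
        (k1.trans (hle q)) (hK h).2).mono le_rfl ?_
      have k2 := logb_le_of_le (k1.trans (hle q))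
      have k3 := logb_nat_nonneg (Nat.card K)
      have k4 : L * (Real.logb 2 (Nat.card K) * Lg) ≤ D * X :=
        mul_le_mul d1 ((mul_le_mul_of_nonneg_right k2 (by linarith)).trans x3)
          (mul_nonneg k3 (by linarith)) d0
      rw [← hLg, if_neg h', if_pos h]
      linarith
    · have k2 := k1.trans (hle'' q h)
      have k3 := card_mulAut_le k2 (cast_le_two_rpow k2)
      rw [← Nat.cast_mul, ← hD] at k3
      refine (bnd_hom (G := Q) (e := m) (hQ ▸ hle p) (Bnd.of_card Set.univ k3)).mono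
        (fun _ _ _ => trivial) ?_
      rw [if_neg h]
      nlinarith
  · have : 0 ≤ D * X := by positivity
    split_ifs <;> linarith
  · obtain ⟨_, -⟩ := pgroup_of_card (hpr p hp) hQ
    obtain ⟨_, t1, -⟩ := s2 T hT
    have k3 := card_mulAut_le t1 (cast_le_two_rpow t1)
    rw [← hD] at k3
    refine (bnd_hom (G := Q) (e := m) (hQ ▸ hle p) (Bnd.of_card Set.univ k3)).mono
      (fun _ _ _ => trivial) ?_
    have : 0 ≤ D * D := by positivity
    nlinarith
  · rintro rfl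
    obtain ⟨rfl, -, h2⟩ := hG
    have : Finite G := Nat.finite_of_card_ne_zero hn.ne'
    have h3 := (card_range_inj hf).trans hQ
    let ε : G ⧸ f.range ≃ Fin (ordCompl[2] (Nat.card G)) :=
      Finite.equivFinOfCardEq (index_of_card h3)
    refine ⟨⟨(ε.permCongrHom.toMonoidHom.comp (MulAction.toPermHom G (G ⧸ f.range))).comp f, ?_⟩,
      ?_⟩
    · rw [← MonoidHom.comap_ker, MonoidHom.ker_comp_of_injective _ _ ε.permCongrHom.injective,
        normalCore_eq_ker]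
    · refine le_of_eq_of_le ?_ (h2 (Sylow.ofCard f.range h3))
      exact congrArg _ (Nat.card_congr (MulAut.congr ((equivMapOfInjective _ _ hf).trans
        (MulEquiv.subgroupCongr (map_comap_eq_self (normalCore_le _))))).toEquiv)
  · obtain ⟨rfl, h1, -⟩ := hG
    have : Finite G := Nat.finite_of_card_ne_zero hn.ne'
    obtain ⟨P⟩ : Nonempty (Sylow 2 G) := inferInstance
    refine s3 G h1 (P : Subgroup G).normalCore inferInstance
      (P.isPGroup'.to_le (normalCore_le _)) ?_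
    rw [normalCore_eq_ker, index_ker]
    refine (card_le_card_group _).trans ?_
    rw [Nat.card_perm, ← index_eq_card, index_of_card P.card_eq_multiplicity]
    exact factorial_le_two_pow hL
  · have a1 : ∑ p ∈ insert 2 s, (if p = 2 then E else 0) = E := by simp
    have a2 : ∑ p ∈ insert 2 s, (if p = 2 then (1 : ℝ) else 0) = 1 := by simp
    have a3 : ∑ p ∈ insert 2 s, (if p = 2 then 0 else A) = s.card * A := by
      rw [Finset.sum_insert e2, if_pos rfl, zero_add, ← nsmul_eq_mul, ← Finset.sum_const]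
      exact Finset.sum_congr rfl fun p hp => if_neg fun e : p = 2 => e2 (e ▸ hp)
    have a4 : ((insert 2 s).card : ℝ) ≤ L + 1 := by
      rw [Finset.card_insert_of_notMem e2]
      push_cast
      linarith
    simp only [Finset.sum_add_distrib, ← Finset.mul_sum, Finset.sum_const, nsmul_eq_mul, a1, a2,
      mul_one, a3]
    rw [← hs, ← hLg, mul_assoc _ _ Lg, ← hX]
    generalize (insert 2 s).card = w at a4 ⊢
    have x0 : 0 ≤ X := by linarith
    have b0 : 0 ≤ ES := by rw [hES]; positivity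
    have j1 : (w : ℝ) * (c₁ * X) ≤ (L + 1) * (c₁ * X) := by gcongr
    have j2 : (w : ℝ) * (D * X) ≤ (L + 1) * (D * X) := by gcongr
    have j3 : (w : ℝ) * (w * (D * X)) ≤ (L + 1) * ((L + 1) * (D * X)) := by gcongr
    have j4 : (w : ℝ) * (D * D * X) ≤ (L + 1) * (D * D * X) := by gcongr
    nlinarith

end Pool.Agent.P.MP_9f774b_al
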