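import Pool.Agent.P.MP_9f774b_al.Lem

/-!
Central extensions given by an upper triangular bilinear form.
-/

set_option autoImplicit false

noncomputable section

namespace Pool.Agent.P.MP_9f774b_al

/-- Pairs `i ≤ j`. -/
abbrev Tri (d : ℕ) : Type := {p : Fin d × Fin d // p.1 ≤ p.2}

theorem sq_le_card_tri (d : ℕ) : d * d ≤ Nat.card (Tri d) * 2 := by
  let f : Fin d × Fin d → Tri d × Bool := fun p =>
    if h : p.1 ≤ p.2 then (⟨p, h⟩, true) else (⟨(p.2, p.1), (not_le.1 h).le⟩, false)
  have hf : Function.Injective f := by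
    rintro ⟨i, j⟩ ⟨k, l⟩ h
    simp only [f] at h
    split_ifs at h with h1 h2 h2
    · simpa using h
    · simp at h
    · simp at h
    · simp only [Prod.mk.injEq, Subtype.mk.injEq, and_true] at h
      simp [h.1, h.2]
  simpa using Nat.card_le_card_of_injective f hf

variable {A : Type} [AddCommGroup A] [Module (ZMod 2) A] {d : ℕ}

/-- The upper triangular bilinear form with coefficients `B`. -/
def bf (B : Tri d → A) (v v' : Fin d → ZMod 2) : A := ∑ p : Tri d, (v p.1.1 * v' p.1.2) • B p

theorem bf_add_left (B : Tri d → A) (u v w : Fin d → ZMod 2) :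
    bf B (u + v) w = bf B u w + bf B v w := by
  simp only [bf, Pi.add_apply, add_mul, add_smul, Finset.sum_add_distrib]

theorem bf_add_right (B : Tri d → A) (u v w : Fin d → ZMod 2) :
    bf B u (v + w) = bf B u v + bf B u w := by
  simp only [bf, Pi.add_apply, mul_add, add_smul, Finset.sum_add_distrib]

theorem bf_zero_left (B : Tri d → A) (v : Fin d → ZMod 2) : bf B 0 v = 0 := by simp [bf]

theorem bf_zero_right (B : Tri d → A) (v : Fin d → ZMod 2) : bf B v 0 = 0 := by simp [bf]

theorem bf_single_le (B : Tri d → A) {i j : Fin d} (h : i ≤ j) :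
    bf B (Pi.single i 1) (Pi.single j 1) = B ⟨(i, j), h⟩ := by
  unfold bf
  rw [Finset.sum_eq_single ⟨(i, j), h⟩]
  · simp
  · rintro ⟨⟨k, l⟩, hkl⟩ - hne
    by_cases h1 : k = i
    · have h2 : l ≠ j := fun h2 => hne (by subst h1 h2; rfl)
      simp [Pi.single_eq_of_ne h2]
    · simp [Pi.single_eq_of_ne h1]
  · simp

theorem bf_single_lt (B : Tri d → A) {i j : Fin d} (h : j < i) :
    bf B (Pi.single i 1) (Pi.single j 1) = 0 := by
  refine Finset.sum_eq_zero ?_
  rintro ⟨⟨k, l⟩, hkl⟩ -
  by_cases h1 : k = i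
  · have h2 : l ≠ j := fun h2 => by
      subst h1 h2
      exact absurd hkl (not_le.2 h)
    simp [Pi.single_eq_of_ne h2]
  · simp [Pi.single_eq_of_ne h1]

theorem bf_inj {B B' : Tri d → A}
    (h1 : ∀ i, bf B (Pi.single i 1) (Pi.single i 1) = bf B' (Pi.single i 1) (Pi.single i 1))
    (h2 : ∀ i j, bf B (Pi.single i 1 + Pi.single j 1) (Pi.single i 1 + Pi.single j 1) =
      bf B' (Pi.single i 1 + Pi.single j 1) (Pi.single i 1 + Pi.single j 1)) : B = B' := by
  funext ⟨⟨i, j⟩, h⟩
  rcases eq_or_lt_of_le h with e | e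
  · dsimp only at e
    subst e
    rw [← bf_single_le B h, ← bf_single_le B' h, h1]
  · have := h2 i j
    simp only [bf_add_left, bf_add_right, h1, bf_single_lt _ e, bf_single_le _ h] at this
    simpa using this

theorem two_add_self (s : A) : s + s = 0 := by
  rw [← two_smul (ZMod 2) s]
  exact (congrArg (· • s) (show (2 : ZMod 2) = 0 from rfl)).trans (zero_smul _ _)

variable {P : Type} [Group P]

/-- The central extension of `P` by `A` given by the form `B` pulled back along `π`. -/
structure Ext (π : P →* Multiplicative (Fin d → ZMod 2)) (B : Tri d → A) : Type where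
  /-- The component in `P`. -/
  x : P
  /-- The central component. -/
  s : A

namespace Ext

variable {π : P →* Multiplicative (Fin d → ZMod 2)} {B : Tri d → A}

theorem ext' {a b : Ext π B} (h1 : a.x = b.x) (h2 : a.s = b.s) : a = b := by
  cases a; cases b; simp_all

instance : Mul (Ext π B) :=
  ⟨fun a b => ⟨a.x * b.x, a.s + b.s + bf B (π a.x).toAdd (π b.x).toAdd⟩⟩

instance : One (Ext π B) := ⟨⟨1, 0⟩⟩

instance : Inv (Ext π B) :=
  ⟨fun a => ⟨a.x⁻¹, -a.s - bf B (π a.x⁻¹).toAdd (π a.x).toAdd⟩⟩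

theorem mul_x (a b : Ext π B) : (a * b).x = a.x * b.x := rfl

theorem mul_s (a b : Ext π B) :
    (a * b).s = a.s + b.s + bf B (π a.x).toAdd (π b.x).toAdd := rfl

theorem one_x : (1 : Ext π B).x = 1 := rfl

theorem one_s : (1 : Ext π B).s = 0 := rfl

theorem inv_x (a : Ext π B) : a⁻¹.x = a.x⁻¹ := rfl

theorem inv_s (a : Ext π B) : a⁻¹.s = -a.s - bf B (π a.x⁻¹).toAdd (π a.x).toAdd := rfl

instance : Group (Ext π B) :=
  Group.ofLeftAxioms
    (fun a b c => ext' (mul_assoc _ _ _) (by
      simp only [mul_s, mul_x, map_mul, toAdd_mul, bf_add_left, bf_add_right]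
      abel))
    (fun a => ext' (one_mul _) (by
      simp only [mul_s, one_x, one_s, map_one, toAdd_one, bf_zero_left, zero_add, add_zero]))
    (fun a => ext' (inv_mul_cancel _) (by
      simp only [mul_s, inv_x, inv_s, one_s]
      abel))

/-- The underlying set is a product. -/
def equivProd (π : P →* Multiplicative (Fin d → ZMod 2)) (B : Tri d → A) : Ext π B ≃ P × A :=
  ⟨fun a => (a.x, a.s), fun p => ⟨p.1, p.2⟩, fun _ => rfl, fun _ => rfl⟩

theorem card (π : P →* Multiplicative (Fin d → ZMod 2)) (B : Tri d → A) :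
    Nat.card (Ext π B) = Nat.card P * Nat.card A := by
  rw [Nat.card_congr (equivProd π B), Nat.card_prod]

theorem sq_eq (a : Ext π B) : a ^ 2 = ⟨a.x ^ 2, bf B (π a.x).toAdd (π a.x).toAdd⟩ := by
  rw [sq, sq]
  exact ext' rfl (by rw [mul_s, two_add_self, zero_add])

/-- The central subgroup. -/
def inr (π : P →* Multiplicative (Fin d → ZMod 2)) (B : Tri d → A) :
    Multiplicative A →* Ext π B where
  toFun s := ⟨1, s.toAdd⟩
  map_one' := rfl
  map_mul' s t := ext' (one_mul _).symm (by simp [mul_s, bf_zero_left])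

theorem mk_eq (x : P) (s : A) :
    (⟨x, s⟩ : Ext π B) = ⟨x, 0⟩ * inr π B (Multiplicative.ofAdd s) :=
  ext' (mul_one _).symm (by simp [mul_s, inr, bf_zero_right])

end Ext

end Pool.Agent.P.MP_9f774b_al
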