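import Pool.Agent.P.MP_9f774b_al.PGrp

/-!
Counting `2`-groups with few generators.
-/

set_option autoImplicit false

noncomputable section

namespace Pool.Agent.P.MP_9f774b_al

open Subgroup hiding closure subset_closure closure_union
open scoped commutatorElement

variable {G : Type} [Group G]

theorem card_le_of_pc_gens [Finite G] {Γ ι : Type} [Group Γ] [Finite Γ] (hΓ : IsPGroup 2 Γ)
    (Y : ℕ → Γ) (X : ι → Γ) (π : Γ →* G) {c : ℕ} (hG : Nat.card G = 2 ^ c)
    (hX : cl (Set.range fun j => π (X j)) = ⊤) (hY : cl (Y '' Set.Iio c) = ⊤)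
    (h1 : ∀ k < c, Y k ^ 2 ∈ cl (Y '' Set.Iio k))
    (h2 : ∀ k < c, ∀ j, ⁅Y k, X j⁆ ∈ cl (Y '' Set.Iio k)) : Nat.card Γ ≤ 2 ^ c := by
  let N : Subgroup Γ := cl (Set.range X) ⊔ Fr Γ
  have : N.Normal := normal_of_Fr_le le_sup_right
  let f : Γ →* G × Γ ⧸ N := π.prod (QuotientGroup.mk' N)
  have hcomm : ∀ a b : Γ ⧸ N, a * b = b * a := by
    intro a b
    obtain ⟨a, rfl⟩ := QuotientGroup.mk'_surjective N a
    obtain ⟨b, rfl⟩ := QuotientGroup.mk'_surjective N b
    rw [← commutatorElement_eq_one_iff_mul_comm, ← map_commutatorElement,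
      QuotientGroup.mk'_apply, QuotientGroup.eq_one_iff]
    exact mem_sup_right (commutator_mem_sqs trivial trivial)
  have hm : ∀ k, ∀ g ∈ cl (Y '' Set.Iio k), f g ∈ cl ((fun i => f (Y i)) '' Set.Iio k) := by
    intro k g hg
    rw [← Set.image_image f Y, ← map_cl]
    exact mem_map_of_mem f hg
  have hfX : ∀ j, f (X j) = MonoidHom.inl G (Γ ⧸ N) (π (X j)) := fun j =>
    Prod.ext rfl ((QuotientGroup.eq_one_iff _).2 (mem_sup_left (sub_cl ⟨j, rfl⟩)))
  have hinl : ∀ g : G, MonoidHom.inl G (Γ ⧸ N) g ∈ cl (Set.range fun j => f (X j)) := by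
    intro g
    have : MonoidHom.inl G (Γ ⧸ N) g ∈ (cl (Set.range fun j => π (X j))).map
        (MonoidHom.inl G (Γ ⧸ N)) := mem_map_of_mem _ (hX ▸ trivial)
    rw [map_cl, ← Set.range_comp] at this
    simp only [hfX]
    exact this
  have h3 : Nat.card (cl ((fun i => f (Y i)) '' Set.Iio c)) ≤ 2 ^ c := by
    refine card_pc_le _ two_pos c fun i hi => ⟨?_, ?_⟩
    · have h4 : Nz (MonoidHom.inl G (Γ ⧸ N) (π (Y i))) (cl ((fun i => f (Y i)) '' Set.Iio i)) := by
        refine Nz.closure ?_ _ (hinl _)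
        rintro _ ⟨j, rfl⟩
        refine nz_of_comm fun k hk => ?_
        rw [← map_commutatorElement]
        exact hm _ _ (h2 k (by omega) j)
      intro u hu
      have e : f (Y i) * u * (f (Y i))⁻¹ = MonoidHom.inl G (Γ ⧸ N) (π (Y i)) * u *
          (MonoidHom.inl G (Γ ⧸ N) (π (Y i)))⁻¹ := by
        refine Prod.ext rfl ?_
        simp only [Prod.snd_mul, Prod.snd_inv, MonoidHom.inl_apply, one_mul, inv_one, mul_one]
        rw [hcomm _ u.2, mul_inv_cancel_right]
      rw [e]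
      exact h4 u hu
    · rw [← map_pow]
      exact hm _ _ (h1 i hi)
  have h4 : (MonoidHom.inl G (Γ ⧸ N)).range ≤ cl ((fun i => f (Y i)) '' Set.Iio c) := by
    rintro _ ⟨g, rfl⟩
    refine cl_le ?_ (hinl g)
    rintro _ ⟨j, rfl⟩
    exact hm c _ (hY ▸ trivial)
  have h5 : (MonoidHom.inl G (Γ ⧸ N)).range = cl ((fun i => f (Y i)) '' Set.Iio c) := by
    refine eq_of_le_of_card_ge h4 (h3.trans ?_)
    rw [← hG]
    exact Nat.card_le_card_of_injective (MonoidHom.inl G (Γ ⧸ N)).rangeRestrict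
      fun a b h => congrArg (fun z => z.1.1) h
  have h6 : cl (Set.range X) = ⊤ := by
    refine frattini_top hΓ (top_le_iff.1 fun g _ => ?_)
    obtain ⟨a, ha⟩ : f g ∈ (MonoidHom.inl G (Γ ⧸ N)).range := h5 ▸ hm c g (hY ▸ trivial)
    exact (QuotientGroup.eq_one_iff g).1 (congrArg Prod.snd ha).symm
  rw [← card_top, ← hY]
  refine card_pc_le _ two_pos c fun i hi => ⟨?_, h1 i hi⟩
  refine Nz.closure (S := Set.range X) ?_ _ (h6 ▸ trivial)
  rintro _ ⟨j, rfl⟩
  exact nz_of_comm fun k hk => h2 k (by omega) j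

theorem cov_fewgen (s c : ℕ) :
    Cov (fun H => Nat.card H = 2 ^ c ∧ ∃ x : Fin s → H, cl (Set.range x) = ⊤)
      ((s + 1) * (c + 1) ^ 2) := by
  have hb : ∀ j : ℕ, j ≤ c → (Nat.card (Fin j → Fin 2) : ℝ) ≤ 2 ^ (c : ℝ) := fun j hj =>
    cast_le_two_rpow (by simpa using Nat.pow_le_pow_right two_pos hj)
  have h1 : Bnd {f : ∀ j : Fin c, Fin (s + 1) → Fin j → Fin 2 | ∀ j, f j ∈ Set.univ}
      (∑ _j : Fin c, Nat.card (Fin (s + 1)) * (c : ℝ)) :=
    Bnd.pi fun j => Bnd.univ_fun (hb j j.2.le) _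
  have h2 := h1.prod (Bnd.univ_fun (ι := Fin s) (hb c le_rfl) Set.univ)
  have h3 : ∑ _j : Fin c, Nat.card (Fin (s + 1)) * (c : ℝ) + Nat.card (Fin s) * (c : ℝ) ≤
      (s + 1) * (c + 1) ^ 2 := by
    simp only [Nat.card_fin, Finset.sum_const, Finset.card_univ, Fintype.card_fin, nsmul_eq_mul]
    push_cast
    have : (0 : ℝ) ≤ c := Nat.cast_nonneg c
    have : (0 : ℝ) ≤ s := Nat.cast_nonneg s
    nlinarith [mul_nonneg ‹(0 : ℝ) ≤ c› ‹(0 : ℝ) ≤ s›]
  refine Cov.of_code (h2.mono le_rfl h3) (fun f G => ∃ (y : ℕ → G) (x : Fin s → G),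
    cl (y '' Set.Iio c) = ⊤ ∧ cl (Set.range x) = ⊤ ∧ (∀ t, nform y c (f.2 t) = x t) ∧
    ∀ j : Fin c, nform y j (f.1 j (Fin.last _)) = y j ^ 2 ∧
      ∀ t : Fin s, nform y j (f.1 j t.castSucc) = ⁅y j, x t⁆) ?_ ?_
  · rintro G ⟨hG, x, hx⟩
    have : Finite G := Nat.finite_of_card_ne_zero (by rw [hG]; positivity)
    obtain ⟨y, hy, h⟩ := exists_pc_top Nat.prime_two hG
    choose e1 he1 using fun j : Fin c => (h j j.2).1
    choose e2 he2 using fun j : Fin c => (h j j.2).2.1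
    have h0 : ∀ g : G, ∃ e : Fin c → Fin 2, nform y c e = g := by
      rcases Nat.eq_zero_or_pos c with rfl | hc
      · intro g
        have : g ∈ cl (y '' Set.Iio 0) := hy ▸ trivial
        exact exists_nform y two_pos 0 (fun i hi => absurd hi (by omega)) g this
      · exact (h 0 hc).2.2
    choose e3 he3 using h0
    refine ⟨(fun j => Fin.snoc (α := fun _ => Fin j → Fin 2) (fun t : Fin s => e2 j (x t)) (e1 j),
      fun t => e3 (x t)), ⟨fun _ => trivial, trivial⟩, y, x, hy, hx, fun t => he3 _, fun j => ?_⟩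
    simp only [Fin.snoc_last, Fin.snoc_castSucc, he1, he2, implies_true, and_self]
  · rintro f G G' ⟨hG, -⟩ ⟨hG', -⟩ ⟨y, x, hy, hx, h0, h⟩ ⟨y', x', hy', -, h0', h'⟩
    have : Finite G := Nat.finite_of_card_ne_zero (by rw [hG]; positivity)
    have : Finite G' := Nat.finite_of_card_ne_zero (by rw [hG']; positivity)
    refine graph_iso_pc y y' hy hy' hG hG' ?_
    classical
    let U : Subgroup (G × G') := cl ((fun i => (y i, y' i)) '' Set.Iio c)
    let Y : ℕ → U := fun k => if h : (y k, y' k) ∈ U then ⟨_, h⟩ else 1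
    have hY : ∀ k < c, U.subtype (Y k) = (y k, y' k) := fun k hk => by
      have : (y k, y' k) ∈ U := sub_cl ⟨k, hk, rfl⟩
      simp only [Y, dif_pos this, coe_subtype]
    have hn : ∀ k ≤ c, ∀ e : Fin k → Fin 2,
        U.subtype (nform Y k e) = (nform y k e, nform y' k e) := fun k hk e => by
      rw [map_nform U.subtype Y (fun i => (y i, y' i)) k e fun i hi => hY i (by omega), nform_prod]
    have hP : IsPGroup 2 (G × G') := IsPGroup.of_card (n := c + c) (by
      rw [Nat.card_prod, hG, hG', pow_add])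
    have hX : ∀ t, U.subtype (nform Y c (f.2 t)) = (x t, x' t) := fun t => by
      rw [hn c le_rfl, h0, h0']
    refine card_le_of_pc_gens (hP.to_subgroup U) Y (fun t => nform Y c (f.2 t))
      ((MonoidHom.fst G G').comp U.subtype) hG ?_ ?_ (fun k hk => ?_) fun k hk t => ?_
    · simp only [MonoidHom.comp_apply, hX]
      exact hx
    · apply map_injective U.subtype_injective
      rw [map_cl, Set.image_image, ← MonoidHom.range_eq_map, range_subtype]
      exact congrArg cl (Set.image_congr fun i hi => hY i hi)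
    · have e : Y k ^ 2 = nform Y k (f.1 ⟨k, hk⟩ (Fin.last _)) := U.subtype_injective (by
        rw [map_pow, hY k hk, hn k hk.le, (h ⟨k, hk⟩).1, (h' ⟨k, hk⟩).1]; rfl)
      rw [e]
      exact nform_mem _ _ _
    · have e : ⁅Y k, nform Y c (f.2 t)⁆ = nform Y k (f.1 ⟨k, hk⟩ t.castSucc) :=
        U.subtype_injective (by
          rw [map_commutatorElement, hY k hk, hX, hn k hk.le, (h ⟨k, hk⟩).2, (h' ⟨k, hk⟩).2]; rfl)
      rw [e]
      exact nform_mem _ _ _

end Pool.Agent.P.MP_9f774b_al
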