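import Pool.Agent.P.MP_9f774b_al.ExtG

/-!
Good `2`-groups of order `2 ^ a` compared with all groups of order `2 ^ (a + 1)`.
-/

set_option autoImplicit false

noncomputable section

namespace Pool.Agent.P.MP_9f774b_al

open N2980dcf5
open scoped commutatorElement

theorem exists_pi {P : Type} [Group P] [Finite P] {d : ℕ}
    (h : Nat.card P = 2 ^ d * Nat.card (Fr P)) :
    ∃ π : P →* Multiplicative (Fin d → ZMod 2), Function.Surjective π ∧
      ∀ x, π x = 1 ↔ x ∈ Fr P := by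
  have hq : Nat.card (P ⧸ Fr P) = 2 ^ d := by
    have := (Fr P).index_mul_card
    rw [h] at this
    exact Nat.eq_of_mul_eq_mul_right Nat.card_pos this
  obtain ⟨f, hf⟩ := exists_ea_embedding (G := P ⧸ Fr P) (r := d) Nat.prime_two (by
      intro x
      obtain ⟨x, rfl⟩ := QuotientGroup.mk_surjective x
      rw [← QuotientGroup.mk_pow, QuotientGroup.eq_one_iff]
      exact sq_mem_Fr x) (by
      intro x y
      obtain ⟨x, rfl⟩ := QuotientGroup.mk_surjective x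
      obtain ⟨y, rfl⟩ := QuotientGroup.mk_surjective y
      rw [← commutatorElement_eq_one_iff_mul_comm]
      exact (QuotientGroup.eq_one_iff ⁅x, y⁆).2 (commutator_mem_sqs trivial trivial)) hq.le
  refine ⟨f.comp (QuotientGroup.mk' _), ?_, fun x => ?_⟩
  · exact (hf.bijective_of_nat_card_le (by rw [hq]; simp)).2.comp (QuotientGroup.mk'_surjective _)
  · rw [MonoidHom.comp_apply, map_eq_one_iff f hf]
    exact QuotientGroup.eq_one_iff x

theorem exists_reps {Pr : Gp → Prop} {n : ℕ} (hn : 0 < n) (hP : ∀ G, Pr G → Nat.card G = n) :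
    ∃ (ι : Type) (_ : Finite ι) (R : ι → Gp), (∀ i, Pr (R i)) ∧
      (∀ i j, Nonempty (R i ≃* R j) → i = j) ∧ ∀ G, Pr G → ∃ i, Nonempty (G ≃* R i) := by
  let ι := {q : Quot (α := Group (Fin n)) isomorphic // ∃ G, Pr G ∧ Nonempty (G ≃* gpOf q.out)}
  refine ⟨ι, inferInstance, fun i => i.2.choose, fun i => i.2.choose_spec.1, ?_, fun G hG => ?_⟩
  · rintro i j ⟨e⟩
    obtain ⟨e1⟩ := i.2.choose_spec.2
    obtain ⟨e2⟩ := j.2.choose_spec.2
    apply Subtype.ext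
    rw [← i.1.out_eq, ← j.1.out_eq]
    exact Quot.sound ((isomorphic_iff _ _).2 ⟨e1.symm.trans (e.trans e2)⟩)
  · obtain ⟨T, ⟨e⟩⟩ := exists_fin_str G hn (hP G hG)
    obtain ⟨e'⟩ := (isomorphic_iff _ _).1
      ((isomorphic_equivalence n).eqvGen_iff.1 (Quot.eq.1 (Quot.out_eq (Quot.mk _ T))))
    have hx : ∃ G, Pr G ∧ Nonempty (G ≃* gpOf (Quot.mk isomorphic T).out) :=
      ⟨G, hG, ⟨e.trans e'.symm⟩⟩
    obtain ⟨e2⟩ := hx.choose_spec.2
    exact ⟨⟨_, hx⟩, ⟨e.trans (e'.symm.trans e2.symm)⟩⟩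

theorem exists_gens_fr {P : Type} [Group P] {a d : ℕ} (hP : Nat.card P = 2 ^ a)
    (h : Nat.card P = 2 ^ d * Nat.card (Fr P)) : ∃ t : Fin d → P, cl (Set.range t) = ⊤ := by
  have : Finite P := Nat.finite_of_card_ne_zero (by rw [hP]; positivity)
  obtain ⟨t, -, ht⟩ := exists_gens (U := Fr P) (V := ⊤) le_top (e := d) (by simpa using h.le)
  exact ⟨t, frattini_top (IsPGroup.of_card hP) (by rwa [sup_comm])⟩

theorem le_of_card_fr {P : Type} [Group P] {a d : ℕ} (hP : Nat.card P = 2 ^ a)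
    (h : Nat.card P = 2 ^ d * Nat.card (Fr P)) : d ≤ a ∧ Nat.card (Fr P) = 2 ^ (a - d) := by
  have h1 : d ≤ a := (Nat.pow_dvd_pow_iff_le_right one_lt_two).1 ⟨_, hP.symm.trans h⟩
  refine ⟨h1, Nat.eq_of_mul_eq_mul_left (Nat.two_pow_pos d) ?_⟩
  rw [← h, hP, ← pow_add, Nat.add_sub_cancel' h1]

theorem card_mulAut_of_good (P : Type) [Group P] (a : ℕ) (hP : Nat.card P = 2 ^ a)
    (h : Good P a) : (Nat.card (MulAut P) : ℝ) ≤ 2 ^ ((a : ℝ) ^ 2 / 4) := by
  obtain ⟨d, h1, h2, h3⟩ := h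
  have : Finite P := Nat.finite_of_card_ne_zero (by rw [hP]; positivity)
  obtain ⟨t, ht⟩ := exists_gens_fr hP h1
  obtain ⟨h4, h5⟩ := le_of_card_fr hP h1
  have key := (bnd_subgroups (B := Fr P) (e := a / 100) (cast_le_two_rpow hP.le)).bind
    (T := fun U => {α : MulAut P | ∀ k, (t k)⁻¹ * α (t k) ∈ U}) (U := Set.univ)
    (E' := Nat.card (Fin d) * ((a / 100 + (a - d) : ℕ) : ℝ)) (fun U hU => by
      refine (Bnd.pi_const (ι := Fin d) (S := fun _ => (U : Set P)) fun _ =>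
        Bnd.subgroup U (cast_le_two_rpow ?_)).of_injOn (fun α k => (t k)⁻¹ * α (t k))
        (fun α _ β _ e => ?_) fun α hα => hα
      · rw [pow_add, ← h5]
        exact hU.2
      · apply MulEquiv.toMonoidHom_injective
        refine MonoidHom.eq_of_eqOn_dense ht ?_
        rintro _ ⟨k, rfl⟩
        exact mul_left_cancel (congrFun e k))
    (fun α _ => by
      obtain ⟨U, u1, u2, u3⟩ := h3 α
      exact ⟨U, ⟨u1, u2⟩, fun k => u3 _⟩)
  refine key.card_le.trans (Real.rpow_le_rpow_of_exponent_le one_le_two ?_)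
  have b1 : ((a / 100 : ℕ) : ℝ) ≤ a / 100 := by exact_mod_cast Nat.cast_div_le (α := ℝ)
  have b2 : (13 : ℝ) * a ≤ 20 * d := by exact_mod_cast h2
  have b3 : (0 : ℝ) ≤ a := by positivity
  have b4 : (0 : ℝ) ≤ d := by positivity
  rw [Nat.card_fin, Nat.cast_add, Nat.cast_sub h4]
  have c1 := mul_le_mul_of_nonneg_right b1 b3
  have c2 := mul_le_mul_of_nonneg_left b1 b4
  have c3 : 0 ≤ (20 * (d : ℝ) - 13 * a) * (d - 36 / 100 * a) :=
    mul_nonneg (by linarith) (by linarith)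
  nlinarith [c1, c2, c3]

theorem bnd_phi {P : Type} [Group P] {a d b : ℕ} (hP : Nat.card P = 2 ^ a)
    (h1 : Nat.card P = 2 ^ d * Nat.card (Fr P))
    (h3 : ∀ α : MulAut P, ∃ U : Subgroup P, Fr P ≤ U ∧
      Nat.card U ≤ 2 ^ b * Nat.card (Fr P) ∧ ∀ v, v⁻¹ * α v ∈ U)
    {V : Type} [Group V] (π : P →* V) (hπ : ∀ x, π x = 1 ↔ x ∈ Fr P) :
    Bnd {φ : P →* V | ∃ α : MulAut P, π.comp α.toMonoidHom = φ} (b * a + d * b) := by
  have : Finite P := Nat.finite_of_card_ne_zero (by rw [hP]; positivity)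
  obtain ⟨t, ht⟩ := exists_gens_fr hP h1
  have hk : π.ker = Fr P := Subgroup.ext hπ
  have key := (bnd_subgroups (B := Fr P) (e := b) (cast_le_two_rpow hP.le)).bind
    (T := fun U => {φ : P →* V | ∀ k, (π (t k))⁻¹ * φ (t k) ∈ U.map π})
    (U := {φ : P →* V | ∃ α : MulAut P, π.comp α.toMonoidHom = φ})
    (E' := Nat.card (Fin d) * (b : ℝ)) (fun U hU => by
      refine (Bnd.pi_const (ι := Fin d) (S := fun _ => (U.map π : Set V)) fun _ =>
        Bnd.of_ncard ((Set.toFinite (U : Set P)).image π) (cast_le_two_rpow ?_)).of_injOn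
        (fun φ k => (π (t k))⁻¹ * φ (t k)) (fun α _ β _ e => ?_) fun α hα => hα
      · have e1 := ((Fr P).subgroupOf U).index_mul_card
        rw [Nat.card_congr (Subgroup.subgroupOfEquivOfLe hU.1).toEquiv] at e1
        have e2 : ((Fr P).subgroupOf U).index = Nat.card (U.map π) := by
          rw [← Subgroup.relIndex_ker, hk]
          rfl
        rw [e2] at e1
        have e3 := hU.2
        rw [← e1] at e3
        rw [← Nat.card_coe_set_eq]
        exact Nat.le_of_mul_le_mul_right e3 Nat.card_pos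
      · refine MonoidHom.eq_of_eqOn_dense ht ?_
        rintro _ ⟨k, rfl⟩
        exact mul_left_cancel (congrFun e k))
    (by
      rintro _ ⟨α, rfl⟩
      obtain ⟨U, u1, u2, u3⟩ := h3 α
      exact ⟨U, ⟨u1, u2⟩, fun k => ⟨_, u3 (t k), by simp⟩⟩)
  rwa [Nat.card_fin] at key

/-- The central involution. -/
def Ext.z {P : Type} [Group P] {d : ℕ} (π : P →* Multiplicative (Fin d → ZMod 2))
    (B : Tri d → ZMod 2) : Ext π B := ⟨1, 1⟩

/-- An isomorphism of extensions that fixes the central involution. -/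
theorem ext_iso {P P' : Type} [Group P] [Group P'] {d : ℕ}
    {π : P →* Multiplicative (Fin d → ZMod 2)} {π' : P' →* Multiplicative (Fin d → ZMod 2)}
    {B B' : Tri d → ZMod 2} (θ : Ext π B ≃* Ext π' B') (hz : θ (Ext.z π B) = Ext.z π' B') :
    ∃ (α : P ≃* P') (l : P → ZMod 2), ∀ x s, θ ⟨x, s⟩ = ⟨α x, l x + s⟩ := by
  have key : ∀ {P P' : Type} [Group P] [Group P']
      {π : P →* Multiplicative (Fin d → ZMod 2)} {π' : P' →* Multiplicative (Fin d → ZMod 2)}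
      {B B' : Tri d → ZMod 2} (θ : Ext π B ≃* Ext π' B'), θ (Ext.z π B) = Ext.z π' B' →
      ∀ x s, θ ⟨x, s⟩ = ⟨(θ ⟨x, 0⟩).x, (θ ⟨x, 0⟩).s + s⟩ := by
    intro P P' _ _ π π' B B' θ hz x s
    have h1 : θ (Ext.inr π B (Multiplicative.ofAdd s)) = Ext.inr π' B' (Multiplicative.ofAdd s) := by
      have hs : s = 0 ∨ s = 1 := by revert s; decide
      rcases hs with rfl | rfl
      · rw [ofAdd_zero, map_one, map_one, map_one]
      · exact hz
    rw [Ext.mk_eq x s, map_mul, h1]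
    exact Ext.ext' (mul_one _) (by simp [Ext.mul_s, Ext.inr, bf_zero_right])
  have hz' : θ.symm (Ext.z π' B') = Ext.z π B := by rw [← hz, θ.symm_apply_apply]
  refine ⟨⟨⟨fun x => (θ ⟨x, 0⟩).x, fun x => (θ.symm ⟨x, 0⟩).x, fun x => ?_, fun x => ?_⟩,
    fun x y => ?_⟩, fun x => (θ ⟨x, 0⟩).s, key θ hz⟩
  · have := congrArg Ext.x (key θ.symm hz' (θ ⟨x, 0⟩).x (θ ⟨x, 0⟩).s)
    exact this.symm.trans (congrArg Ext.x (θ.symm_apply_apply ⟨x, 0⟩))
  · have := congrArg Ext.x (key θ hz (θ.symm ⟨x, 0⟩).x (θ.symm ⟨x, 0⟩).s)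
    exact this.symm.trans (congrArg Ext.x (θ.apply_symm_apply ⟨x, 0⟩))
  · have h1 := congrArg Ext.x (key θ hz (x * y) ((⟨x, 0⟩ * ⟨y, 0⟩ : Ext π B).s))
    have h2 := congrArg Ext.x (map_mul θ ⟨x, 0⟩ ⟨y, 0⟩)
    exact h1.symm.trans h2

/-- The forms whose extension is isomorphic to a given one, the central involution fixed. -/
theorem bnd_forms {P : Type} [Group P] {a d b : ℕ} (hP : Nat.card P = 2 ^ a)
    (h1 : Nat.card P = 2 ^ d * Nat.card (Fr P))
    (h3 : ∀ α : MulAut P, ∃ U : Subgroup P, Fr P ≤ U ∧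
      Nat.card U ≤ 2 ^ b * Nat.card (Fr P) ∧ ∀ v, v⁻¹ * α v ∈ U)
    (π : P →* Multiplicative (Fin d → ZMod 2)) (hs : Function.Surjective π)
    (hπ : ∀ x, π x = 1 ↔ x ∈ Fr P) (B₀ : Tri d → ZMod 2) :
    Bnd {B : Tri d → ZMod 2 | ∃ θ : Ext π B₀ ≃* Ext π B, θ (Ext.z π B₀) = Ext.z π B}
      (b * a + d * b + a * 1) := by
  have : Finite P := Nat.finite_of_card_ne_zero (by rw [hP]; positivity)
  have b2 := bnd_hom (G := Fr P) (e := a) ((Fr P).card_le_card_group.trans hP.le)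
    (Bnd.of_card (α := Multiplicative (ZMod 2)) Set.univ (E := 1) (by simp))
  refine ((bnd_phi hP h1 h3 π hπ).prod b2).of_code (fun c B => ∀ x : P,
    bf B (c.1 x).toAdd (c.1 x).toAdd =
      (c.2 ⟨x ^ 2, sq_mem_Fr x⟩).toAdd + bf B₀ (π x).toAdd (π x).toAdd ∧
      Function.Surjective c.1) ?_ ?_
  · rintro B ⟨θ, hz⟩
    obtain ⟨α, l, hl⟩ := ext_iso θ hz
    have hα : ∀ x ∈ Fr P, π (α x) = 1 := fun x hx => by
      rw [hπ, ← map_Fr_mulAut α]
      exact ⟨x, hx, rfl⟩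
    let μ : Fr P →* Multiplicative (ZMod 2) := MonoidHom.mk' (fun x => Multiplicative.ofAdd (l x))
      fun x y => by
        have e1 := congrArg Ext.s (map_mul θ ⟨x, 0⟩ ⟨y, 0⟩)
        have e2 : (⟨x, 0⟩ * ⟨y, 0⟩ : Ext π B₀) = ⟨x * y, 0⟩ :=
          Ext.ext' rfl (by simp [Ext.mul_s, (hπ _).2 x.2, bf_zero_left])
        rw [e2, hl, hl, hl, Ext.mul_s] at e1
        simp only [hα _ x.2, toAdd_one, bf_zero_left, add_zero] at e1
        rw [← ofAdd_add, ← e1, Subgroup.coe_mul]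
    refine ⟨(π.comp α.toMonoidHom, μ), ⟨⟨α, rfl⟩, fun _ => trivial⟩, fun x =>
      ⟨?_, hs.comp α.surjective⟩⟩
    have e1 := congrArg Ext.s (map_pow θ ⟨x, 0⟩ 2)
    rw [Ext.sq_eq, hl, hl, Ext.sq_eq] at e1
    exact e1.symm
  · rintro c B B' - - e e'
    have : ∀ v, bf B v v = bf B' v v := fun v => by
      obtain ⟨x, hx⟩ := (e 1).2 (Multiplicative.ofAdd v)
      have := (e x).1.trans (e' x).1.symm
      rwa [hx, toAdd_ofAdd] at this
    exact bf_inj (fun _ => this _) fun _ _ => this _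

theorem cov_good_d (a d b : ℕ) : Cov (fun P => Nat.card P = 2 ^ a ∧
      Nat.card P = 2 ^ d * Nat.card (Fr P) ∧ ∀ α : MulAut P, ∃ U : Subgroup P, Fr P ≤ U ∧
        Nat.card U ≤ 2 ^ b * Nat.card (Fr P) ∧ ∀ v, v⁻¹ * α v ∈ U)
    (Real.logb 2 (g (2 ^ (a + 1))) + ((a + 1 : ℕ) + (b * a + d * b + a * 1)) - d * d / 2) := by
  obtain ⟨ι, _, R, r1, r2, r3⟩ := exists_reps (Pr := fun P => Nat.card P = 2 ^ a ∧
      Nat.card P = 2 ^ d * Nat.card (Fr P) ∧ ∀ α : MulAut P, ∃ U : Subgroup P, Fr P ≤ U ∧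
        Nat.card U ≤ 2 ^ b * Nat.card (Fr P) ∧ ∀ v, v⁻¹ * α v ∈ U) (n := 2 ^ a) (by positivity)
    fun G hG => hG.1
  have hf : ∀ i, Finite (R i) := fun i =>
    Nat.finite_of_card_ne_zero (by rw [(r1 i).1]; positivity)
  choose π hs hπ using fun i => exists_pi (r1 i).2.1
  obtain ⟨S, h1, h2, h3⟩ := (cov_g (n := 2 ^ (a + 1)) (by positivity)).reps
  have key : Bnd (Set.univ : Set (ι × (Tri d → ZMod 2)))
      (Real.logb 2 (g (2 ^ (a + 1))) + ((a + 1 : ℕ) + (b * a + d * b + a * 1))) := by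
    refine h1.bind (T := fun Q : Gp => {c | Nonempty (Ext (π c.1) c.2 ≃* Q)}) (fun Q hQ => ?_)
      fun c _ => ?_
    · have hc := h2 Q hQ
      have : Finite Q := Nat.finite_of_card_ne_zero (by rw [hc]; positivity)
      refine (Bnd.of_card (Set.univ : Set Q) (cast_le_two_rpow hc.le)).bind
        (T := fun q => {c | ∃ ψ : Ext (π c.1) c.2 ≃* Q, ψ (Ext.z _ _) = q}) (fun q _ => ?_) ?_
      · rcases Set.eq_empty_or_nonempty {c : ι × (Tri d → ZMod 2) |
          ∃ ψ : Ext (π c.1) c.2 ≃* Q, ψ (Ext.z _ _) = q} with he | ⟨⟨i, B₀⟩, ψ₀, hψ₀⟩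
        · rw [he]
          exact (Bnd.subsingleton Set.subsingleton_empty).mono le_rfl (by positivity)
        · refine ((bnd_forms (r1 i).1 (r1 i).2.1 (r1 i).2.2 (π i) (hs i) (hπ i) B₀).image
            (Prod.mk i)).mono ?_ le_rfl
          rintro ⟨j, B⟩ ⟨ψ, hψ⟩
          have hz : (ψ₀.trans ψ.symm) (Ext.z _ _) = Ext.z _ _ := by
            rw [MulEquiv.trans_apply, hψ₀, ← hψ, ψ.symm_apply_apply]
          obtain ⟨α, -⟩ := ext_iso _ hz
          obtain rfl : i = j := r2 i j ⟨α⟩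
          exact ⟨B, ⟨_, hz⟩, rfl⟩
      · rintro c ⟨ψ⟩
        exact ⟨_, trivial, ψ, rfl⟩
    · refine h3 ⟨Ext (π c.1) c.2⟩ ?_
      change Nat.card (Ext (π c.1) c.2) = _
      rw [Ext.card, (r1 c.1).1, Nat.card_zmod, pow_succ]
  refine ⟨Set.range R, ?_, fun G hG => (r3 G hG).elim fun i hi => ⟨_, ⟨i, rfl⟩, hi⟩⟩
  rw [← Set.image_univ]
  refine Bnd.image (Bnd.of_card _ ?_) R
  have k2 := key.card_le
  rw [Nat.card_prod, Nat.card_fun, Nat.card_zmod, Nat.cast_mul, Nat.cast_pow, Nat.cast_ofNat,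
    ← Real.rpow_natCast] at k2
  rw [Real.rpow_sub two_pos, le_div_iff₀ (by positivity)]
  refine le_trans (mul_le_mul_of_nonneg_left
    (Real.rpow_le_rpow_of_exponent_le one_le_two ?_) (by positivity)) k2
  have k3 : ((d * d : ℕ) : ℝ) ≤ (Nat.card (Tri d) * 2 : ℕ) := Nat.cast_le.2 (sq_le_card_tri d)
  push_cast at k3
  linarith

theorem cov_good (a : ℕ) : Cov (fun P => Nat.card P = 2 ^ a ∧ Good P a)
    (Real.logb 2 (g (2 ^ (a + 1))) - 19 / 100 * a ^ 2 + 4 * (a + 1)) := by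
  have key := Cov.bind (T := {d : ℕ | d ≤ a ∧ 13 * a ≤ 20 * d})
    (P := fun P => Nat.card P = 2 ^ a ∧ Good P a)
    (E' := Real.logb 2 (g (2 ^ (a + 1))) - 19 / 100 * a ^ 2 + 3 * a + 4)
    ((Bnd.range a).mono (fun _ h => h.1) le_rfl)
    (fun d hd => (cov_good_d a d (a / 100)).mono (fun _ h => h) (by
      have b1 : ((a / 100 : ℕ) : ℝ) ≤ a / 100 := by exact_mod_cast Nat.cast_div_le (α := ℝ)
      have b2 : (13 : ℝ) * a ≤ 20 * d := by exact_mod_cast hd.2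
      have b3 : (0 : ℝ) ≤ a := by positivity
      have b4 : (0 : ℝ) ≤ d := by positivity
      have c1 := mul_le_mul_of_nonneg_right b1 b3
      have c2 := mul_le_mul_of_nonneg_left b1 b4
      have c3 : 0 ≤ (20 * (d : ℝ) - 13 * a) * (d + 63 / 100 * a) :=
        mul_nonneg (by linarith) (by positivity)
      rw [Nat.cast_add, Nat.cast_one]
      nlinarith [c1, c2, c3]))
    (by
      rintro G ⟨h1, d, h2, h3, h4⟩
      exact ⟨d, ⟨(le_of_card_fr h1 h2).1, h3⟩, h1, h2, h4⟩)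
  exact key.mono (fun _ h => h) (by linarith)

end Pool.Agent.P.MP_9f774b_al
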