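import Pool.Agent.P.MP_9f774b_al.ExtG

/-!
Higman's lower bound for the number of groups of order `2 ^ a`.
-/

set_option autoImplicit false

noncomputable section

namespace Pool.Agent.P.MP_9f774b_al

open N2980dcf5

theorem card_vec (d : ℕ) : Nat.card (Fin d → ZMod 2) = 2 ^ d := by simp

theorem higman_count (d w : ℕ) :
    (w : ℝ) * (d * d) / 2 ≤ Real.logb 2 (g (2 ^ (d + w))) + (w + d) * (d + w : ℕ) := by
  let π := MonoidHom.id (Multiplicative (Fin d → ZMod 2))
  let e : (B : Tri d → Fin w → ZMod 2) → Fin d → Ext π B :=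
    fun B i => ⟨Multiplicative.ofAdd (Pi.single i 1), 0⟩
  obtain ⟨S, h1, h2, h3⟩ := (cov_g (n := 2 ^ (d + w)) (by positivity)).reps
  have key : Bnd (Set.univ : Set (Tri d → Fin w → ZMod 2))
      (Real.logb 2 (g (2 ^ (d + w))) + (w * (d + w : ℕ) + Nat.card (Fin d) * (d + w : ℕ))) := by
    refine h1.bind (T := fun Q : Gp => {B | Nonempty (Ext π B ≃* Q)}) (fun Q hQ => ?_) fun B _ => ?_
    · have hc := h2 Q hQ
      have : Finite Q := Nat.finite_of_card_ne_zero (by rw [hc]; positivity)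
      have hE : (Nat.card Q : ℝ) ≤ 2 ^ ((d + w : ℕ) : ℝ) := cast_le_two_rpow hc.le
      have b1 := bnd_hom (G := Multiplicative (Fin w → ZMod 2)) (e := w)
        (by rw [Nat.card_congr Multiplicative.toAdd, card_vec]) (Bnd.of_card Set.univ hE)
      refine (b1.prod (Bnd.univ_fun (ι := Fin d) hE Set.univ)).of_code
        (fun c B => ∃ ψ : Ext π B ≃* Q, ψ.toMonoidHom.comp (Ext.inr π B) = c.1 ∧
          (fun i => ψ (e B i)) = c.2) ?_ ?_
      · rintro B ⟨ψ⟩
        exact ⟨(_, _), ⟨fun _ => trivial, trivial⟩, ψ, rfl, rfl⟩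
      · rintro c B B' - - ⟨ψ, p1, p2⟩ ⟨ψ', q1, q2⟩
        have r1 : ∀ s, ψ (Ext.inr π B s) = ψ' (Ext.inr π B' s) := fun s =>
          DFunLike.congr_fun (p1.trans q1.symm) s
        have r2 : ∀ i, ψ (e B i) = ψ' (e B' i) := fun i => congrFun (p2.trans q2.symm) i
        have r3 : ∀ (a : Ext π B) (a' : Ext π B'), ψ a = ψ' a' →
            bf B a.x.toAdd a.x.toAdd = bf B' a'.x.toAdd a'.x.toAdd := by
          intro a a' h
          have s1 : ∀ (B : Tri d → Fin w → ZMod 2) (a : Ext π B),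
              a ^ 2 = Ext.inr π B (Multiplicative.ofAdd (bf B a.x.toAdd a.x.toAdd)) := by
            intro B a
            rw [Ext.sq_eq]
            refine Ext.ext' ?_ rfl
            change a.x ^ 2 = 1
            rw [sq]
            exact two_add_self a.x.toAdd
          have s2 : ψ (a ^ 2) = ψ' (a' ^ 2) := by rw [map_pow, map_pow, h]
          rw [s1, s1, r1] at s2
          exact congrArg Ext.s (ψ'.injective s2)
        refine bf_inj (fun i => ?_) fun i j => ?_
        · have := r3 (e B i) (e B' i) (r2 i)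
          simpa only [e, toAdd_ofAdd] using this
        · have := r3 (e B i * e B j) (e B' i * e B' j) (by rw [map_mul, map_mul, r2, r2])
          simpa only [e, Ext.mul_x, toAdd_mul, toAdd_ofAdd] using this
    · refine h3 ⟨Ext π B⟩ ?_
      change Nat.card (Ext π B) = _
      rw [Ext.card, Nat.card_congr Multiplicative.toAdd, card_vec, card_vec, pow_add]
  have k2 := key.card_le
  rw [Nat.card_fun, card_vec, ← pow_mul, Nat.cast_pow, Nat.cast_ofNat, ← Real.rpow_natCast,
    Real.rpow_le_rpow_left_iff one_lt_two, Nat.card_fin] at k2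
  have k3 : ((d * d : ℕ) : ℝ) ≤ (Nat.card (Tri d) * 2 : ℕ) := Nat.cast_le.2 (sq_le_card_tri d)
  push_cast at k2 k3 ⊢
  have : (w : ℝ) * (d * d) ≤ w * (Nat.card (Tri d) * 2) :=
    mul_le_mul_of_nonneg_left k3 (by positivity)
  linarith

theorem higman_lower : ∃ C : ℝ, ∀ a : ℕ,
    2 / 27 * (a : ℝ) ^ 3 - C * (a + 1) ^ 2 ≤ Real.logb 2 (g (2 ^ a)) := by
  refine ⟨2, fun a => ?_⟩
  obtain ⟨d, w, rfl, h1, h2⟩ : ∃ d w, a = d + w ∧ d ≤ 2 * w ∧ 2 * w ≤ d + 2 :=
    ⟨2 * a / 3, a - 2 * a / 3, by omega, by omega, by omega⟩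
  have := higman_count d w
  have h1' : (d : ℝ) ≤ 2 * w := by exact_mod_cast h1
  have h2' : (2 : ℝ) * w ≤ d + 2 := by exact_mod_cast h2
  have hd : (0 : ℝ) ≤ d := by positivity
  have hw : (0 : ℝ) ≤ w := by positivity
  push_cast at this ⊢
  have h3 : 4 * ((d : ℝ) + w) ^ 2 - 8 * (d + w) ≤ 9 * (d * d) := by
    have k1 : 0 ≤ ((d : ℝ) + 2 - 2 * w) * (5 * d + 2 * w) :=
      mul_nonneg (by linarith) (by positivity)
    nlinarith [k1]
  have h4 : ((d : ℝ) + w) * (d * d) ≤ 3 * w * (d * d) :=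
    mul_le_mul_of_nonneg_right (by linarith) (by positivity)
  have h5 := mul_le_mul_of_nonneg_left h3 (add_nonneg hd hw)
  have h6 : 0 ≤ ((d : ℝ) + w) ^ 2 := by positivity
  nlinarith [h4, h5, h6, this]

end Pool.Agent.P.MP_9f774b_al
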