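import Pool.Agent.P.MP_9f774b_al.Lem

/-!
Normal forms along a polycyclic list, and the crude count of groups of order `p ^ b`.
-/

set_option autoImplicit false

noncomputable section

namespace Pool.Agent.P.MP_9f774b_al

open Subgroup hiding closure subset_closure closure_union
open scoped commutatorElement

variable {G : Type} [Group G]

/-- The normal form with exponent vector `e`. -/
def nform (y : ℕ → G) {p : ℕ} : (k : ℕ) → (Fin k → Fin p) → G
  | 0, _ => 1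
  | k + 1, e => y k ^ (e (Fin.last k) : ℕ) * nform y k (Fin.init e)

theorem nform_mem (y : ℕ → G) {p : ℕ} : ∀ (k : ℕ) (e : Fin k → Fin p),
    nform y k e ∈ cl (y '' Set.Iio k)
  | 0, _ => one_mem _
  | k + 1, e => by
    rw [image_Iio_succ]
    have h1 : y k ∈ cl {y k} := sub_cl rfl
    exact mul_mem (mem_sup_right (pow_mem h1 _)) (mem_sup_left (nform_mem y k (Fin.init e)))

theorem map_nform {G' : Type} [Group G'] (f : G →* G') (y : ℕ → G) (y' : ℕ → G') {p : ℕ} :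
    ∀ (k : ℕ) (e : Fin k → Fin p), (∀ i < k, f (y i) = y' i) → f (nform y k e) = nform y' k e
  | 0, _, _ => map_one f
  | k + 1, e, h => by
    simp only [nform, map_mul, map_pow]
    rw [h k (Nat.lt_succ_self k), map_nform f y y' k _ fun i hi => h i (by omega)]

theorem exists_pow_mul [Finite G] {U : Subgroup G} {x : G} {p : ℕ} (hp : 0 < p) (hx : Nz x U)
    (hxp : x ^ p ∈ U) : ∀ g ∈ U ⊔ cl {x}, ∃ i : Fin p, ∃ u ∈ U, x ^ (i : ℕ) * u = g := by
  have h1 : cl {x} ≤ normalizer (U : Set G) := cl_le (by simpa using hx.mem)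
  have h2 := coe_mul_of_left_le_normalizer_right _ _ h1
  intro g hg
  have hg' : g ∈ ((cl {x} ⊔ U : Subgroup G) : Set G) := by rwa [sup_comm]
  rw [h2] at hg'
  obtain ⟨a, ha, u, hu, e⟩ := hg'
  obtain ⟨k, hk⟩ := mem_closure_singleton.1 ha
  have hp' : (0 : ℤ) < p := by exact_mod_cast hp
  have h3 := Int.emod_nonneg k hp'.ne'
  have h4 := Int.emod_lt_of_pos k hp'
  refine ⟨⟨(k % p).toNat, by omega⟩, (x ^ p) ^ (k / p) * u, U.mul_mem (U.zpow_mem hxp _) hu, ?_⟩
  rw [← e, ← hk]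
  change x ^ (k % p).toNat * ((x ^ p) ^ (k / p) * u) = x ^ k * u
  rw [← mul_assoc, ← zpow_natCast, ← zpow_natCast, ← zpow_mul, ← zpow_add,
    Int.toNat_of_nonneg h3, Int.emod_add_mul_ediv]

theorem exists_nform [Finite G] (y : ℕ → G) {p : ℕ} (hp : 0 < p) : ∀ k : ℕ,
    (∀ i < k, Nz (y i) (cl (y '' Set.Iio i)) ∧ y i ^ p ∈ cl (y '' Set.Iio i)) →
      ∀ g ∈ cl (y '' Set.Iio k), ∃ e : Fin k → Fin p, nform y k e = g
  | 0, _, g, hg => ⟨Fin.elim0, by
      have : g = 1 := by simpa using hg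
      rw [this]; rfl⟩
  | k + 1, h, g, hg => by
    rw [image_Iio_succ] at hg
    obtain ⟨i, u, hu, e⟩ := exists_pow_mul hp (h k (Nat.lt_succ_self k)).1
      (h k (Nat.lt_succ_self k)).2 g hg
    obtain ⟨e', he'⟩ := exists_nform y hp k (fun i hi => h i (by omega)) u hu
    refine ⟨Fin.snoc e' i, ?_⟩
    simp only [nform, Fin.snoc_last, Fin.init_snoc, he', e]

theorem card_pc_le [Finite G] (y : ℕ → G) {p : ℕ} (hp : 0 < p) (k : ℕ)
    (h : ∀ i < k, Nz (y i) (cl (y '' Set.Iio i)) ∧ y i ^ p ∈ cl (y '' Set.Iio i)) :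
    Nat.card (cl (y '' Set.Iio k)) ≤ p ^ k := by
  have h1 := exists_nform y hp k h
  have : Function.Surjective fun e : Fin k → Fin p =>
      (⟨nform y k e, nform_mem y k e⟩ : cl (y '' Set.Iio k)) := fun g =>
    (h1 g.1 g.2).imp fun _ he => Subtype.ext he
  simpa using Nat.card_le_card_of_surjective _ this

theorem conj_eq_comm (x y : G) : x * y * x⁻¹ = ⁅y, x⁆⁻¹ * y := by
  simp only [commutatorElement_def]; group

theorem nz_of_comm {y : ℕ → G} {k : ℕ} {x : G} (h : ∀ j < k, ⁅y j, x⁆ ∈ cl (y '' Set.Iio j)) :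
    Nz x (cl (y '' Set.Iio k)) := by
  refine conj_mem_of_closure ?_
  rintro _ ⟨j, hj, rfl⟩
  rw [conj_eq_comm]
  exact mul_mem (inv_mem (cl_mono (Set.image_mono fun i (hi : i < j) => hi.trans hj) (h j hj)))
    (sub_cl ⟨j, hj, rfl⟩)

theorem exists_pc_top [Finite G] {p b : ℕ} (hp : p.Prime) (hG : Nat.card G = p ^ b) :
    ∃ y : ℕ → G, cl (y '' Set.Iio b) = ⊤ ∧ ∀ k < b, (∃ e : Fin k → Fin p, nform y k e = y k ^ p) ∧
      (∀ g, ∃ e : Fin k → Fin p, nform y k e = ⁅y k, g⁆) ∧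
      ∀ g, ∃ e : Fin b → Fin p, nform y b e = g := by
  obtain ⟨y, h1, h2⟩ := exists_pc (N := ⊥) (K := ⊤) hp (IsPGroup.of_card hG) bot_le (z := b)
    (by simpa using hG)
  simp only [bot_sup_eq] at h1 h2
  have h3 : ∀ i < b, Nz (y i) (cl (y '' Set.Iio i)) ∧ y i ^ p ∈ cl (y '' Set.Iio i) :=
    fun i hi => ⟨by have := (h2 i hi.le).1; exact Nz.of_normal _ _, ((h2 i hi.le).2.2 hi).1⟩
  refine ⟨y, h1, fun k hk => ⟨?_, fun g => ?_, fun g => ?_⟩⟩
  · exact exists_nform y hp.pos k (fun i hi => h3 i (by omega)) _ (h3 k hk).2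
  · exact exists_nform y hp.pos k (fun i hi => h3 i (by omega)) _ (((h2 k hk.le).2.2 hk).2 g)
  · exact exists_nform y hp.pos b h3 g (h1 ▸ trivial)

theorem graph_iso_pc {G' : Type} [Group G'] [Finite G] [Finite G'] (y : ℕ → G) (y' : ℕ → G')
    {b n : ℕ} (h1 : cl (y '' Set.Iio b) = ⊤) (h1' : cl (y' '' Set.Iio b) = ⊤)
    (hG : Nat.card G = n) (hG' : Nat.card G' = n)
    (h : Nat.card (cl ((fun i => (y i, y' i)) '' Set.Iio b)) ≤ n) : Nonempty (G ≃* G') := by
  have s1 : (cl ((fun i => (y i, y' i)) '' Set.Iio b)).map (MonoidHom.fst G G') = ⊤ := by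
    rw [map_cl, Set.image_image]
    exact h1
  have s2 : (cl ((fun i => (y i, y' i)) '' Set.Iio b)).map (MonoidHom.snd G G') = ⊤ := by
    rw [map_cl, Set.image_image]
    exact h1'
  obtain ⟨e, -⟩ := graph_iso (cl ((fun i => (y i, y' i)) '' Set.Iio b))
    (fun g => by
      obtain ⟨z, hz, rfl⟩ : g ∈ (cl ((fun i => (y i, y' i)) '' Set.Iio b)).map
        (MonoidHom.fst G G') := s1 ▸ trivial
      exact ⟨z.2, hz⟩)
    (fun g => by
      obtain ⟨z, hz, rfl⟩ : g ∈ (cl ((fun i => (y i, y' i)) '' Set.Iio b)).map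
        (MonoidHom.snd G G') := s2 ▸ trivial
      exact ⟨z.1, hz⟩) (hG ▸ h) (hG' ▸ h)
  exact ⟨e⟩

theorem nform_prod {G' : Type} [Group G'] (y : ℕ → G) (y' : ℕ → G') {p : ℕ} (k : ℕ)
    (e : Fin k → Fin p) : nform (fun i => (y i, y' i)) k e = (nform y k e, nform y' k e) :=
  Prod.ext (map_nform (MonoidHom.fst G G') _ y k e fun _ _ => rfl)
    (map_nform (MonoidHom.snd G G') _ y' k e fun _ _ => rfl)

theorem sum_mul_sub (x : ℝ) (n : ℕ) : ∑ j ∈ Finset.range n, (j : ℝ) * (x - j) =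
    x * n * (n - 1) / 2 - (n - 1) * n * (2 * n - 1) / 6 := by
  induction n with
  | zero => simp
  | succ n ih =>
    rw [Finset.sum_range_succ, ih]
    push_cast
    ring

theorem cov_pgroup (p b : ℕ) (hp : p.Prime) :
    Cov (fun G => Nat.card G = p ^ b)
      (((b : ℝ) ^ 3 / 6 + 2 * (b + 1) ^ 2) * Real.logb 2 p) := by
  have hp0 : (0 : ℝ) < p := by exact_mod_cast hp.pos
  have hp1 : (1 : ℝ) ≤ p := by exact_mod_cast hp.pos
  have hl : 0 ≤ Real.logb 2 p := Real.logb_nonneg one_lt_two hp1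
  have hb : ∀ j : ℕ, (Nat.card (Fin j → Fin p) : ℝ) ≤ 2 ^ (j * Real.logb 2 p) := fun j => by
    rw [mul_comm, Real.rpow_mul_natCast (by norm_num), Real.rpow_logb two_pos (by norm_num) hp0]
    simp
  have h1 : Bnd {f : ∀ j : Fin b, Fin (b - j + 1) → Fin j → Fin p | ∀ j, f j ∈ Set.univ}
      (∑ j : Fin b, Nat.card (Fin (b - j + 1)) * ((j : ℕ) * Real.logb 2 p)) :=
    Bnd.pi fun j => Bnd.univ_fun (hb j) _
  have h2 : ∑ j : Fin b, (Nat.card (Fin (b - j + 1)) : ℝ) * ((j : ℕ) * Real.logb 2 p) ≤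
      ((b : ℝ) ^ 3 / 6 + 2 * (b + 1) ^ 2) * Real.logb 2 p := by
    have e : ∑ j : Fin b, (Nat.card (Fin (b - j + 1)) : ℝ) * ((j : ℕ) * Real.logb 2 p) =
        (∑ j ∈ Finset.range b, (j : ℝ) * ((b + 1) - j)) * Real.logb 2 p := by
      rw [Finset.sum_mul, ← Fin.sum_univ_eq_sum_range
        (fun j => (j : ℝ) * ((b + 1) - j) * Real.logb 2 p)]
      refine Finset.sum_congr rfl fun j _ => ?_
      rw [Nat.card_fin, Nat.cast_add, Nat.cast_sub j.2.le]
      push_cast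
      ring
    rw [e, sum_mul_sub]
    refine mul_le_mul_of_nonneg_right ?_ hl
    have : (0 : ℝ) ≤ b := Nat.cast_nonneg b
    nlinarith [sq_nonneg (b : ℝ)]
  refine Cov.of_code (h1.mono le_rfl h2) (fun f G => ∃ y : ℕ → G, cl (y '' Set.Iio b) = ⊤ ∧
    ∀ j : Fin b, nform y j (f j (Fin.last _)) = y j ^ p ∧
      ∀ t : Fin (b - j), nform y j (f j t.castSucc) = ⁅y j, y (j + t)⁆) ?_ ?_
  · intro G hG
    have : Finite G := Nat.finite_of_card_ne_zero (by rw [hG]; exact (pow_pos hp.pos b).ne')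
    obtain ⟨y, hy, h⟩ := exists_pc_top hp hG
    choose e1 he1 using fun j : Fin b => (h j j.2).1
    choose e2 he2 using fun j : Fin b => (h j j.2).2.1
    refine ⟨fun j => Fin.snoc (α := fun _ => Fin j → Fin p)
      (fun t : Fin (b - j) => e2 j (y (j + t))) (e1 j), fun _ => trivial, y, hy, fun j => ?_⟩
    simp only [Fin.snoc_last, Fin.snoc_castSucc, he1, he2, implies_true, and_self]
  · rintro f G G' hG hG' ⟨y, hy, h⟩ ⟨y', hy', h'⟩
    have : Finite G := Nat.finite_of_card_ne_zero (by rw [hG]; exact (pow_pos hp.pos b).ne')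
    have : Finite G' := Nat.finite_of_card_ne_zero (by rw [hG']; exact (pow_pos hp.pos b).ne')
    refine graph_iso_pc y y' hy hy' hG hG' (card_pc_le _ hp.pos b fun i hi => ⟨?_, ?_⟩)
    · refine nz_of_comm fun j hj => ?_
      have e := nform_mem (fun i => (y i, y' i)) j (f ⟨j, by omega⟩
        (Fin.castSucc ⟨i - j, by simp only; omega⟩))
      rw [nform_prod, (h ⟨j, by omega⟩).2, (h' ⟨j, by omega⟩).2] at e
      simp only [Nat.add_sub_cancel' hj.le] at e
      exact e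
    · have e := nform_mem (fun i => (y i, y' i)) i (f ⟨i, hi⟩ (Fin.last _))
      rw [nform_prod, (h ⟨i, hi⟩).1, (h' ⟨i, hi⟩).1] at e
      exact e

end Pool.Agent.P.MP_9f774b_al
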