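import Pool.Agent.P.MP_9f774b_al.Lem

/-!
Crude count of the extensions of bounded index of a class of `2`-groups (Schreier data).
-/

set_option autoImplicit false

noncomputable section

namespace Pool.Agent.P.MP_9f774b_al

/-- Schreier data of `G` over `K` with a transversal indexed by `Fin h`. -/
def SchData (K : Type) [Group K] (h : ℕ)
    (c : (Fin h → MulAut K) × (Fin h × Fin h → Fin h × K)) (G : Type) [Group G] : Prop :=
  ∃ (f : K →* G) (t : Fin h → G), Function.Bijective (fun x : K × Fin h => f x.1 * t x.2) ∧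
    (∀ i k, t i * f k = f (c.1 i k) * t i) ∧
    ∀ i j, t i * t j = f (c.2 (i, j)).2 * t (c.2 (i, j)).1

theorem SchData.iso {K : Type} [Group K] {h : ℕ}
    {c : (Fin h → MulAut K) × (Fin h × Fin h → Fin h × K)} {G G' : Type} [Group G] [Group G']
    (h1 : SchData K h c G) (h2 : SchData K h c G') : Nonempty (G ≃* G') := by
  obtain ⟨f, t, hb, ha, hm⟩ := h1
  obtain ⟨f', t', hb', ha', hm'⟩ := h2
  let e := Equiv.ofBijective _ hb
  let e' := Equiv.ofBijective _ hb'
  have key : ∀ x y : K × Fin h, e x * e y =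
      e (x.1 * c.1 x.2 y.1 * (c.2 (x.2, y.2)).2, (c.2 (x.2, y.2)).1) := by
    rintro ⟨k, i⟩ ⟨l, j⟩
    change f k * t i * (f l * t j) = f (k * c.1 i l * (c.2 (i, j)).2) * t (c.2 (i, j)).1
    rw [map_mul, map_mul, mul_assoc (f k * f (c.1 i l)), ← hm, mul_assoc (f k), ← mul_assoc (t i),
      ha]
    simp only [mul_assoc]
  have key' : ∀ x y : K × Fin h, e' x * e' y =
      e' (x.1 * c.1 x.2 y.1 * (c.2 (x.2, y.2)).2, (c.2 (x.2, y.2)).1) := by
    rintro ⟨k, i⟩ ⟨l, j⟩
    change f' k * t' i * (f' l * t' j) = f' (k * c.1 i l * (c.2 (i, j)).2) * t' (c.2 (i, j)).1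
    rw [map_mul, map_mul, mul_assoc (f' k * f' (c.1 i l)), ← hm', mul_assoc (f' k),
      ← mul_assoc (t' i), ha']
    simp only [mul_assoc]
  refine ⟨MulEquiv.mk (e.symm.trans e') fun a b => ?_⟩
  obtain ⟨x, rfl⟩ := e.surjective a
  obtain ⟨y, rfl⟩ := e.surjective b
  change e' (e.symm (e x * e y)) = e' (e.symm (e x)) * e' (e.symm (e y))
  rw [key, e.symm_apply_apply, e.symm_apply_apply, e.symm_apply_apply, key']

theorem exists_schData {G : Type} [Group G] (K : Subgroup G) [hK : K.Normal] {h : ℕ} (hh : 0 < h)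
    (hi : K.index = h) {K₀ : Type} [Group K₀] (e : K ≃* K₀) : ∃ c, SchData K₀ h c G := by
  have hfin : Finite (G ⧸ K) := Nat.finite_of_card_ne_zero (by
    rw [← Subgroup.index_eq_card, hi]; exact hh.ne')
  let q : (G ⧸ K) ≃ Fin h := Finite.equivFinOfCardEq (by rw [← Subgroup.index_eq_card, hi])
  let f : K₀ →* G := K.subtype.comp e.symm.toMonoidHom
  let t : Fin h → G := fun i => (q.symm i).out
  have hf : ∀ k, f k ∈ K := fun k => (e.symm k).2
  have hf1 : ∀ k, ((f k : G) : G ⧸ K) = 1 := fun k => (QuotientGroup.eq_one_iff _).2 (hf k)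
  have ht : ∀ i, ((t i : G) : G ⧸ K) = q.symm i := fun i => QuotientGroup.out_eq' _
  have hfi : Function.Injective f := fun a b hab =>
    e.symm.injective (Subtype.ext hab)
  have hsurj : Function.Surjective (fun x : K₀ × Fin h => f x.1 * t x.2) := by
    intro g
    have hm : g * (t (q (g : G ⧸ K)))⁻¹ ∈ K := by
      rw [← QuotientGroup.eq_one_iff, QuotientGroup.mk_mul, QuotientGroup.mk_inv, ht]
      simp
    refine ⟨(e ⟨_, hm⟩, q (g : G ⧸ K)), ?_⟩
    simp [f]
  have hinj : Function.Injective (fun x : K₀ × Fin h => f x.1 * t x.2) := by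
    rintro ⟨k, i⟩ ⟨l, j⟩ hx
    simp only at hx
    have h1 : ((f k * t i : G) : G ⧸ K) = (f l * t j : G) := by rw [hx]
    rw [QuotientGroup.mk_mul, QuotientGroup.mk_mul, hf1, hf1, ht, ht, one_mul, one_mul] at h1
    have hij : i = j := q.symm.injective h1
    subst hij
    rw [hfi (mul_right_cancel hx)]
  choose π hπ using fun x : Fin h × Fin h => hsurj (t x.1 * t x.2)
  refine ⟨(fun i => e.symm.trans ((MulAut.conjNormal (t i) : MulAut K).trans e),
    fun x => ((π x).2, (π x).1)), f, t, ⟨hinj, hsurj⟩, fun i k => ?_, fun i j => (hπ (i, j)).symm⟩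
  simp [f]

theorem cov_ext (Pr : Gp → Prop) (E : ℝ) (hP : Cov Pr E) (a h : ℕ) (hh : 0 < h)
    (hPa : ∀ K, Pr K → Nat.card K = 2 ^ a) :
    Cov (fun G => ∃ K : Subgroup G, K.Normal ∧ K.index = h ∧ Pr ⟨K⟩)
      (E + h * a ^ 2 + h ^ 2 * (h + a)) := by
  obtain ⟨S, hS, hSP, hrep⟩ := hP.reps
  rw [add_assoc]
  refine Cov.bind (Q := fun (K₀ : Gp) (G : Gp) => ∃ c, SchData K₀ h c G) hS (fun K₀ hK₀ => ?_) ?_
  · have hc := hPa K₀ (hSP K₀ hK₀)
    have hfin : Finite K₀ := Nat.finite_of_card_ne_zero (by rw [hc]; positivity)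
    have h1 : (Nat.card (MulAut K₀) : ℝ) ≤ 2 ^ ((a : ℝ) * (a : ℝ)) :=
      card_mulAut_le hc.le (cast_le_two_rpow hc.le)
    have h2 : (Nat.card (Fin h × K₀) : ℝ) ≤ 2 ^ ((h : ℝ) + a) := by
      have : Nat.card (Fin h × K₀) ≤ 2 ^ (h + a) := by
        rw [Nat.card_prod, hc, pow_add, Nat.card_eq_fintype_card, Fintype.card_fin]
        exact Nat.mul_le_mul_right _ Nat.lt_two_pow_self.le
      simpa using cast_le_two_rpow this
    have hB := (Bnd.univ_fun (ι := Fin h) h1 Set.univ).prod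
      (Bnd.univ_fun (ι := Fin h × Fin h) h2 Set.univ)
    refine (Cov.of_code hB (fun c (G : Gp) => SchData K₀ h c G) (fun G hG => ?_)
      fun c G G' _ _ h1 h2 => h1.iso h2).mono (fun _ hG => hG) (le_of_eq ?_)
    · obtain ⟨c, hc⟩ := hG
      exact ⟨c, ⟨trivial, trivial⟩, hc⟩
    · simp only [Nat.card_eq_fintype_card, Fintype.card_prod, Fintype.card_fin]
      push_cast
      ring
  · rintro G ⟨K, hK, hi, hPr⟩
    obtain ⟨K₀, hK₀, ⟨e⟩⟩ := hrep _ hPr
    exact ⟨K₀, hK₀, exists_schData K hh hi e⟩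

end Pool.Agent.P.MP_9f774b_al
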