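import Pool.Agent.P.MP_9f774b_al.NotGood
import Pool.Agent.P.MP_9f774b_al.Higman
import Pool.Agent.P.MP_9f774b_al.Growth
import Pool.Agent.P.MP_9f774b_al.DetCount
import Pool.Agent.P.MP_9f774b_al.Schreier
import Pool.Agent.P.MP_9f774b_al.PGrp
import Pool.Agent.P.MP_9f774b_al.Arith

/-!
Assembly of the estimates.
-/

set_option autoImplicit false

noncomputable section

namespace Pool.Agent.P.MP_9f774b_al

open N2980dcf5 Filter

/-- The binary logarithm of the number of groups of order `2 ^ a`. -/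
def lg (a : ℕ) : ℝ := Real.logb 2 (g (2 ^ a))

theorem cov_lg (a : ℕ) : Cov (fun G => Nat.card G = 2 ^ a) (lg a) := cov_g (by positivity)

theorem lg_le_of_cov {a : ℕ} {E : ℝ} (h : Cov (fun G => Nat.card G = 2 ^ a) E) : lg a ≤ E := by
  have h0 : (0 : ℝ) < g (2 ^ a) := by exact_mod_cast g_pos (by positivity)
  rw [lg, Real.logb_le_iff_le_rpow one_lt_two h0]
  exact g_le_of_cov h

theorem lg_nonneg (a : ℕ) : 0 ≤ lg a :=
  Real.logb_nonneg one_lt_two (by exact_mod_cast g_pos (by positivity))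

theorem cov_not_good' : ∃ η : ℝ, 0 < η ∧ η ≤ 2 / 27 ∧ ∃ a₀ : ℕ, ∀ a ≥ a₀,
    Cov (fun P => Nat.card P = 2 ^ a ∧ ¬ Good P a) ((2 / 27 - η) * a ^ 3) := by
  obtain ⟨η, h1, a₀, h2⟩ := cov_not_good
  refine ⟨min η (2 / 27), lt_min h1 (by norm_num), min_le_right _ _, a₀, fun a ha =>
    (h2 a ha).mono (fun _ h => h) ?_⟩
  have := min_le_left η (2 / 27)
  gcongr

theorem higman' (ε : ℝ) (hε : 0 < ε) : ∀ᶠ m : ℕ in atTop, (2 / 27 - ε) * (m : ℝ) ^ 3 ≤ lg m := by
  obtain ⟨C, hC⟩ := higman_lower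
  filter_upwards [eventually_const_le (4 * |C|) ε hε, eventually_ge_atTop 1] with m h1 h2
  have h3 : (1 : ℝ) ≤ m := by exact_mod_cast h2
  have h4 := hC m
  have h5 : C * (m + 1) ^ 2 ≤ |C| * (4 * m ^ 2) :=
    mul_le_mul (le_abs_self C) (by nlinarith) (by positivity) (abs_nonneg C)
  have h6 : |C| * (4 * m ^ 2) ≤ ε * m ^ 3 := by nlinarith
  rw [lg]
  linarith

theorem lg_step : ∀ᶠ a : ℕ in atTop, lg a ≤ lg (a + 1) - 18 / 100 * a ^ 2 := by
  obtain ⟨η, h1, h2, a₀, h3⟩ := cov_not_good'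
  filter_upwards [eventually_ge_atTop a₀, (tendsto_add_atTop_nat 1).eventually
    (higman' (η / 2) (by positivity)), eventually_const_le 2 (η / 2) (by positivity),
    eventually_ge_atTop 1000] with a ha h4 h5 h6
  have h7 : (1000 : ℝ) ≤ a := by exact_mod_cast h6
  have h8 : (2 / 27 - η / 2) * (a : ℝ) ^ 3 ≤ (2 / 27 - η / 2) * ((a + 1 : ℕ) : ℝ) ^ 3 := by
    push_cast
    gcongr <;> linarith
  refine (lg_le_of_cov (Cov.union (E := lg (a + 1) - 18 / 100 * a ^ 2 - 1)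
    ((cov_good a).mono (fun _ h => h) ?_) ((h3 a ha).mono (fun _ h => h) ?_) ?_)).trans
    (by linarith)
  · rw [lg]
    nlinarith
  · nlinarith
  · intro G hG
    by_cases h : Good G a
    · exact Or.inl ⟨hG, h⟩
    · exact Or.inr ⟨hG, h⟩

theorem lg_growth : ∃ a₀ : ℕ, ∀ a ≥ a₀, ∀ σ : ℕ, lg a ≤ lg (a + σ) - 18 / 100 * a ^ 2 * σ := by
  obtain ⟨a₀, h⟩ := eventually_atTop.1 lg_step
  refine ⟨a₀, fun a ha σ => ?_⟩
  induction σ with
  | zero => simp
  | succ σ ih =>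
    have h1 := h (a + σ) (by omega)
    have h2 : (a : ℝ) ^ 2 ≤ ((a + σ : ℕ) : ℝ) ^ 2 := by
      push_cast
      gcongr
      linarith [(Nat.cast_nonneg σ : (0 : ℝ) ≤ σ)]
    rw [← add_assoc]
    push_cast at *
    linarith

section

variable (F : ∀ k : ℕ, Set (Group (Fin k))) (C : ℕ)
  (hF : ∀ k, (F k).ncard ≤ k ^ (C * Nat.log 2 k))

include hF

theorem cov_A (a k σ j : ℕ) (hj : 0 < j) (hk : ¬ 2 ∣ k) (hσ : k ≤ 2 ^ σ) (E : ℝ) (hE0 : 0 ≤ E)
    (hE : Cov (fun G => Nat.card G = 2 ^ a) E) :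
    Cov (fun G => Nat.card G = 2 ^ a * k ∧ CF F G)
      (E + (49 / 726 * (σ : ℝ) ^ 3 + 8 * σ ^ 2) + 30 * ((2 ^ j + σ / j + C + 2) * (a + σ + 1) ^ 2 +
        σ * (a + σ + 1) * (1 + Real.log ((a + σ : ℕ) + 1)))) := by
  classical
  have hk0 : k ≠ 0 := fun e => hk (e ▸ dvd_zero 2)
  have hf : ∀ p, (2 ^ a * k).factorization p = (if p = 2 then a else 0) + k.factorization p := by
    intro p
    rw [Nat.factorization_mul (by positivity) hk0, Nat.prime_two.factorization_pow]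
    simp [Finsupp.single_apply, eq_comm]
  have hf2 : (2 ^ a * k).factorization 2 = a := by
    simp [hf, Nat.factorization_eq_zero_of_not_dvd hk]
  have ho : ordCompl[2] (2 ^ a * k) = k := by
    rw [hf2, Nat.mul_div_cancel_left _ (by positivity)]
  have hsub : (2 ^ a * k).primeFactors ⊆ insert 2 k.primeFactors := by
    intro p hp
    have h1 := Nat.prime_of_mem_primeFactors hp
    rcases (Nat.Prime.dvd_mul h1).1 (Nat.dvd_of_mem_primeFactors hp) with h | h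
    · simp [(Nat.prime_dvd_prime_iff_eq h1 Nat.prime_two).1 (h1.dvd_of_dvd_pow h)]
    · simp [h1, h, hk0]
  have h2k : 2 ∉ k.primeFactors := fun h => hk (Nat.dvd_of_mem_primeFactors h)
  let Ep : ℕ → ℝ := fun p => if p = 2 then E else
    ((k.factorization p : ℝ) ^ 3 / 6 + 2 * (k.factorization p + 1) ^ 2) * Real.logb 2 p
  refine (cov_detA F C hF (2 ^ a * k) (a + σ) σ (by positivity)
    (by rw [pow_add]; gcongr) (ho.symm ▸ hσ) Ep fun p hp => ?_).mono (fun _ h => h) ?_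
  · by_cases h : p = 2
    · subst h
      simpa only [Ep, if_true, hf2] using hE
    · simpa only [Ep, if_neg h, hf, zero_add] using
        cov_pgroup p (k.factorization p) (Nat.prime_of_mem_primeFactors hp)
  have h1 : ∑ p ∈ (2 ^ a * k).primeFactors, Ep p ≤ ∑ p ∈ insert 2 k.primeFactors, Ep p := by
    refine Finset.sum_le_sum_of_subset_of_nonneg hsub fun p hp _ => ?_
    by_cases h : p = 2
    · simpa only [Ep, if_pos h] using hE0
    · have := logb_ge_of_three_le (three_le_of_mem hk ((Finset.mem_insert.1 hp).resolve_left h))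
      simp only [Ep, if_neg h]
      positivity
  rw [Finset.sum_insert h2k, Finset.sum_congr rfl (g := fun p =>
    ((k.factorization p : ℝ) ^ 3 / 6 + 2 * (k.factorization p + 1) ^ 2) * Real.logb 2 p)
    fun p hp => if_neg fun e : p = 2 => h2k (e ▸ hp)] at h1
  have h2 := sum_odd_le hk hσ
  have h3 : ((2 ^ a * k).primeFactors.card : ℝ) ≤ 2 ^ j + σ / j + 1 := by
    have h4 := Finset.card_le_card hsub
    rw [Finset.card_insert_of_notMem h2k] at h4
    have h5 : ((2 ^ a * k).primeFactors.card : ℝ) ≤ k.primeFactors.card + 1 := by exact_mod_cast h4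
    linarith [omega_le hk0 hσ j hj]
  have h4 : (((2 ^ a * k).primeFactors.card : ℝ) + C + 1) * ((a + σ : ℕ) + 1) ^ 2 ≤
      (2 ^ j + σ / j + C + 2) * (a + σ + 1) ^ 2 := by
    push_cast
    exact mul_le_mul_of_nonneg_right (by linarith) (by positivity)
  simp only [Ep, if_true] at h1
  push_cast at *
  linarith

theorem cov_A' : ∃ D : ℝ, 0 ≤ D ∧ ∀ (a k σ m : ℕ) (E : ℝ), a + σ = m → 1 ≤ m → ¬ 2 ∣ k →
    k ≤ 2 ^ σ → 0 ≤ E → Cov (fun G => Nat.card G = 2 ^ a) E →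
    Cov (fun G => Nat.card G = 2 ^ a * k ∧ CF F G)
      (E + 49 / 726 * (σ : ℝ) ^ 3 + 8 * σ ^ 2 + D * m ^ 2 + 12 / 10000 * σ * m ^ 2 +
        60 * σ * m * (1 + Real.log (m + 1))) := by
  obtain ⟨j, hj⟩ : ∃ j : ℕ, j = 100000 := ⟨_, rfl⟩
  refine ⟨120 * (2 ^ j + C + 2), by positivity, fun a k σ m E hm h1 hk hσ hE0 hE =>
    (cov_A F C hF a k σ j (by omega) hk hσ E hE0 hE).mono (fun _ h => h) ?_⟩
  have hm' : (a : ℝ) + σ = m := by exact_mod_cast hm
  have h1' : (1 : ℝ) ≤ m := by exact_mod_cast h1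
  have hj' : (j : ℝ) = 100000 := by exact_mod_cast hj
  rw [hm, hm', hj']
  have hl : 0 ≤ 1 + Real.log (m + 1) := by
    have := Real.log_nonneg (show (1 : ℝ) ≤ m + 1 by linarith)
    linarith
  have e1 : ((2 : ℝ) ^ j + σ / 100000 + C + 2) * (m + 1) ^ 2 ≤
      (2 ^ j + σ / 100000 + C + 2) * (4 * m ^ 2) := by
    gcongr
    nlinarith
  have e2 : σ * (m + 1) * (1 + Real.log (m + 1)) ≤ σ * (2 * m) * (1 + Real.log (m + 1)) := by
    gcongr
    linarith
  linarith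

theorem cov_A1 : ∀ᶠ m : ℕ in atTop, ∀ a k σ : ℕ, a + σ = m → ¬ 2 ∣ k → k ≤ 2 ^ σ →
    10 * a ≤ 7 * m → Cov (fun G => Nat.card G = 2 ^ a * k ∧ CF F G) (lg m - m) := by
  obtain ⟨D, hD, h⟩ := cov_A' F C hF
  filter_upwards [higman' (1 / 1000) (by norm_num), eventually_ge_atTop 100000,
    eventually_const_le D (1 / 1000) (by norm_num),
    eventually_log_le (1 / 60000) (by norm_num)] with m h1 h2 h3 h4 a k σ hm hk hσ ha
  have hE := cov_pgroup 2 a Nat.prime_two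
  rw [Nat.cast_ofNat, Real.logb_self_eq_one one_lt_two, mul_one] at hE
  refine (h a k σ m _ hm (by omega) hk hσ (by positivity) hE).mono (fun _ h => h) ?_
  have hm' : (a : ℝ) + σ = m := by exact_mod_cast hm
  have ha' : 10 * (a : ℝ) ≤ 7 * m := by exact_mod_cast ha
  have h2' : (100000 : ℝ) ≤ m := by exact_mod_cast h2
  have ha0 : (0 : ℝ) ≤ a := Nat.cast_nonneg a
  have hσ0 : (0 : ℝ) ≤ σ := Nat.cast_nonneg σ
  generalize 1 + Real.log (m + 1) = l at *
  generalize lg m = x at *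
  generalize (a : ℝ) = a at *
  generalize (σ : ℝ) = σ at *
  generalize (m : ℝ) = m at *
  have e1 : a ^ 3 / 6 + 49 / 726 * σ ^ 3 ≤ 49 / 726 * m ^ 3 := by
    rw [← hm']
    have h5 : 3 * a ≤ 7 * σ := by linarith
    have h6 : 0 ≤ 49 / 726 * (a ^ 2 + 3 * a * σ + 3 * σ ^ 2) - a ^ 2 / 6 := by nlinarith
    nlinarith [mul_nonneg ha0 h6]
  have e3 : (a + 1) ^ 2 ≤ 4 * m ^ 2 := by nlinarith
  have e4 : σ ^ 2 ≤ m ^ 2 := by nlinarith
  have e5 : D * m ^ 2 ≤ 1 / 1000 * m * m ^ 2 := by gcongr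
  have e6 : σ * m * l ≤ m * m * (1 / 60000 * m) :=
    (mul_le_mul_of_nonneg_left h4 (by positivity)).trans (by gcongr; linarith)
  have e7 : 100000 * m ^ 2 ≤ m ^ 3 := by nlinarith
  have e8 : m ≤ m ^ 2 := by nlinarith
  have e9 : σ * m ^ 2 ≤ m * m ^ 2 := by gcongr; linarith
  nlinarith

theorem cov_A2 : ∃ L : ℕ, ∀ᶠ m : ℕ in atTop, ∀ a k σ : ℕ, a + σ = m → ¬ 2 ∣ k → k ≤ 2 ^ σ →
    7 * m ≤ 10 * a → L ≤ σ → Cov (fun G => Nat.card G = 2 ^ a * k ∧ CF F G) (lg m - m) := by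
  obtain ⟨D, hD, h⟩ := cov_A' F C hF
  obtain ⟨a₀, h0⟩ := lg_growth
  refine ⟨⌈100 * D⌉₊ + 1, ?_⟩
  filter_upwards [eventually_ge_atTop (2 * a₀), eventually_ge_atTop 1000,
    eventually_log_le (1 / 6000) (by norm_num)] with m h1 h2 h4 a k σ hm hk hσ ha hL
  refine (h a k σ m _ hm (by omega) hk hσ (lg_nonneg a) (cov_lg a)).mono (fun _ h => h) ?_
  have h5 := h0 a (by omega) σ
  rw [hm] at h5
  have hm' : (a : ℝ) + σ = m := by exact_mod_cast hm
  have ha' : 7 * (m : ℝ) ≤ 10 * a := by exact_mod_cast ha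
  have h2' : (1000 : ℝ) ≤ m := by exact_mod_cast h2
  have hL' : 100 * D + 1 ≤ σ := by
    have : ((⌈100 * D⌉₊ + 1 : ℕ) : ℝ) ≤ σ := by exact_mod_cast hL
    push_cast at this
    linarith [Nat.le_ceil (100 * D)]
  generalize 1 + Real.log (m + 1) = l at *
  generalize lg m = x at *
  generalize lg a = y at *
  generalize (a : ℝ) = a at *
  generalize (σ : ℝ) = σ at *
  generalize (m : ℝ) = m at *
  have hσ0 : 0 ≤ σ := by linarith
  have e1 : 49 / 100 * m ^ 2 * σ ≤ a ^ 2 * σ := by gcongr; nlinarith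
  have e2 : σ ^ 2 * σ ≤ 9 / 100 * m ^ 2 * σ := by gcongr; nlinarith
  have e3 : σ * σ ≤ 1 / 1000 * m ^ 2 * σ := by gcongr; nlinarith
  have e4 : D * m ^ 2 ≤ 1 / 100 * σ * m ^ 2 := by gcongr; linarith
  have e5 : σ * m * l ≤ σ * m * (1 / 6000 * m) := by gcongr
  have e6 : m * 1 ≤ 1 / 1000 * m ^ 2 * σ := by gcongr <;> nlinarith
  nlinarith

omit hF in
theorem index_normalCore_le {G : Type} [Group G] [Finite G] (P : Subgroup G) :
    P.normalCore.index ≤ P.index.factorial := by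
  classical
  have := Fintype.ofFinite (G ⧸ P)
  rw [Subgroup.normalCore_eq_ker, Subgroup.index_ker, Subgroup.index, ← Nat.card_perm]
  exact Subgroup.card_le_card_group _

theorem cov_B (L : ℕ) : ∀ᶠ m : ℕ in atTop, ∀ a k σ : ℕ, a + σ = m → ¬ 2 ∣ k → k ≤ 2 ^ σ →
    1 ≤ σ → σ ≤ L → Cov (fun G => Nat.card G = 2 ^ a * k ∧ CF F G) (lg m - m) := by
  obtain ⟨c, hc⟩ := cov_detB F C hF (2 ^ L)
  obtain ⟨a₀, h0⟩ := lg_growth
  obtain ⟨η, hη, hη', a₁, hbad⟩ := cov_not_good'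
  obtain ⟨H, hH⟩ : ∃ H : ℕ, H = (2 ^ L).factorial := ⟨_, rfl⟩
  filter_upwards [eventually_ge_atTop (a₀ + L), eventually_ge_atTop (1000 * L + 1000),
    eventually_ge_atTop (2 * a₁), eventually_log_le (1 / (200 * (|c| + 1))) (by positivity),
    higman' (η / 2) (by positivity), eventually_const_le (H ^ 3 + H ^ 2 + 2 * H + 3) (η / 2)
      (by positivity)] with m h1 h2 h3 h4 h5 h6 a k σ hm hk hσ hσ1 hσL
  have hk0 : k ≠ 0 := fun e => hk (e ▸ dvd_zero 2)
  have hf2 : (2 ^ a * k).factorization 2 = a := by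
    rw [Nat.factorization_mul (by positivity) hk0, Nat.prime_two.factorization_pow]
    simp [Nat.factorization_eq_zero_of_not_dvd hk]
  have ho : ordCompl[2] (2 ^ a * k) = k := by
    rw [hf2, Nat.mul_div_cancel_left _ (by positivity)]
  have hkL : k ≤ 2 ^ L := hσ.trans (Nat.pow_le_pow_right two_pos hσL)
  have hn : 2 ^ a * k ≤ 2 ^ m := by rw [← hm, pow_add]; gcongr
  have hm' : (a : ℝ) + σ = m := by exact_mod_cast hm
  have h2' : 1000 * (σ : ℝ) + 1000 ≤ m := by exact_mod_cast (show 1000 * σ + 1000 ≤ m by omega)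
  have hσ1' : (1 : ℝ) ≤ σ := by exact_mod_cast hσ1
  have g1 := hc (2 ^ a * k) m (lg a) (m ^ 2 / 4) (by positivity) hn (ho.symm ▸ hkL)
    (by positivity) (hf2.symm ▸ cov_lg a)
  have g2 : Cov (fun G => ∃ x : ℕ × ℕ, (x ∈ {a' | a' ≤ m} ×ˢ {h | h ≤ H}) ∧ a₁ ≤ x.1 ∧ 0 < x.2 ∧
      ∃ K : Subgroup G, K.Normal ∧ K.index = x.2 ∧ Nat.card K = 2 ^ x.1 ∧ ¬ Good K x.1)
      (m + H + ((2 / 27 - η) * m ^ 3 + H * m ^ 2 + H ^ 2 * (H + m))) := by
    refine Cov.bind ((Bnd.range m).prod (Bnd.range H)) (Q := fun x G => a₁ ≤ x.1 ∧ 0 < x.2 ∧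
      ∃ K : Subgroup G, K.Normal ∧ K.index = x.2 ∧ Nat.card K = 2 ^ x.1 ∧ ¬ Good K x.1) ?_
      fun G hG => hG
    rintro ⟨a', h⟩ ⟨e1, e2⟩
    by_cases e3 : a₁ ≤ a' ∧ 0 < h
    · refine (cov_ext _ _ (hbad a' e3.1) a' h e3.2 fun K hK => hK.1).mono (fun G hG => hG.2.2) ?_
      have e4 : (a' : ℝ) ≤ m := by exact_mod_cast e1
      have e5 : (h : ℝ) ≤ H := by exact_mod_cast e2
      have e6 : 0 ≤ 2 / 27 - η := by linarith
      gcongr
    · exact (Cov.of_iso fun G _ hG _ => (e3 ⟨hG.1, hG.2.1⟩).elim).mono (fun _ h => h) (by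
        have e6 : 0 ≤ 2 / 27 - η := by linarith
        positivity)
  refine (Cov.union (E := lg m - m - 1) (g1.mono (fun _ h => h) ?_) (g2.mono (fun _ h => h) ?_)
    ?_).mono (fun _ h => h) (by linarith)
  · have e0 := h0 a (by omega) σ
    rw [hm] at e0
    rw [ho]
    have e1 : 11 * (k.primeFactors.card : ℝ) ≤ 7 * σ := by exact_mod_cast omega_odd_le hk hσ
    have hl : 0 ≤ 1 + Real.log (m + 1) := by
      have := Real.log_nonneg (show (1 : ℝ) ≤ m + 1 by linarith)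
      linarith
    have e2 : c * (m + 1) * (1 + Real.log (m + 1)) ≤
        (|c| + 1) * (2 * m) * (1 / (200 * (|c| + 1)) * m) := by
      gcongr
      · linarith [le_abs_self c]
      · linarith
    have e3 : (|c| + 1) * (2 * m) * (1 / (200 * (|c| + 1)) * m) = m ^ 2 / 100 := by
      field_simp
      ring
    generalize 1 + Real.log (m + 1) = l at *
    generalize (k.primeFactors.card : ℝ) = w at *
    generalize (a : ℝ) = a at *
    generalize (σ : ℝ) = σ at *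
    generalize (m : ℝ) = m at *
    have e4 : 99 / 100 * m ^ 2 * σ ≤ a ^ 2 * σ := by gcongr; nlinarith
    have e5 : w * m ^ 2 ≤ 7 / 11 * σ * m ^ 2 := by gcongr; linarith
    have e6 : m ^ 2 * 1 ≤ m ^ 2 * σ := by gcongr
    have e7 : 1000 * (m + 1) ≤ m ^ 2 := by nlinarith
    nlinarith
  · have hH0 : (0 : ℝ) ≤ H := Nat.cast_nonneg H
    generalize (H : ℝ) = H at *
    generalize (σ : ℝ) = σ at *
    generalize (m : ℝ) = m at *
    have e1 : 1 ≤ m ^ 2 := by nlinarith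
    have e2 : m ≤ m ^ 2 := by nlinarith
    have e3 : (H ^ 3 + H ^ 2 + 2 * H + 3) * m ^ 2 ≤ η / 2 * m * m ^ 2 := by gcongr
    have e4 : H ^ 3 * 1 ≤ H ^ 3 * m ^ 2 := by gcongr
    have e5 : H ^ 2 * m ≤ H ^ 2 * m ^ 2 := by gcongr
    have e6 : H * 1 ≤ H * m ^ 2 := by gcongr
    nlinarith
  · rintro G ⟨hG, hCF⟩
    by_cases hP : ∀ P : Sylow 2 G,
      (Nat.card (MulAut (P : Subgroup G).normalCore) : ℝ) ≤ 2 ^ ((m : ℝ) ^ 2 / 4)
    · exact Or.inl ⟨hG, hCF, hP⟩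
    right
    obtain ⟨P, hP⟩ := not_forall.1 hP
    have : Finite G := Nat.finite_of_card_ne_zero (by rw [hG]; positivity)
    have := Fact.mk Nat.prime_two
    obtain ⟨a', ha'⟩ := IsPGroup.iff_card.1 (P.isPGroup'.to_le (Subgroup.normalCore_le _))
    have e1 : a' ≤ m := by
      rw [← Nat.pow_le_pow_iff_right one_lt_two, ← ha']
      exact (Subgroup.card_le_card_group _).trans (hG ▸ hn)
    have e1' : (a' : ℝ) ≤ m := by exact_mod_cast e1
    have e2 : (P : Subgroup G).index = k := by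
      have := (P : Subgroup G).card_mul_index
      rw [P.card_eq_multiplicity, hG, hf2] at this
      exact Nat.eq_of_mul_eq_mul_left (by positivity) this
    refine ⟨(a', (P : Subgroup G).normalCore.index), ⟨e1, ?_⟩, ?_,
      Nat.pos_of_ne_zero Subgroup.index_ne_zero_of_finite, _, inferInstance, rfl, ha',
      fun hg => hP ((card_mulAut_of_good _ a' ha' hg).trans ?_)⟩
    · exact (index_normalCore_le _).trans (hH ▸ e2 ▸ Nat.factorial_le hkL)
    · by_contra e3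
      refine hP ((card_mulAut_le ha'.le (cast_le_two_rpow ha'.le)).trans ?_)
      have e4 : 2 * (a' : ℝ) ≤ m := by exact_mod_cast (show 2 * a' ≤ m by omega)
      have e5 : (0 : ℝ) ≤ a' := Nat.cast_nonneg a'
      exact Real.rpow_le_rpow_of_exponent_le one_le_two (by nlinarith)
    · exact Real.rpow_le_rpow_of_exponent_le one_le_two (by gcongr)

theorem cov_all : ∀ᶠ m : ℕ in atTop, ∀ n, 0 < n → n < 2 ^ m →
    Cov (fun G => Nat.card G = n ∧ CF F G) (lg m - m) := by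
  obtain ⟨L, hL⟩ := cov_A2 F C hF
  filter_upwards [cov_A1 F C hF, hL, cov_B F C hF L] with m h1 h2 h3 n hn hm
  obtain ⟨a, k, hk, rfl⟩ := Nat.exists_eq_two_pow_mul_odd hn.ne'
  have hk' : ¬ 2 ∣ k := hk.not_two_dvd_nat
  have ha : a < m := (Nat.pow_lt_pow_iff_right one_lt_two).1
    ((Nat.le_mul_of_pos_right _ hk.pos).trans_lt hm)
  obtain ⟨σ, rfl⟩ := Nat.exists_eq_add_of_le ha.le
  have hσ : k ≤ 2 ^ σ := by
    rw [pow_add] at hm
    exact (Nat.lt_of_mul_lt_mul_left hm).le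
  rcases le_total (10 * a) (7 * (a + σ)) with h | h
  · exact h1 a k σ rfl hk' hσ h
  rcases le_total L σ with h' | h'
  · exact h2 a k σ rfl hk' hσ h h'
  · exact h3 a k σ rfl hk' hσ (by omega) h'

theorem sum_le_g : ∃ M, ∀ m ≥ M, ∑ n ∈ Finset.range (2 ^ m),
    Nat.card (Quot (α := {T : Group (Fin n) // @CF F (Fin n) T}) fun G H => isomorphic G.1 H.1)
      ≤ g (2 ^ m) := by
  obtain ⟨M, hM⟩ := eventually_atTop.1 (cov_all F C hF)
  refine ⟨M, fun m hm => ?_⟩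
  have h0 : (0 : ℝ) < g (2 ^ m) := by exact_mod_cast g_pos (by positivity)
  have h1 : ∀ n ∈ Finset.range (2 ^ m), (Nat.card (Quot (α := {T : Group (Fin n) //
      @CF F (Fin n) T}) fun G H => isomorphic G.1 H.1) : ℝ) ≤ 2 ^ (lg m - m) := by
    intro n hn
    refine card_quot_le_of_cov _ ?_
    rcases Nat.eq_zero_or_pos n with rfl | h
    · exact ⟨∅, ⟨∅, by simpa using by positivity, by simp⟩, fun G ⟨T, _⟩ => T.one.elim0⟩
    · refine (hM m hm n h (Finset.mem_range.1 hn)).mono ?_ le_rfl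
      rintro _ ⟨T, hT, rfl⟩
      exact ⟨card_gpOf T, hT⟩
  have h2 := Finset.sum_le_card_nsmul _ _ _ h1
  rw [Finset.card_range, Real.rpow_sub two_pos, lg, Real.rpow_logb two_pos (by norm_num) h0,
    Real.rpow_natCast, nsmul_eq_mul, Nat.cast_pow, Nat.cast_ofNat,
    mul_div_cancel₀ _ (by positivity)] at h2
  exact_mod_cast h2

end

end Pool.Agent.P.MP_9f774b_al
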