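import Pool.Agent.P.MP_9f774b_al.Lem

/-!
Greedy choice of generators of a finite `2`-group.
-/

set_option autoImplicit false

noncomputable section

namespace Pool.Agent.P.MP_9f774b_al

open Subgroup hiding closure subset_closure closure_union
open scoped commutatorElement

variable {G : Type} [Group G]

theorem mul_mem_of_card_le [Finite G] {B F : Subgroup G} (h : B ≤ F) (hne : ¬ F ≤ B)
    (hc : Nat.card F ≤ 2 * Nat.card B) {a b : G} (ha : a ∈ F) (hb : b ∈ F)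
    (hab : a ∈ B ↔ b ∈ B) : a * b ∈ B := by
  have h1 := (B.subgroupOf F).index_mul_card
  rw [Nat.card_congr (subgroupOfEquivOfLe h).toEquiv] at h1
  have h2 : (B.subgroupOf F).index ≠ 1 := fun e => hne (subgroupOf_eq_top.1 (index_eq_one.1 e))
  have h3 : 0 < Nat.card B := Nat.card_pos
  have h4 : (B.subgroupOf F).index ≠ 0 := index_ne_zero_of_finite
  have h5 : (B.subgroupOf F).index ≤ 2 := Nat.le_of_mul_le_mul_right (h1 ▸ hc) h3
  exact (mul_mem_iff_of_index_two (H := B.subgroupOf F) (by omega) (a := ⟨a, ha⟩)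
    (b := ⟨b, hb⟩)).2 hab

theorem nz_iff [Finite G] {x u : G} {U : Subgroup G} (h : Nz x U) : x * u * x⁻¹ ∈ U ↔ u ∈ U :=
  (h.mem u).symm

theorem sqs_eq_Fr [Finite G] (hG : IsPGroup 2 G) {H : Subgroup G} (h : P3 G ⊔ sqs H = Fr G) :
    sqs H = Fr G := by
  by_contra hne
  have hA : sqs H ≤ Fr G := sqs_mono le_top
  obtain ⟨N, ⟨hN1, hN2, hN3⟩, hmax⟩ := exists_maximal_of_wellFoundedGT
    (fun N : Subgroup G => N.Normal ∧ N ≤ Fr G ∧ ¬ Fr G ≤ sqs H ⊔ N)
    ⟨⊥, inferInstance, bot_le, fun e => hne (le_antisymm hA (by simpa using e))⟩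
  obtain ⟨y, y1, y2, y3, y4⟩ := exists_step Nat.prime_two hG (N := N) (K := Fr G)
    fun e => hN3 (e.trans le_sup_right)
  have h1 : Fr G ≤ sqs H ⊔ N ⊔ cl {y} := by
    by_contra e
    rw [sup_assoc] at e
    exact y2 (hmax ⟨normal_sup_of_comm y4, sup_le hN2 (cl_le (by simpa using y1)), e⟩ le_sup_left
      (mem_sup_right (sub_cl rfl)))
  set B := sqs H ⊔ N with hB
  have hBF : B ≤ Fr G := sup_le hA hN2
  have h2 : Nz y B := fun b hb => by
    have : y * b * y⁻¹ = ⁅y, b⁆ * b := by simp only [commutatorElement_def]; group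
    rw [this]
    exact mul_mem (mem_sup_right (y4 b)) hb
  have h3 : Nat.card (Fr G) ≤ 2 * Nat.card B :=
    (card_le_of_le h1).trans (card_sup_le two_pos h2 (mem_sup_right y3))
  have h4 : ∀ x ∈ H, Nz x B := fun x hx => conj_mem_of_sup
    (fun s hs => mem_sup_left ((Nz.of_mem hx).sqs s hs))
    (fun s hs => mem_sup_right (Nz.of_normal x N s hs))
  have h5 : ∀ g, Nz g B := fun g => conj_mem_of_sup (conj_mem_of_closure (by
      rintro _ ⟨x, hx, rfl⟩
      have e : g * x ^ 2 * g⁻¹ = x ^ 2 * ((x⁻¹ * ⁅x⁻¹, g⁆ * x⁻¹⁻¹) * ⁅x⁻¹, g⁆) := by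
        simp only [commutatorElement_def, sq]; group
      have k : ⁅x⁻¹, g⁆ ∈ Fr G := commutator_mem_sqs trivial trivial
      rw [e]
      exact mul_mem (mem_sup_left (sq_mem_sqs hx)) (mul_mem_of_card_le hBF hN3 h3
        (Nz.of_normal _ _ _ k) k (nz_iff (h4 _ (inv_mem hx))))))
    (fun s hs => mem_sup_right (Nz.of_normal g N s hs))
  refine hN3 (h ▸ sup_le (sup_le (commutator_le.2 fun k hk g _ => ?_) (sqs_le_of fun k hk => ?_))
    le_sup_left)
  · have e : ⁅k, g⁆ = k * (g * k⁻¹ * g⁻¹) := by simp only [commutatorElement_def]; group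
    rw [e]
    exact mul_mem_of_card_le hBF hN3 h3 hk (Nz.of_normal _ _ _ (inv_mem hk))
      (by rw [nz_iff (h5 g), inv_mem_iff])
  · rw [sq]
    exact mul_mem_of_card_le hBF hN3 h3 hk hk Iff.rfl

theorem sqs_sup_Fr (H : Subgroup G) : sqs (Fr G ⊔ H) ≤ P3 G ⊔ sqs H := sqs_le_of fun g hg => by
  have hg' : g ∈ ((H ⊔ Fr G : Subgroup G) : Set G) := by rwa [sup_comm]
  rw [mul_normal] at hg'
  obtain ⟨x, hx, f, hf, rfl⟩ := hg'
  have e : (x * f) ^ 2 = x ^ 2 * ⁅f, x⁻¹⁆⁻¹ * f ^ 2 := by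
    simp only [commutatorElement_def, sq]; group
  dsimp only
  rw [e]
  exact mul_mem (mul_mem (mem_sup_right (sq_mem_sqs hx)) (inv_mem (mem_sup_left (mem_sup_left
    (commutator_mem_commutator hf trivial))))) (mem_sup_left (mem_sup_right (sq_mem_sqs hf)))

theorem card_eq_pow_mul [Finite G] (hG : IsPGroup 2 G) {U V : Subgroup G} (h : U ≤ V) :
    ∃ s, Nat.card V = 2 ^ s * Nat.card U := by
  have := Fact.mk Nat.prime_two
  obtain ⟨a, ha⟩ := IsPGroup.iff_card.1 (hG.to_subgroup U)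
  obtain ⟨b, hb⟩ := IsPGroup.iff_card.1 (hG.to_subgroup V)
  have := card_le_of_le h
  rw [ha, hb, Nat.pow_le_pow_iff_right one_lt_two] at this
  exact ⟨b - a, by rw [ha, hb, ← pow_add, Nat.sub_add_cancel this]⟩

theorem phase_one [Finite G] (i τ : ℕ) : ∃ (U : Subgroup G) (r : ℕ), Fr G ≤ U ∧
    Nat.card U ≤ 2 ^ (2 * i * r) * Nat.card (Fr G) ∧
    2 ^ (τ * r) ≤ Nat.card (P3 G ⊔ sqs U : Subgroup G) ∧ LowRank (P3 G ⊔ sqs U) i τ := by
  obtain ⟨U, ⟨h1, r, h2, h3⟩, hmax⟩ := exists_maximal_of_wellFoundedGT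
    (fun U : Subgroup G => Fr G ≤ U ∧ ∃ r, Nat.card U ≤ 2 ^ (2 * i * r) * Nat.card (Fr G) ∧
      2 ^ (τ * r) ≤ Nat.card (P3 G ⊔ sqs U : Subgroup G))
    ⟨Fr G, le_rfl, 0, by simp, by simpa using Nat.succ_le_of_lt Nat.card_pos⟩
  refine ⟨U, r, h1, h2, h3, fun t ht => ?_⟩
  by_contra hc
  push Not at hc
  have := normal_of_Fr_le h1
  have c1 := card_ea U (fun x : t => (x : G)) (fun x => Nz.of_normal _ _)
    (fun x => h1 (sq_mem_Fr _)) (fun x y => Or.inl (h1 (sq_mem_Fr _)))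
  rw [Subtype.range_coe_subtype, Nat.card_eq_fintype_card (α := t), Fintype.card_coe,
    Finset.setOf_mem] at c1
  have c2 : P3 G ⊔ sqs U ⊔ sqs (cl (t : Set G)) ≤ P3 G ⊔ sqs (U ⊔ cl (t : Set G)) :=
    sup_le (sup_le_sup_left (sqs_mono le_sup_left) _) ((sqs_mono le_sup_right).trans le_sup_right)
  have c3 := hc.trans_le (card_le_of_le c2)
  have c4 : U ⊔ cl (t : Set G) ≤ U := hmax ⟨h1.trans le_sup_left, r + 1, by
    calc _ ≤ 2 ^ (2 * i) * (2 ^ (2 * i * r) * Nat.card (Fr G)) :=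
          c1.trans (Nat.mul_le_mul (Nat.pow_le_pow_right two_pos ht) h2)
      _ = _ := by ring, by
    calc _ = 2 ^ τ * 2 ^ (τ * r) := by ring
      _ ≤ _ := (Nat.mul_le_mul_left _ h3).trans c3.le⟩ le_sup_left
  rw [le_antisymm c4 le_sup_left] at c3
  have : 0 < 2 ^ τ := by positivity
  nlinarith

theorem phase_two [Finite G] {U : Subgroup G} (h1 : Fr G ≤ U) : ∃ (u : ℕ) (v : Fin u → G),
    Nat.card (U ⊔ cl (Set.range v) : Subgroup G) = 2 ^ u * Nat.card U ∧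
    Nat.card (P3 G ⊔ sqs U ⊔ cl (Set.range fun c => v c ^ 2) : Subgroup G) =
      2 ^ u * Nat.card (P3 G ⊔ sqs U : Subgroup G) ∧
    P3 G ⊔ sqs (U ⊔ cl (Set.range v)) = Fr G := by
  obtain ⟨V, ⟨u, v, rfl, h2, h3⟩, hmax⟩ := exists_maximal_of_wellFoundedGT
    (fun V : Subgroup G => ∃ (u : ℕ) (v : Fin u → G), V = U ⊔ cl (Set.range v) ∧
      Nat.card V = 2 ^ u * Nat.card U ∧
      Nat.card (P3 G ⊔ sqs U ⊔ cl (Set.range fun c => v c ^ 2) : Subgroup G) =
        2 ^ u * Nat.card (P3 G ⊔ sqs U : Subgroup G))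
    ⟨U, 0, Fin.elim0, by simp, by simp, by simp⟩
  refine ⟨u, v, h2, h3, le_antisymm (sup_le P3_le_Fr (sqs_mono le_top)) (sqs_le_of fun y _ => ?_)⟩
  by_contra hy
  set V := U ⊔ cl (Set.range v) with hV
  set W := P3 G ⊔ sqs U ⊔ cl (Set.range fun c => v c ^ 2) with hW
  have y1 : y ∉ V := fun e => hy (mem_sup_right (sq_mem_sqs e))
  have w1 : W ≤ P3 G ⊔ sqs V := sup_le (sup_le_sup_left (sqs_mono le_sup_left) _) (cl_le (by
    rintro _ ⟨c, rfl⟩
    exact mem_sup_right (sq_mem_sqs (mem_sup_right (sub_cl ⟨c, rfl⟩)))))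
  have w2 : P3 G ≤ W := le_sup_left.trans le_sup_left
  have := normal_of_Fr_le (h1.trans (le_sup_left : U ≤ V))
  have := normal_of_P3_le w2 (w1.trans (sup_le P3_le_Fr (sqs_mono le_top)))
  have c1 := card_sup_eq Nat.prime_two (Nz.of_normal y V) (mem_sup_left (h1 (sq_mem_Fr y))) y1
  have c2 := card_sup_eq Nat.prime_two (Nz.of_normal (y ^ 2) W)
    (w2 (mem_sup_right (sq_mem_sqs (sq_mem_Fr y)))) fun e => hy (w1 e)
  refine y1 (hmax (y := V ⊔ cl {y}) ⟨u + 1, Fin.cons y v, ?_, by rw [c1, h2]; ring, ?_⟩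
    le_sup_left (mem_sup_right (sub_cl rfl)))
  · rw [closure_range_cons, hV, sup_assoc, sup_comm (cl {y})]
  · have e : (fun c => (Fin.cons y v : Fin (u + 1) → G) c ^ 2) =
        Fin.cons (y ^ 2) fun c => v c ^ 2 := by
      ext c
      induction c using Fin.cases <;> simp
    rw [e, closure_range_cons, sup_comm (cl {y ^ 2}), ← sup_assoc, c2, h3]; ring

theorem exists_str (P : Type) [Group P] (a i τ : ℕ) (hP : Nat.card P = 2 ^ a) :
    ∃ d s₀ u : ℕ, Nat.card P = 2 ^ d * Nat.card (Fr P) ∧ s₀ * τ ≤ 2 * i * a ∧ s₀ + u ≤ d ∧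
      d + u ≤ a ∧ Str P s₀ u i τ := by
  have : Finite P := Nat.finite_of_card_ne_zero (by rw [hP]; positivity)
  have hG : IsPGroup 2 P := IsPGroup.of_card hP
  obtain ⟨U, r, h1, h2, h3, h4⟩ := phase_one (G := P) i τ
  obtain ⟨u, v, k1, k2, k3⟩ := phase_two h1
  obtain ⟨s, hs⟩ := card_eq_pow_mul hG h1
  obtain ⟨d, hd⟩ := card_eq_pow_mul hG (le_top : Fr P ≤ ⊤)
  rw [card_top] at hd
  obtain ⟨t, -, ht⟩ := exists_gens h1 hs.le
  have f0 : 0 < Nat.card (Fr P) := Nat.card_pos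
  have w0 : 0 < Nat.card (P3 P ⊔ sqs U : Subgroup P) := Nat.card_pos
  have e1 : U ⊔ cl (Set.range v) = Fr P ⊔ cl (Set.range (Sum.elim t v)) := by
    rw [Set.Sum.elim_range, cl_union, ← sup_assoc, ht]
  have e2 : sqs (cl (Set.range (Sum.elim t v))) = Fr P := sqs_eq_Fr hG (le_antisymm
    (sup_le P3_le_Fr (sqs_mono le_top))
    (k3 ▸ sup_le le_sup_left (by rw [e1]; exact sqs_sup_Fr _)))
  have e3 : U ⊔ cl (Set.range v) = cl (Set.range (Sum.elim t v)) := by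
    rw [e1, sup_eq_right, ← e2]; exact sqs_le _
  have e4 : Nat.card (cl (Set.range (Sum.elim t v))) = 2 ^ (s + u) * Nat.card (Fr P) := by
    rw [← e3, k1, hs]; ring
  have wF : P3 P ⊔ sqs U ≤ Fr P := sup_le P3_le_Fr (sqs_mono le_top)
  refine ⟨d, s, u, hd, ?_, ?_, ?_, Sum.elim t v, P3 P ⊔ sqs U, le_sup_left, wF, e2, e4, k2, h4⟩
  · have a1 : s ≤ 2 * i * r := by
      rw [hs] at h2
      exact (Nat.pow_le_pow_iff_right one_lt_two).1 (Nat.le_of_mul_le_mul_right h2 f0)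
    have a2 : τ * r ≤ a := (Nat.pow_le_pow_iff_right one_lt_two).1
      (h3.trans ((card_le_card_group _).trans hP.le))
    calc s * τ ≤ 2 * i * r * τ := Nat.mul_le_mul_right _ a1
      _ = 2 * i * (τ * r) := by ring
      _ ≤ _ := Nat.mul_le_mul_left _ a2
  · have := card_le_card_group (cl (Set.range (Sum.elim t v)))
    rw [e4, hd] at this
    exact (Nat.pow_le_pow_iff_right one_lt_two).1 (Nat.le_of_mul_le_mul_right this f0)
  · have := card_le_of_le (show P3 P ⊔ sqs U ⊔ cl (Set.range fun c => v c ^ 2) ≤ Fr P from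
      sup_le wF (cl_le (by rintro _ ⟨c, rfl⟩; exact sq_mem_Fr _)))
    rw [k2] at this
    refine (Nat.pow_le_pow_iff_right one_lt_two).1 ?_
    rw [← hP, hd, pow_add]
    exact Nat.mul_le_mul_left _ ((Nat.le_mul_of_pos_right _ w0).trans this)

end Pool.Agent.P.MP_9f774b_al
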