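import Pool.Agent.P.MP_9f774b_al.Defs

/-!
Shared lemmas on finite `p`-groups.
-/

set_option autoImplicit false

noncomputable section

namespace Pool.Agent.P.MP_9f774b_al

open Subgroup hiding closure subset_closure closure_union
open scoped commutatorElement

variable {G : Type} [Group G]

theorem map_cl {G' : Type} [Group G'] (f : G →* G') (S : Set G) : (cl S).map f = cl (f '' S) :=
  MonoidHom.map_closure f S

theorem card_sup_eq [Finite G] {p : ℕ} (hp : p.Prime) {U : Subgroup G} {y : G} (h1 : Nz y U)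
    (h2 : y ^ p ∈ U) (h3 : y ∉ U) : Nat.card (U ⊔ cl {y} : Subgroup G) = p * Nat.card U := by
  have h4 := card_sup_le hp.pos h1 h2
  let V : Subgroup G := U ⊔ cl {y}
  have hy : y ∈ V := mem_sup_right (sub_cl rfl)
  have hn : (U.subgroupOf V).Normal := by
    rw [normal_subgroupOf_iff_le_normalizer le_sup_left]
    exact sup_le le_normalizer (cl_le (by simpa using h1.mem))
  have := Fact.mk hp
  have h5 : orderOf ((⟨y, hy⟩ : V) : V ⧸ U.subgroupOf V) = p := by
    refine orderOf_eq_prime ?_ fun e => h3 ?_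
    · rw [← QuotientGroup.mk_pow, QuotientGroup.eq_one_iff]
      exact h2
    · rwa [QuotientGroup.eq_one_iff] at e
  have h6 : p ∣ (U.subgroupOf V).index := h5 ▸ orderOf_dvd_natCard _
  have h7 := (U.subgroupOf V).card_mul_index
  rw [Nat.card_congr (subgroupOfEquivOfLe (le_sup_left : U ≤ V)).toEquiv] at h7
  refine le_antisymm h4 ?_
  change _ ≤ Nat.card V
  rw [← h7, mul_comm]
  exact Nat.mul_le_mul_left _ (Nat.le_of_dvd (Nat.pos_of_ne_zero index_ne_zero_of_finite) h6)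

theorem image_Iio_succ (y : ℕ → G) (k : ℕ) :
    cl (y '' Set.Iio (k + 1)) = cl (y '' Set.Iio k) ⊔ cl {y k} := by
  rw [← cl_union, ← Set.image_singleton, ← Set.image_union]
  congr 2
  ext i
  simp

/-- A polycyclic list from `N` up to `K`. -/
theorem exists_pc [Finite G] {p : ℕ} (hp : p.Prime) (hG : IsPGroup p G) {N K : Subgroup G}
    [N.Normal] [K.Normal] (h : N ≤ K) {z : ℕ} (hz : Nat.card K = p ^ z * Nat.card N) :
    ∃ y : ℕ → G, N ⊔ cl (y '' Set.Iio z) = K ∧ ∀ k, k ≤ z →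
      (N ⊔ cl (y '' Set.Iio k)).Normal ∧
      Nat.card (N ⊔ cl (y '' Set.Iio k) : Subgroup G) = p ^ k * Nat.card N ∧
      (k < z → y k ^ p ∈ N ⊔ cl (y '' Set.Iio k) ∧ ∀ g, ⁅y k, g⁆ ∈ N ⊔ cl (y '' Set.Iio k)) := by
  have key : ∀ j, j ≤ z → ∃ y : ℕ → G, N ⊔ cl (y '' Set.Iio j) ≤ K ∧ ∀ k, k ≤ j →
      (N ⊔ cl (y '' Set.Iio k)).Normal ∧
      Nat.card (N ⊔ cl (y '' Set.Iio k) : Subgroup G) = p ^ k * Nat.card N ∧
      (k < j → y k ^ p ∈ N ⊔ cl (y '' Set.Iio k) ∧
        ∀ g, ⁅y k, g⁆ ∈ N ⊔ cl (y '' Set.Iio k)) := by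
    intro j
    induction j with
    | zero =>
      refine fun _ => ⟨fun _ => 1, by simpa using h, fun k hk => ?_⟩
      obtain rfl : k = 0 := by omega
      simpa using ‹N.Normal›
    | succ j ih =>
      intro hj
      obtain ⟨y, h1, h2⟩ := ih (by omega)
      obtain ⟨h3, h4, -⟩ := h2 j le_rfl
      have h5 : ¬ K ≤ N ⊔ cl (y '' Set.Iio j) := fun e => by
        have := card_le_of_le e
        rw [hz, h4] at this
        have := Nat.le_of_mul_le_mul_right this Nat.card_pos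
        rw [Nat.pow_le_pow_iff_right hp.one_lt] at this
        omega
      obtain ⟨w, hw, hw1, hw2, hw3⟩ := exists_step hp hG h5
      have e : ∀ k, k ≤ j → Function.update y j w '' Set.Iio k = y '' Set.Iio k := fun k hk =>
        Set.image_congr fun i hi => Function.update_of_ne (by simp at hi; omega) _ _
      have e' : N ⊔ cl (Function.update y j w '' Set.Iio (j + 1)) =
          (N ⊔ cl (y '' Set.Iio j)) ⊔ cl {w} := by
        rw [image_Iio_succ, e j le_rfl, Function.update_self, sup_assoc]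
      refine ⟨Function.update y j w, ?_, fun k hk => ?_⟩
      · rw [e']
        exact sup_le h1 (cl_le (by simpa using hw))
      rcases Nat.lt_or_ge j k with hk' | hk'
      · obtain rfl : k = j + 1 := by omega
        rw [e']
        refine ⟨normal_sup_of_comm hw3, ?_, fun h => absurd h (lt_irrefl _)⟩
        rw [card_sup_eq hp (Nz.of_normal _ _) hw2 hw1, h4, pow_succ', mul_assoc]
      · rw [e k hk']
        refine ⟨(h2 k hk').1, (h2 k hk').2.1, fun _ => ?_⟩
        rcases hk'.lt_or_eq with hk' | rfl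
        · rw [Function.update_of_ne hk'.ne]
          exact (h2 k hk'.le).2.2 hk'
        · rw [Function.update_self]
          exact ⟨hw2, hw3⟩
  obtain ⟨y, h1, h2⟩ := key z le_rfl
  exact ⟨y, eq_of_le_of_card_ge h1 (by rw [hz, (h2 z le_rfl).2.1]), h2⟩

theorem frattini_top [Finite G] (hG : IsPGroup 2 G) {H : Subgroup G} (h : H ⊔ Fr G = ⊤) :
    H = ⊤ := by
  by_contra hH
  obtain ⟨M, hM, hHM⟩ := (eq_top_or_exists_le_coatom H).resolve_left hH
  have := Fact.mk Nat.prime_two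
  have := hG.isNilpotent
  have hn : M.Normal := NormalizerCondition.normal_of_coatom M Group.normalizerCondition_of_isNilpotent hM
  obtain ⟨y, -, h1, h2, h3⟩ := exists_step (N := M) (K := ⊤) Nat.prime_two hG
    fun e => hM.1 (top_le_iff.1 e)
  have h4 : M ⊔ cl {y} = ⊤ :=
    hM.2 _ (lt_of_le_of_ne le_sup_left fun e => h1 (e ▸ mem_sup_right (sub_cl rfl)))
  have h5 := card_sup_eq Nat.prime_two (Nz.of_normal y M) h2 h1
  rw [h4, card_top, ← M.index_mul_card] at h5
  have h6 : M.index = 2 := Nat.eq_of_mul_eq_mul_right Nat.card_pos h5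
  have h7 : Fr G ≤ M := sqs_le_of fun x _ => sq_mem_of_index_two h6 x
  exact hM.1 (top_le_iff.1 (h ▸ sup_le hHM h7))

/-- Squares are non-generators in a finite `2`-group. -/
theorem frattini_two [Finite G] (hG : IsPGroup 2 G) {H U : Subgroup G} (h : H ≤ U)
    (h' : U ≤ H ⊔ sqs U) : H = U := by
  have h1 : H.subgroupOf U ⊔ Fr U = ⊤ := by
    apply map_injective U.subtype_injective
    rw [Subgroup.map_sup, sqs_map, subgroupOf_map_subtype, inf_eq_left.2 h, ← MonoidHom.range_eq_map,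
      range_subtype]
    exact le_antisymm (sup_le h (sqs_le U)) h'
  exact le_antisymm h (subgroupOf_eq_top.1 (frattini_top (hG.to_subgroup U) h1))

theorem exists_ea_embedding_add {A : Type} [AddCommGroup A] [Finite A] {p r : ℕ} [Fact p.Prime]
    [Module (ZMod p) A] (hr : Nat.card A ≤ p ^ r) :
    ∃ f : A →+ (Fin r → ZMod p), Function.Injective f := by
  have h3 : Nat.card A = p ^ Module.finrank (ZMod p) A := by
    rw [Module.natCard_eq_pow_finrank (K := ZMod p), Nat.card_zmod]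
  have h4 : Module.finrank (ZMod p) A ≤ Module.finrank (ZMod p) (Fin r → ZMod p) := by
    rw [Module.finrank_fin_fun, ← Nat.pow_le_pow_iff_right (Fact.out : p.Prime).one_lt, ← h3]
    exact hr
  obtain ⟨f, hf⟩ := finrank_le_iff_exists_linearMap.1 h4
  exact ⟨f.toAddMonoidHom, hf⟩

/-- An elementary abelian group embeds in the standard one. -/
theorem exists_ea_embedding [Finite G] {p r : ℕ} (hp : p.Prime) (h1 : ∀ x : G, x ^ p = 1)
    (h2 : ∀ x y : G, x * y = y * x) (hr : Nat.card G ≤ p ^ r) :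
    ∃ f : G →* Multiplicative (Fin r → ZMod p), Function.Injective f := by
  have := Fact.mk hp
  let : CommGroup G := { ‹Group G› with mul_comm := h2 }
  let : Module (ZMod p) (Additive G) := AddCommGroup.zmodModule fun x => by
    rw [← ofMul_toMul x, ← ofMul_pow, h1, ofMul_one]
  obtain ⟨f, hf⟩ := exists_ea_embedding_add (A := Additive G) hr
  exact ⟨AddMonoidHom.toMultiplicativeRight f, hf⟩

/-- Bottom-up reconstruction of a group from a subgroup containing all squares. -/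
theorem bu_iso {G' H : Type} [Group G'] [Group H] [Finite G] [Finite G'] [Finite H]
    {ε σ : Type} [Finite ε] (f : H →* G) (f' : H →* G') (X : ε → G) (X' : ε → G') (h : σ → H)
    (hh : cl (Set.range h) = ⊤) (hX : f.range ⊔ cl (Set.range X) = ⊤)
    (hX' : f'.range ⊔ cl (Set.range X') = ⊤)
    (hc : 2 ^ Nat.card ε * Nat.card H ≤ Nat.card G) (hc' : 2 ^ Nat.card ε * Nat.card H ≤ Nat.card G')
    (h0 : ∀ a, ∃ c, X a ^ 2 = f c ∧ X' a ^ 2 = f' c)
    (h1 : ∀ a i, ∃ c, (X a * f (h i)) ^ 2 = f c ∧ (X' a * f' (h i)) ^ 2 = f' c)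
    (h2 : ∀ a b, a ≠ b → (∃ c, (X a * X b) ^ 2 = f c ∧ (X' a * X' b) ^ 2 = f' c) ∨
      ∃ c, (X b * X a) ^ 2 = f c ∧ (X' b * X' a) ^ 2 = f' c) :
    ∃ e : G ≃* G', (∀ a, e (X a) = X' a) ∧ ∀ c, e (f c) = f' c := by
  let Γ : Subgroup (G × G') := (f.prod f').range
  let Y : ε → G × G' := fun a => (X a, X' a)
  have hm : ∀ (z : G × G'), (∃ c, z.1 ^ 2 = f c ∧ z.2 ^ 2 = f' c) → z ^ 2 ∈ Γ :=
    fun z ⟨c, e1, e2⟩ => ⟨c, Prod.ext e1.symm e2.symm⟩
  have hΓ : Γ = cl (Set.range fun i => (f.prod f') (h i)) := by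
    rw [Set.range_comp' (f.prod f') h, ← map_cl, hh, ← MonoidHom.range_eq_map]
  have hY2 : ∀ a, Y a ^ 2 ∈ Γ := fun a => hm _ (h0 a)
  have hn : ∀ a, Nz (Y a) Γ := fun a => by
    intro u hu
    rw [hΓ] at hu
    refine conj_mem_of_closure ?_ u hu
    rintro _ ⟨i, rfl⟩
    exact conj_mem_of_sq (hY2 a) ⟨h i, rfl⟩ (Or.inl (hm _ (h1 a i)))
  have hD := card_ea Γ Y hn hY2 fun a b => by
    rcases eq_or_ne a b with rfl | hab
    · left
      rw [← sq]
      exact Γ.pow_mem (hY2 a) 2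
    · exact (h2 a b hab).imp (hm _) (hm _)
  have hΓc : Nat.card Γ ≤ Nat.card H :=
    Nat.card_le_card_of_surjective _ (f.prod f').rangeRestrict_surjective
  have hD' := hD.trans (Nat.mul_le_mul_left _ hΓc)
  have s1 : (Γ ⊔ cl (Set.range Y)).map (MonoidHom.fst G G') = ⊤ := by
    rw [Subgroup.map_sup, MonoidHom.map_range, MonoidHom.map_closure, ← Set.range_comp]
    exact hX
  have s2 : (Γ ⊔ cl (Set.range Y)).map (MonoidHom.snd G G') = ⊤ := by
    rw [Subgroup.map_sup, MonoidHom.map_range, MonoidHom.map_closure, ← Set.range_comp]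
    exact hX'
  obtain ⟨e, he⟩ := graph_iso (Γ ⊔ cl (Set.range Y))
    (fun g => by
      obtain ⟨z, hz, rfl⟩ : g ∈ (Γ ⊔ cl (Set.range Y)).map (MonoidHom.fst G G') := s1 ▸ trivial
      exact ⟨z.2, hz⟩)
    (fun g => by
      obtain ⟨z, hz, rfl⟩ : g ∈ (Γ ⊔ cl (Set.range Y)).map (MonoidHom.snd G G') := s2 ▸ trivial
      exact ⟨z.1, hz⟩) (hD'.trans hc) (hD'.trans hc')
  exact ⟨e, fun a => he _ _ (mem_sup_right (sub_cl ⟨a, rfl⟩)),
    fun c => he _ _ (mem_sup_left ⟨c, rfl⟩)⟩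

open N2980dcf5

instance finite_group_fin (n : ℕ) : Finite (Group (Fin n)) :=
  Finite.of_injective (fun T : Group (Fin n) => fun a b => T.toMul.mul a b)
    fun _ _ h => Group.ext h

/-- A group structure on `Fin n` as a bundled group. -/
def gpOf {n : ℕ} (T : Group (Fin n)) : Gp := @Gp.mk (Fin n) T

theorem card_gpOf {n : ℕ} (T : Group (Fin n)) : Nat.card (gpOf T) = n := Nat.card_fin n

theorem isomorphic_iff {n : ℕ} (T T' : Group (Fin n)) :
    isomorphic T T' ↔ Nonempty (gpOf T ≃* gpOf T') := Iff.rfl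

theorem exists_fin_str (G : Gp) {n : ℕ} (hn : 0 < n) (h : Nat.card G = n) :
    ∃ T : Group (Fin n), Nonempty (G ≃* gpOf T) := by
  have : Finite G := Nat.finite_of_card_ne_zero (by omega)
  let e : Fin n ≃ G := (Finite.equivFinOfCardEq h).symm
  refine ⟨e.group, ⟨MulEquiv.symm ⟨e, fun a b => ?_⟩⟩⟩
  exact e.apply_symm_apply _

theorem isomorphic_equivalence (n : ℕ) : Equivalence (isomorphic (α := Fin n)) :=
  ⟨fun _ => (isomorphic_iff _ _).2 ⟨MulEquiv.refl _⟩,
    fun h => (isomorphic_iff _ _).2 (((isomorphic_iff _ _).1 h).map MulEquiv.symm),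
    fun h h' => (isomorphic_iff _ _).2 (((isomorphic_iff _ _).1 h).elim fun e =>
      ((isomorphic_iff _ _).1 h').map e.trans)⟩

theorem g_pos_of {n : ℕ} (T : Group (Fin n)) : 0 < g n := by
  have : Nonempty (Quot (α := Group (Fin n)) isomorphic) := ⟨Quot.mk _ T⟩
  exact Nat.card_pos

theorem g_pos {n : ℕ} (hn : 0 < n) : 0 < g n := by
  have : NeZero n := ⟨hn.ne'⟩
  obtain ⟨T, -⟩ := exists_fin_str ⟨Multiplicative (ZMod n)⟩ hn (by simp)
  exact g_pos_of T

theorem cov_g {n : ℕ} (hn : 0 < n) : Cov (fun G => Nat.card G = n) (Real.logb 2 (g n)) := by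
  have h0 : (0 : ℝ) < g n := by exact_mod_cast g_pos hn
  have h1 : Bnd (Set.univ : Set (Quot (α := Group (Fin n)) isomorphic)) (Real.logb 2 (g n)) :=
    Bnd.of_card _ (by rw [Real.rpow_logb two_pos (by norm_num) h0]; exact le_rfl)
  refine ⟨_, h1.image fun q => gpOf q.out, fun G hG => ?_⟩
  obtain ⟨T, ⟨e⟩⟩ := exists_fin_str G hn hG
  refine ⟨_, ⟨Quot.mk _ T, trivial, rfl⟩, ?_⟩
  obtain ⟨e'⟩ := (isomorphic_iff _ _).1
    ((isomorphic_equivalence n).eqvGen_iff.1 (Quot.eq.1 (Quot.out_eq (Quot.mk _ T))))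
  exact ⟨e.trans e'.symm⟩

theorem card_quot_le_of_cov {n : ℕ} (R : Group (Fin n) → Prop) {E : ℝ}
    (h : Cov (fun G => ∃ T, R T ∧ G = gpOf T) E) :
    (Nat.card (Quot (α := {T : Group (Fin n) // R T}) fun G H => isomorphic G.1 H.1) : ℝ)
      ≤ 2 ^ E := by
  obtain ⟨S, h1, h2⟩ := h
  refine Bnd.card_le (h1.of_code (fun H q => Nonempty (gpOf q.out.1 ≃* H))
    (fun q _ => h2 _ ⟨_, q.out.2, rfl⟩) ?_)
  rintro H q q' - - ⟨e⟩ ⟨e'⟩
  rw [← q.out_eq, ← q'.out_eq]
  exact Quot.sound ((isomorphic_iff _ _).2 ⟨e.trans e'.symm⟩)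

theorem g_le_of_cov {n : ℕ} {E : ℝ} (h : Cov (fun G => Nat.card G = n) E) : (g n : ℝ) ≤ 2 ^ E := by
  obtain ⟨S, h1, h2⟩ := h
  refine Bnd.card_le (h1.of_code (fun H q => Nonempty (gpOf q.out ≃* H))
    (fun q _ => h2 _ (card_gpOf _)) ?_)
  rintro H q q' - - ⟨e⟩ ⟨e'⟩
  rw [← q.out_eq, ← q'.out_eq]
  exact Quot.sound ((isomorphic_iff _ _).2 ⟨e.trans e'.symm⟩)

end Pool.Agent.P.MP_9f774b_al
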