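import Pool.Agent.P.MP_9f774b_al.Tails

/-!
Counting groups from the top down.
-/

set_option autoImplicit false

noncomputable section

namespace Pool.Agent.P.MP_9f774b_al

open Subgroup hiding closure subset_closure closure_union
open scoped commutatorElement

namespace TD

variable {G H : Type} [Group G] [Group H]

theorem card_of_ker_le (π : G →* H) {U : Subgroup G} (h : π.ker ≤ U) :
    Nat.card U = Nat.card (U.map π) * Nat.card π.ker := by
  rw [card_eq_card_quotient_mul_card_subgroup (π.domRestrict U).ker,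
    Nat.card_congr (QuotientGroup.quotientKerEquivRange (π.domRestrict U)).toEquiv,
    MonoidHom.domRestrict_range, MonoidHom.ker_domRestrict,
    Nat.card_congr (subgroupOfEquivOfLe h).toEquiv]

theorem card_comap {π : G →* H} (hπ : Function.Surjective π) (U : Subgroup H) :
    Nat.card (U.comap π) = Nat.card U * Nat.card π.ker := by
  rw [card_of_ker_le π (ker_le_comap π U), map_comap_eq_self_of_surjective hπ]

theorem map_Fr {π : G →* H} (hπ : Function.Surjective π) : (Fr G).map π = Fr H := by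
  rw [sqs_map, map_top_of_surjective _ hπ]

theorem map_P3 {π : G →* H} (hπ : Function.Surjective π) : (P3 G).map π = P3 H := by
  rw [P3, P3, Subgroup.map_sup, map_commutator, map_Fr hπ, sqs_map, map_Fr hπ,
    map_top_of_surjective _ hπ]

/-- `K` is reached from `Y` in `t` steps of index two through normal subgroups. -/
def Ch (Y : Subgroup G) : ℕ → Subgroup G → Prop
  | 0, K => K = Y
  | t + 1, K => K.Normal ∧ ∃ K', Ch Y t K' ∧ K ≤ K' ∧ Nat.card K' = 2 * Nat.card K

theorem Ch.facts {Y : Subgroup G} [Y.Normal] : ∀ {t : ℕ} {K : Subgroup G}, Ch Y t K →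
    K.Normal ∧ K ≤ Y ∧ Nat.card Y = 2 ^ t * Nat.card K
  | 0, K, h => by
    obtain rfl : K = Y := h
    exact ⟨inferInstance, le_rfl, by simp⟩
  | t + 1, K, ⟨h1, K', h2, h3, h4⟩ => by
    obtain ⟨-, h5, h6⟩ := h2.facts
    exact ⟨h1, h3.trans h5, by rw [h6, h4]; ring⟩

theorem Ch.comap {π : G →* H} (hπ : Function.Surjective π) {Y : Subgroup H} :
    ∀ {t : ℕ} {K : Subgroup H}, Ch Y t K → Ch (Y.comap π) t (K.comap π)
  | 0, K, h => by
    obtain rfl : K = Y := h
    rfl
  | t + 1, K, ⟨h1, K', h2, h3, h4⟩ =>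
    ⟨h1.comap π, K'.comap π, h2.comap hπ, comap_mono h3, by
      rw [card_comap hπ, card_comap hπ, h4, mul_assoc]⟩

theorem exists_ch [Finite G] (hG : IsPGroup 2 G) {Y : Subgroup G} [Y.Normal] {n : ℕ}
    (h : Nat.card Y = 2 ^ n) : Ch Y n ⊥ := by
  obtain ⟨y, h1, h2⟩ := exists_pc Nat.prime_two hG (N := ⊥) (K := Y) bot_le (z := n) (by simpa)
  have key : ∀ t k, k + t = n → Ch Y t (⊥ ⊔ cl (y '' Set.Iio k)) := by
    intro t
    induction t with
    | zero => rintro k rfl; exact h1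
    | succ t ih =>
      intro k hk
      refine ⟨(h2 k (by omega)).1, _, ih (k + 1) (by omega),
        sup_le_sup_left (cl_mono (Set.image_mono (Set.Iio_subset_Iio (Nat.le_succ k)))) _, ?_⟩
      rw [(h2 k (by omega)).2.1, (h2 (k + 1) (by omega)).2.1]
      ring
  simpa using key n 0 (by simp)

theorem mul_mem_two [Finite G] {K K' : Subgroup G} (h : K ≤ K')
    (hc : Nat.card K' = 2 * Nat.card K) {a b : G} (ha : a ∈ K') (hb : b ∈ K') :
    a * b ∈ K ↔ (a ∈ K ↔ b ∈ K) := by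
  have h1 : (K.subgroupOf K').index = 2 := by
    have h2 := (K.subgroupOf K').card_mul_index
    rw [Nat.card_congr (subgroupOfEquivOfLe h).toEquiv, hc, mul_comm 2] at h2
    exact Nat.eq_of_mul_eq_mul_left Nat.card_pos h2
  exact mul_mem_iff_of_index_two h1 (a := ⟨a, ha⟩) (b := ⟨b, hb⟩)

theorem bnd_two [Finite G] {M K' : Subgroup G} (h : M ≤ K') {e : ℕ}
    (hc : Nat.card K' ≤ 2 ^ e * Nat.card M) :
    Bnd {K : Subgroup G | M ≤ K ∧ K ≤ K' ∧ Nat.card K' = 2 * Nat.card K} e := by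
  obtain ⟨t, h1, h2⟩ := exists_gens h hc
  have h3 := Bnd.univ_fun (ι := Fin e) (α := Prop) (E := 1) (by simp) Set.univ
  simp only [Nat.card_eq_fintype_card, Fintype.card_fin, mul_one] at h3
  refine h3.of_injOn (fun K j => t j ∈ K) ?_ fun _ _ => trivial
  rintro K ⟨a1, a2, a3⟩ L ⟨b1, b2, b3⟩ hKL
  let A : Subgroup G :=
    { carrier := {g | g ∈ K' ∧ (g ∈ K ↔ g ∈ L)}
      mul_mem' := fun {a b} ha hb => ⟨mul_mem ha.1 hb.1, by
        rw [mul_mem_two a2 a3 ha.1 hb.1, mul_mem_two b2 b3 ha.1 hb.1, ha.2, hb.2]⟩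
      one_mem' := ⟨one_mem _, iff_of_true (one_mem _) (one_mem _)⟩
      inv_mem' := fun {a} ha => ⟨inv_mem ha.1, by rw [inv_mem_iff, inv_mem_iff, ha.2]⟩ }
  have h4 : K' ≤ A := by
    rw [← h2]
    refine sup_le (fun g hg => ⟨h hg, iff_of_true (a1 hg) (b1 hg)⟩) (cl_le ?_)
    rintro _ ⟨j, rfl⟩
    exact ⟨h1 j, (congrFun hKL j).to_iff⟩
  ext g
  exact ⟨fun hg => (h4 (a2 hg)).2.1 hg, fun hg => (h4 (b2 hg)).2.2 hg⟩

/-- The number of tails at step `t`. -/
def tl (s₀ u v t : ℕ) : ℕ :=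
  (s₀ + u + 1).choose 2 + v * (s₀ + u) + u * s₀ + u.choose 2 + (u + v) + (s₀ + u + 1) * t

theorem bnd_ch [Finite G] (s₀ u v : ℕ) (x : Fin s₀ ⊕ Fin u → G) (Y : Subgroup G)
    (hx : cl (Set.range x) = ⊤) (hY : P3 G ≤ Y) (hY' : Y ≤ Fr G)
    (c1 : Nat.card G = 2 ^ (s₀ + u) * Nat.card (Fr G))
    (c2 : Nat.card (Fr G) = 2 ^ (u + v) * Nat.card Y)
    (c4 : Nat.card (Y ⊔ cl (Set.range fun c => x (Sum.inr c) ^ 2) : Subgroup G) =
      2 ^ u * Nat.card Y) (t : ℕ) :
    Bnd {K | Ch Y t K} (∑ j ∈ Finset.range t, (tl s₀ u v j : ℝ)) := by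
  have := normal_of_P3_le hY hY'
  induction t with
  | zero =>
    rw [Finset.sum_range_zero]
    exact Bnd.subsingleton fun K hK L hL => Eq.trans hK (Eq.symm hL)
  | succ t ih =>
    rw [Finset.sum_range_succ]
    refine ih.bind (T := fun K' => {K : Subgroup G | ⁅K', ⊤⁆ ⊔ sqs K' ≤ K ∧ K ≤ K' ∧
      Nat.card K' = 2 * Nat.card K}) (fun K' hK' => ?_) ?_
    · obtain ⟨n1, n2, n3⟩ := hK'.facts
      set M := ⁅K', ⊤⁆ ⊔ sqs K' with hM
      have hMK : M ≤ K' := sup_le (commutator_le_left _ _) (sqs_le _)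
      let π := QuotientGroup.mk' M
      have hπ : Function.Surjective π := QuotientGroup.mk'_surjective M
      have hk : π.ker = M := QuotientGroup.ker_mk' M
      have hc : ∀ U : Subgroup G, K' ≤ U → Nat.card U = Nat.card (U.map π) * Nat.card M :=
        fun U hU => by rw [card_of_ker_le π (hk.le.trans (hMK.trans hU)), hk]
      have hp : 0 < Nat.card M := Nat.card_pos
      refine bnd_two hMK ?_
      rw [hc K' le_rfl]
      refine Nat.mul_le_mul_right _ (card_tails_le s₀ u v t (π ∘ x) (K'.map π) (Y.map π) ?_ ?_ ?_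
        (map_mono n2) (map_P3 hπ ▸ map_mono hY) (map_Fr hπ ▸ map_mono hY') ?_ ?_ ?_ ?_)
      · rw [Set.range_comp, ← map_cl, hx, map_top_of_surjective _ hπ]
      · rintro _ ⟨k, hk', rfl⟩
        rw [mem_center_iff]
        intro g
        obtain ⟨g, rfl⟩ := hπ g
        have : π ⁅k, g⁆ = 1 := by
          rw [← MonoidHom.mem_ker, hk]
          exact mem_sup_left (commutator_mem_commutator hk' trivial)
        rw [map_commutatorElement, commutatorElement_eq_one_iff_mul_comm] at this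
        exact this.symm
      · rintro _ ⟨k, hk', rfl⟩
        rw [← map_pow, ← MonoidHom.mem_ker, hk]
        exact mem_sup_right (sq_mem_sqs hk')
      · refine Nat.eq_of_mul_eq_mul_right hp ?_
        rw [mul_assoc, ← map_Fr hπ, ← hc _ (n2.trans hY'), ← c1,
          card_eq_card_quotient_mul_card_subgroup M]
      · refine Nat.eq_of_mul_eq_mul_right hp ?_
        rw [mul_assoc, ← map_Fr hπ, ← hc _ (n2.trans hY'), ← hc _ n2, c2]
      · refine Nat.eq_of_mul_eq_mul_right hp ?_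
        rw [mul_assoc, ← hc _ le_rfl, ← hc _ n2, n3]
      · refine Nat.eq_of_mul_eq_mul_right hp ?_
        rw [mul_assoc, ← hc _ n2, ← c4, hc _ (n2.trans le_sup_left), Subgroup.map_sup, map_cl,
          ← Set.range_comp]
        simp only [Function.comp_def, map_pow]
    · rintro K ⟨h1, K', h2, h3, h4⟩
      refine ⟨K', h2, sup_le ?_ (sqs_le_of fun g hg => ?_), h3, h4⟩
      · rw [commutator_le]
        intro k hk g _
        have h5 : ⁅k, g⁆ = k * (g * k⁻¹ * g⁻¹) := by simp only [commutatorElement_def]; group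
        rw [h5, mul_mem_two h3 h4 hk (h2.facts.1.conj_mem _ (inv_mem hk) g), h1.mem_comm_iff]
        simp
      · rw [sq, mul_mem_two h3 h4 hg hg]

theorem card_lt_pairs (s : ℕ) :
    (Nat.card {p : Fin s × Fin s // p.1 < p.2} : ℝ) ≤ (s : ℝ) ^ 2 / 2 := by
  have h1 : Nat.card ({p : Fin s × Fin s // p.1 < p.2} × Bool) ≤ Nat.card (Fin s × Fin s) := by
    refine Nat.card_le_card_of_injective (fun q => if q.2 then q.1.1 else q.1.1.swap) ?_
    rintro ⟨⟨⟨a, b⟩, h⟩, c⟩ ⟨⟨⟨a', b'⟩, h'⟩, c'⟩ e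
    cases c <;> cases c' <;> simp at e h h' ⊢ <;> omega
  rw [Nat.card_prod, Nat.card_prod] at h1
  simp only [Nat.card_eq_fintype_card, Fintype.card_bool, Fintype.card_fin] at h1 ⊢
  have h2 : ((Fintype.card {p : Fin s × Fin s // p.1 < p.2} * 2 : ℕ) : ℝ) ≤ (s * s : ℕ) := by
    exact_mod_cast h1
  push_cast at h2
  linarith

theorem card_block (s i k : ℕ) (hi : 0 < i) :
    (Finset.univ.filter fun l : Fin s => l / i = k).card ≤ i := by
  have := Finset.card_le_card_of_injOn (s := Finset.univ.filter fun l : Fin s => l / i = k)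
    (t := Finset.range i) (fun l => l % i) (fun l _ => by simpa using Nat.mod_lt _ hi) (by
      intro l hl m hm e
      simp only [Finset.coe_filter, Finset.mem_univ, true_and, Set.mem_ofPred_eq] at hl hm e
      apply Fin.ext
      rw [← Nat.div_add_mod l i, ← Nat.div_add_mod m i, hl, hm, e])
  simpa using this

theorem bnd_top [Finite G] (s w v i τ : ℕ) (hi : 0 < i) (x : Fin s → G)
    (hx : cl (Set.range x) = ⊤) (c1 : Nat.card G = 2 ^ s * Nat.card (Fr G)) :
    Bnd {Y : Subgroup G | P3 G ≤ Y ∧ Nat.card (Fr G) = 2 ^ w * Nat.card Y ∧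
        ∃ W, Y ≤ W ∧ W ≤ Fr G ∧ Nat.card W ≤ 2 ^ v * Nat.card Y ∧ LowRank W i τ}
      (s * w + (w * w + (((s / i + 1 : ℕ) : ℝ) ^ 2 * (τ * w) + s ^ 2 / 2 * (τ + v)))) := by
  classical
  let E := Multiplicative (Fin w → ZMod 2)
  have hE : Nat.card E = 2 ^ w := by simp [E]
  let I := {p : Fin s × Fin s // p.1 < p.2}
  let β : I → Fin (s / i + 1) × Fin (s / i + 1) := fun p =>
    (⟨p.1.1 / i, Nat.lt_succ_of_le (Nat.div_le_div_right p.1.1.2.le)⟩,
      ⟨p.1.2 / i, Nat.lt_succ_of_le (Nat.div_le_div_right p.1.2.2.le)⟩)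
  let T : Subgroup E → Set (I → E) := fun B => {c | ∀ j, ∃ L : Subgroup E, B ≤ L ∧
    Nat.card L ≤ 2 ^ τ * Nat.card B ∧ ∀ p, β p = j → c p ∈ L}
  have b1 : Bnd {c : I → E | ∃ B : Subgroup E, Nat.card B ≤ 2 ^ v ∧ c ∈ T B}
      (w * w + (((s / i + 1 : ℕ) : ℝ) ^ 2 * (τ * w) + s ^ 2 / 2 * (τ + v))) := by
    refine (bnd_all_subgroups hE.le {B | Nat.card B ≤ 2 ^ v}).bind (T := T) (fun B hB => ?_)
      fun c hc => hc
    refine (bnd_lowrank β B τ (cast_le_two_rpow hE.le) (cast_le_two_rpow hB)).mono le_rfl ?_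
    have := card_lt_pairs s
    rw [Nat.card_prod, Nat.card_eq_fintype_card, Fintype.card_fin, Nat.cast_mul, ← sq]
    gcongr
  have b2 := Bnd.univ_fun (ι := Fin s) (cast_le_two_rpow hE.le) Set.univ
  rw [Nat.card_eq_fintype_card, Fintype.card_fin] at b2
  refine (b2.prod b1).of_code (fun c Y => ∃ θ : Fr G →* E, θ.ker = Y.subgroupOf (Fr G) ∧
    (∀ l, θ ⟨x l ^ 2, sq_mem_Fr _⟩ = c.1 l) ∧
      ∀ p : I, θ ⟨(x p.1.1 * x p.1.2) ^ 2, sq_mem_Fr _⟩ = c.2 p) ?_ ?_
  · rintro Y ⟨h1, h2, W, h3, h4, h5, h6⟩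
    have hY := h3.trans h4
    have := normal_of_P3_le h1 hY
    have hc : ∀ U : Subgroup G, U ≤ Fr G → Nat.card (U.subgroupOf (Fr G)) = Nat.card U :=
      fun U hU => Nat.card_congr (subgroupOfEquivOfLe hU).toEquiv
    obtain ⟨f, hf⟩ := exists_ea_embedding (G := Fr G ⧸ Y.subgroupOf (Fr G)) (r := w) Nat.prime_two
      (fun g => by
        obtain ⟨g, rfl⟩ := QuotientGroup.mk_surjective g
        rw [← QuotientGroup.mk_pow, QuotientGroup.eq_one_iff]
        exact h1 (mem_sup_right (sq_mem_sqs g.2)))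
      (fun g k => by
        obtain ⟨g, rfl⟩ := QuotientGroup.mk'_surjective _ g
        obtain ⟨k, rfl⟩ := QuotientGroup.mk'_surjective _ k
        rw [← commutatorElement_eq_one_iff_mul_comm, ← map_commutatorElement,
          QuotientGroup.mk'_apply, QuotientGroup.eq_one_iff]
        exact h1 (mem_sup_left (commutator_mem_commutator g.2 trivial)))
      (by
        have h7 := card_eq_card_quotient_mul_card_subgroup (Y.subgroupOf (Fr G))
        rw [hc Y hY, h2] at h7
        exact (Nat.eq_of_mul_eq_mul_right Nat.card_pos h7).ge)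
    let θ : Fr G →* E := f.comp (QuotientGroup.mk' _)
    have hk : θ.ker = Y.subgroupOf (Fr G) := by
      rw [← MonoidHom.comap_ker, (MonoidHom.ker_eq_bot_iff f).2 hf, MonoidHom.comap_bot,
        QuotientGroup.ker_mk']
    have hd : ∀ U : Subgroup G, Y ≤ U → U ≤ Fr G →
        Nat.card U = Nat.card ((U.subgroupOf (Fr G)).map θ) * Nat.card Y := fun U a b => by
      rw [← hc U b, card_of_ker_le θ (hk.le.trans (subgroupOf_mono _ a)), hk, hc Y hY]
    have hp : 0 < Nat.card Y := Nat.card_pos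
    refine ⟨(_, _), ⟨trivial, (W.subgroupOf (Fr G)).map θ, ?_, fun j => ?_⟩, θ, hk,
      fun _ => rfl, fun _ => rfl⟩
    · exact Nat.le_of_mul_le_mul_right (by rwa [← hd W h3 h4]) hp
    · let t : Finset G := ((Finset.univ.filter fun l : Fin s => l / i = j.1) ∪
        (Finset.univ.filter fun l : Fin s => l / i = j.2)).image x
      have ht : t.card ≤ 2 * i := by
        refine Finset.card_image_le.trans ((Finset.card_union_le _ _).trans ?_)
        have := card_block s i j.1 hi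
        have := card_block s i j.2 hi
        omega
      have hU : W ⊔ sqs (cl (t : Set G)) ≤ Fr G := sup_le h4 (sqs_mono le_top)
      refine ⟨((W ⊔ sqs (cl (t : Set G))).subgroupOf (Fr G)).map θ,
        map_mono (subgroupOf_mono _ le_sup_left), Nat.le_of_mul_le_mul_right ?_ hp, ?_⟩
      · rw [mul_assoc, ← hd W h3 h4, ← hd _ (h3.trans le_sup_left) hU]
        exact h6 t ht
      · rintro p rfl
        refine mem_map_of_mem _ (mem_subgroupOf.2 (mem_sup_right (sq_mem_sqs (mul_mem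
          (sub_cl ?_) (sub_cl ?_)))))
        · exact Finset.mem_image_of_mem x (by simp [β])
        · exact Finset.mem_image_of_mem x (by simp [β])
  · rintro c Y Y' ⟨h1, -, W, h3, h4, -⟩ ⟨h1', -, W', h3', h4', -⟩ ⟨θ, a1, a2, a3⟩ ⟨θ', b1, b2, b3⟩
    let Γ : Subgroup G := (θ.eqLocus θ').map (Fr G).subtype
    have hΓ : Γ ≤ Fr G := map_subtype_le _
    have hm : ∀ g (hg : g ∈ Fr G), θ ⟨g, hg⟩ = θ' ⟨g, hg⟩ → g ∈ Γ :=
      fun g hg e => ⟨⟨g, hg⟩, e, rfl⟩
    have hP : P3 G ≤ Γ := fun g hg => hm g (P3_le_Fr hg) (by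
      have e1 : θ ⟨g, P3_le_Fr hg⟩ = 1 := by rw [← MonoidHom.mem_ker, a1]; exact h1 hg
      have e2 : θ' ⟨g, P3_le_Fr hg⟩ = 1 := by rw [← MonoidHom.mem_ker, b1]; exact h1' hg
      rw [e1, e2])
    have := normal_of_P3_le hP hΓ
    have h0 : ∀ l, x l ^ 2 ∈ Γ := fun l => hm _ _ ((a2 l).trans (b2 l).symm)
    have h5 := card_ea Γ x (fun a => Nz.of_normal _ _) h0 fun a b => by
      rcases lt_trichotomy a b with h | rfl | h
      · exact Or.inl (hm _ _ ((a3 ⟨(a, b), h⟩).trans (b3 ⟨(a, b), h⟩).symm))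
      · left
        rw [← sq]
        exact Γ.pow_mem (h0 a) 2
      · exact Or.inr (hm _ _ ((a3 ⟨(b, a), h⟩).trans (b3 ⟨(b, a), h⟩).symm))
    rw [hx, sup_top_eq, card_top, c1, Nat.card_eq_fintype_card (α := Fin s), Fintype.card_fin] at h5
    have h6 : Γ = Fr G := eq_of_le_of_card_ge hΓ (Nat.le_of_mul_le_mul_left h5 (by positivity))
    have h7 : θ = θ' := by
      refine MonoidHom.ext fun g => ?_
      obtain ⟨k, hk, e⟩ : g.1 ∈ Γ := h6.ge g.2
      obtain rfl : k = g := Subtype.ext e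
      exact hk
    rw [h7, b1] at a1
    rw [← map_subgroupOf_eq_of_le (h3.trans h4), ← a1, map_subgroupOf_eq_of_le (h3'.trans h4')]

theorem exists_univ (ι : Type) [Finite ι] (m : ℕ) (hm : 0 < m) :
    ∃ (Ω : Gp) (x : ι → Ω), Finite Ω ∧ cl (Set.range x) = ⊤ ∧
      ∀ (H : Type) [Group H] (y : ι → H), Nat.card H = m → ∃ π : Ω →* H, ∀ l, π (x l) = y l := by
  let K : Subgroup (FreeGroup ι) := ⨅ z : ι → Equiv.Perm (Fin m), (FreeGroup.lift z).ker
  have : K.Normal := normal_iInf_normal fun _ => inferInstance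
  have : K.FiniteIndex := finiteIndex_iInf fun z => finiteIndex_ker _
  refine ⟨⟨FreeGroup ι ⧸ K⟩, fun l => QuotientGroup.mk' K (FreeGroup.of l),
    finite_quotient_of_finiteIndex, ?_, fun H _ y hH => ?_⟩
  · change cl (Set.range (QuotientGroup.mk' K ∘ FreeGroup.of)) = ⊤
    rw [Set.range_comp, ← map_cl, cl, FreeGroup.closure_range_of,
      map_top_of_surjective _ (QuotientGroup.mk'_surjective K)]
  · have : Finite H := Nat.finite_of_card_ne_zero (by omega)
    let e : H ≃ Fin m := Finite.equivFinOfCardEq hH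
    let φ : H →* Equiv.Perm (Fin m) :=
      (Equiv.permCongrHom e).toMonoidHom.comp (MulAction.toPermHom H H)
    have hφ : Function.Injective φ :=
      (Equiv.permCongrHom e).injective.comp MulAction.toPerm_injective
    refine ⟨QuotientGroup.lift K (FreeGroup.lift y) fun g hg => ?_, fun l => by simp⟩
    have h1 : FreeGroup.lift (φ ∘ y) g = 1 := (mem_iInf.1 hg) (φ ∘ y)
    have h2 : FreeGroup.lift (φ ∘ y) = φ.comp (FreeGroup.lift y) := by ext l; simp
    rw [h2, MonoidHom.comp_apply, ← map_one φ] at h1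
    exact hφ h1

theorem sum_tl (s₀ u v n : ℕ) : ∑ j ∈ Finset.range n, (tl s₀ u v j : ℝ) ≤
    n * ((s₀ + u + 1) * (s₀ + u) / 2 + v * (s₀ + u) + u * s₀ + u ^ 2 / 2 + (u + v)) +
      (s₀ + u + 1) * n ^ 2 / 2 := by
  induction n with
  | zero => simp
  | succ n ih =>
    rw [Finset.sum_range_succ, tl]
    push_cast
    rw [Nat.cast_choose_two, Nat.cast_choose_two]
    push_cast
    have : (0 : ℝ) ≤ u := by positivity
    have : (0 : ℝ) ≤ s₀ := by positivity
    nlinarith

end TD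

open TD in
theorem cov_td (a s₀ u v n i τ : ℕ) (hi : 0 < i) (ha : s₀ + u + u + v + n ≤ a) :
    Cov (fun H => TDc H s₀ u v n i τ)
      ((u : ℝ) ^ 2 * v / 2 + n * u ^ 2 + u * n * v + u * n ^ 2 / 2 +
        10 * (s₀ + τ + 1) * (a + 1) ^ 2 + τ * a * (a / i + 1) ^ 2) := by
  classical
  obtain ⟨Ω, x, hf, hx, hΩ⟩ := exists_univ (Fin s₀ ⊕ Fin u) (2 ^ (s₀ + u) * (2 ^ (u + v) * 2 ^ n))
    (by positivity)
  have key : ∀ H : Gp, TDc H s₀ u v n i τ → Nat.card Ω = 2 ^ (s₀ + u) * Nat.card (Fr Ω) ∧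
      ∃ π : Ω →* H, Function.Surjective π ∧ ∃ Y : Subgroup Ω, ((P3 Ω ≤ Y ∧
        Nat.card (Fr Ω) = 2 ^ (u + v) * Nat.card Y ∧ ∃ W, Y ≤ W ∧ W ≤ Fr Ω ∧
          Nat.card W ≤ 2 ^ v * Nat.card Y ∧ LowRank W i τ) ∧
        Nat.card (Y ⊔ cl (Set.range fun c => x (Sum.inr c) ^ 2) : Subgroup Ω) =
          2 ^ u * Nat.card Y) ∧ Ch Y n π.ker := by
    rintro H ⟨y, Y, W, h1, h2, h3, h4, h5, h6, h7, h8, h9, h10⟩
    have hH : Nat.card H = 2 ^ (s₀ + u) * (2 ^ (u + v) * 2 ^ n) := by rw [h5, h6, h7]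
    have : Finite H := Nat.finite_of_card_ne_zero (by rw [hH]; positivity)
    obtain ⟨π, hπ⟩ := hΩ H y hH
    have hs : Function.Surjective π := by
      rw [← MonoidHom.range_eq_top, eq_top_iff, ← h1]
      refine cl_le ?_
      rintro _ ⟨l, rfl⟩
      exact ⟨x l, hπ l⟩
    have hc : ∀ U : Subgroup Ω, Nat.card (U ⊔ π.ker : Subgroup Ω) =
        Nat.card (U.map π) * Nat.card π.ker := fun U => by
      rw [← comap_map_eq, card_comap hs]
    have e1 : Nat.card Ω = 2 ^ (s₀ + u) * Nat.card (Fr Ω ⊔ π.ker : Subgroup Ω) := by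
      rw [hc, map_Fr hs, ← mul_assoc, ← h5, ← card_top (G := H), ← card_comap hs, comap_top,
        card_top]
    have e2 := card_ea (Fr Ω) x (fun a => Nz.of_normal _ _) (fun a => sq_mem_Fr _)
      fun a b => Or.inl (sq_mem_Fr _)
    rw [hx, sup_top_eq, card_top, e1, Nat.card_eq_fintype_card (α := Fin s₀ ⊕ Fin u),
      Fintype.card_sum, Fintype.card_fin, Fintype.card_fin] at e2
    have e3 : Fr Ω = Fr Ω ⊔ π.ker :=
      eq_of_le_of_card_ge le_sup_left (Nat.le_of_mul_le_mul_left e2 (by positivity))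
    have e4 : (Fr H).comap π = Fr Ω := by rw [← map_Fr hs, comap_map_eq, ← e3]
    have e5 : ∀ (U : Subgroup H) (V : Subgroup Ω), Nat.card (U.comap π ⊔ V : Subgroup Ω) =
        Nat.card (U ⊔ V.map π : Subgroup H) * Nat.card π.ker := fun U V => by
      rw [card_of_ker_le π ((ker_le_comap π U).trans le_sup_left), Subgroup.map_sup,
        map_comap_eq_self_of_surjective hs]
    have := normal_of_P3_le h2 (h3.trans h4)
    refine ⟨by rw [e1, ← e3], π, hs, Y.comap π, ⟨⟨?_, ?_, W.comap π, comap_mono h3,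
      e4 ▸ comap_mono h4, ?_, fun t ht => ?_⟩, ?_⟩, ?_⟩
    · rw [← map_le_iff_le_comap, map_P3 hs]; exact h2
    · rw [← e4, card_comap hs, card_comap hs, h6, mul_assoc]
    · rw [card_comap hs, card_comap hs, ← mul_assoc]
      exact Nat.mul_le_mul_right _ h8
    · rw [e5, card_comap hs, ← mul_assoc, sqs_map, map_cl, ← Finset.coe_image]
      exact Nat.mul_le_mul_right _ (h10 _ (Finset.card_image_le.trans ht))
    · rw [e5, card_comap hs, ← mul_assoc, ← h9, map_cl, ← Set.range_comp]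
      simp only [Function.comp_def, map_pow, hπ]
    · exact (exists_ch (IsPGroup.of_card (n := s₀ + u + (u + v + n)) (by rw [hH]; ring)) h7).comap hs
  by_cases c1 : Nat.card Ω = 2 ^ (s₀ + u) * Nat.card (Fr Ω)
  swap
  · exact (Cov.of_iso fun H _ h _ => (c1 (key H h).1).elim).mono (fun _ h => h) (by positivity)
  have b1 := bnd_top (s₀ + u) (u + v) v i τ hi (x ∘ finSumFinEquiv.symm)
    (by rw [finSumFinEquiv.symm.surjective.range_comp, hx]) c1
  have b2 := (b1.mono (S := {Y | (P3 Ω ≤ Y ∧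
        Nat.card (Fr Ω) = 2 ^ (u + v) * Nat.card Y ∧ ∃ W, Y ≤ W ∧ W ≤ Fr Ω ∧
          Nat.card W ≤ 2 ^ v * Nat.card Y ∧ LowRank W i τ) ∧
        Nat.card (Y ⊔ cl (Set.range fun c => x (Sum.inr c) ^ 2) : Subgroup Ω) =
          2 ^ u * Nat.card Y}) (fun _ h => h.1) le_rfl).bind (T := fun Y => {K | Ch Y n K})
    (U := {K | ∃ Y ∈ _, K ∈ _}) (by
      rintro Y ⟨⟨h1, h2, W, h3, h4, -⟩, h5⟩
      exact (bnd_ch s₀ u v x Y hx h1 (h3.trans h4) c1 h2 h5 n).mono le_rfl (sum_tl s₀ u v n))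
    fun _ h => h
  refine (Cov.of_code b2 (fun K H => ∃ π : Ω →* H, Function.Surjective π ∧ π.ker = K) ?_ ?_).mono
    (fun _ h => h) ?_
  · intro H h
    obtain ⟨-, π, h1, Y, h2, h3⟩ := key H h
    exact ⟨_, ⟨Y, h2, h3⟩, π, h1, rfl⟩
  · rintro K H H' - - ⟨π, h1, h2⟩ ⟨π', h1', h2'⟩
    exact ⟨(QuotientGroup.quotientKerEquivOfSurjective π h1).symm.trans
      ((QuotientGroup.quotientMulEquivOfEq (h2.trans h2'.symm)).trans
        (QuotientGroup.quotientKerEquivOfSurjective π' h1'))⟩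
  · have q1 : (((s₀ + u) / i + 1 : ℕ) : ℝ) ≤ a / i + 1 := by
      push_cast
      have : (((s₀ + u) / i : ℕ) : ℝ) ≤ (a : ℝ) / i :=
        (Nat.cast_le.2 (Nat.div_le_div_right (by omega))).trans Nat.cast_div_le
      linarith
    have ha' : (s₀ : ℝ) + u + u + v + n ≤ a := by exact_mod_cast ha
    have p1 : (0 : ℝ) ≤ s₀ := by positivity
    have p2 : (0 : ℝ) ≤ u := by positivity
    have p3 : (0 : ℝ) ≤ v := by positivity
    have p4 : (0 : ℝ) ≤ n := by positivity
    have p5 : (0 : ℝ) ≤ τ := by positivity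
    have q2 : (((s₀ + u) / i + 1 : ℕ) : ℝ) ^ 2 * (τ * (u + v : ℕ)) ≤ τ * a * (a / i + 1) ^ 2 := by
      rw [mul_comm]
      push_cast at q1 ⊢
      gcongr
      linarith
    generalize (((s₀ + u) / i + 1 : ℕ) : ℝ) ^ 2 * (τ * (u + v : ℕ)) = X at q2 ⊢
    generalize (τ : ℝ) * a * (a / i + 1) ^ 2 = X' at q2 ⊢
    push_cast
    generalize (s₀ : ℝ) = S at *
    generalize (u : ℝ) = U at *
    generalize (v : ℝ) = V at *
    generalize (n : ℝ) = N at *
    generalize (τ : ℝ) = T at *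
    generalize (a : ℝ) = A at *
    have m : ∀ y z : ℝ, 0 ≤ y → 0 ≤ z → y ≤ A → z ≤ A → y * z ≤ (A + 1) ^ 2 :=
      fun y z a b c d => by nlinarith
    have r1 := m (S + U) (U + V) (by linarith) (by linarith) (by linarith) (by linarith)
    have r2 := m (U + V) (U + V) (by linarith) (by linarith) (by linarith) (by linarith)
    have r3 := mul_le_mul_of_nonneg_left (m (S + U) (S + U) (by linarith) (by linarith)
      (by linarith) (by linarith)) p5
    have r4 := mul_le_mul_of_nonneg_left (m (S + 2 * U) V (by linarith) (by linarith)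
      (by linarith) (by linarith)) p1
    have r5 := mul_le_mul_of_nonneg_left (m (S + 2 * U) N (by linarith) (by linarith)
      (by linarith) (by linarith)) p1
    have r6 := m (S + U) N (by linarith) (by linarith) (by linarith) (by linarith)
    have r7 := mul_le_mul_of_nonneg_left (m (U + V) N (by linarith) (by linarith)
      (by linarith) (by linarith)) p1
    have r8 := m (U + V) N (by linarith) (by linarith) (by linarith) (by linarith)
    have r9 := mul_le_mul_of_nonneg_left (m N N (by linarith) (by linarith)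
      (by linarith) (by linarith)) p1
    have r10 := m N N (by linarith) (by linarith) (by linarith) (by linarith)
    have r11 := mul_nonneg p1 (sq_nonneg (A + 1))
    have r12 := mul_nonneg p5 (sq_nonneg (A + 1))
    have r13 := sq_nonneg (A + 1)
    linarith

end Pool.Agent.P.MP_9f774b_al
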