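import Pool.Agent.P.MP_9f774b_al.SimsCore
import Pool.Agent.P.MP_9f774b_al.TopDown

/-!
The bottom-up count from the subgroup `H` to the group `P`.
-/

set_option autoImplicit false

noncomputable section

namespace Pool.Agent.P.MP_9f774b_al

theorem cov_sims (a d s₀ u i τ : ℕ) (hi : 0 < i) :
    Cov (fun P => Nat.card P = 2 ^ a ∧ Nat.card P = 2 ^ d * Nat.card (Fr P) ∧ Str P s₀ u i τ)
      (((a : ℝ) - d - u) * (d ^ 2 + u * (a - d)) / 2 +
        30 * (s₀ + τ + 1) * (a + 1) ^ 2 + 2 * τ * a * (a / i + 1) ^ 2) :=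
  cov_sims_of a d s₀ u i τ hi fun v n h => cov_td a s₀ u v n i τ hi h

end Pool.Agent.P.MP_9f774b_al
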