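import Pool.Agent.P.MP_9f774b_al.Greedy
import Pool.Agent.P.MP_9f774b_al.Sims
import Pool.Agent.P.MP_9f774b_al.BadAut
import Pool.Agent.P.MP_9f774b_al.Arith

/-!
The number of `2`-groups that are not good.
-/

set_option autoImplicit false

noncomputable section

namespace Pool.Agent.P.MP_9f774b_al

open Filter

theorem num_amgm {d w : ℝ} (hd : 0 ≤ d) (hw : 0 ≤ w) : w * d ^ 2 / 2 ≤ 2 / 27 * (d + w) ^ 3 := by
  nlinarith [mul_nonneg (sq_nonneg (d - 2 * w)) (by linarith : 0 ≤ 4 * d + w)]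

theorem num_small {d w u : ℝ} (hu : 0 ≤ u) (hud : u ≤ d) (hdw : d ≤ w) :
    (w - u) * (d ^ 2 + u * w) / 2 ≤ (d + w) ^ 3 / 14 := by
  have hd : 0 ≤ d := hu.trans hud
  have hw : 0 ≤ w := hd.trans hdw
  rcases le_total (3 * d) w with h | h
  · have h1 : (w - u) * (d ^ 2 + u * w) ≤ (w - d) * (d ^ 2 + d * w) := by
      have : 0 ≤ w ^ 2 - d ^ 2 - (d + u) * w := by nlinarith
      nlinarith [mul_nonneg (sub_nonneg.2 hud) this]
    have h2 : 8 * (d * (w - d)) * (d + w) ≤ (d + w) ^ 2 * (d + w) :=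
      mul_le_mul_of_nonneg_right (by nlinarith [sq_nonneg (w - 3 * d)]) (by linarith)
    have h3 : 0 ≤ (d + w) ^ 3 := by positivity
    nlinarith
  · rcases hw.eq_or_lt with rfl | hw'
    · obtain rfl : d = 0 := by linarith
      obtain rfl : u = 0 := by linarith
      simp
    have h1 : 4 * w * ((w - u) * (d ^ 2 + u * w)) ≤ (w ^ 2 + d ^ 2) ^ 2 := by
      nlinarith [sq_nonneg (w ^ 2 - 2 * u * w - d ^ 2)]
    have h2 : 7 * (w ^ 2 + d ^ 2) ^ 2 ≤ 4 * w * (d + w) ^ 3 := by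
      obtain ⟨e, rfl⟩ : ∃ e, w = d + e := ⟨w - d, by ring⟩
      have he : 0 ≤ e := by linarith
      have he' : 0 ≤ 2 * d - e := by linarith
      nlinarith [mul_nonneg (mul_nonneg he he) (mul_nonneg he he'), mul_nonneg (mul_nonneg hd hd)
        (mul_nonneg hd he), mul_nonneg (mul_nonneg hd hd) (mul_nonneg he he'),
        mul_nonneg (mul_nonneg hd he) (mul_nonneg he he'), pow_nonneg hd 4]
    have h3 : w * (7 * ((w - u) * (d ^ 2 + u * w))) ≤ w * (d + w) ^ 3 := by linarith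
    have := le_of_mul_le_mul_left h3 hw'
    linarith

theorem num_mid {d w u : ℝ} (hu : 0 ≤ u) (hw : 0 ≤ w) (hdw : w ≤ d) (h : 20 * d ≤ 13 * (d + w)) :
    (w - u) * (d ^ 2 + u * w) / 2 ≤ 7395 / 100000 * (d + w) ^ 3 := by
  have h1 : (w - u) * (d ^ 2 + u * w) ≤ w * d ^ 2 := by
    have : 0 ≤ d ^ 2 - w ^ 2 + u * w := by nlinarith
    nlinarith [mul_nonneg hu this]
  obtain ⟨a, ha⟩ : ∃ a, a = d + w := ⟨_, rfl⟩
  obtain rfl : w = a - d := by linarith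
  have h2 : 0 ≤ 13 / 20 * a - d := by linarith
  have h3 : 0 ≤ 2 * d - a := by linarith
  have h4 : 0 ≤ a := by linarith
  have h5 : 0 ≤ d := by linarith
  rw [← ha]
  nlinarith [mul_nonneg h2 (mul_nonneg h2 h4), mul_nonneg h2 (mul_nonneg h2 h5),
    mul_nonneg h2 (mul_nonneg h4 h4), pow_nonneg h4 3]

theorem num_big {d w u δ : ℝ} (hδ : 0 ≤ δ) (hu : δ * (d + w) ≤ u) (hw : 0 ≤ w)
    (h : 13 * (d + w) ≤ 20 * d) :
    (w - u) * (d ^ 2 + u * w) / 2 ≤ (2 / 27 - 3 / 20 * δ) * (d + w) ^ 3 := by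
  have hd : 0 ≤ d := by linarith
  have hu0 : 0 ≤ u := le_trans (by positivity) hu
  have h1 := num_amgm hd hw
  have h2 : 3 / 10 * (d + w) * (d + w) ≤ (d - w) * (d + w) := by gcongr; linarith
  have h3 : δ * (d + w) * (3 / 10 * (d + w) * (d + w)) ≤ u * ((d - w) * (d + w)) := by gcongr
  nlinarith [mul_nonneg (mul_nonneg hu0 hu0) hw]

theorem num_bad {d w k : ℝ} (hd : 0 ≤ d) (hw : 0 ≤ w) (hk : d + w ≤ 500 * k) :
    w * (d ^ 2 - k ^ 2) / 2 ≤ (2 / 27 - 5 / 10 ^ 7) * (d + w) ^ 3 := by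
  have h0 : (d + w) ^ 2 ≤ (500 * k) ^ 2 := by gcongr
  have h4 : 0 ≤ (d + w) ^ 3 := by positivity
  rcases le_total (3 / 10 * (d + w)) w with h | h
  · have h1 := num_amgm hd hw
    have h2 : 3 / 10 * (d + w) * (d + w) ^ 2 ≤ w * (500 * k) ^ 2 := by gcongr
    nlinarith
  · have h1 : 0 ≤ w * k ^ 2 := by positivity
    obtain ⟨a, ha⟩ : ∃ a, a = d + w := ⟨_, rfl⟩
    obtain rfl : d = a - w := by linarith
    rw [← ha] at *
    have h2 : 0 ≤ 3 / 10 * a - w := by linarith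
    have h3 : 0 ≤ a := by linarith
    nlinarith [mul_nonneg h2 (mul_nonneg h2 h3), mul_nonneg h2 (mul_nonneg h2 h2),
      mul_nonneg h2 (mul_nonneg h3 h3)]

theorem cov_not_good : ∃ η : ℝ, 0 < η ∧ ∃ a₀ : ℕ, ∀ a ≥ a₀,
    Cov (fun P => Nat.card P = 2 ^ a ∧ ¬ Good P a) ((2 / 27 - η) * a ^ 3) := by
  obtain ⟨i, hi⟩ : ∃ i : ℕ, i = 10 ^ 26 := ⟨_, rfl⟩
  obtain ⟨τ, hτ⟩ : ∃ τ : ℕ, τ = 10 ^ 40 := ⟨_, rfl⟩
  have hi' : (i : ℝ) = 10 ^ 26 := by exact_mod_cast hi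
  have hτ' : (τ : ℝ) = 10 ^ 40 := by exact_mod_cast hτ
  refine ⟨1 / 10 ^ 10, by positivity, 10 ^ 60, fun a ha => ?_⟩
  have ha' : (10 : ℝ) ^ 60 ≤ a := by exact_mod_cast ha
  have ha0 : (0 : ℝ) ≤ a := Nat.cast_nonneg a
  have b1 : ((a : ℝ) + 1) ^ 2 ≤ 4 * a ^ 2 := by nlinarith
  have b2 : 10 ^ 60 * (a : ℝ) ^ 2 ≤ a * a ^ 2 := by gcongr
  have b3 : 10 ^ 60 * (a : ℝ) ≤ a * a := by gcongr
  refine (Cov.bind (E' := (2 / 27 - 12 / 10 ^ 11) * a ^ 3)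
    ((Bnd.range a).prod ((Bnd.range a).prod (Bnd.range a)))
    (Q := fun x P => (x.2.1 * τ ≤ 2 * i * a ∧ x.2.1 + x.2.2 ≤ x.1 ∧ x.1 + x.2.2 ≤ a) ∧
      ¬ Good P a ∧ Nat.card P = 2 ^ a ∧ Nat.card P = 2 ^ x.1 * Nat.card (Fr P) ∧
      Str P x.2.1 x.2.2 i τ) ?_ ?_).mono (fun _ h => h) (by nlinarith)
  swap
  · intro P hP
    obtain ⟨d, s₀, u, h1, h2, h3, h4, h5⟩ := exists_str P a i τ hP.1
    exact ⟨(d, s₀, u), ⟨show d ≤ a by omega, show s₀ ≤ a by omega, show u ≤ a by omega⟩,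
      ⟨h2, h3, h4⟩, hP.2, hP.1, h1, h5⟩
  rintro ⟨d, s₀, u⟩ -
  by_cases h : s₀ * τ ≤ 2 * i * a ∧ s₀ + u ≤ d ∧ d + u ≤ a
  swap
  · exact (Cov.of_iso fun G _ hG _ => (h hG.1).elim).mono (fun _ h => h) (by positivity)
  obtain ⟨h1, h2, h3⟩ := h
  have h1' : (s₀ : ℝ) * 10 ^ 40 ≤ 2 * 10 ^ 26 * a := by
    rw [← hi', ← hτ']
    exact_mod_cast h1
  have h2' : (s₀ : ℝ) + u ≤ d := by exact_mod_cast h2
  have h3' : (d : ℝ) + u ≤ a := by exact_mod_cast h3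
  have hs0 : (0 : ℝ) ≤ s₀ := Nat.cast_nonneg _
  have hu0 : (0 : ℝ) ≤ u := Nat.cast_nonneg _
  have hda : (d : ℝ) + (a - d) = a := by ring
  have c1 : (s₀ : ℝ) * a ^ 2 ≤ 2 / 10 ^ 14 * a * a ^ 2 := by gcongr; linarith
  have sims : ((a : ℝ) - d - u) * (d ^ 2 + u * (a - d)) / 2 ≤ (2 / 27 - 15 / 10 ^ 11) * a ^ 3 →
      Cov (fun P => (s₀ * τ ≤ 2 * i * a ∧ s₀ + u ≤ d ∧ d + u ≤ a) ∧
      ¬ Good P a ∧ Nat.card P = 2 ^ a ∧ Nat.card P = 2 ^ d * Nat.card (Fr P) ∧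
      Str P s₀ u i τ) ((2 / 27 - 12 / 10 ^ 11) * a ^ 3) := fun h => by
    refine (cov_sims a d s₀ u i τ (by omega)).mono (fun _ h => h.2.2) ?_
    rw [hi', hτ']
    have e1 : ((s₀ : ℝ) + 10 ^ 40 + 1) * (a + 1) ^ 2 ≤ (s₀ + 10 ^ 40 + 1) * (4 * a ^ 2) := by gcongr
    have e2 : ((a : ℝ) / 10 ^ 26 + 1) ^ 2 ≤ 2 * (a / 10 ^ 26) ^ 2 + 2 := by
      nlinarith [sq_nonneg ((a : ℝ) / 10 ^ 26 - 1)]
    have e3 : a * ((a : ℝ) / 10 ^ 26 + 1) ^ 2 ≤ a * (2 * (a / 10 ^ 26) ^ 2 + 2) := by gcongr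
    nlinarith
  have hc : 0 ≤ (a : ℝ) ^ 3 := by positivity
  rcases le_total (d : ℝ) (a - d) with h4 | h4
  · have := num_small hu0 (by linarith) h4
    rw [hda] at this
    exact sims (by linarith)
  rcases lt_or_ge (20 * d) (13 * a) with h5 | h5
  · have h5' : 20 * (d : ℝ) ≤ 13 * a := by exact_mod_cast h5.le
    have := num_mid hu0 (by linarith) h4 (by rwa [hda])
    rw [hda] at this
    exact sims (by linarith)
  have h5' : 13 * (a : ℝ) ≤ 20 * d := by exact_mod_cast h5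
  rcases le_total (1 / 10 ^ 9 * (a : ℝ)) (u : ℝ) with h6 | h6
  · have := num_big (d := d) (w := a - d) (δ := 1 / 10 ^ 9) (u := u) (by positivity)
      (by rwa [hda]) (by linarith) (by rwa [hda])
    rw [hda] at this
    exact sims (by linarith)
  have h7 : 1000 * (s₀ + u) ≤ a := by
    have : 1000 * ((s₀ : ℝ) + u) ≤ a := by linarith
    exact_mod_cast this
  refine (cov_bad a d (s₀ + u) (a / 400) (a / 100) (by omega) (by omega)).mono ?_ ?_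
  · rintro P ⟨-, g1, g2, g3, x, W, -, -, g4, -⟩
    refine ⟨g2, g3, ⟨x ∘ finSumFinEquiv.symm, by rwa [finSumFinEquiv.symm.surjective.range_comp]⟩,
      ?_⟩
    by_contra hα
    push Not at hα
    exact g1 ⟨d, g3, h5, hα⟩
  · have h8 : (a : ℝ) ≤ 500 * (a / 400 : ℕ) := by
      exact_mod_cast (show a ≤ 500 * (a / 400) by omega)
    have := num_bad (d := d) (w := a - d) (k := (a / 400 : ℕ)) (by linarith) (by linarith)
      (by rwa [hda])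
    rw [hda] at this
    have e1 : ((s₀ : ℝ) + u + 1) * (a + 1) ^ 2 ≤ (s₀ + u + 1) * (4 * a ^ 2) := by gcongr
    have e2 : (u : ℝ) * a ^ 2 ≤ 1 / 10 ^ 9 * a * a ^ 2 := by gcongr
    push_cast
    nlinarith

end Pool.Agent.P.MP_9f774b_al
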