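import Pool.Agent.P.MP_9f774b_al.Lem

/-!
Bottom-up count from the subgroup `H` to the group `P`, given the top-down count of `H`.
-/

set_option autoImplicit false

noncomputable section

namespace Pool.Agent.P.MP_9f774b_al

open Subgroup hiding closure subset_closure closure_union
open scoped commutatorElement

variable {G : Type} [Group G]

theorem cov_empty {P : Gp → Prop} (h : ∀ G, ¬ P G) (E : ℝ) : Cov P E :=
  ⟨∅, ⟨∅, by simp only [Finset.card_empty, Nat.cast_zero]; positivity, by simp⟩,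
    fun G hG => (h G hG).elim⟩

theorem card_comap_of_le {H : Type} [Group H] {f : H →* G} (hf : Function.Injective f)
    {U : Subgroup G} (h : U ≤ f.range) : Nat.card (U.comap f) = Nat.card U := by
  rw [← card_map_of_injective hf, map_comap_eq_self h]

theorem card_sup_normal [Finite G] (N C : Subgroup G) [N.Normal] :
    Nat.card (N ⊔ C : Subgroup G) = N.relIndex C * Nat.card N := by
  rw [← relIndex_sup_left C N, relIndex, ← (N.subgroupOf (N ⊔ C)).index_mul_card,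
    Nat.card_congr (subgroupOfEquivOfLe (le_sup_left : N ≤ N ⊔ C)).toEquiv]

theorem lr_block [Finite G] {W : Subgroup G} {i τ : ℕ} (hi : 0 < i) (h : LowRank W i τ)
    {Λ : Type} [Finite Λ] (num : Λ → ℕ) (hnum : Function.Injective num) (g : Λ → G) (j j' : ℕ) :
    ∃ L : Subgroup G, W ≤ L ∧ Nat.card L ≤ 2 ^ τ * Nat.card W ∧ L ≤ W ⊔ Fr G ∧
      ∀ l r, num l / i = j → num r / i = j' → (g l * g r) ^ 2 ∈ L := by
  classical
  have := Fintype.ofFinite Λ
  have hb : ∀ k, (Finset.univ.filter fun l => num l / i = k).card ≤ i := fun k => by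
    refine (Finset.card_le_card_of_injOn (t := Finset.range i) (fun l => num l % i)
      (fun l _ => by simpa using Nat.mod_lt _ hi) fun l hl r hr e => hnum ?_).trans (by simp)
    have h1 : num l / i = k := by simpa using hl
    have h2 : num r / i = k := by simpa using hr
    rw [← Nat.div_add_mod (num l) i, ← Nat.div_add_mod (num r) i, h1, h2]
    exact congrArg _ e
  let t : Finset G := ((Finset.univ.filter fun l => num l / i = j) ∪
    (Finset.univ.filter fun l => num l / i = j')).image g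
  have ht : t.card ≤ 2 * i := Finset.card_image_le.trans
    ((Finset.card_union_le _ _).trans (by have := hb j; have := hb j'; omega))
  refine ⟨_, le_sup_left, h t ht, sup_le_sup_left (sqs_mono le_top) _, fun l r hl hr => ?_⟩
  refine mem_sup_right (sq_mem_sqs (mul_mem (sub_cl ?_) (sub_cl ?_)))
  · exact Finset.mem_coe.2 (Finset.mem_image_of_mem _ (by simp [hl]))
  · exact Finset.mem_coe.2 (Finset.mem_image_of_mem _ (by simp [hr]))

theorem tdc_of_str [Finite G] {s₀ u v n i τ : ℕ} {H : Type} [Group H] (f : H →* G)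
    (hf : Function.Injective f) (x : Fin s₀ ⊕ Fin u → H) (hx : cl (Set.range x) = ⊤)
    (W : Subgroup G) (h1 : P3 G ≤ W) (h2 : W ≤ Fr G) (h3 : sqs f.range = Fr G)
    (h4 : Nat.card f.range = 2 ^ (s₀ + u) * Nat.card (Fr G))
    (h5 : Nat.card (W ⊔ cl (Set.range fun c => f (x (Sum.inr c)) ^ 2) : Subgroup G) =
      2 ^ u * Nat.card W) (h6 : LowRank W i τ) (h7 : Nat.card (P3 G) = 2 ^ n)
    (h8 : Nat.card (Fr G) = 2 ^ (u + v + n)) : TDc H s₀ u v n i τ := by
  classical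
  have hFH : Fr G ≤ f.range := by rw [← h3]; exact sqs_le _
  have hF : (Fr H).map f = Fr G := by rw [sqs_map, ← MonoidHom.range_eq_map, h3]
  have hF' : Fr H = (Fr G).comap f := by rw [← hF, comap_map_eq_self_of_injective hf]
  have cF : Nat.card (Fr H) = Nat.card (Fr G) := by rw [← hF, card_map_of_injective hf]
  have cY := card_comap_of_le hf (P3_le_Fr.trans hFH)
  have cW := card_comap_of_le hf (h2.trans hFH)
  have hC : cl (Set.range fun c => f (x (Sum.inr c)) ^ 2) ≤ Fr G :=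
    cl_le (by rintro _ ⟨c, rfl⟩; exact sq_mem_Fr _)
  rw [MonoidHom.range_eq_map, card_map_of_injective hf, card_top] at h4
  refine ⟨x, (P3 G).comap f, W.comap f, hx, ?_, comap_mono h1, hF' ▸ comap_mono h2,
    by rw [cF, h4], by rw [cF, cY, h7, h8, pow_add _ (u + v)], by rw [cY, h7], ?_, ?_, ?_⟩
  · rw [← map_le_iff_le_comap, P3, Subgroup.map_sup, map_commutator, hF, sqs_map, hF]
    exact sup_le_sup_right (commutator_mono le_rfl le_top) _
  · rw [cW, cY, h7]
    have := card_le_of_le (sup_le h2 hC)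
    rw [h5, h8, add_assoc, pow_add _ u, pow_add] at this
    exact Nat.le_of_mul_le_mul_left this (by positivity)
  · rw [← card_map_of_injective hf, Subgroup.map_sup, map_comap_eq_self (P3_le_Fr.trans hFH),
      map_cl, ← Set.range_comp', cY]
    simp only [map_pow]
    refine le_antisymm ?_ ?_
    · simpa using card_ea (P3 G) (fun c => f (x (Sum.inr c)) ^ 2) (fun _ => Nz.of_normal _ _)
        (fun _ => mem_sup_right (sq_mem_sqs (sq_mem_Fr _))) fun _ _ =>
          Or.inl (mem_sup_right (sq_mem_sqs (mul_mem (sq_mem_Fr _) (sq_mem_Fr _))))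
    · have := normal_of_P3_le h1 h2
      rw [card_sup_normal] at h5 ⊢
      rw [← Nat.eq_of_mul_eq_mul_right Nat.card_pos h5]
      exact Nat.mul_le_mul_right _ (relIndex_le_of_le_left h1 index_ne_zero_of_finite)
  · intro t ht
    rw [← card_map_of_injective hf, Subgroup.map_sup, map_comap_eq_self (h2.trans hFH), sqs_map,
      map_cl, cW, ← Finset.coe_image]
    exact h6 _ (Finset.card_image_le.trans ht)

theorem cov_over (H : Gp) {a e s₀ u y i τ : ℕ} (hi : 0 < i) (h : Fin s₀ ⊕ Fin u → H)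
    (hh : cl (Set.range h) = ⊤) (hc : 2 ^ e * Nat.card H = 2 ^ a) :
    Cov (fun P => Nat.card P = 2 ^ a ∧ ∃ (f : H →* P) (W : Subgroup P), Function.Injective f ∧
        Fr P ≤ f.range ∧ W ≤ Fr P ∧ Nat.card W ≤ 2 ^ y ∧ LowRank W i τ)
      ((a : ℝ) * a + ((((e + (s₀ + u)) / i + 1 : ℕ) : ℝ) ^ 2 * (τ * a) +
        ((e * (s₀ + u) + e.choose 2 : ℕ) : ℝ) * (τ + y)) + e * a) := by
  classical
  have hH : Finite H := Nat.finite_of_card_ne_zero fun e0 => by
    rw [e0, mul_zero] at hc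
    exact absurd hc (by positivity)
  have hHa : Nat.card H ≤ 2 ^ a := hc ▸ Nat.le_mul_of_pos_left _ (by positivity)
  let I := Fin e × (Fin s₀ ⊕ Fin u) ⊕ {p : Fin e × Fin e // p.1 < p.2}
  let Λ := Fin e ⊕ (Fin s₀ ⊕ Fin u)
  let k := (e + (s₀ + u)) / i + 1
  let eq : Λ ≃ Fin (e + (s₀ + u)) := (Equiv.sumCongr (Equiv.refl _) finSumFinEquiv).trans
    finSumFinEquiv
  let bl : Λ → Fin k := fun l => ⟨(eq l).1 / i,
    Nat.lt_succ_of_le (Nat.div_le_div_right (eq l).2.le)⟩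
  let pr : I → Λ × Λ := Sum.elim (fun p => (.inl p.1, .inr p.2)) fun p => (.inl p.1.1, .inl p.1.2)
  let β : I → Fin k × Fin k := fun p => (bl (pr p).1, bl (pr p).2)
  have hI : Nat.card I = e * (s₀ + u) + e.choose 2 := by
    have e1 : Fintype.card {p : Fin e × Fin e // p.1 < p.2} = e.choose 2 := by
      rw [Fintype.card_subtype, Fintype.card_product_filter_lt, Fintype.card_fin]
    simp only [I, Nat.card_eq_fintype_card, Fintype.card_sum, Fintype.card_prod,
      Fintype.card_fin, e1]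
  have hJ : (Nat.card (Fin k × Fin k) : ℝ) = (k : ℝ) ^ 2 := by simp [sq]
  have b1 := (bnd_all_subgroups hHa {B : Subgroup H | Nat.card B ≤ 2 ^ y}).bind
    (T := fun B => {c : I → H | ∀ j, ∃ L : Subgroup H, B ≤ L ∧
      Nat.card L ≤ 2 ^ τ * Nat.card B ∧ ∀ p, β p = j → c p ∈ L})
    (U := {c : I → H | ∃ B : Subgroup H, Nat.card B ≤ 2 ^ y ∧ ∀ j, ∃ L : Subgroup H, B ≤ L ∧
      Nat.card L ≤ 2 ^ τ * Nat.card B ∧ ∀ p, β p = j → c p ∈ L})
    (fun B hB => bnd_lowrank β B τ (cast_le_two_rpow hHa) (cast_le_two_rpow hB))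
    fun c hc => hc
  have b2 := b1.prod (Bnd.univ_fun (ι := Fin e) (cast_le_two_rpow hHa) Set.univ)
  rw [hI, hJ, Nat.card_fin] at b2
  refine Cov.of_code b2 (fun c P => ∃ (f : H →* P) (X : Fin e → P),
    f.range ⊔ cl (Set.range X) = ⊤ ∧ (∀ l, X l ^ 2 = f (c.2 l)) ∧
    (∀ l m, (X l * f (h m)) ^ 2 = f (c.1 (.inl (l, m)))) ∧
    ∀ p : {p : Fin e × Fin e // p.1 < p.2}, (X p.1.1 * X p.1.2) ^ 2 = f (c.1 (.inr p))) ?_ ?_
  · rintro P ⟨hP, f, W, hf, hF, hW, hWc, hL⟩
    have : Finite P := Nat.finite_of_card_ne_zero (by rw [hP]; positivity)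
    obtain ⟨X, -, hX⟩ := exists_gens (U := f.range) (V := ⊤) le_top (e := e)
      (by rw [card_top, MonoidHom.range_eq_map, card_map_of_injective hf, card_top, hP, hc])
    let g : Λ → P := Sum.elim X fun m => f (h m)
    choose c hc using fun p : I => hF (sq_mem_Fr (g (pr p).1 * g (pr p).2))
    choose c0 hc0 using fun l => hF (sq_mem_Fr (X l))
    have cW := card_comap_of_le hf (hW.trans hF)
    refine ⟨(c, c0), ⟨⟨W.comap f, cW ▸ hWc, fun j => ?_⟩, trivial⟩, f, X, hX,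
      fun l => (hc0 l).symm, fun l m => (hc (.inl (l, m))).symm, fun p => (hc (.inr p)).symm⟩
    obtain ⟨L, h1, h2, h3, h4⟩ := lr_block hi hL (fun l => (eq l).1)
      (Fin.val_injective.comp eq.injective) g j.1 j.2
    refine ⟨L.comap f, comap_mono h1, ?_, fun p hp => ?_⟩
    · rwa [cW, card_comap_of_le hf (h3.trans (sup_le (hW.trans hF) hF))]
    · rw [mem_comap, hc]
      subst hp
      exact h4 _ _ rfl rfl
  · rintro c P P' ⟨hP, -⟩ ⟨hP', -⟩ ⟨f, X, h1, h2, h3, h4⟩ ⟨f', X', h1', h2', h3', h4'⟩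
    have : Finite P := Nat.finite_of_card_ne_zero (by rw [hP]; positivity)
    have : Finite P' := Nat.finite_of_card_ne_zero (by rw [hP']; positivity)
    obtain ⟨φ, -⟩ := bu_iso f f' X X' h hh h1 h1' (by rw [Nat.card_fin, hc, hP])
      (by rw [Nat.card_fin, hc, hP']) (fun l => ⟨_, h2 l, h2' l⟩)
      (fun l m => ⟨_, h3 l m, h3' l m⟩) fun l m hlm => (lt_or_gt_of_ne hlm).imp
        (fun h => ⟨_, h4 ⟨(l, m), h⟩, h4' ⟨(l, m), h⟩⟩)
        fun h => ⟨_, h4 ⟨(m, l), h⟩, h4' ⟨(m, l), h⟩⟩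
    exact ⟨φ⟩

theorem sims_arith (e s₀ u v n i τ : ℕ) (a d : ℝ) (hd : d = e + s₀ + u) (ha : a = d + u + v + n) :
    a + (((u : ℝ) ^ 2 * v / 2 + n * u ^ 2 + u * n * v + u * n ^ 2 / 2 +
        10 * (s₀ + τ + 1) * (a + 1) ^ 2 + τ * a * (a / i + 1) ^ 2) +
      (a * a + ((((e + (s₀ + u)) / i + 1 : ℕ) : ℝ) ^ 2 * (τ * a) +
        ((e * (s₀ + u) + e.choose 2 : ℕ) : ℝ) * (τ + (v + n : ℕ))) + e * a)) ≤
    (a - d - u) * (d ^ 2 + u * (a - d)) / 2 +
      30 * (s₀ + τ + 1) * (a + 1) ^ 2 + 2 * τ * a * (a / i + 1) ^ 2 := by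
  have he : (0 : ℝ) ≤ e := Nat.cast_nonneg _
  have hs : (0 : ℝ) ≤ s₀ := Nat.cast_nonneg _
  have hu : (0 : ℝ) ≤ u := Nat.cast_nonneg _
  have hv : (0 : ℝ) ≤ v := Nat.cast_nonneg _
  have hn : (0 : ℝ) ≤ n := Nat.cast_nonneg _
  have hτ : (0 : ℝ) ≤ τ := Nat.cast_nonneg _
  have hi : (0 : ℝ) ≤ i := Nat.cast_nonneg _
  have ha0 : 0 ≤ a := by rw [ha, hd]; positivity
  have hda : d ≤ a := by rw [ha]; linarith
  have h1 : (((e + (s₀ + u)) / i + 1 : ℕ) : ℝ) ≤ a / i + 1 := by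
    push_cast
    refine add_le_add_left (Nat.cast_div_le.trans (div_le_div_of_nonneg_right ?_ hi)) 1
    push_cast
    linarith
  have h2 : (((e + (s₀ + u)) / i + 1 : ℕ) : ℝ) ^ 2 * (τ * a) ≤ τ * a * (a / i + 1) ^ 2 := by
    rw [mul_comm]
    gcongr
  have h3 : ((e * (s₀ + u) + e.choose 2 : ℕ) : ℝ) ≤ (d ^ 2 - u ^ 2) / 2 := by
    push_cast
    rw [Nat.cast_choose_two, hd]
    nlinarith [mul_nonneg hs hu, mul_nonneg hs hs]
  have h4 : ((e * (s₀ + u) + e.choose 2 : ℕ) : ℝ) * (τ + (v + n : ℕ)) ≤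
      (d ^ 2 - u ^ 2) / 2 * (τ + (v + n)) := by
    push_cast at h3 ⊢
    exact mul_le_mul_of_nonneg_right h3 (by positivity)
  have h5 : (d ^ 2 - u ^ 2) / 2 * τ ≤ τ * (a + 1) ^ 2 := by
    rw [mul_comm]
    refine mul_le_mul_of_nonneg_left ?_ hτ
    have : 0 ≤ d := by rw [hd]; positivity
    nlinarith [sq_nonneg (u : ℝ)]
  have h6 : e * a ≤ a * a := mul_le_mul_of_nonneg_right (by linarith) ha0
  have h7 : 0 ≤ s₀ * (a + 1) ^ 2 := by positivity
  have h8 : 0 ≤ τ * (a + 1) ^ 2 := by positivity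
  have h9 : a - d - u = v + n := by linarith
  have h10 : a - d = u + (v + n) := by linarith
  have h11 : (0 : ℝ) ≤ v * u ^ 2 + u * v ^ 2 := by positivity
  rw [h9, h10]
  nlinarith

theorem cov_sims_of (a d s₀ u i τ : ℕ) (hi : 0 < i)
    (htd : ∀ v n : ℕ, s₀ + u + u + v + n ≤ a → Cov (fun H => TDc H s₀ u v n i τ)
      ((u : ℝ) ^ 2 * v / 2 + n * u ^ 2 + u * n * v + u * n ^ 2 / 2 +
        10 * (s₀ + τ + 1) * (a + 1) ^ 2 + τ * a * (a / i + 1) ^ 2)) :
    Cov (fun P => Nat.card P = 2 ^ a ∧ Nat.card P = 2 ^ d * Nat.card (Fr P) ∧ Str P s₀ u i τ)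
      (((a : ℝ) - d - u) * (d ^ 2 + u * (a - d)) / 2 +
        30 * (s₀ + τ + 1) * (a + 1) ^ 2 + 2 * τ * a * (a / i + 1) ^ 2) := by
  have := Fact.mk Nat.prime_two
  have key := Cov.bind (Bnd.range a) (E' := ((a : ℝ) - d - u) * (d ^ 2 + u * (a - d)) / 2 +
        30 * (s₀ + τ + 1) * (a + 1) ^ 2 + 2 * τ * a * (a / i + 1) ^ 2 - a)
    (P := fun P => Nat.card P = 2 ^ a ∧ Nat.card P = 2 ^ d * Nat.card (Fr P) ∧ Str P s₀ u i τ)
    (Q := fun n P => ∃ e v : ℕ, d = e + s₀ + u ∧ a = d + u + v + n ∧ Nat.card P = 2 ^ a ∧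
      ∃ H : Gp, TDc H s₀ u v n i τ ∧ ∃ (f : H →* P) (W : Subgroup P), Function.Injective f ∧
        Fr P ≤ f.range ∧ W ≤ Fr P ∧ Nat.card W ≤ 2 ^ (v + n) ∧ LowRank W i τ) ?_ ?_
  · simpa using key
  · intro n _
    by_cases h : ∃ e v : ℕ, d = e + s₀ + u ∧ a = d + u + v + n
    swap
    · exact cov_empty (fun P ⟨e, v, h1, h2, _⟩ => h ⟨e, v, h1, h2⟩) _
    obtain ⟨e, v, hd, ha⟩ := h
    obtain ⟨S, hS, hS1, hS2⟩ := (htd v n (by omega)).reps
    refine (Cov.bind hS (fun H hH => ?_) (Q := fun (H P : Gp) => Nat.card P = 2 ^ a ∧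
      ∃ (f : H →* P) (W : Subgroup P), Function.Injective f ∧
        Fr P ≤ f.range ∧ W ≤ Fr P ∧ Nat.card W ≤ 2 ^ (v + n) ∧ LowRank W i τ) ?_).mono
      (fun _ h => h) (le_sub_iff_add_le'.2 (sims_arith e s₀ u v n i τ a d
        (by rw [hd]; push_cast; ring) (by rw [ha]; push_cast; ring)))
    · obtain ⟨x, Y, W, h1, -, -, -, h2, h3, h4, -⟩ := hS1 H hH
      refine cov_over H hi x h1 ?_
      rw [h2, h3, h4, ← pow_add, ← pow_add, ← pow_add, ha, hd]
      congr 1
      omega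
    · rintro P ⟨e', v', hd', ha', hP, H, hH, f, W, hf, h1, h2⟩
      obtain rfl : v' = v := by omega
      obtain ⟨H', hH', ⟨φ⟩⟩ := hS2 H hH
      refine ⟨H', hH', hP, f.comp φ.symm.toMonoidHom, W, hf.comp φ.symm.injective, ?_, h2⟩
      intro g hg
      obtain ⟨z, rfl⟩ := h1 hg
      exact ⟨φ z, by simp⟩
  · rintro P ⟨hP, hd, x, W, h1, h2, h3, h4, h5, h6⟩
    have : Finite P := Nat.finite_of_card_ne_zero (by rw [hP]; positivity)
    have hG : IsPGroup 2 P := IsPGroup.of_card hP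
    obtain ⟨n, hn⟩ := IsPGroup.iff_card.1 (hG.to_subgroup (P3 P))
    obtain ⟨w, hw⟩ := IsPGroup.iff_card.1 (hG.to_subgroup (Fr P))
    have e1 : a = d + w := by
      rw [hP, hw, ← pow_add] at hd
      exact Nat.pow_right_injective le_rfl hd
    have e2 : s₀ + u + w ≤ a := by
      have := card_le_card_group (cl (Set.range x))
      rwa [h4, hw, hP, ← pow_add, Nat.pow_le_pow_iff_right one_lt_two] at this
    have e3 := card_le_of_le (sup_le h2 (cl_le (S := Set.range fun c => x (Sum.inr c) ^ 2)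
      (by rintro _ ⟨c, rfl⟩; exact sq_mem_Fr _)))
    rw [h5, hw] at e3
    have e4 : u + n ≤ w := by
      have := (Nat.mul_le_mul_left (2 ^ u) (card_le_of_le h1)).trans e3
      rwa [hn, ← pow_add, Nat.pow_le_pow_iff_right one_lt_two] at this
    obtain ⟨v, rfl⟩ : ∃ v, w = u + v + n := ⟨w - u - n, by omega⟩
    refine ⟨n, show n ≤ a by omega, d - s₀ - u, v, by omega, by omega, hP,
      ⟨cl (Set.range x)⟩, tdc_of_str (cl (Set.range x)).subtype (subtype_injective _)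
        (fun l => ⟨x l, sub_cl ⟨l, rfl⟩⟩) ?_ W h1 h2 (by rwa [range_subtype])
        (by rwa [range_subtype]) h5 h6 hn hw, (cl (Set.range x)).subtype, W,
      subtype_injective _, ?_, h2, ?_, h6⟩
    · apply map_injective (subtype_injective _)
      rw [map_cl, ← Set.range_comp', ← MonoidHom.range_eq_map, range_subtype]
      rfl
    · rw [range_subtype, ← h3]
      exact sqs_le _
    · rw [add_assoc, pow_add] at e3
      exact Nat.le_of_mul_le_mul_left e3 (by positivity)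

end Pool.Agent.P.MP_9f774b_al
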