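import Pool.Agent.P.MP_9f774b_al.Lem

/-!
The number of relations of a central elementary abelian layer, with the Jacobi saving.
-/

set_option autoImplicit false

noncomputable section

namespace Pool.Agent.P.MP_9f774b_al

open Subgroup hiding closure subset_closure closure_union
open scoped commutatorElement

variable {G : Type} [Group G]

theorem commute_of_cl {S : Set G} {a : G} (h : ∀ s ∈ S, Commute a s) :
    ∀ g ∈ cl S, Commute a g := by
  have : cl S ≤ centralizer {a} := cl_le fun s hs => mem_centralizer_singleton_iff.2 (h s hs).symm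
  exact fun g hg => (mem_centralizer_singleton_iff.1 (this hg)).symm

theorem sq_eq_one_of_cl {S : Set G} (h : ∀ s ∈ S, ∀ s' ∈ S, Commute s s') (h2 : ∀ s ∈ S, s ^ 2 = 1) :
    ∀ g ∈ cl S, g ^ 2 = 1 := by
  have hc : ∀ g ∈ cl S, ∀ g' ∈ cl S, Commute g g' := fun g hg =>
    commute_of_cl fun s hs => (commute_of_cl (fun s' hs' => h s hs s' hs') g hg).symm
  intro g hg
  induction hg using Subgroup.closure_induction with
  | mem s hs => exact h2 s hs
  | one => exact one_pow 2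
  | mul a b ha hb iha ihb => rw [(hc a ha b hb).mul_pow, iha, ihb, one_mul]
  | inv a _ iha => rw [inv_pow, iha, inv_one]

theorem card_cl_range_le [Finite G] {ι : Type} [Finite ι] (z : ι → G)
    (h : ∀ a b, Commute (z a) (z b)) (h2 : ∀ a, z a ^ 2 = 1) :
    Nat.card (cl (Set.range z)) ≤ 2 ^ Nat.card ι := by
  have := card_ea (⊥ : Subgroup G) z (fun a => Nz.of_normal _ _) (fun a => h2 a)
    fun a b => Or.inl (by rw [mem_bot, (h a b).mul_pow, h2, h2, one_mul])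
  simpa using this

/-- The tails of a family of elements of `Z ⊔ M i` generate a small subgroup. -/
theorem exists_tails [Finite G] {Z : Subgroup G} (hZ : Z ≤ center G) (hZ2 : ∀ z ∈ Z, z ^ 2 = 1)
    {ι : Type} [Finite ι] (r : ι → G) (M : ι → Subgroup G) (h : ∀ i, r i ∈ Z ⊔ M i) :
    ∃ Z0 : Subgroup G, Z0 ≤ Z ∧ Nat.card Z0 ≤ 2 ^ Nat.card ι ∧ ∀ i, r i ∈ Z0 ⊔ M i := by
  have : Z.Normal := normal_of_nz fun g u hu => by
    rw [mem_center_iff.1 (hZ hu) g, mul_inv_cancel_right]; exact hu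
  choose z hz m hm e using fun i => mem_sup_of_normal_left.1 (h i)
  refine ⟨cl (Set.range z), cl_le (by rintro _ ⟨i, rfl⟩; exact hz i),
    card_cl_range_le z (fun a b => mem_center_iff.1 (hZ (hz b)) _) fun a => hZ2 _ (hz a),
    fun i => ?_⟩
  rw [← e i]
  exact mul_mem (mem_sup_left (sub_cl ⟨i, rfl⟩)) (mem_sup_right (hm i))

/-- The group after killing all tails. -/
theorem card_core [Finite G] {s₀ u v : ℕ} (X : Fin s₀ ⊕ Fin u → G) (W : Fin v → G)
    (hX : cl (Set.range X) = ⊤)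
    (ha : ∀ e c, (∀ g, Commute ⁅X e ^ 2, X c⁆ g) ∧ ⁅X e ^ 2, X c⁆ ^ 2 = 1)
    (hW2 : ∀ j, W j ^ 2 = 1) (hWX : ∀ j i, Commute (W j) (X i))
    (hX4 : ∀ c, (X (.inr c) ^ 2) ^ 2 = 1) (hX0 : ∀ c i, Commute (X (.inr c) ^ 2) (X (.inl i)))
    (hX1 : ∀ b c, b < c → Commute (X (.inr c) ^ 2) (X (.inr b)))
    (Γ : Subgroup G) (hΓ : Γ = cl (Set.range (Sum.elim (fun c => X (.inr c) ^ 2) W)))
    (h1 : ∀ l, X l ^ 2 ∈ Γ) (h2 : ∀ l r, (X l * X r) ^ 2 ∈ Γ ∨ (X r * X l) ^ 2 ∈ Γ) :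
    Nat.card G ≤ 2 ^ (s₀ + u + (u + v)) := by
  have top : ∀ a, (∀ i, Commute a (X i)) → ∀ g, Commute a g := fun a h g =>
    commute_of_cl (S := Set.range X) (by rintro _ ⟨i, rfl⟩; exact h i) g (hX ▸ mem_top g)
  have hW : ∀ j g, Commute (W j) g := fun j => top _ (hWX j)
  have hsq : ∀ e c, Commute (X e ^ 2) (X c ^ 2) := fun e c => by
    obtain ⟨h3, h4⟩ := ha e c
    generalize X e ^ 2 = a at h3 h4 ⊢
    generalize X c = g at h3 h4 ⊢
    have e1 : a * g = ⁅a, g⁆ * (g * a) := by simp only [commutatorElement_def]; group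
    generalize ⁅a, g⁆ = β at h3 h4 e1
    change a * g ^ 2 = g ^ 2 * a
    calc a * g ^ 2 = (a * g) * g := by rw [sq, mul_assoc]
      _ = β * (g * a) * g := by rw [e1]
      _ = β * g * (a * g) := by simp only [mul_assoc]
      _ = β * (g * β) * g * a := by rw [e1]; simp only [mul_assoc]
      _ = β ^ 2 * g ^ 2 * a := by rw [← (h3 g).eq]; simp only [sq, mul_assoc]
      _ = g ^ 2 * a := by rw [h4, one_mul]
  have hcm : ∀ a b, Commute (Sum.elim (fun c => X (.inr c) ^ 2) W a)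
      (Sum.elim (fun c => X (.inr c) ^ 2) W b) := by
    rintro (a | a) (b | b)
    · exact hsq _ _
    · exact (hW _ _).symm
    · exact hW _ _
    · exact hW _ _
  have hin : ∀ a, Sum.elim (fun c => X (.inr c) ^ 2) W a ^ 2 = 1 := by
    rintro (a | a)
    · exact hX4 a
    · exact hW2 a
  have hΓ2 : ∀ g ∈ Γ, g ^ 2 = 1 := hΓ ▸ sq_eq_one_of_cl
    (by rintro _ ⟨a, rfl⟩ _ ⟨b, rfl⟩; exact hcm a b) (by rintro _ ⟨a, rfl⟩; exact hin a)
  have key : ∀ c : Fin u, ∀ g, Commute (X (.inr c) ^ 2) g := by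
    intro c
    induction c using WellFoundedLT.induction with
    | ind c ih =>
    have hc : ∀ g ∈ Γ, Commute (X (.inr c)) g := hΓ ▸ commute_of_cl (by
      rintro _ ⟨e | j, rfl⟩
      · rcases lt_trichotomy e c with h | rfl | h
        · exact (ih e h _).symm
        · exact Commute.self_pow _ _
        · exact (hX1 c e h).symm
      · exact (hW _ _).symm)
    refine top _ ?_
    rintro (i | b)
    · exact hX0 c i
    have h3 := h1 (.inr b)
    have h4 := h2 (.inr c) (.inr b)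
    have h5 := hX4 c
    generalize X (.inr c) = a at hc h4 h5 ⊢
    generalize X (.inr b) = g at h3 h4 ⊢
    have h6 : (a * g) ^ 2 ∈ Γ := by
      refine h4.elim id fun h => ?_
      have : (a * g) ^ 2 = a * (g * a) ^ 2 * a⁻¹ := by simp only [sq]; group
      rw [this, (hc _ h).eq, mul_inv_cancel_right]
      exact h
    have h7 : (a * g) ^ 2 * (g ^ 2)⁻¹ ∈ Γ := mul_mem h6 (inv_mem h3)
    have h8 : g * a * g⁻¹ = a⁻¹ * ((a * g) ^ 2 * (g ^ 2)⁻¹) := by simp only [sq]; group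
    have h9 : (g * a * g⁻¹) ^ 2 = a ^ 2 := by
      rw [h8, (hc _ h7).inv_left.mul_pow, hΓ2 _ h7, mul_one, inv_pow]
      exact inv_eq_of_mul_eq_one_right (by rw [← sq, h5])
    rw [conj_pow] at h9
    exact (mul_inv_eq_iff_eq_mul.1 h9).symm
  have hcen : ∀ γ ∈ Γ, ∀ g, Commute g γ := fun γ hγ g => commute_of_cl (by
      rintro _ ⟨e | j, rfl⟩
      · exact (key e g).symm
      · exact (hW j g).symm) γ (hΓ ▸ hγ)
  have c1 := card_ea Γ X (fun a γ hγ => by rw [(hcen γ hγ _).eq, mul_inv_cancel_right]; exact hγ)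
    h1 h2
  have c2 : Nat.card Γ ≤ 2 ^ (u + v) := by
    simpa [hΓ] using card_cl_range_le _ hcm hin
  rw [hX, sup_top_eq, card_top] at c1
  rw [pow_add]
  exact (by simpa using c1 : Nat.card G ≤ 2 ^ (s₀ + u) * Nat.card Γ).trans
    (Nat.mul_le_mul_left _ c2)

theorem comm_mem_of_gens {N : Subgroup G} [N.Normal] {S : Set G} (hS : cl S = ⊤) {y : G}
    (h : ∀ s ∈ S, ⁅y, s⁆ ∈ N) (g : G) : ⁅y, g⁆ ∈ N := by
  have h1 : Commute (y : G ⧸ N) (g : G ⧸ N) := by
    refine commute_of_cl (S := QuotientGroup.mk' N '' S) ?_ _ ?_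
    · rintro _ ⟨s, hs, rfl⟩
      rw [← commutatorElement_eq_one_iff_commute]
      exact (QuotientGroup.eq_one_iff _).2 (h s hs)
    · rw [← map_cl, hS]
      exact ⟨g, trivial, rfl⟩
  exact (QuotientGroup.eq_one_iff _).1 (commutatorElement_eq_one_iff_commute.2 h1)

theorem card_tails_le {G : Type} [Group G] [Finite G] (s₀ u v t : ℕ) (x : Fin s₀ ⊕ Fin u → G)
    (Z Y : Subgroup G) (hx : cl (Set.range x) = ⊤) (hZ : Z ≤ Subgroup.center G)
    (hZ2 : ∀ z ∈ Z, z ^ 2 = 1) (hZY : Z ≤ Y) (hY : P3 G ≤ Y) (hY' : Y ≤ Fr G)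
    (c1 : Nat.card G = 2 ^ (s₀ + u) * Nat.card (Fr G))
    (c2 : Nat.card (Fr G) = 2 ^ (u + v) * Nat.card Y) (c3 : Nat.card Y = 2 ^ t * Nat.card Z)
    (c4 : Nat.card (Y ⊔ cl (Set.range fun c => x (Sum.inr c) ^ 2) : Subgroup G) =
      2 ^ u * Nat.card Y) :
    Nat.card Z ≤ 2 ^ ((s₀ + u + 1).choose 2 + v * (s₀ + u) + u * s₀ + u.choose 2 + (u + v) +
      (s₀ + u + 1) * t) := by
  classical
  have := Fact.mk Nat.prime_two
  have hcen : ∀ U : Subgroup G, U ≤ Z → U.Normal := fun U hU => normal_of_nz fun g u hu => by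
    rw [mem_center_iff.1 (hZ (hU hu)) g, mul_inv_cancel_right]; exact hu
  have hZn := hcen Z le_rfl
  have hYn := normal_of_P3_le hY hY'
  have hG : IsPGroup 2 G := by
    have h1 : IsPGroup 2 Z := fun z => ⟨1, Subtype.ext (by simpa using hZ2 z z.2)⟩
    obtain ⟨r, hr⟩ := IsPGroup.iff_card.1 h1
    exact IsPGroup.of_card (n := s₀ + u + (u + v + (t + r)))
      (by rw [c1, c2, c3, hr, pow_add _ (s₀ + u), pow_add _ (u + v), pow_add _ t])
  obtain ⟨y, hy, hy'⟩ := exists_pc Nat.prime_two hG hZY c3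
  obtain ⟨w, hw, hw'⟩ := exists_gens (U := Y ⊔ cl (Set.range fun c => x (Sum.inr c) ^ 2))
    (V := Fr G) (sup_le hY' (cl_le (by rintro _ ⟨c, rfl⟩; exact sq_mem_Fr _))) (e := v)
    (by rw [c2, c4, pow_add, ← mul_assoc, mul_comm (2 ^ v)])
  let M : ℕ → Subgroup G := fun k => cl (y '' Set.Iio k)
  let q : Fin u ⊕ Fin v → G := Sum.elim (fun c => x (.inr c) ^ 2) w
  have hq : ∀ a, q a ∈ Fr G := by
    rintro (a | a)
    · exact sq_mem_Fr _
    · exact hw a
  have hFr : Fr G = Z ⊔ (M t ⊔ cl (Set.range q)) := by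
    rw [← hw', ← sup_assoc, hy, sup_assoc, ← cl_union, Set.Sum.elim_range]
  have hsq : ∀ f ∈ Fr G, f ^ 2 ∈ Z ⊔ M t := fun f hf =>
    hy ▸ hY (mem_sup_right (sq_mem_sqs hf))
  have hcm : ∀ f ∈ Fr G, ∀ g, ⁅f, g⁆ ∈ Z ⊔ M t := fun f hf g =>
    hy ▸ hY (mem_sup_left (commutator_mem_commutator hf trivial))
  let I := Fin s₀ ⊕ Fin u
  let ι := (((((Sym2 I ⊕ Fin v × I) ⊕ Fin u × Fin s₀) ⊕ {p : Fin u × Fin u // p.1 < p.2}) ⊕
    (Fin u ⊕ Fin v)) ⊕ Option I × Fin t)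
  let r : ι → G := Sum.elim (Sum.elim (Sum.elim (Sum.elim (Sum.elim
    (fun p => if p.out.1 = p.out.2 then x p.out.1 ^ 2 else (x p.out.1 * x p.out.2) ^ 2)
    fun p => ⁅w p.1, x p.2⁆) fun p => ⁅x (.inr p.1) ^ 2, x (.inl p.2)⁆)
    fun p => ⁅x (.inr p.1.2) ^ 2, x (.inr p.1.1)⁆) fun a => q a ^ 2)
    fun p => p.1.elim (y p.2 ^ 2) fun i => ⁅y p.2, x i⁆
  let N : ι → Subgroup G := Sum.elim (Sum.elim (Sum.elim (Sum.elim (Sum.elim
    (fun _ => M t ⊔ cl (Set.range q)) fun _ => M t) fun _ => M t) fun _ => M t) fun _ => M t)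
    fun p => M p.2
  obtain ⟨Z0, hZ0, hc0, hr⟩ := exists_tails hZ hZ2 r N (by
    rintro (((((p | p) | p) | p) | p) | ⟨_ | i, k⟩)
    · change (if _ then _ else _) ∈ Z ⊔ (M t ⊔ cl (Set.range q))
      rw [← hFr]
      split_ifs <;> exact sq_mem_Fr _
    · exact hcm _ (hw _) _
    · exact hcm _ (sq_mem_Fr _) _
    · exact hcm _ (sq_mem_Fr _) _
    · exact hsq _ (hq _)
    · exact ((hy' k k.2.le).2.2 k.2).1
    · exact ((hy' k k.2.le).2.2 k.2).2 _)
  have hι : Nat.card ι = (s₀ + u + 1).choose 2 + v * (s₀ + u) + u * s₀ + u.choose 2 + (u + v) +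
      (s₀ + u + 1) * t := by
    have e1 : Fintype.card {p : Fin u × Fin u // p.1 < p.2} = u.choose 2 := by
      rw [Fintype.card_subtype, Fintype.card_product_filter_lt, Fintype.card_fin]
    simp only [ι, I, Nat.card_eq_fintype_card, Fintype.card_sum, Fintype.card_prod,
      Fintype.card_fin, Fintype.card_option, Sym2.card, e1]
  have hA : ∀ k, k ≤ t → (Z0 ⊔ M k).Normal ∧
      Nat.card (Z0 ⊔ M k : Subgroup G) ≤ 2 ^ k * Nat.card Z0 := by
    intro k
    induction k with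
    | zero => intro _; simpa [M] using hcen Z0 hZ0
    | succ k ih =>
      intro hk
      obtain ⟨h1, h2⟩ := ih (by omega)
      have e : Z0 ⊔ M (k + 1) = (Z0 ⊔ M k) ⊔ cl {y k} := by
        simp only [M]
        rw [image_Iio_succ, sup_assoc]
      rw [e]
      refine ⟨normal_sup_of_comm (comm_mem_of_gens hx ?_), ?_⟩
      · rintro _ ⟨i, rfl⟩
        exact hr (.inr (some i, ⟨k, hk⟩))
      · rw [pow_succ', mul_assoc]
        exact (card_sup_le two_pos (Nz.of_normal _ (Z0 ⊔ M k)) (hr (.inr (none, ⟨k, hk⟩)))).trans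
          (Nat.mul_le_mul_left _ h2)
  obtain ⟨hAn, hAc⟩ := hA t le_rfl
  let π := QuotientGroup.mk' (Z0 ⊔ M t)
  have hπ : ∀ g ∈ Z0 ⊔ M t, π g = 1 := fun g hg => (QuotientGroup.eq_one_iff _).2 hg
  have hπc : ∀ a b, ⁅a, b⁆ ∈ Z0 ⊔ M t → Commute (π a) (π b) := fun a b h => by
    rw [← commutatorElement_eq_one_iff_commute, ← map_commutatorElement]
    exact hπ _ h
  have hq' : π ∘ q = Sum.elim (fun c => π (x (.inr c)) ^ 2) fun j => π (w j) := by
    funext a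
    rcases a with a | a
    · exact map_pow _ _ _
    · rfl
  have hΓ : ∀ g ∈ Z0 ⊔ (M t ⊔ cl (Set.range q)), π g ∈
      cl (Set.range (Sum.elim (fun c => π (x (.inr c)) ^ 2) fun j => π (w j))) := by
    intro g hg
    rw [← sup_assoc] at hg
    obtain ⟨a, ha, b, hb, rfl⟩ := mem_sup_of_normal_left.1 hg
    rw [map_mul, hπ a ha, one_mul, ← hq', Set.range_comp, ← map_cl]
    exact ⟨b, hb, rfl⟩
  have hS : ∀ l l', x l ^ 2 ∈ Z0 ⊔ (M t ⊔ cl (Set.range q)) ∧ l = l' ∨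
      (x l * x l') ^ 2 ∈ Z0 ⊔ (M t ⊔ cl (Set.range q)) ∨
      (x l' * x l) ^ 2 ∈ Z0 ⊔ (M t ⊔ cl (Set.range q)) := by
    intro l l'
    have h1 : (if _ then _ else _) ∈ Z0 ⊔ (M t ⊔ cl (Set.range q)) :=
      hr (.inl (.inl (.inl (.inl (.inl s(l, l'))))))
    have h2 : s((s(l, l') : Sym2 I).out.1, (s(l, l') : Sym2 I).out.2) = s(l, l') :=
      Quot.out_eq _
    generalize (s(l, l') : Sym2 I).out.1 = a at h1 h2
    generalize (s(l, l') : Sym2 I).out.2 = b at h1 h2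
    rcases Sym2.eq_iff.1 h2 with ⟨rfl, rfl⟩ | ⟨rfl, rfl⟩ <;> split_ifs at h1 with h
    · exact Or.inl ⟨h1, h⟩
    · exact Or.inr (Or.inl h1)
    · exact Or.inl ⟨h ▸ h1, h.symm⟩
    · exact Or.inr (Or.inr h1)
  have hS1 : ∀ l, x l ^ 2 ∈ Z0 ⊔ (M t ⊔ cl (Set.range q)) := by
    intro l
    have h1 : (if _ then _ else _) ∈ Z0 ⊔ (M t ⊔ cl (Set.range q)) :=
      hr (.inl (.inl (.inl (.inl (.inl s(l, l))))))
    have h2 : s((s(l, l) : Sym2 I).out.1, (s(l, l) : Sym2 I).out.2) = s(l, l) :=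
      Quot.out_eq _
    generalize (s(l, l) : Sym2 I).out.1 = a at h1 h2
    generalize (s(l, l) : Sym2 I).out.2 = b at h1 h2
    rcases Sym2.eq_iff.1 h2 with ⟨rfl, rfl⟩ | ⟨rfl, rfl⟩ <;> simpa using h1
  have hK := card_core (fun i => π (x i)) (fun j => π (w j))
    (by rw [Set.range_comp' π x, ← map_cl, hx, map_top_of_surjective _
      (QuotientGroup.mk'_surjective _)])
    (fun e c => by
      obtain ⟨z, hz, m, hm, e'⟩ := mem_sup_of_normal_left.1 (hcm _ (sq_mem_Fr (x e)) (x c))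
      rw [← map_pow, ← map_commutatorElement, ← e', map_mul, hπ m (mem_sup_right hm), mul_one,
        ← map_pow, hZ2 z hz, map_one]
      refine ⟨fun g => ?_, rfl⟩
      obtain ⟨g, rfl⟩ := QuotientGroup.mk'_surjective _ g
      exact Commute.map (mem_center_iff.1 (hZ hz) g).symm π)
    (fun j => by rw [← map_pow]; exact hπ _ (hr (.inl (.inr (.inr j)))))
    (fun j i => hπc _ _ (hr (.inl (.inl (.inl (.inl (.inr (j, i))))))))
    (fun c => by rw [← map_pow, ← map_pow]; exact hπ _ (hr (.inl (.inr (.inl c)))))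
    (fun c i => by rw [← map_pow]; exact hπc _ _ (hr (.inl (.inl (.inl (.inr (c, i)))))))
    (fun b c h => by rw [← map_pow]; exact hπc _ _ (hr (.inl (.inl (.inr ⟨(b, c), h⟩)))))
    _ rfl (fun l => by rw [← map_pow]; exact hΓ _ (hS1 l))
    (fun l l' => by
      rw [← map_mul, ← map_mul, ← map_pow, ← map_pow]
      rcases hS l l' with ⟨h, rfl⟩ | h | h
      · left
        rw [← sq]
        exact hΓ _ (pow_mem h 2)
      · exact Or.inl (hΓ _ h)
      · exact Or.inr (hΓ _ h))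
  have h1 := card_eq_card_quotient_mul_card_subgroup (Z0 ⊔ M t)
  have h2 : 2 ^ (s₀ + u + (u + v)) * (2 ^ t * Nat.card Z) ≤
      2 ^ (s₀ + u + (u + v)) * (2 ^ t * Nat.card Z0) := by
    calc _ = Nat.card G := by rw [c1, c2, c3, pow_add _ (s₀ + u), mul_assoc]
      _ ≤ _ := h1 ▸ Nat.mul_le_mul hK hAc
  rw [← hι]
  exact (Nat.le_of_mul_le_mul_left (Nat.le_of_mul_le_mul_left h2 (by positivity))
    (by positivity)).trans hc0

end Pool.Agent.P.MP_9f774b_al
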